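import Pool.Agent.H291.Jpq.PG

/-!
Matrix algebra of cascades.
-/

set_option autoImplicit false
set_option linter.unusedSectionVars false
set_option linter.unusedSimpArgs false

open Matrix
open scoped ComplexOrder

namespace Pool.Agent.H291.Jpq

variable {ι κ : Type*} [Fintype ι] [Fintype κ] [DecidableEq ι] [DecidableEq κ]

theorem adj_eq {M : Matrix ι ι ℂ} (h : IsUnit M.det) : M.adjugate = M.det • M⁻¹ := by
  calc M.adjugate = M.adjugate * (M * M⁻¹) := by rw [Matrix.mul_nonsing_inv _ h, Matrix.mul_one]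
    _ = (M.adjugate * M) * M⁻¹ := by rw [Matrix.mul_assoc]
    _ = M.det • M⁻¹ := by rw [Matrix.adjugate_mul, Matrix.smul_mul, Matrix.one_mul]

theorem rel12 {X₁ Xv : Matrix (ι ⊕ κ) (ι ⊕ κ) ℂ} (h₁ : IsUnit X₁.toBlocks₂₂)
    (hv : IsUnit Xv.toBlocks₂₂) (h' : IsUnit (X₁ * Xv).toBlocks₂₂) :
    (1 - (PG X₁).toBlocks₂₁ * (PG Xv).toBlocks₁₂) * (PG Xv).toBlocks₂₂.adjugate *
      (PG (X₁ * Xv)).toBlocks₂₂ = (PG Xv).toBlocks₂₂.det • (PG X₁).toBlocks₂₂ ∧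
    (PG X₁).toBlocks₁₁ * (PG Xv).toBlocks₁₂ * (PG Xv).toBlocks₂₂.adjugate *
      (PG (X₁ * Xv)).toBlocks₂₂ =
      (PG Xv).toBlocks₂₂.det • ((PG (X₁ * Xv)).toBlocks₁₂ - (PG X₁).toBlocks₁₂) := by
  obtain ⟨a₁, b₁, c₁, d₁, rfl⟩ : ∃ a b c d, X₁ = fromBlocks a b c d :=
    ⟨_, _, _, _, (fromBlocks_toBlocks X₁).symm⟩
  obtain ⟨a, b, c, d, rfl⟩ : ∃ a b c d, Xv = fromBlocks a b c d :=
    ⟨_, _, _, _, (fromBlocks_toBlocks Xv).symm⟩
  rw [fromBlocks_multiply] at h' ⊢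
  simp only [PG, toBlocks_fromBlocks₁₁, toBlocks_fromBlocks₁₂, toBlocks_fromBlocks₂₁,
    toBlocks_fromBlocks₂₂] at h₁ hv h' ⊢
  have k₁ : IsUnit d₁.det := (Matrix.isUnit_iff_isUnit_det _).1 h₁
  have kv : IsUnit d.det := (Matrix.isUnit_iff_isUnit_det _).1 hv
  have k' : IsUnit (c₁ * b + d₁ * d).det := (Matrix.isUnit_iff_isUnit_det _).1 h'
  have kvi : IsUnit (d⁻¹).det := Matrix.isUnit_nonsing_inv_det _ kv
  set d' := c₁ * b + d₁ * d with hd'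
  rw [adj_eq kvi, Matrix.nonsing_inv_nonsing_inv _ kv]
  constructor
  · have e1 : (1 - -(d₁⁻¹ * c₁) * (b * d⁻¹)) * d = d₁⁻¹ * d' := by
      rw [hd']
      simp only [Matrix.mul_add, Matrix.sub_mul, Matrix.neg_mul, Matrix.one_mul, sub_neg_eq_add,
        Matrix.mul_assoc, Matrix.nonsing_inv_mul _ kv, Matrix.mul_one,
        Matrix.nonsing_inv_mul_cancel_left _ _ k₁, Matrix.add_mul]
      abel
    rw [Matrix.mul_smul, e1, Matrix.smul_mul, Matrix.mul_assoc, Matrix.mul_nonsing_inv _ k',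
      Matrix.mul_one]
  · have e1 : (a₁ - b₁ * d₁⁻¹ * c₁) * (b * d⁻¹) * d =
        (a₁ * b + b₁ * d) - b₁ * d₁⁻¹ * d' := by
      rw [hd']
      simp only [Matrix.mul_add, Matrix.sub_mul, Matrix.neg_mul, Matrix.one_mul, sub_neg_eq_add,
        Matrix.mul_assoc, Matrix.nonsing_inv_mul _ kv, Matrix.mul_one,
        Matrix.nonsing_inv_mul_cancel_left _ _ k₁, Matrix.add_mul]
      abel
    rw [Matrix.mul_smul, e1, Matrix.smul_mul, Matrix.sub_mul, Matrix.mul_assoc _ d',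
      Matrix.mul_nonsing_inv _ k', Matrix.mul_one]

theorem rel34 {X₁ Xv : Matrix (ι ⊕ κ) (ι ⊕ κ) ℂ} (h₁ : IsUnit X₁.toBlocks₂₂)
    (hv : IsUnit Xv.toBlocks₂₂) (h' : IsUnit (X₁ * Xv).toBlocks₂₂)
    (hA : IsUnit (PG Xv).toBlocks₁₁) :
    (PG (X₁ * Xv)).toBlocks₁₁ * ((PG Xv).toBlocks₁₁.adjugate *
      (1 - (PG Xv).toBlocks₁₂ * (PG X₁).toBlocks₂₁)) =
      (PG Xv).toBlocks₁₁.det • (PG X₁).toBlocks₁₁ ∧
    (PG (X₁ * Xv)).toBlocks₁₁ * ((PG Xv).toBlocks₁₁.adjugate *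
      (PG Xv).toBlocks₁₂ * (PG X₁).toBlocks₂₂) =
      (PG Xv).toBlocks₁₁.det • ((PG (X₁ * Xv)).toBlocks₁₂ - (PG X₁).toBlocks₁₂) := by
  obtain ⟨a₁, b₁, c₁, d₁, rfl⟩ : ∃ a b c d, X₁ = fromBlocks a b c d :=
    ⟨_, _, _, _, (fromBlocks_toBlocks X₁).symm⟩
  obtain ⟨a, b, c, d, rfl⟩ : ∃ a b c d, Xv = fromBlocks a b c d :=
    ⟨_, _, _, _, (fromBlocks_toBlocks Xv).symm⟩
  rw [fromBlocks_multiply] at h' ⊢
  simp only [PG, toBlocks_fromBlocks₁₁, toBlocks_fromBlocks₁₂, toBlocks_fromBlocks₂₁,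
    toBlocks_fromBlocks₂₂] at h₁ hv h' hA ⊢
  have k₁ : IsUnit d₁.det := (Matrix.isUnit_iff_isUnit_det _).1 h₁
  have kv : IsUnit d.det := (Matrix.isUnit_iff_isUnit_det _).1 hv
  have k' : IsUnit (c₁ * b + d₁ * d).det := (Matrix.isUnit_iff_isUnit_det _).1 h'
  have kA : IsUnit (a - b * d⁻¹ * c).det := (Matrix.isUnit_iff_isUnit_det _).1 hA
  set d' := c₁ * b + d₁ * d with hd'
  set Av := a - b * d⁻¹ * c with hAv
  rw [adj_eq kA]
  constructor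
  · set U := Av⁻¹ * (1 - b * d⁻¹ * -(d₁⁻¹ * c₁)) with hU
    set Z := -(d⁻¹ * c) * U + d⁻¹ * -(d₁⁻¹ * c₁) with hZ
    have e0 : Av * U = 1 - b * d⁻¹ * -(d₁⁻¹ * c₁) := by
      rw [hU, Matrix.mul_nonsing_inv_cancel_left _ _ kA]
    have e1 : a * U + b * Z = 1 := by
      have : a * U + b * Z = Av * U + b * d⁻¹ * -(d₁⁻¹ * c₁) := by
        rw [hZ, hAv]
        simp only [Matrix.mul_add, Matrix.sub_mul, Matrix.neg_mul, Matrix.mul_neg,
          Matrix.mul_assoc]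
        abel
      rw [this, e0]; abel
    have e2 : c * U + d * Z = -(d₁⁻¹ * c₁) := by
      rw [hZ]
      simp only [Matrix.mul_add, Matrix.neg_mul, Matrix.mul_neg, Matrix.mul_assoc,
        Matrix.mul_nonsing_inv_cancel_left _ _ kv]
      abel
    have e3 : (a₁ * a + b₁ * c) * U + (a₁ * b + b₁ * d) * Z = a₁ - b₁ * d₁⁻¹ * c₁ := by
      have : (a₁ * a + b₁ * c) * U + (a₁ * b + b₁ * d) * Z =
          a₁ * (a * U + b * Z) + b₁ * (c * U + d * Z) := by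
        simp only [Matrix.mul_add, Matrix.add_mul, Matrix.mul_assoc]; abel
      rw [this, e1, e2]
      simp only [Matrix.mul_one, Matrix.mul_neg, Matrix.mul_assoc]; abel
    have e4 : (c₁ * a + d₁ * c) * U + d' * Z = 0 := by
      have : (c₁ * a + d₁ * c) * U + d' * Z =
          c₁ * (a * U + b * Z) + d₁ * (c * U + d * Z) := by
        rw [hd']; simp only [Matrix.mul_add, Matrix.add_mul, Matrix.mul_assoc]; abel
      rw [this, e1, e2]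
      simp only [Matrix.mul_one, Matrix.mul_neg, Matrix.mul_nonsing_inv_cancel_left _ _ k₁]; abel
    rw [Matrix.smul_mul, Matrix.mul_smul]
    congr 1
    rw [← hU]
    have e5 : (c₁ * a + d₁ * c) * U = -(d' * Z) := eq_neg_of_add_eq_zero_left e4
    rw [Matrix.sub_mul, Matrix.mul_assoc (_ * d'⁻¹), e5, Matrix.mul_neg, Matrix.mul_assoc _ d'⁻¹,
      Matrix.nonsing_inv_mul_cancel_left _ _ k', sub_neg_eq_add, e3]
  · set U := Av⁻¹ * (b * d⁻¹) * d₁⁻¹ with hU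
    set Z := (d⁻¹ * c) * U + d⁻¹ * d₁⁻¹ with hZ
    have e0 : Av * U = b * d⁻¹ * d₁⁻¹ := by
      rw [hU, Matrix.mul_assoc, Matrix.mul_nonsing_inv_cancel_left _ _ kA]
    have e1 : a * (-U) + b * Z = 0 := by
      have : a * (-U) + b * Z = -(Av * U) + b * d⁻¹ * d₁⁻¹ := by
        rw [hZ, hAv]
        simp only [Matrix.mul_add, Matrix.sub_mul, Matrix.neg_mul, Matrix.mul_neg,
          Matrix.mul_assoc]
        abel
      rw [this, e0]; abel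
    have e2 : c * (-U) + d * Z = d₁⁻¹ := by
      rw [hZ]
      simp only [Matrix.mul_add, Matrix.neg_mul, Matrix.mul_neg, Matrix.mul_assoc,
        Matrix.mul_nonsing_inv_cancel_left _ _ kv]
      abel
    have e3 : (a₁ * a + b₁ * c) * (-U) + (a₁ * b + b₁ * d) * Z = b₁ * d₁⁻¹ := by
      have : (a₁ * a + b₁ * c) * (-U) + (a₁ * b + b₁ * d) * Z =
          a₁ * (a * (-U) + b * Z) + b₁ * (c * (-U) + d * Z) := by
        simp only [Matrix.mul_add, Matrix.add_mul, Matrix.mul_assoc]; abel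
      rw [this, e1, e2, Matrix.mul_zero, zero_add]
    have e4 : (c₁ * a + d₁ * c) * (-U) + d' * Z = 1 := by
      have : (c₁ * a + d₁ * c) * (-U) + d' * Z =
          c₁ * (a * (-U) + b * Z) + d₁ * (c * (-U) + d * Z) := by
        rw [hd']; simp only [Matrix.mul_add, Matrix.add_mul, Matrix.mul_assoc]; abel
      rw [this, e1, e2, Matrix.mul_zero, zero_add, Matrix.mul_nonsing_inv _ k₁]
    rw [Matrix.smul_mul, Matrix.smul_mul, Matrix.mul_smul]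
    congr 1
    rw [← hU]
    have e5 : (c₁ * a + d₁ * c) * U = d' * Z - 1 := by
      rw [Matrix.mul_neg] at e4
      rw [← e4]; abel
    rw [Matrix.sub_mul, Matrix.mul_assoc (_ * d'⁻¹), e5, Matrix.mul_sub, Matrix.mul_assoc _ d'⁻¹,
      Matrix.nonsing_inv_mul_cancel_left _ _ k', Matrix.mul_one, ← e3, Matrix.mul_neg]
    abel

theorem star_dot (x : ι → ℂ) : star x ⬝ᵥ x = ((∑ i, ‖x i‖ ^ 2 : ℝ) : ℂ) := by
  simp only [dotProduct, Pi.star_apply, Complex.ofReal_sum, Complex.ofReal_pow]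
  refine Finset.sum_congr rfl fun i _ => ?_
  change (starRingEnd ℂ) (x i) * x i = _
  rw [mul_comm, Complex.mul_conj, Complex.normSq_eq_norm_sq]
  push_cast
  rfl

theorem J_form (z : ι ⊕ κ → ℂ) : star z ⬝ᵥ (JJ ι κ *ᵥ z) =
    ((∑ i, ‖z (Sum.inl i)‖ ^ 2 - ∑ j, ‖z (Sum.inr j)‖ ^ 2 : ℝ) : ℂ) := by
  have h1 : JJ ι κ *ᵥ z = Sum.elim (z ∘ Sum.inl) (-(z ∘ Sum.inr)) := by
    rw [JJ, fromBlocks_mulVec]
    simp [Matrix.neg_mulVec]
  have h2 := star_dot (z ∘ Sum.inl)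
  have h3 := star_dot (z ∘ Sum.inr)
  rw [h1, dotProduct, Fintype.sum_sum_type]
  simp only [Sum.elim_inl, Sum.elim_inr, Pi.neg_apply, Function.comp_apply, mul_neg,
    Finset.sum_neg_distrib, dotProduct, Pi.star_apply, Complex.ofReal_sub] at h2 h3 ⊢
  rw [h2, h3]
  rfl

theorem form_sub (X : Matrix (ι ⊕ κ) (ι ⊕ κ) ℂ) (x : ι ⊕ κ → ℂ) :
    star x ⬝ᵥ ((JJ ι κ - Xᴴ * JJ ι κ * X) *ᵥ x) =
      star x ⬝ᵥ (JJ ι κ *ᵥ x) - star (X *ᵥ x) ⬝ᵥ (JJ ι κ *ᵥ (X *ᵥ x)) := by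
  rw [Matrix.sub_mulVec, dotProduct_sub, Matrix.star_mulVec, ← Matrix.dotProduct_mulVec]
  simp only [Matrix.mulVec_mulVec, Matrix.mul_assoc]

/-- The lower right block of a contractive matrix is invertible. -/
theorem d_unit {X : Matrix (ι ⊕ κ) (ι ⊕ κ) ℂ} (h : (JJ ι κ - Xᴴ * JJ ι κ * X).PosSemidef) :
    IsUnit X.toBlocks₂₂ := by
  rw [Matrix.isUnit_iff_isUnit_det, isUnit_iff_ne_zero]
  intro hdet
  obtain ⟨y, hy0, hy⟩ := Matrix.exists_mulVec_eq_zero_iff.2 hdet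
  apply hy0
  set x : ι ⊕ κ → ℂ := Sum.elim 0 y with hx
  have h1 := h.dotProduct_mulVec_nonneg x
  have h2 : X *ᵥ x = Sum.elim (X.toBlocks₁₂ *ᵥ y) 0 := by
    conv_lhs => rw [← fromBlocks_toBlocks X, hx, fromBlocks_mulVec]
    simp [hy]
  rw [form_sub, J_form, h2, J_form, ← Complex.ofReal_sub] at h1
  have h3 := Complex.zero_le_real.1 h1
  simp only [hx, Sum.elim_inl, Sum.elim_inr, Pi.zero_apply, norm_zero, ne_eq, OfNat.ofNat_ne_zero,
    not_false_eq_true, zero_pow, Finset.sum_const_zero, zero_sub, sub_zero] at h3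
  have h4 : 0 ≤ ∑ i, ‖(X.toBlocks₁₂ *ᵥ y) i‖ ^ 2 := Finset.sum_nonneg fun i _ => by positivity
  have h5 : 0 ≤ ∑ j, ‖y j‖ ^ 2 := Finset.sum_nonneg fun i _ => by positivity
  have h6 : ∑ j, ‖y j‖ ^ 2 = 0 := by linarith
  rw [Finset.sum_eq_zero_iff_of_nonneg fun i _ => by positivity] at h6
  funext j
  have := h6 j (Finset.mem_univ j)
  simpa using this

end Pool.Agent.H291.Jpq
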