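import Pool.Agent.H291.Jpq.Alg

/-!
More algebra of the Potapov–Ginzburg transform.
-/

set_option autoImplicit false
set_option linter.unusedSectionVars false
set_option linter.unusedSimpArgs false

open Matrix Filter Topology Set Metric
open scoped ComplexOrder

namespace Pool.Agent.H291.Jpq

variable {ι κ : Type*} [Fintype ι] [Fintype κ] [DecidableEq ι] [DecidableEq κ]

theorem PG_scale {a : Matrix (ι ⊕ κ) (ι ⊕ κ) ℂ} {β : ℂ} (hβ : β ≠ 0)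
    (hδ : a.toBlocks₂₂.det ≠ 0) : PG (β⁻¹ • a) = (β * a.toBlocks₂₂.det)⁻¹ •
      fromBlocks (a.toBlocks₂₂.det • a.toBlocks₁₁ -
          a.toBlocks₁₂ * a.toBlocks₂₂.adjugate * a.toBlocks₂₁)
        (β • (a.toBlocks₁₂ * a.toBlocks₂₂.adjugate))
        (-(β • (a.toBlocks₂₂.adjugate * a.toBlocks₂₁)))
        ((β * β) • a.toBlocks₂₂.adjugate) := by
  obtain ⟨a, b, c, d, rfl⟩ : ∃ a' b c d, a = fromBlocks a' b c d :=
    ⟨_, _, _, _, (fromBlocks_toBlocks a).symm⟩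
  simp only [toBlocks_fromBlocks₁₁, toBlocks_fromBlocks₁₂, toBlocks_fromBlocks₂₁,
    toBlocks_fromBlocks₂₂] at hδ ⊢
  have hinv : (β⁻¹ • d)⁻¹ = (β * d.det⁻¹) • d.adjugate := by
    apply Matrix.inv_eq_right_inv
    rw [Matrix.smul_mul, Matrix.mul_smul, Matrix.mul_adjugate, smul_smul, smul_smul]
    have : β⁻¹ * (β * d.det⁻¹) * d.det = 1 := by field_simp
    rw [this, one_smul]
  rw [fromBlocks_smul]
  simp only [PG, toBlocks_fromBlocks₁₁, toBlocks_fromBlocks₁₂, toBlocks_fromBlocks₂₁,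
    toBlocks_fromBlocks₂₂, hinv, fromBlocks_smul]
  congr 1
  · rw [smul_sub, smul_smul]
    congr 1
    · congr 1
      field_simp
    · simp only [Matrix.smul_mul, Matrix.mul_smul, smul_smul]
      congr 1
      field_simp
  · simp only [Matrix.smul_mul, Matrix.mul_smul, smul_smul]
    congr 1
    field_simp
  · rw [smul_neg]
    simp only [Matrix.smul_mul, Matrix.mul_smul, smul_smul]
    congr 2
    field_simp
  · rw [smul_smul]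
    congr 1
    field_simp

theorem psd_iff {X : Matrix (ι ⊕ κ) (ι ⊕ κ) ℂ} : (JJ ι κ - Xᴴ * JJ ι κ * X).PosSemidef ↔
    ∀ x : ι ⊕ κ → ℂ, ∑ i, ‖(X *ᵥ x) (Sum.inl i)‖ ^ 2 - ∑ j, ‖(X *ᵥ x) (Sum.inr j)‖ ^ 2 ≤
      ∑ i, ‖x (Sum.inl i)‖ ^ 2 - ∑ j, ‖x (Sum.inr j)‖ ^ 2 := by
  rw [Matrix.posSemidef_iff_dotProduct_mulVec]
  have hJ : (JJ ι κ)ᴴ = JJ ι κ := by
    rw [JJ, fromBlocks_conjTranspose]
    simp
  constructor
  · rintro ⟨-, h⟩ x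
    have h1 := h x
    rw [form_sub, J_form, J_form, ← Complex.ofReal_sub] at h1
    have h3 := Complex.zero_le_real.1 h1
    linarith
  · intro h
    refine ⟨?_, fun x => ?_⟩
    · rw [Matrix.IsHermitian, Matrix.conjTranspose_sub, Matrix.conjTranspose_mul,
        Matrix.conjTranspose_mul, Matrix.conjTranspose_conjTranspose, hJ, Matrix.mul_assoc]
    · rw [form_sub, J_form, J_form, ← Complex.ofReal_sub]
      apply Complex.zero_le_real.2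
      linarith [h x]

theorem PG_norm_le {X : Matrix (ι ⊕ κ) (ι ⊕ κ) ℂ} (h : (JJ ι κ - Xᴴ * JJ ι κ * X).PosSemidef)
    (i j : ι ⊕ κ) : ‖PG X i j‖ ≤ 1 := by
  have h1 := h.conjTranspose_mul_mul_same
    (fromBlocks 1 0 (-(X.toBlocks₂₂⁻¹ * X.toBlocks₂₁)) X.toBlocks₂₂⁻¹)
  rw [← PG_id2 (d_unit h)] at h1
  have h2 := h1.diag_nonneg (i := j)
  rw [Matrix.sub_apply, Matrix.one_apply_eq] at h2
  have h3 : ((PG X)ᴴ * PG X) j j = ((∑ i, ‖PG X i j‖ ^ 2 : ℝ) : ℂ) := by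
    rw [Matrix.mul_apply, Complex.ofReal_sum]
    refine Finset.sum_congr rfl fun i _ => ?_
    rw [Matrix.conjTranspose_apply]
    change (starRingEnd ℂ) _ * _ = _
    rw [mul_comm, Complex.mul_conj, Complex.normSq_eq_norm_sq]
  rw [h3, ← Complex.ofReal_one, ← Complex.ofReal_sub] at h2
  have h4 := Complex.zero_le_real.1 h2
  have h5 : ‖PG X i j‖ ^ 2 ≤ ∑ i, ‖PG X i j‖ ^ 2 :=
    Finset.single_le_sum (f := fun i => ‖PG X i j‖ ^ 2) (fun i _ => by positivity)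
      (Finset.mem_univ i)
  nlinarith [norm_nonneg (PG X i j)]

theorem psd_of_unitary {X : Matrix (ι ⊕ κ) (ι ⊕ κ) ℂ} (h : Xᴴ * JJ ι κ * X = JJ ι κ) :
    (JJ ι κ - Xᴴ * JJ ι κ * X).PosSemidef := by
  rw [h, sub_self]; exact Matrix.PosSemidef.zero

theorem PG_unitary {X : Matrix (ι ⊕ κ) (ι ⊕ κ) ℂ} (h : Xᴴ * JJ ι κ * X = JJ ι κ) :
    (PG X)ᴴ * PG X = 1 := by
  have h1 := PG_id2 (d_unit (psd_of_unitary h))
  rw [h, sub_self, Matrix.mul_zero, Matrix.zero_mul] at h1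
  exact (sub_eq_zero.1 h1).symm

theorem JJ_sq : JJ ι κ * JJ ι κ = 1 := by
  rw [JJ, fromBlocks_multiply, ← fromBlocks_one]
  simp

theorem unit_of_unitary {X : Matrix (ι ⊕ κ) (ι ⊕ κ) ℂ} (h : Xᴴ * JJ ι κ * X = JJ ι κ) :
    IsUnit X := by
  have h1 : (JJ ι κ * Xᴴ * JJ ι κ) * X = 1 := by
    rw [Matrix.mul_assoc (JJ ι κ), Matrix.mul_assoc, h, JJ_sq]
  exact IsUnit.of_mul_eq_one _ (mul_eq_one_comm.1 h1)

theorem det_block {X : Matrix (ι ⊕ κ) (ι ⊕ κ) ℂ} (h : IsUnit X.toBlocks₂₂) :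
    X.det = X.toBlocks₂₂.det * (PG X).toBlocks₁₁.det := by
  obtain ⟨a, b, c, d, rfl⟩ : ∃ a b c d, X = fromBlocks a b c d :=
    ⟨_, _, _, _, (fromBlocks_toBlocks X).symm⟩
  simp only [toBlocks_fromBlocks₂₂] at h
  let _ : Invertible d := h.invertible
  rw [Matrix.det_fromBlocks₂₂]
  simp only [PG, toBlocks_fromBlocks₁₁, toBlocks_fromBlocks₁₂, toBlocks_fromBlocks₂₁,
    toBlocks_fromBlocks₂₂, Matrix.invOf_eq_nonsing_inv]

theorem A_unit {X : Matrix (ι ⊕ κ) (ι ⊕ κ) ℂ} (h : IsUnit X.toBlocks₂₂) (hX : IsUnit X) :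
    IsUnit (PG X).toBlocks₁₁ := by
  rw [Matrix.isUnit_iff_isUnit_det] at hX ⊢
  rw [det_block h] at hX
  exact isUnit_of_mul_isUnit_right hX

theorem D_mul {X : Matrix (ι ⊕ κ) (ι ⊕ κ) ℂ} (h : IsUnit X.toBlocks₂₂) :
    (PG X).toBlocks₂₂ * X.toBlocks₂₂ = 1 := by
  rw [PG, toBlocks_fromBlocks₂₂, Matrix.nonsing_inv_mul _ ((Matrix.isUnit_iff_isUnit_det _).1 h)]

theorem A_mul {X : Matrix (ι ⊕ κ) (ι ⊕ κ) ℂ} (h : IsUnit X.toBlocks₂₂) (hX : IsUnit X) :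
    (PG X).toBlocks₁₁ * (X⁻¹).toBlocks₁₁ = 1 := by
  have h1 : X * X⁻¹ = 1 := Matrix.mul_nonsing_inv _ ((Matrix.isUnit_iff_isUnit_det _).1 hX)
  set Y := X⁻¹
  obtain ⟨a, b, c, d, rfl⟩ : ∃ a b c d, X = fromBlocks a b c d :=
    ⟨_, _, _, _, (fromBlocks_toBlocks X).symm⟩
  simp only [toBlocks_fromBlocks₂₂] at h
  have hd : IsUnit d.det := (Matrix.isUnit_iff_isUnit_det _).1 h
  obtain ⟨x, y, z, w, hY⟩ : ∃ a b c d, Y = fromBlocks a b c d :=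
    ⟨_, _, _, _, (fromBlocks_toBlocks Y).symm⟩
  rw [hY] at h1 ⊢
  rw [fromBlocks_multiply, ← fromBlocks_one, fromBlocks_inj] at h1
  obtain ⟨e1, -, e3, -⟩ := h1
  simp only [PG, toBlocks_fromBlocks₁₁, toBlocks_fromBlocks₁₂, toBlocks_fromBlocks₂₁,
    toBlocks_fromBlocks₂₂]
  have e4 : c * x = -(d * z) := eq_neg_of_add_eq_zero_left e3
  rw [Matrix.sub_mul, Matrix.mul_assoc (b * d⁻¹), e4, Matrix.mul_neg, Matrix.mul_assoc b,
    Matrix.nonsing_inv_mul_cancel_left _ _ hd, sub_neg_eq_add, e1]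

theorem PG_inj {X Y : Matrix (ι ⊕ κ) (ι ⊕ κ) ℂ} (hX : IsUnit X.toBlocks₂₂)
    (hY : IsUnit Y.toBlocks₂₂) (h : PG X = PG Y) : X = Y := by
  obtain ⟨a, b, c, d, rfl⟩ : ∃ a b c d, X = fromBlocks a b c d :=
    ⟨_, _, _, _, (fromBlocks_toBlocks X).symm⟩
  obtain ⟨a', b', c', d', rfl⟩ : ∃ a b c d, Y = fromBlocks a b c d :=
    ⟨_, _, _, _, (fromBlocks_toBlocks Y).symm⟩
  simp only [toBlocks_fromBlocks₂₂] at hX hY
  have hd : IsUnit d.det := (Matrix.isUnit_iff_isUnit_det _).1 hX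
  have hd' : IsUnit d'.det := (Matrix.isUnit_iff_isUnit_det _).1 hY
  simp only [PG, toBlocks_fromBlocks₁₁, toBlocks_fromBlocks₁₂, toBlocks_fromBlocks₂₁,
    toBlocks_fromBlocks₂₂, fromBlocks_inj] at h
  obtain ⟨e1, e2, e3, e4⟩ := h
  have f1 : d = d' := by
    have := congrArg (fun M => M⁻¹) e4
    simpa [Matrix.nonsing_inv_nonsing_inv _ hd, Matrix.nonsing_inv_nonsing_inv _ hd'] using this
  subst f1
  have f2 : b = b' := by
    have := congrArg (fun M => M * d) e2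
    simpa [Matrix.mul_assoc, Matrix.nonsing_inv_mul _ hd] using this
  subst f2
  have f3 : c = c' := by
    have := congrArg (fun M => d * M) (neg_injective e3)
    simpa [← Matrix.mul_assoc, Matrix.mul_nonsing_inv _ hd] using this
  subst f3
  have f4 : a = a' := sub_left_injective e1
  rw [f4]

/-- The elementary factor. -/
def Tm (ι κ : Type*) [DecidableEq ι] [DecidableEq κ] (t : ℂ) : Matrix (ι ⊕ κ) (ι ⊕ κ) ℂ :=
  fromBlocks (t • 1) 0 0 1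

theorem PG_tw {X : Matrix (ι ⊕ κ) (ι ⊕ κ) ℂ} {A : Matrix ι ι ℂ} {F : Matrix ι κ ℂ}
    {B : Matrix κ ι ℂ} {D : Matrix κ κ ℂ} (h : PG X = fromBlocks A F B D) (t : ℂ) :
    PG (X * Tm ι κ t) = fromBlocks (t • A) F (t • B) D := by
  obtain ⟨a, b, c, d, rfl⟩ : ∃ a b c d, X = fromBlocks a b c d :=
    ⟨_, _, _, _, (fromBlocks_toBlocks X).symm⟩
  simp only [PG, toBlocks_fromBlocks₁₁, toBlocks_fromBlocks₁₂, toBlocks_fromBlocks₂₁,
    toBlocks_fromBlocks₂₂, fromBlocks_inj] at h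
  obtain ⟨rfl, rfl, rfl, rfl⟩ := h
  rw [Tm, fromBlocks_multiply]
  simp only [PG, toBlocks_fromBlocks₁₁, toBlocks_fromBlocks₁₂, toBlocks_fromBlocks₂₁,
    toBlocks_fromBlocks₂₂, Matrix.mul_zero, Matrix.mul_one, Matrix.mul_smul, add_zero, zero_add]
  congr 1
  · rw [smul_sub]
  · rw [smul_neg]

theorem psd_tw {X : Matrix (ι ⊕ κ) (ι ⊕ κ) ℂ} (h : (JJ ι κ - Xᴴ * JJ ι κ * X).PosSemidef) {t : ℂ}
    (ht : ‖t‖ ≤ 1) : (JJ ι κ - (X * Tm ι κ t)ᴴ * JJ ι κ * (X * Tm ι κ t)).PosSemidef := by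
  rw [psd_iff] at h ⊢
  intro x
  rw [← Matrix.mulVec_mulVec]
  refine (h (Tm ι κ t *ᵥ x)).trans ?_
  have h1 : Tm ι κ t *ᵥ x = Sum.elim (t • (x ∘ Sum.inl)) (x ∘ Sum.inr) := by
    rw [Tm, fromBlocks_mulVec]
    simp [Matrix.smul_mulVec]
  rw [h1]
  simp only [Sum.elim_inl, Sum.elim_inr, Pi.smul_apply, Function.comp_apply, smul_eq_mul, norm_mul,
    mul_pow]
  have h2 : ∑ i, ‖t‖ ^ 2 * ‖x (Sum.inl i)‖ ^ 2 ≤ ∑ i, ‖x (Sum.inl i)‖ ^ 2 := by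
    refine Finset.sum_le_sum fun i _ => ?_
    exact mul_le_of_le_one_left (by positivity) (pow_le_one₀ (norm_nonneg _) ht)
  linarith

theorem unitary_tw {X : Matrix (ι ⊕ κ) (ι ⊕ κ) ℂ} (h : Xᴴ * JJ ι κ * X = JJ ι κ) {t : ℂ}
    (ht : ‖t‖ = 1) : (X * Tm ι κ t)ᴴ * JJ ι κ * (X * Tm ι κ t) = JJ ι κ := by
  have h1 : (X * Tm ι κ t)ᴴ * JJ ι κ * (X * Tm ι κ t) =
      (Tm ι κ t)ᴴ * (Xᴴ * JJ ι κ * X) * Tm ι κ t := by
    rw [Matrix.conjTranspose_mul]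
    simp only [Matrix.mul_assoc]
  have h2 : t * (starRingEnd ℂ) t = 1 := by
    rw [Complex.mul_conj, Complex.normSq_eq_norm_sq, ht]; norm_num
  rw [h1, h, JJ, Tm, fromBlocks_conjTranspose, fromBlocks_multiply, fromBlocks_multiply]
  congr 1
  · simp [Matrix.conjTranspose_smul, smul_smul, h2]
  · simp
  · simp
  · simp

theorem det_tw (X : Matrix (ι ⊕ κ) (ι ⊕ κ) ℂ) (t : ℂ) :
    (X * Tm ι κ t).det = X.det * t ^ Fintype.card ι := by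
  rw [Matrix.det_mul, Tm, Matrix.det_fromBlocks_zero₂₁, Matrix.det_smul]
  simp

theorem psd_limit {l : Filter ℂ} [l.NeBot] {W : ℂ → Matrix (ι ⊕ κ) (ι ⊕ κ) ℂ}
    {X : Matrix (ι ⊕ κ) (ι ⊕ κ) ℂ} (hW : Tendsto W l (𝓝 X))
    (h : ∀ᶠ z in l, (JJ ι κ - (W z)ᴴ * JJ ι κ * W z).PosSemidef) :
    (JJ ι κ - Xᴴ * JJ ι κ * X).PosSemidef := by
  rw [psd_iff]
  intro x
  have hc : Continuous fun Y : Matrix (ι ⊕ κ) (ι ⊕ κ) ℂ =>
      ∑ i, ‖(Y *ᵥ x) (Sum.inl i)‖ ^ 2 - ∑ j, ‖(Y *ᵥ x) (Sum.inr j)‖ ^ 2 := by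
    have h1 : Continuous fun Y : Matrix (ι ⊕ κ) (ι ⊕ κ) ℂ => Y *ᵥ x :=
      continuous_id.matrix_mulVec continuous_const
    have h2 : ∀ i, Continuous fun Y : Matrix (ι ⊕ κ) (ι ⊕ κ) ℂ => (Y *ᵥ x) i := fun i =>
      (continuous_apply i).comp h1
    exact (continuous_finsetSum _ fun i _ => ((h2 (Sum.inl i)).norm.pow 2)).sub
      (continuous_finsetSum _ fun i _ => ((h2 (Sum.inr i)).norm.pow 2))
  refine le_of_tendsto ((hc.tendsto X).comp hW) ?_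
  filter_upwards [h] with z hz
  exact psd_iff.1 hz x

theorem PG_continuousAt {X : Matrix (ι ⊕ κ) (ι ⊕ κ) ℂ} (h : IsUnit X.toBlocks₂₂) :
    ContinuousAt PG X := by
  have h1 : ContinuousAt (fun Y : Matrix (ι ⊕ κ) (ι ⊕ κ) ℂ => Y.toBlocks₂₂⁻¹) X := by
    have h2 : Continuous fun Y : Matrix (ι ⊕ κ) (ι ⊕ κ) ℂ => Y.toBlocks₂₂ :=
      continuous_id.matrix_submatrix Sum.inr Sum.inr
    have h3 : X.toBlocks₂₂.det ≠ 0 := ((Matrix.isUnit_iff_isUnit_det _).1 h).ne_zero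
    have h4 : ContinuousAt Ring.inverse X.toBlocks₂₂.det := by
      have e : (Ring.inverse : ℂ → ℂ) = fun x => x⁻¹ := by funext x; exact Ring.inverse_eq_inv x
      rw [e]
      exact continuousAt_inv₀ h3
    exact (continuousAt_matrix_inv _ h4).comp (f := fun Y : Matrix (ι ⊕ κ) (ι ⊕ κ) ℂ =>
      Y.toBlocks₂₂) h2.continuousAt
  have h5 : Continuous fun P : Matrix (ι ⊕ κ) (ι ⊕ κ) ℂ × Matrix κ κ ℂ =>
      (fromBlocks (P.1.toBlocks₁₁ - P.1.toBlocks₁₂ * P.2 * P.1.toBlocks₂₁)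
        (P.1.toBlocks₁₂ * P.2) (-(P.2 * P.1.toBlocks₂₁)) P.2 :
        Matrix (ι ⊕ κ) (ι ⊕ κ) ℂ) := by
    have g1 : Continuous fun P : Matrix (ι ⊕ κ) (ι ⊕ κ) ℂ × Matrix κ κ ℂ => P.1.toBlocks₁₁ :=
      continuous_fst.matrix_submatrix Sum.inl Sum.inl
    have g2 : Continuous fun P : Matrix (ι ⊕ κ) (ι ⊕ κ) ℂ × Matrix κ κ ℂ => P.1.toBlocks₁₂ :=
      continuous_fst.matrix_submatrix Sum.inl Sum.inr
    have g3 : Continuous fun P : Matrix (ι ⊕ κ) (ι ⊕ κ) ℂ × Matrix κ κ ℂ => P.1.toBlocks₂₁ :=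
      continuous_fst.matrix_submatrix Sum.inr Sum.inl
    apply Continuous.matrix_fromBlocks
    · exact g1.sub ((g2.matrix_mul continuous_snd).matrix_mul g3)
    · exact g2.matrix_mul continuous_snd
    · exact (continuous_snd.matrix_mul g3).neg
    · exact continuous_snd
  exact (h5.continuousAt (x := (X, X.toBlocks₂₂⁻¹))).comp
    (f := fun Y : Matrix (ι ⊕ κ) (ι ⊕ κ) ℂ => (Y, Y.toBlocks₂₂⁻¹)) (continuousAt_id.prodMk h1)

end Pool.Agent.H291.Jpq
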