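import Pool.Agent.H291.Jpq.Seq

/-!
Approximation of bounded real functions on the circle by real parts of polynomials, with bounds.
-/

set_option autoImplicit false

open MeasureTheory Filter Topology Set Metric
open scoped Real ComplexConjugate ENNReal

namespace Pool.Agent.H291.Jpq

instance factTwoPi : Fact (0 < 2 * π) := ⟨by positivity⟩

theorem fourier_eq (n : ℤ) (θ : ℝ) : fourier n (θ : AddCircle (2 * π)) = pt θ ^ n := by
  rw [fourier_coe_apply, pt, ← Complex.exp_int_mul]
  congr 1
  have : (π : ℂ) ≠ 0 := by exact_mod_cast Real.pi_ne_zero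
  push_cast
  field_simp

theorem pt_inv (θ : ℝ) : (pt θ)⁻¹ = conj (pt θ) := by
  exact (eq_inv_of_mul_eq_one_left (conj_pt_mul θ)).symm

/-- Real parts of trigonometric polynomials are real parts of polynomials. -/
theorem trig_re {p : C(AddCircle (2 * π), ℂ)}
    (hp : p ∈ Submodule.span ℂ (range (@fourier (2 * π)))) :
    ∃ q : ℂ → ℂ, Differentiable ℂ q ∧ ∀ θ : ℝ, (q (pt θ)).re = (p (θ : AddCircle (2 * π))).re := by
  obtain ⟨c, rfl⟩ := Finsupp.mem_span_range_iff_exists_finsupp.1 hp
  refine ⟨fun z => ∑ n ∈ c.support, if 0 ≤ n then c n * z ^ n.toNat else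
    conj (c n) * z ^ (-n).toNat, ?_, fun θ => ?_⟩
  · apply Differentiable.fun_sum
    intro n _
    split_ifs
    · fun_prop
    · fun_prop
  · rw [Finsupp.sum, ContinuousMap.sum_apply, Complex.re_sum, Complex.re_sum]
    refine Finset.sum_congr rfl fun n _ => ?_
    rw [ContinuousMap.smul_apply, smul_eq_mul, fourier_eq]
    split_ifs with h
    · congr 2
      rw [← zpow_natCast, Int.toNat_of_nonneg h]
    · have h1 : (0 : ℤ) ≤ -n := by omega
      have h2 : pt θ ^ (-n).toNat = conj (pt θ ^ n) := by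
        rw [← zpow_natCast, Int.toNat_of_nonneg h1, zpow_neg, map_zpow₀, ← pt_inv, inv_zpow]
      rw [h2, ← map_mul, Complex.conj_re]

theorem approx {l : ℝ → ℝ} (hl : AEStronglyMeasurable l m) {M : ℝ} (hM0 : 0 ≤ M)
    (h0 : ∀ᵐ θ ∂m, 0 ≤ l θ) (hM : ∀ᵐ θ ∂m, l θ ≤ M) {ε : ℝ} (hε : 0 < ε) :
    ∃ q : ℂ → ℂ, Differentiable ℂ q ∧ (∀ θ : ℝ, -ε ≤ (q (pt θ)).re ∧ (q (pt θ)).re ≤ M + ε) ∧
      ∫ θ, |l θ - (q (pt θ)).re| ∂m ≤ ε := by
  have hac : (volume.restrict (Ioc 0 (2 * π))) ≪ m := by
    rw [m]
    exact Measure.absolutelyContinuous_smul (ENNReal.inv_ne_zero.2 ENNReal.ofReal_ne_top)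
  have hml : MemLp (fun θ => (l θ : ℂ)) 1 (volume.restrict (Ioc 0 (0 + 2 * π))) := by
    rw [zero_add]
    refine MemLp.of_bound ?_ M ?_
    · exact (Complex.continuous_ofReal.comp_aestronglyMeasurable hl).mono_ac hac
    · filter_upwards [hac.ae_le h0, hac.ae_le hM] with θ h1 h2
      rw [Complex.norm_real, Real.norm_eq_abs, abs_of_nonneg h1]
      exact h2
  have hF := hml.memLp_liftIoc
  set F : AddCircle (2 * π) → ℂ := AddCircle.liftIoc (2 * π) 0 (fun θ => (l θ : ℂ)) with hFdef
  obtain ⟨g, hg, -⟩ := (memLp_one_iff_integrable.1 hF).exists_boundedContinuous_integral_sub_le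
    (show 0 < 2 * π * (ε / 2) by positivity)
  set c : C(AddCircle (2 * π), ℂ) := ⟨fun x => ((max 0 (min M (g x).re) : ℝ) : ℂ), by fun_prop⟩
    with hc
  have hcl : c ∈ closure ((Submodule.span ℂ (range (@fourier (2 * π))) :
      Submodule ℂ C(AddCircle (2 * π), ℂ)) : Set C(AddCircle (2 * π), ℂ)) := by
    rw [← Submodule.topologicalClosure_coe, span_fourier_closure_eq_top]
    trivial
  obtain ⟨p, hp, hpc⟩ := Metric.mem_closure_iff.1 hcl (ε / 2) (by positivity)
  obtain ⟨q, hq, hqp⟩ := trig_re hp
  have hclose : ∀ x, |(c x).re - (p x).re| ≤ ε / 2 := by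
    intro x
    rw [← Complex.sub_re]
    refine (Complex.abs_re_le_norm _).trans ?_
    have := ContinuousMap.norm_coe_le_norm (c - p) x
    rw [dist_eq_norm] at hpc
    exact this.trans hpc.le
  have hcre : ∀ x, (c x).re = max 0 (min M (g x).re) := fun x => by simp [hc]
  refine ⟨q, hq, fun θ => ?_, ?_⟩
  · rw [hqp θ]
    have h1 := abs_le.1 (hclose (θ : AddCircle (2 * π)))
    have h2 : 0 ≤ (c (θ : AddCircle (2 * π))).re := by rw [hcre]; exact le_max_left _ _
    have h3 : (c (θ : AddCircle (2 * π))).re ≤ M := by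
      rw [hcre]; exact max_le hM0 (min_le_left _ _)
    constructor <;> linarith
  · have hint : ∫ θ, ‖F (θ : AddCircle (2 * π)) - g (θ : AddCircle (2 * π))‖ ∂m ≤ ε / 2 := by
      rw [integral_m]
      have h1 := AddCircle.intervalIntegral_preimage (2 * π) 0 (fun x => ‖F x - g x‖)
      rw [zero_add] at h1
      rw [h1, smul_eq_mul, inv_mul_le_iff₀ (by positivity)]
      exact hg
    have hFi : Integrable (fun θ : ℝ => ‖F (θ : AddCircle (2 * π)) - g (θ : AddCircle (2 * π))‖) m := by
      have h1 : ∀ᵐ (θ : ℝ) ∂m, F (θ : AddCircle (2 * π)) = (l θ : ℂ) := by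
        filter_upwards [ae_m_mem] with θ hθ
        rw [hFdef, AddCircle.liftIoc_coe_apply (by simpa using hθ)]
      have h2 : Integrable (fun θ : ℝ => ‖(l θ : ℂ) - g (θ : AddCircle (2 * π))‖) m := by
        apply Integrable.norm
        apply Integrable.sub
        · refine Integrable.of_bound (C := M) (Complex.continuous_ofReal.comp_aestronglyMeasurable hl) ?_
          filter_upwards [h0, hM] with θ h1 h2
          change ‖(l θ : ℂ)‖ ≤ M
          rw [Complex.norm_real, Real.norm_eq_abs, abs_of_nonneg h1]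
          exact h2
        · refine Integrable.of_bound (C := ‖g‖) ?_ (Eventually.of_forall fun θ => g.norm_coe_le_norm _)
          exact (g.continuous.comp (AddCircle.continuous_mk' _)).aestronglyMeasurable
      refine h2.congr ?_
      filter_upwards [h1] with θ hθ
      rw [hθ]
    calc ∫ θ, |l θ - (q (pt θ)).re| ∂m
        ≤ ∫ θ, (‖F (θ : AddCircle (2 * π)) - g (θ : AddCircle (2 * π))‖ + ε / 2) ∂m := by
          apply integral_mono_of_nonneg (Eventually.of_forall fun θ => abs_nonneg _)
            (hFi.add (integrable_const _))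
          filter_upwards [ae_m_mem, h0, hM] with θ hθ h0' hM'
          have h1 : F (θ : AddCircle (2 * π)) = (l θ : ℂ) := by
            rw [hFdef, AddCircle.liftIoc_coe_apply (by simpa using hθ)]
          change |l θ - (q (pt θ)).re| ≤ ‖F (θ : AddCircle (2 * π)) - g (θ : AddCircle (2 * π))‖ + ε / 2
          rw [hqp θ, h1]
          have h2 := hclose (θ : AddCircle (2 * π))
          have h3 : |l θ - (c (θ : AddCircle (2 * π))).re| ≤ ‖(l θ : ℂ) - g (θ : AddCircle (2 * π))‖ := by
            refine le_trans ?_ (Complex.abs_re_le_norm _)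
            rw [Complex.sub_re, Complex.ofReal_re, hcre]
            have e : l θ = max 0 (min M (l θ)) := by
              rw [min_eq_right hM', max_eq_right h0']
            conv_lhs => rw [e]
            refine (abs_max_sub_max_le_max _ _ _ _).trans ?_
            rw [sub_self, abs_zero]
            refine max_le (abs_nonneg _) ((abs_min_sub_min_le_max _ _ _ _).trans ?_)
            rw [sub_self, abs_zero]
            exact max_le (abs_nonneg _) le_rfl
          calc |l θ - (p (θ : AddCircle (2 * π))).re|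
              ≤ |l θ - (c (θ : AddCircle (2 * π))).re| +
                |(c (θ : AddCircle (2 * π))).re - (p (θ : AddCircle (2 * π))).re| :=
                abs_sub_le _ _ _
            _ ≤ _ := add_le_add h3 h2
      _ = (∫ θ, ‖F (θ : AddCircle (2 * π)) - g (θ : AddCircle (2 * π))‖ ∂m) + ε / 2 := by
          rw [integral_add hFi (integrable_const _)]
          simp
      _ ≤ ε := by linarith

end Pool.Agent.H291.Jpq
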