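import Pool.Agent.H291.Jpq.Basic

/-!
Covering the large values of an integrable function by arcs.
-/

set_option autoImplicit false

open MeasureTheory Filter Topology Set Metric
open scoped Real ComplexConjugate ENNReal

namespace Pool.Agent.H291.Jpq

theorem m_apply {s : Set ℝ} (hs : MeasurableSet s) :
    volume (s ∩ Ioc 0 (2 * π)) = ENNReal.ofReal (2 * π) * m s := by
  rw [m, Measure.smul_apply, Measure.restrict_apply hs, smul_eq_mul, ← mul_assoc,
    ENNReal.mul_inv_cancel ofReal_two_pi_ne_zero ENNReal.ofReal_ne_top, one_mul]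

theorem tsum_level {l : ℝ → ℝ} (hl : Measurable l) (hi : Integrable l m) (h0 : ∀ᵐ θ ∂m, 0 ≤ l θ) :
    ∑' k : ℕ, m {θ | (k : ℝ) < l θ} ≠ ⊤ := by
  have hE : ∀ k : ℕ, MeasurableSet {θ | (k : ℝ) < l θ} := fun k => measurableSet_lt measurable_const hl
  have h1 : ∑' k : ℕ, m {θ | (k : ℝ) < l θ} =
      ∫⁻ θ, ∑' k : ℕ, ({θ | (k : ℝ) < l θ} : Set ℝ).indicator 1 θ ∂m := by
    rw [lintegral_tsum fun k => (measurable_one.indicator (hE k)).aemeasurable]
    congr 1
    funext k
    rw [lintegral_indicator_one (hE k)]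
  rw [h1]
  have h2 : ∀ᵐ θ ∂m, ∑' k : ℕ, ({θ | (k : ℝ) < l θ} : Set ℝ).indicator (1 : ℝ → ℝ≥0∞) θ ≤
      ENNReal.ofReal (l θ + 1) := by
    filter_upwards [h0] with θ hθ
    rw [tsum_eq_sum (s := Finset.range ⌈l θ⌉₊)]
    · calc ∑ k ∈ Finset.range ⌈l θ⌉₊, ({θ | (k : ℝ) < l θ} : Set ℝ).indicator (1 : ℝ → ℝ≥0∞) θ
          ≤ ∑ k ∈ Finset.range ⌈l θ⌉₊, 1 := by
            apply Finset.sum_le_sum
            intro k _
            exact Set.indicator_le_self' (by simp) θ
        _ = (⌈l θ⌉₊ : ℝ≥0∞) := by simp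
        _ = ENNReal.ofReal (⌈l θ⌉₊ : ℝ) := by rw [ENNReal.ofReal_natCast]
        _ ≤ _ := by
            apply ENNReal.ofReal_le_ofReal
            exact (Nat.ceil_lt_add_one hθ).le
    · intro k hk
      apply Set.indicator_of_notMem
      intro hmem
      apply hk
      rw [Finset.mem_range, Nat.lt_ceil]
      exact hmem
  refine ne_top_of_le_ne_top ?_ (lintegral_mono_ae h2)
  have h3 : Integrable (fun θ => l θ + 1) m := hi.add (integrable_const 1)
  exact (h3.lintegral_lt_top).ne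

theorem exists_arcs {l : ℝ → ℝ} (hi : Integrable l m) (h0 : ∀ᵐ θ ∂m, 0 ≤ l θ) {δ₀ : ℝ}
    (hδ₀ : 0 < δ₀) : ∃ c δ : ℕ → ℝ, (∀ j, 0 < δ j) ∧ (∀ j, δ j ≤ δ₀) ∧ Summable δ ∧
      ∀ᵐ θ ∂m, ∃ s : Finset ℕ, l θ ≤ s.card ∧ ∀ j ∈ s, |θ - c j| ≤ δ j := by
  classical
  set l' : ℝ → ℝ := hi.1.mk l with hl'
  have hmeas : Measurable l' := hi.1.stronglyMeasurable_mk.measurable
  have hae : l =ᵐ[m] l' := hi.1.ae_eq_mk
  have hi' : Integrable l' m := hi.congr hae
  have h0' : ∀ᵐ θ ∂m, 0 ≤ l' θ := by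
    filter_upwards [h0, hae] with θ h1 h2; rwa [← h2]
  set S : ℕ → Set ℝ := fun k => {θ | (k : ℝ) < l' θ} ∩ Ioc 0 (2 * π) with hS
  have hSm : ∀ k, volume (S k) = ENNReal.ofReal (2 * π) * m {θ | (k : ℝ) < l' θ} := fun k =>
    m_apply (measurableSet_lt measurable_const hmeas)
  have hcov := fun k : ℕ => Besicovitch.exists_closedBall_covering_tsum_measure_le (volume : Measure ℝ)
    (ε := (1 / 2 : ℝ≥0∞) ^ k) (pow_ne_zero _ (by simp)) (fun _ => Ioo 0 δ₀) (S k) (fun x _ δ hδ =>
      ⟨min δ₀ δ / 2, by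
        have : 0 < min δ₀ δ := lt_min hδ₀ hδ
        have h1 := min_le_left δ₀ δ
        have h2 := min_le_right δ₀ δ
        refine ⟨⟨by linarith, by linarith⟩, ⟨by linarith, by linarith⟩⟩⟩)
  choose t r htc htS hrf hcov' hsum using hcov
  have : ∀ k, Countable (t k) := fun k => (htc k).to_subtype
  set ι := Σ k : ℕ, t k with hι
  have hιc : Countable ι := by rw [hι]; infer_instance
  set rad' : ι → ℝ := fun i => r i.1 i.2 with hrad
  have hradpos : ∀ i : ι, 0 < rad' i := fun i => (hrf i.1 i.2 i.2.2).1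
  have hradle : ∀ i : ι, rad' i ≤ δ₀ := fun i => (hrf i.1 i.2 i.2.2).2.le
  have hradsum : Summable rad' := by
    have h1 : ∑' i : ι, volume (closedBall (i.2 : ℝ) (rad' i)) ≠ ⊤ := by
      rw [ENNReal.tsum_sigma']
      refine ne_top_of_le_ne_top ?_ (ENNReal.tsum_le_tsum fun k => hsum k)
      rw [ENNReal.tsum_add]
      refine ENNReal.add_ne_top.2 ⟨?_, ?_⟩
      · simp only [hSm]
        rw [ENNReal.tsum_mul_left]
        exact ENNReal.mul_ne_top ENNReal.ofReal_ne_top (tsum_level hmeas hi' h0')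
      · rw [ENNReal.tsum_geometric]
        simp
    simp only [Real.volume_closedBall] at h1
    have h2 : Summable fun i : ι => 2 * rad' i := by
      have h3 := ENNReal.summable_toReal h1
      refine h3.congr fun i => ?_
      rw [ENNReal.toReal_ofReal (by have := hradpos i; positivity)]
    have := h2.mul_left (1 / 2)
    refine this.congr fun i => by ring
  -- enumeration
  have hinf : Infinite (ι ⊕ ℕ) := inferInstance
  have hcount : Countable (ι ⊕ ℕ) := inferInstance
  obtain ⟨e⟩ := nonempty_equiv_of_countable (α := ℕ) (β := ι ⊕ ℕ)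
  refine ⟨fun n => Sum.elim (fun i : ι => (i.2 : ℝ)) (fun _ => 0) (e n),
    fun n => Sum.elim rad' (fun j : ℕ => δ₀ * (1 / 2) ^ j) (e n), ?_, ?_, ?_, ?_⟩
  · intro j
    rcases h : e j with i | n
    · simpa only [h, Sum.elim_inl] using hradpos i
    · simp only [h, Sum.elim_inr]; positivity
  · intro j
    rcases h : e j with i | n
    · simpa only [h, Sum.elim_inl] using hradle i
    · simp only [h, Sum.elim_inr]
      exact mul_le_of_le_one_right hδ₀.le (pow_le_one₀ (by norm_num) (by norm_num))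
  · have h1 : Summable (Sum.elim rad' (fun j : ℕ => δ₀ * (1 / 2) ^ j)) := by
      have h2 : Summable fun j : ℕ => δ₀ * (1 / 2 : ℝ) ^ j :=
        (summable_geometric_of_lt_one (by norm_num) (by norm_num)).mul_left δ₀
      exact (HasSum.sum (by exact hradsum.hasSum) (by exact h2.hasSum)).summable
    exact (e.summable_iff (f := Sum.elim rad' (fun j : ℕ => δ₀ * (1 / 2) ^ j))).2 h1
  · filter_upwards [hae, ae_m_mem, h0'] with θ h1 h2 h3
    have hex : ∀ k : ℕ, (k : ℝ) < l' θ → ∃ x : t k, |θ - x| ≤ r k x := by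
      intro k hk
      have h4 : θ ∈ S k := ⟨hk, h2⟩
      have h5 := hcov' k h4
      simp only [mem_iUnion] at h5
      obtain ⟨x, hx, h6⟩ := h5
      exact ⟨⟨x, hx⟩, by rwa [mem_closedBall, Real.dist_eq] at h6⟩
    choose x hx using hex
    set K := ⌈l' θ⌉₊ with hK
    have hlt : ∀ k : Fin K, ((k : ℕ) : ℝ) < l' θ := fun k => Nat.lt_ceil.1 k.2
    refine ⟨Finset.univ.image fun k : Fin K => e.symm (Sum.inl ⟨k, x k (hlt k)⟩), ?_, ?_⟩
    · rw [Finset.card_image_of_injective]
      · rw [Finset.card_univ, Fintype.card_fin, h1]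
        exact Nat.le_ceil _
      · intro a b hab
        have h4 := Sum.inl_injective (e.symm.injective hab)
        have h5 : (a : ℕ) = b := congrArg Sigma.fst h4
        exact Fin.ext h5
    · intro j hj
      rw [Finset.mem_image] at hj
      obtain ⟨k, -, rfl⟩ := hj
      simp only [Equiv.apply_symm_apply, Sum.elim_inl]
      exact hx k (hlt k)

end Pool.Agent.H291.Jpq
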