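import Pool.Agent.H291.Jpq.Defs

/-!
Basic facts on the circle: the normalised Lebesgue measure, the spaces `H²` and its orthogonal
complement, described by predicates on functions of the angle.
-/

set_option autoImplicit false

open MeasureTheory Filter Topology Set Metric
open scoped Real ComplexConjugate ENNReal

namespace Pool.Agent.H291.Jpq

theorem ofReal_two_pi_ne_zero : ENNReal.ofReal (2 * π) ≠ 0 := by
  rw [Ne, ENNReal.ofReal_eq_zero, not_le]; positivity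

instance : IsProbabilityMeasure m := by
  constructor
  rw [m, Measure.smul_apply, Measure.restrict_apply_univ, Real.volume_Ioc, sub_zero, smul_eq_mul,
    ENNReal.inv_mul_cancel ofReal_two_pi_ne_zero ENNReal.ofReal_ne_top]

theorem integral_m {E : Type*} [NormedAddCommGroup E] [NormedSpace ℝ E] (f : ℝ → E) :
    ∫ θ, f θ ∂m = (2 * π)⁻¹ • ∫ θ in (0 : ℝ)..2 * π, f θ := by
  rw [m, integral_smul_measure, intervalIntegral.integral_of_le (by positivity),
    ENNReal.toReal_inv, ENNReal.toReal_ofReal (by positivity)]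

theorem ae_m_of_ae {p : ℝ → Prop} (h : ∀ᵐ θ : ℝ, p θ) : ∀ᵐ θ ∂m, p θ := by
  rw [m]
  exact Measure.ae_smul_measure (ae_restrict_of_ae h) _

theorem ae_m_mem : ∀ᵐ θ ∂m, θ ∈ Ioc 0 (2 * π) := by
  rw [m]
  exact Measure.ae_smul_measure (ae_restrict_mem measurableSet_Ioc) _

theorem norm_pt (θ : ℝ) : ‖pt θ‖ = 1 := by
  rw [pt, Complex.norm_exp_ofReal_mul_I]

theorem pt_ne (θ : ℝ) : pt θ ≠ 0 := Complex.exp_ne_zero _

theorem pt_mul_conj (θ : ℝ) : pt θ * conj (pt θ) = 1 := by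
  rw [Complex.mul_conj, Complex.normSq_eq_norm_sq, norm_pt]; norm_num

theorem conj_pt_mul (θ : ℝ) : conj (pt θ) * pt θ = 1 := by
  rw [mul_comm, pt_mul_conj]

theorem continuous_pt : Continuous pt := by unfold pt; fun_prop

theorem circleMap_eq (r θ : ℝ) : circleMap 0 r θ = r * pt θ := by simp [circleMap, pt]

/-- `L²` functions orthogonal to all powers `ζ ^ n`, `n ≥ 0`. -/
def IsH2m (g : ℝ → ℂ) : Prop := MemLp g 2 m ∧ ∀ n : ℕ, ∫ θ, conj (pt θ) ^ n * g θ ∂m = 0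

/-- The Hardy space `H²`, as the orthogonal complement of the previous space. -/
def IsH2 (f : ℝ → ℂ) : Prop := MemLp f 2 m ∧ ∀ g, IsH2m g → ∫ θ, conj (g θ) * f θ ∂m = 0

theorem memLp_conj {f : ℝ → ℂ} {p : ℝ≥0∞} (h : MemLp f p m) : MemLp (fun θ => conj (f θ)) p m :=
  h.star

theorem int_mul {f g : ℝ → ℂ} (hf : MemLp f 2 m) (hg : MemLp g 2 m) :
    Integrable (fun θ => f θ * g θ) m := hf.integrable_mul hg

theorem int_conj_mul {f g : ℝ → ℂ} (hf : MemLp f 2 m) (hg : MemLp g 2 m) :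
    Integrable (fun θ => conj (f θ) * g θ) m := int_mul (memLp_conj hf) hg

theorem memLp_bdd {f : ℝ → ℂ} (hf : AEStronglyMeasurable f m) {C : ℝ}
    (h : ∀ᵐ θ ∂m, ‖f θ‖ ≤ C) {p : ℝ≥0∞} : MemLp f p m :=
  MemLp.of_bound hf C h

theorem memLp_bdd_mul {b f : ℝ → ℂ} (hb : AEStronglyMeasurable b m) {C : ℝ}
    (h : ∀ᵐ θ ∂m, ‖b θ‖ ≤ C) {p : ℝ≥0∞} (hf : MemLp f p m) :
    MemLp (fun θ => b θ * f θ) p m :=
  MemLp.of_le_mul (c := C) hf (hb.mul hf.1) (by
    filter_upwards [h] with θ hθ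
    rw [norm_mul]; gcongr)

theorem cont_memLp {f : ℝ → ℂ} (hf : Continuous f) {C : ℝ} (h : ∀ θ, ‖f θ‖ ≤ C) {p : ℝ≥0∞} :
    MemLp f p m := memLp_bdd hf.aestronglyMeasurable (Eventually.of_forall h)

theorem memLp_conj_pt_pow (n : ℕ) {p : ℝ≥0∞} : MemLp (fun θ => conj (pt θ) ^ n) p m :=
  cont_memLp (C := 1) (by have := continuous_pt; fun_prop) (fun θ => by simp [norm_pt])

theorem memLp_pt_pow (n : ℕ) {p : ℝ≥0∞} : MemLp (fun θ => pt θ ^ n) p m :=
  cont_memLp (C := 1) (by have := continuous_pt; fun_prop) (fun θ => by simp [norm_pt])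

/-! ### linear structure -/

theorem IsH2m.congr {f g : ℝ → ℂ} (hf : IsH2m f) (h : f =ᵐ[m] g) : IsH2m g := by
  refine ⟨hf.1.ae_eq h, fun n => ?_⟩
  rw [← hf.2 n]
  apply integral_congr_ae
  filter_upwards [h] with θ hθ
  rw [hθ]

theorem IsH2.congr {f g : ℝ → ℂ} (hf : IsH2 f) (h : f =ᵐ[m] g) : IsH2 g := by
  refine ⟨hf.1.ae_eq h, fun x hx => ?_⟩
  rw [← hf.2 x hx]
  apply integral_congr_ae
  filter_upwards [h] with θ hθ
  rw [hθ]

theorem IsH2m.zero : IsH2m (fun _ => 0) := ⟨MemLp.zero', fun n => by simp⟩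

theorem IsH2.zero : IsH2 (fun _ => 0) := ⟨MemLp.zero', fun n => by simp⟩

theorem IsH2m.add {f g : ℝ → ℂ} (hf : IsH2m f) (hg : IsH2m g) : IsH2m (fun θ => f θ + g θ) := by
  refine ⟨hf.1.add hg.1, fun n => ?_⟩
  simp only [mul_add]
  rw [integral_add (int_mul (memLp_conj_pt_pow n) hf.1) (int_mul (memLp_conj_pt_pow n) hg.1),
    hf.2, hg.2, add_zero]

theorem IsH2.add {f g : ℝ → ℂ} (hf : IsH2 f) (hg : IsH2 g) : IsH2 (fun θ => f θ + g θ) := by
  refine ⟨hf.1.add hg.1, fun x hx => ?_⟩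
  simp only [mul_add]
  rw [integral_add (int_conj_mul hx.1 hf.1) (int_conj_mul hx.1 hg.1),
    hf.2 x hx, hg.2 x hx, add_zero]

theorem IsH2m.const_mul {f : ℝ → ℂ} (hf : IsH2m f) (c : ℂ) : IsH2m (fun θ => c * f θ) := by
  refine ⟨hf.1.const_mul c, fun n => ?_⟩
  simp only [mul_left_comm _ c]
  rw [integral_const_mul, hf.2, mul_zero]

theorem IsH2.const_mul {f : ℝ → ℂ} (hf : IsH2 f) (c : ℂ) : IsH2 (fun θ => c * f θ) := by
  refine ⟨hf.1.const_mul c, fun x hx => ?_⟩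
  simp only [mul_left_comm _ c]
  rw [integral_const_mul, hf.2 x hx, mul_zero]

theorem IsH2m.neg {f : ℝ → ℂ} (hf : IsH2m f) : IsH2m (fun θ => -f θ) := by
  simpa using hf.const_mul (-1)

theorem IsH2.neg {f : ℝ → ℂ} (hf : IsH2 f) : IsH2 (fun θ => -f θ) := by
  simpa using hf.const_mul (-1)

theorem IsH2m.sub {f g : ℝ → ℂ} (hf : IsH2m f) (hg : IsH2m g) : IsH2m (fun θ => f θ - g θ) := by
  simpa [sub_eq_add_neg] using hf.add hg.neg

theorem IsH2.sub {f g : ℝ → ℂ} (hf : IsH2 f) (hg : IsH2 g) : IsH2 (fun θ => f θ - g θ) := by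
  simpa [sub_eq_add_neg] using hf.add hg.neg

theorem IsH2m.sum {ι : Type*} (s : Finset ι) {f : ι → ℝ → ℂ} (hf : ∀ i ∈ s, IsH2m (f i)) :
    IsH2m (fun θ => ∑ i ∈ s, f i θ) := by
  classical
  induction s using Finset.induction_on with
  | empty => simpa using IsH2m.zero
  | insert a s ha ih =>
    simp only [Finset.sum_insert ha]
    exact (hf a (Finset.mem_insert_self _ _)).add
      (ih fun i hi => hf i (Finset.mem_insert_of_mem hi))

theorem IsH2.sum {ι : Type*} (s : Finset ι) {f : ι → ℝ → ℂ} (hf : ∀ i ∈ s, IsH2 (f i)) :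
    IsH2 (fun θ => ∑ i ∈ s, f i θ) := by
  classical
  induction s using Finset.induction_on with
  | empty => simpa using IsH2.zero
  | insert a s ha ih =>
    simp only [Finset.sum_insert ha]
    exact (hf a (Finset.mem_insert_self _ _)).add
      (ih fun i hi => hf i (Finset.mem_insert_of_mem hi))

/-- Orthogonality of the two spaces. -/
theorem orth {f g : ℝ → ℂ} (hf : IsH2 f) (hg : IsH2m g) : ∫ θ, conj (g θ) * f θ ∂m = 0 := hf.2 g hg

theorem orth' {f g : ℝ → ℂ} (hf : IsH2 f) (hg : IsH2m g) : ∫ θ, conj (f θ) * g θ ∂m = 0 := by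
  have h := orth hf hg
  have h2 : ∫ θ, conj (f θ) * g θ ∂m = conj (∫ θ, conj (g θ) * f θ ∂m) := by
    rw [← integral_conj]
    congr 1
    funext θ
    simp [mul_comm]
  rw [h2, h, map_zero]

/-- Closedness under dominated pointwise limits. -/
theorem IsH2.of_tendsto {f : ℝ → ℂ} {F : ℕ → ℝ → ℂ} {B : ℝ → ℝ} (hf : MemLp f 2 m)
    (hF : ∀ n, IsH2 (F n)) (hB : MemLp B 2 m) (hb : ∀ n, ∀ᵐ θ ∂m, ‖F n θ‖ ≤ B θ)
    (hl : ∀ᵐ θ ∂m, Tendsto (fun n => F n θ) atTop (𝓝 (f θ))) : IsH2 f := by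
  refine ⟨hf, fun g hg => ?_⟩
  have h1 : Tendsto (fun n => ∫ θ, conj (g θ) * F n θ ∂m) atTop
      (𝓝 (∫ θ, conj (g θ) * f θ ∂m)) := by
    apply tendsto_integral_of_dominated_convergence (fun θ => ‖g θ‖ * B θ)
    · intro n; exact (int_conj_mul hg.1 (hF n).1).1
    · exact hg.1.norm.integrable_mul hB
    · intro n
      filter_upwards [hb n] with θ hθ
      rw [norm_mul, RCLike.norm_conj]; gcongr
    · filter_upwards [hl] with θ hθ
      exact hθ.const_mul _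
  have h2 : (fun n => ∫ θ, conj (g θ) * F n θ ∂m) = fun _ => 0 := by
    funext n; exact (hF n).2 g hg
  rw [h2] at h1
  exact tendsto_nhds_unique h1 tendsto_const_nhds |>.symm ▸ rfl

theorem IsH2m.of_tendsto {f : ℝ → ℂ} {F : ℕ → ℝ → ℂ} {B : ℝ → ℝ} (hf : MemLp f 2 m)
    (hF : ∀ n, IsH2m (F n)) (hB : MemLp B 2 m) (hb : ∀ n, ∀ᵐ θ ∂m, ‖F n θ‖ ≤ B θ)
    (hl : ∀ᵐ θ ∂m, Tendsto (fun n => F n θ) atTop (𝓝 (f θ))) : IsH2m f := by
  refine ⟨hf, fun k => ?_⟩
  have h1 : Tendsto (fun n => ∫ θ, conj (pt θ) ^ k * F n θ ∂m) atTop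
      (𝓝 (∫ θ, conj (pt θ) ^ k * f θ ∂m)) := by
    apply tendsto_integral_of_dominated_convergence (fun θ => B θ)
    · intro n; exact (int_mul (memLp_conj_pt_pow k) (hF n).1).1
    · exact hB.integrable one_le_two
    · intro n
      filter_upwards [hb n] with θ hθ
      simpa [norm_pt] using hθ
    · filter_upwards [hl] with θ hθ
      exact hθ.const_mul _
  have h2 : (fun n => ∫ θ, conj (pt θ) ^ k * F n θ ∂m) = fun _ => 0 := by
    funext n; exact (hF n).2 k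
  rw [h2] at h1
  exact tendsto_nhds_unique h1 tendsto_const_nhds |>.symm ▸ rfl

/-! ### bounded holomorphic functions and their boundary values -/

/-- `F` is bounded and holomorphic in the disc with radial boundary values `b`. -/
def HB (F : ℂ → ℂ) (b : ℝ → ℂ) : Prop :=
  DifferentiableOn ℂ F (ball 0 1) ∧ (∃ M, ∀ z ∈ ball (0 : ℂ) 1, ‖F z‖ ≤ M) ∧
    ∀ᵐ θ ∂m, Tendsto (fun r : ℝ => F (r * pt θ)) (𝓝[<] 1) (𝓝 (b θ))

/-- a sequence of radii tending to one -/
noncomputable def rad (n : ℕ) : ℝ := 1 - 1 / (n + 2)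

theorem rad_pos (n : ℕ) : 0 < rad n := by
  rw [rad, sub_pos, div_lt_one (by positivity)]
  have : (0 : ℝ) ≤ n := Nat.cast_nonneg n
  linarith

theorem rad_lt (n : ℕ) : rad n < 1 := by
  rw [rad]
  have : (0 : ℝ) < 1 / ((n : ℝ) + 2) := by positivity
  linarith

theorem rad_tendsto : Tendsto rad atTop (𝓝[<] 1) := by
  rw [tendsto_nhdsWithin_iff]
  constructor
  · have h1 : Tendsto (fun n : ℕ => 1 / ((n : ℝ) + 2)) atTop (𝓝 0) := by
      have := (tendsto_natCast_atTop_atTop (R := ℝ)).atTop_add (tendsto_const_nhds (x := (2 : ℝ)))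
      exact tendsto_const_nhds.div_atTop this
    have h2 := h1.const_sub 1
    rw [sub_zero] at h2
    exact h2
  · exact Eventually.of_forall rad_lt

theorem rad_mem (n : ℕ) (θ : ℝ) : (rad n : ℂ) * pt θ ∈ ball (0 : ℂ) 1 := by
  rw [mem_ball_zero_iff, norm_mul, norm_pt, mul_one, Complex.norm_real, Real.norm_eq_abs,
    abs_of_pos (rad_pos n)]
  exact rad_lt n

theorem mem_of_lt {r : ℝ} (h0 : 0 ≤ r) (h1 : r < 1) (θ : ℝ) : (r : ℂ) * pt θ ∈ ball (0 : ℂ) 1 := by
  rw [mem_ball_zero_iff, norm_mul, norm_pt, mul_one, Complex.norm_real, Real.norm_eq_abs,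
    abs_of_nonneg h0]
  exact h1

theorem HB.cont {F : ℂ → ℂ} {b : ℝ → ℂ} (h : HB F b) (n : ℕ) :
    Continuous fun θ : ℝ => F (rad n * pt θ) :=
  h.1.continuousOn.comp_continuous (by have := continuous_pt; fun_prop) (rad_mem n)

theorem HB.meas {F : ℂ → ℂ} {b : ℝ → ℂ} (h : HB F b) : AEStronglyMeasurable b m := by
  apply aestronglyMeasurable_of_tendsto_ae (u := atTop) (f := fun n θ => F (rad n * pt θ))
  · intro n; exact (h.cont n).aestronglyMeasurable
  · filter_upwards [h.2.2] with θ hθ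
    exact hθ.comp rad_tendsto

theorem HB.bound {F : ℂ → ℂ} {b : ℝ → ℂ} (h : HB F b) {M : ℝ}
    (hM : ∀ z ∈ ball (0 : ℂ) 1, ‖F z‖ ≤ M) : ∀ᵐ θ ∂m, ‖b θ‖ ≤ M := by
  filter_upwards [h.2.2] with θ hθ
  exact le_of_tendsto (hθ.comp rad_tendsto).norm (Eventually.of_forall fun n => hM _ (rad_mem n θ))

theorem HB.exists_bound {F : ℂ → ℂ} {b : ℝ → ℂ} (h : HB F b) : ∃ M, ∀ᵐ θ ∂m, ‖b θ‖ ≤ M := by
  obtain ⟨M, hM⟩ := h.2.1
  exact ⟨M, h.bound hM⟩

theorem HB.memLp {F : ℂ → ℂ} {b : ℝ → ℂ} (h : HB F b) {p : ℝ≥0∞} : MemLp b p m := by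
  obtain ⟨M, hM⟩ := h.exists_bound
  exact memLp_bdd h.meas hM

theorem HB.congr {F G : ℂ → ℂ} {b c : ℝ → ℂ} (h : HB F b) (hF : ∀ z ∈ ball (0 : ℂ) 1, F z = G z)
    (hb : b =ᵐ[m] c) : HB G c := by
  refine ⟨h.1.congr fun z hz => (hF z hz).symm, ?_, ?_⟩
  · obtain ⟨M, hM⟩ := h.2.1
    exact ⟨M, fun z hz => by rw [← hF z hz]; exact hM z hz⟩
  · filter_upwards [h.2.2, hb] with θ h1 h2
    rw [← h2]
    refine h1.congr' ?_
    filter_upwards [Ioo_mem_nhdsLT (show (0 : ℝ) < 1 by norm_num)] with r hr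
    exact hF _ (mem_of_lt hr.1.le hr.2 θ)

theorem HB.const (c : ℂ) : HB (fun _ => c) (fun _ => c) :=
  ⟨differentiableOn_const c, ⟨‖c‖, fun _ _ => le_rfl⟩,
    Eventually.of_forall fun _ => tendsto_const_nhds⟩

theorem HB.add {F G : ℂ → ℂ} {b c : ℝ → ℂ} (h : HB F b) (h' : HB G c) :
    HB (fun z => F z + G z) (fun θ => b θ + c θ) := by
  obtain ⟨M, hM⟩ := h.2.1
  obtain ⟨N, hN⟩ := h'.2.1
  refine ⟨h.1.add h'.1, ⟨M + N, fun z hz => (norm_add_le _ _).trans (add_le_add (hM z hz) (hN z hz))⟩, ?_⟩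
  filter_upwards [h.2.2, h'.2.2] with θ h1 h2
  exact h1.add h2

theorem HB.mul {F G : ℂ → ℂ} {b c : ℝ → ℂ} (h : HB F b) (h' : HB G c) :
    HB (fun z => F z * G z) (fun θ => b θ * c θ) := by
  obtain ⟨M, hM⟩ := h.2.1
  obtain ⟨N, hN⟩ := h'.2.1
  refine ⟨h.1.mul h'.1, ⟨M * N, fun z hz => ?_⟩, ?_⟩
  · rw [norm_mul]
    exact mul_le_mul (hM z hz) (hN z hz) (norm_nonneg _) ((norm_nonneg _).trans (hM z hz))
  filter_upwards [h.2.2, h'.2.2] with θ h1 h2
  exact h1.mul h2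

theorem HB.neg {F : ℂ → ℂ} {b : ℝ → ℂ} (h : HB F b) : HB (fun z => -F z) (fun θ => -b θ) := by
  simpa using (HB.const (-1)).mul h

theorem HB.sub {F G : ℂ → ℂ} {b c : ℝ → ℂ} (h : HB F b) (h' : HB G c) :
    HB (fun z => F z - G z) (fun θ => b θ - c θ) := by
  simpa [sub_eq_add_neg] using h.add h'.neg

/-- The coordinate function. -/
theorem HB.id : HB (fun z => z) pt := by
  refine ⟨differentiableOn_id, ⟨1, fun z hz => (mem_ball_zero_iff.1 hz).le⟩, ?_⟩
  refine Eventually.of_forall fun θ => ?_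
  have : Continuous fun r : ℝ => (r : ℂ) * pt θ := by fun_prop
  have h := (this.tendsto 1).mono_left (nhdsWithin_le_nhds (s := Iio 1))
  simpa using h

theorem HB.id_pow (n : ℕ) : HB (fun z => z ^ n) (fun θ => pt θ ^ n) := by
  induction n with
  | zero => simpa using HB.const 1
  | succ n ih =>
    simp only [pow_succ]
    exact ih.mul HB.id

/-- A function continuous on the closed disc. -/
theorem HB.of_diffContOnCl {F : ℂ → ℂ} (h : DiffContOnCl ℂ F (ball 0 1)) :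
    HB F (fun θ => F (pt θ)) := by
  have hcl : closure (ball (0 : ℂ) 1) = closedBall 0 1 := closure_ball 0 one_ne_zero
  have hc : ContinuousOn F (closedBall 0 1) := hcl ▸ h.2
  refine ⟨h.1, ?_, Eventually.of_forall fun θ => ?_⟩
  · obtain ⟨C, hC⟩ := (isCompact_closedBall (0 : ℂ) 1).exists_bound_of_continuousOn hc
    exact ⟨C, fun z hz => hC z (ball_subset_closedBall hz)⟩
  · have h1 : ContinuousWithinAt F (closedBall 0 1) (pt θ) :=
      hc (pt θ) (by rw [mem_closedBall_zero_iff, norm_pt])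
    have h2 : Tendsto (fun r : ℝ => (r : ℂ) * pt θ) (𝓝[<] 1) (𝓝[closedBall 0 1] (pt θ)) := by
      rw [tendsto_nhdsWithin_iff]
      constructor
      · have : Continuous fun r : ℝ => (r : ℂ) * pt θ := by fun_prop
        have h := (this.tendsto 1).mono_left (nhdsWithin_le_nhds (s := Iio 1))
        simpa using h
      · filter_upwards [Ioo_mem_nhdsLT (show (0 : ℝ) < 1 by norm_num)] with r hr
        exact ball_subset_closedBall (mem_of_lt hr.1.le hr.2 θ)
    exact h1.tendsto.comp h2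

/-! ### Cauchy's formula -/

/-- The Cauchy kernel `1 / (1 - w ζ̄)`. -/
noncomputable def ck (w : ℂ) (θ : ℝ) : ℂ := (1 - w * conj (pt θ))⁻¹

theorem ck_ne {w : ℂ} (hw : ‖w‖ < 1) (θ : ℝ) : 1 - w * conj (pt θ) ≠ 0 := by
  intro h
  have : ‖w * conj (pt θ)‖ = 1 := by rw [← sub_eq_zero.1 h]; simp
  rw [norm_mul, RCLike.norm_conj, norm_pt, mul_one] at this
  linarith

theorem ck_cont {w : ℂ} (hw : ‖w‖ < 1) : Continuous (ck w) := by
  unfold ck
  apply Continuous.inv₀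
  · have := continuous_pt; fun_prop
  · exact ck_ne hw

theorem ck_bound {w : ℂ} (hw : ‖w‖ < 1) (θ : ℝ) : ‖ck w θ‖ ≤ (1 - ‖w‖)⁻¹ := by
  unfold ck
  rw [norm_inv]
  apply inv_anti₀ (by linarith)
  have := norm_sub_norm_le (1 : ℂ) (w * conj (pt θ))
  rw [norm_mul, RCLike.norm_conj, norm_pt, mul_one, norm_one] at this
  exact this

theorem ck_memLp {w : ℂ} (hw : ‖w‖ < 1) {p : ℝ≥0∞} : MemLp (ck w) p m :=
  cont_memLp (ck_cont hw) (ck_bound hw)

/-- Evaluation at the point `w` of the disc. -/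
noncomputable def ev (w : ℂ) (f : ℝ → ℂ) : ℂ := ∫ θ, f θ * ck w θ ∂m

theorem cauchy_rad {F : ℂ → ℂ} (h : DifferentiableOn ℂ F (ball 0 1)) {w : ℂ} (hw : ‖w‖ < 1)
    {r : ℝ} (hr0 : 0 < r) (hr1 : r < 1) :
    ∫ θ, F (r * pt θ) * ck w θ ∂m = F (r * w) := by
  have hd : DifferentiableOn ℂ (fun z => F (r * z)) (closedBall 0 1) := by
    intro z hz
    have hz' : (r : ℂ) * z ∈ ball (0 : ℂ) 1 := by
      rw [mem_ball_zero_iff, norm_mul, Complex.norm_real, Real.norm_eq_abs, abs_of_pos hr0]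
      have := mem_closedBall_zero_iff.1 hz
      nlinarith
    have h1 : DifferentiableAt ℂ F (r * z) := (h _ hz').differentiableAt (isOpen_ball.mem_nhds hz')
    exact (DifferentiableAt.comp z h1 (by fun_prop)).differentiableWithinAt
  have h1 := (hd.mono closure_ball_subset_closedBall).diffContOnCl.two_pi_i_inv_smul_circleIntegral_sub_inv_smul
    (w := w) (by simpa using hw)
  rw [← h1, circleIntegral, integral_m]
  rw [← intervalIntegral.integral_smul, ← intervalIntegral.integral_smul]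
  apply intervalIntegral.integral_congr
  intro θ _
  simp only [deriv_circleMap, circleMap_eq, Complex.ofReal_one, one_mul, smul_eq_mul, ck,
    Complex.real_smul, Complex.ofReal_inv, Complex.ofReal_mul, Complex.ofReal_ofNat]
  have h2 := ck_ne hw θ
  have h3 : pt θ - w ≠ 0 := by
    intro h
    apply h2
    rw [← sub_eq_zero.1 h, pt_mul_conj, sub_self]
  have h4 : pt θ - w = pt θ * (1 - w * conj (pt θ)) := by
    rw [mul_sub, mul_left_comm, pt_mul_conj]; ring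
  rw [h4]
  have h5 := pt_ne θ
  have h6 : (π : ℂ) ≠ 0 := by exact_mod_cast Real.pi_ne_zero
  field_simp

theorem ev_HB {F : ℂ → ℂ} {b : ℝ → ℂ} (h : HB F b) {w : ℂ} (hw : ‖w‖ < 1) : ev w b = F w := by
  obtain ⟨M, hM⟩ := h.2.1
  have h1 : Tendsto (fun n => ∫ θ, F (rad n * pt θ) * ck w θ ∂m) atTop (𝓝 (ev w b)) := by
    apply tendsto_integral_of_dominated_convergence (fun θ => M * ‖ck w θ‖)
    · intro n
      exact ((h.cont n).mul (ck_cont hw)).aestronglyMeasurable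
    · exact (((ck_memLp hw (p := 1)).integrable le_rfl).norm).const_mul _
    · intro n
      refine Eventually.of_forall fun θ => ?_
      rw [norm_mul]
      gcongr
      exact hM _ (rad_mem n θ)
    · filter_upwards [h.2.2] with θ hθ
      exact (hθ.comp rad_tendsto).mul_const _
  have h2 : Tendsto (fun n => ∫ θ, F (rad n * pt θ) * ck w θ ∂m) atTop (𝓝 (F w)) := by
    have e : (fun n => ∫ θ, F (rad n * pt θ) * ck w θ ∂m) = fun n => F (rad n * w) := by
      funext n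
      exact cauchy_rad h.1 hw (rad_pos n) (rad_lt n)
    rw [e]
    have hc : ContinuousAt F w := (h.1.differentiableAt (isOpen_ball.mem_nhds (by simpa using hw))).continuousAt
    have h3 : Tendsto (fun n => (rad n : ℂ) * w) atTop (𝓝 w) := by
      have h4 : Tendsto (fun n => ((rad n : ℝ) : ℂ)) atTop (𝓝 ((1 : ℝ) : ℂ)) :=
        (Complex.continuous_ofReal.tendsto 1).comp (rad_tendsto.mono_right nhdsWithin_le_nhds)
      simpa using h4.mul_const w
    exact hc.tendsto.comp h3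
  exact tendsto_nhds_unique h1 h2

end Pool.Agent.H291.Jpq
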