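import Pool.Agent.H291.Jpq.Density
import Pool.Agent.H291.Jpq.Alg

/-!
The comparison of kernels and its consequence for the right factor.
-/

set_option autoImplicit false
set_option linter.unusedSectionVars false

open MeasureTheory Filter Topology Set Metric Matrix
open scoped Real ComplexConjugate ENNReal

namespace Pool.Agent.H291.Jpq

variable {ι κ : Type*} [Fintype ι] [Fintype κ] [DecidableEq ι] [DecidableEq κ]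

/-- Square integrable elements are dense in the model space. -/
def DenseL2 (s : Sys ι κ) : Prop := ∀ g, KS s.S g →
  ∃ (G : ℕ → ℝ → ι ⊕ κ → ℂ) (h : ℕ → ℝ → κ → ℂ),
    (∀ n, KS s.S (G n)) ∧ (∀ n, VL2 (h n)) ∧
    (∀ n, ∀ᵐ θ ∂m, bM s.D θ *ᵥ h n θ = -rt (G n) θ) ∧ VN0 (fun n θ => G n θ - g θ)

theorem form_conj {ν : Type*} [Fintype ν] (M Q : Matrix ν ν ℂ) (ξ : ν → ℂ) :
    star (Mᴴ *ᵥ ξ) ⬝ᵥ (Q *ᵥ (Mᴴ *ᵥ ξ)) = star ξ ⬝ᵥ ((M * Q * Mᴴ) *ᵥ ξ) := by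
  rw [Matrix.star_mulVec, Matrix.conjTranspose_conjTranspose, ← Matrix.dotProduct_mulVec]
  simp only [Matrix.mulVec_mulVec, Matrix.mul_assoc]

theorem kernel_le {s' s₁ sv : Sys ι κ} (hU' : s'.Inn) (hU₁ : s₁.Inn) (hden : DenseL2 s')
    (hrel : ∀ᵐ θ ∂m, Rel (bM s'.A θ) (bM s'.F θ) (bM s'.D θ) (bM s₁.A θ) (bM s₁.F θ) (bM s₁.B θ)
      (bM s₁.D θ) (bM sv.A θ) (bM sv.F θ) (bM sv.D θ))
    (oD : Outer (sv.D.det : ℝ → ℂ)) (oA : Outer (sv.A.det : ℝ → ℂ)) {w : ℂ} (hw : ‖w‖ < 1)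
    {η' η₁ : ι ⊕ κ → ℂ}
    (hlink : ∀ gw kw : ι ⊕ κ → ℂ,
      (iM sv.D hw).det • (kw ∘ Sum.inr) =
        ((1 - iM s₁.B hw * iM sv.F hw) * (iM sv.D hw).adjugate) *ᵥ (gw ∘ Sum.inr) →
      (iM sv.D hw).det • (kw ∘ Sum.inl - gw ∘ Sum.inl) =
        -((iM s₁.A hw * iM sv.F hw * (iM sv.D hw).adjugate) *ᵥ (gw ∘ Sum.inr)) →
      star η' ⬝ᵥ gw = star η₁ ⬝ᵥ kw) :
    nsq (kern s'.S hw η') ≤ nsq (kern s₁.S hw η₁) := by
  have hK' := kern_KS hU' hw η'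
  have hK₁ := kern_KS hU₁ hw η₁
  obtain ⟨G, h, hG, hh, hd, hN⟩ := hden _ hK'
  have key : ∀ n, 2 * (star η' ⬝ᵥ vev w (G n)).re ≤ nsq (kern s₁.S hw η₁) + nsq (G n) := by
    intro n
    obtain ⟨k, hk, hkn, hkw⟩ := transfer hU' hU₁ hrel oD oA (hG n) (hh n) (hd n)
    obtain ⟨e1, e2⟩ := hkw w hw
    rw [hlink (vev w (G n)) (vev w k) e1 e2, ← kern_rep hw η₁ hk, ← hkn, add_comm]
    exact two_re_le hk.1.memLp hK₁.1.memLp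
  have h1 : Tendsto (fun n => vev w (G n)) atTop (𝓝 (vev w (kern s'.S hw η'))) :=
    VN0.vev (fun n => (hG n).1.memLp) hK'.1.memLp hN hw
  have h2 : Tendsto (fun n => nsq (G n)) atTop (𝓝 (nsq (kern s'.S hw η'))) :=
    VN0.nsq (fun n => (hG n).1.memLp) hK'.1.memLp hN
  have h3 : Tendsto (fun n => 2 * (star η' ⬝ᵥ vev w (G n)).re) atTop
      (𝓝 (2 * (star η' ⬝ᵥ vev w (kern s'.S hw η')).re)) := by
    have hc : Continuous fun x : ι ⊕ κ → ℂ => 2 * (star η' ⬝ᵥ x).re := by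
      unfold dotProduct
      fun_prop
    exact (hc.tendsto _).comp h1
  have h4 := le_of_tendsto_of_tendsto' h3 (h2.const_add (nsq (kern s₁.S hw η₁))) key
  have h5 : (star η' ⬝ᵥ vev w (kern s'.S hw η')).re = nsq (kern s'.S hw η') := by
    rw [← kern_rep hw η' hK', ← nsq_eq, Complex.ofReal_re]
  rw [h5] at h4
  linarith

theorem nsq_kern_form {s : Sys ι κ} (hU : s.Inn) {w : ℂ} (hw : ‖w‖ < 1)
    {X : Matrix (ι ⊕ κ) (ι ⊕ κ) ℂ} (hX : iM s.S hw = PG X) (hd : IsUnit X.toBlocks₂₂)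
    (ξ : ι ⊕ κ → ℂ) :
    ((nsq (kern s.S hw ((Mm X)ᴴ *ᵥ ξ)) : ℝ) : ℂ) =
      (1 - conj w * w)⁻¹ * (star ξ ⬝ᵥ ((JJ ι κ - X * JJ ι κ * Xᴴ) *ᵥ ξ)) := by
  rw [kern_nsq hU hw]
  congr 1
  have h1 : (Mm X)ᴴ *ᵥ ξ - iM s.S hw *ᵥ ((iM s.S hw)ᴴ *ᵥ ((Mm X)ᴴ *ᵥ ξ)) =
      (1 - PG X * (PG X)ᴴ) *ᵥ ((Mm X)ᴴ *ᵥ ξ) := by
    rw [hX, Matrix.sub_mulVec, Matrix.one_mulVec, ← Matrix.mulVec_mulVec]
  rw [h1, form_conj, ← PG_id1 hd]
  have h2 : Mm X * (Gm X * (JJ ι κ - X * JJ ι κ * Xᴴ) * (Gm X)ᴴ) * (Mm X)ᴴ =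
      (Mm X * Gm X) * (JJ ι κ - X * JJ ι κ * Xᴴ) * (Mm X * Gm X)ᴴ := by
    rw [Matrix.conjTranspose_mul]
    simp only [Matrix.mul_assoc]
  rw [h2, Mm_mul_Gm hd, Matrix.conjTranspose_one, Matrix.one_mul, Matrix.mul_one]

theorem link_alg {X₁ Xv : Matrix (ι ⊕ κ) (ι ⊕ κ) ℂ} (h₁ : IsUnit X₁.toBlocks₂₂)
    (hv : IsUnit Xv.toBlocks₂₂) (h' : IsUnit (X₁ * Xv).toBlocks₂₂) (ξ gw kw : ι ⊕ κ → ℂ)
    (e1 : (PG Xv).toBlocks₂₂.det • (kw ∘ Sum.inr) =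
      ((1 - (PG X₁).toBlocks₂₁ * (PG Xv).toBlocks₁₂) * (PG Xv).toBlocks₂₂.adjugate) *ᵥ
        (gw ∘ Sum.inr))
    (e2 : (PG Xv).toBlocks₂₂.det • (kw ∘ Sum.inl - gw ∘ Sum.inl) =
      -(((PG X₁).toBlocks₁₁ * (PG Xv).toBlocks₁₂ * (PG Xv).toBlocks₂₂.adjugate) *ᵥ
        (gw ∘ Sum.inr))) :
    star ((Mm (X₁ * Xv))ᴴ *ᵥ ξ) ⬝ᵥ gw = star ((Mm X₁)ᴴ *ᵥ ξ) ⬝ᵥ kw := by
  obtain ⟨r1, r2⟩ := rel12 h₁ hv h'
  have hD' : (PG (X₁ * Xv)).toBlocks₂₂ = (X₁ * Xv).toBlocks₂₂⁻¹ := by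
    rw [PG, toBlocks_fromBlocks₂₂]
  have hD₁ : (PG X₁).toBlocks₂₂ = X₁.toBlocks₂₂⁻¹ := by rw [PG, toBlocks_fromBlocks₂₂]
  have hDv : (PG Xv).toBlocks₂₂ = Xv.toBlocks₂₂⁻¹ := by rw [PG, toBlocks_fromBlocks₂₂]
  have hF' : (PG (X₁ * Xv)).toBlocks₁₂ = (X₁ * Xv).toBlocks₁₂ * (X₁ * Xv).toBlocks₂₂⁻¹ := by
    rw [PG, toBlocks_fromBlocks₁₂]
  have hF₁ : (PG X₁).toBlocks₁₂ = X₁.toBlocks₁₂ * X₁.toBlocks₂₂⁻¹ := by
    rw [PG, toBlocks_fromBlocks₁₂]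
  have k₁ : IsUnit X₁.toBlocks₂₂.det := (Matrix.isUnit_iff_isUnit_det _).1 h₁
  have kv : IsUnit Xv.toBlocks₂₂.det := (Matrix.isUnit_iff_isUnit_det _).1 hv
  have k' : IsUnit (X₁ * Xv).toBlocks₂₂.det := (Matrix.isUnit_iff_isUnit_det _).1 h'
  have hdet : (PG Xv).toBlocks₂₂.det ≠ 0 := by
    rw [hDv]
    exact (Matrix.isUnit_nonsing_inv_det _ kv).ne_zero
  set δ := (PG Xv).toBlocks₂₂.det with hδ
  set d' := (X₁ * Xv).toBlocks₂₂ with hd'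
  set d₁ := X₁.toBlocks₂₂ with hd₁
  -- second components
  have f1 : δ • (kw ∘ Sum.inr) = δ • (d₁⁻¹ *ᵥ (d' *ᵥ (gw ∘ Sum.inr))) := by
    have h2 : (1 - (PG X₁).toBlocks₂₁ * (PG Xv).toBlocks₁₂) * (PG Xv).toBlocks₂₂.adjugate =
        δ • (d₁⁻¹ * d') := by
      calc _ = ((1 - (PG X₁).toBlocks₂₁ * (PG Xv).toBlocks₁₂) * (PG Xv).toBlocks₂₂.adjugate *
            d'⁻¹) * d' := by rw [Matrix.mul_assoc _ d'⁻¹, Matrix.nonsing_inv_mul _ k', Matrix.mul_one]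
        _ = _ := by rw [← hD', r1, hD₁, Matrix.smul_mul]
    rw [e1, h2, Matrix.smul_mulVec, Matrix.mulVec_mulVec]
  have f1' : kw ∘ Sum.inr = d₁⁻¹ *ᵥ (d' *ᵥ (gw ∘ Sum.inr)) := smul_right_injective _ hdet f1
  have f2 : d₁ *ᵥ (kw ∘ Sum.inr) = d' *ᵥ (gw ∘ Sum.inr) := by
    rw [f1', Matrix.mulVec_mulVec, Matrix.mul_nonsing_inv _ k₁, Matrix.one_mulVec]
  have f3 : δ • (kw ∘ Sum.inl - gw ∘ Sum.inl) =
      δ • -(((X₁ * Xv).toBlocks₁₂ - X₁.toBlocks₁₂ * d₁⁻¹ * d') *ᵥ (gw ∘ Sum.inr)) := by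
    have h2 : (PG X₁).toBlocks₁₁ * (PG Xv).toBlocks₁₂ * (PG Xv).toBlocks₂₂.adjugate =
        δ • ((X₁ * Xv).toBlocks₁₂ - X₁.toBlocks₁₂ * d₁⁻¹ * d') := by
      calc _ = ((PG X₁).toBlocks₁₁ * (PG Xv).toBlocks₁₂ * (PG Xv).toBlocks₂₂.adjugate *
            d'⁻¹) * d' := by rw [Matrix.mul_assoc _ d'⁻¹, Matrix.nonsing_inv_mul _ k', Matrix.mul_one]
        _ = _ := by
          rw [← hD', r2, hF', hF₁, Matrix.smul_mul, Matrix.sub_mul, Matrix.mul_assoc _ d'⁻¹,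
            Matrix.nonsing_inv_mul _ k', Matrix.mul_one]
    rw [e2, h2, Matrix.smul_mulVec, smul_neg]
  have f3' := smul_right_injective _ hdet f3
  have f4 : kw ∘ Sum.inl - X₁.toBlocks₁₂ *ᵥ (kw ∘ Sum.inr) =
      gw ∘ Sum.inl - (X₁ * Xv).toBlocks₁₂ *ᵥ (gw ∘ Sum.inr) := by
    have h3 : X₁.toBlocks₁₂ *ᵥ (kw ∘ Sum.inr) =
        (X₁.toBlocks₁₂ * d₁⁻¹ * d') *ᵥ (gw ∘ Sum.inr) := by
      rw [f1', Matrix.mulVec_mulVec, Matrix.mulVec_mulVec, Matrix.mul_assoc]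
    rw [h3]
    rw [Matrix.sub_mulVec] at f3'
    have h4 : kw ∘ Sum.inl = gw ∘ Sum.inl + (kw ∘ Sum.inl - gw ∘ Sum.inl) := by abel
    rw [h4, f3']
    abel
  have hM : Mm (X₁ * Xv) *ᵥ gw = Mm X₁ *ᵥ kw := by
    rw [Mm, Mm, fromBlocks_mulVec, fromBlocks_mulVec]
    simp only [Matrix.one_mulVec, Matrix.zero_mulVec, Matrix.neg_mulVec, zero_add,
      ← sub_eq_add_neg]
    rw [f4, ← hd', ← hd₁, f2]
  rw [Matrix.star_mulVec, Matrix.star_mulVec, Matrix.conjTranspose_conjTranspose,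
    Matrix.conjTranspose_conjTranspose, ← Matrix.dotProduct_mulVec, ← Matrix.dotProduct_mulVec, hM]

theorem core {s' s₁ sv : Sys ι κ} (hU' : s'.Inn) (hU₁ : s₁.Inn) (hden : DenseL2 s')
    (hrel : ∀ᵐ θ ∂m, Rel (bM s'.A θ) (bM s'.F θ) (bM s'.D θ) (bM s₁.A θ) (bM s₁.F θ) (bM s₁.B θ)
      (bM s₁.D θ) (bM sv.A θ) (bM sv.F θ) (bM sv.D θ))
    (oD : Outer (sv.D.det : ℝ → ℂ)) (oA : Outer (sv.A.det : ℝ → ℂ)) {w : ℂ} (hw : ‖w‖ < 1)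
    {X₁ Xv : Matrix (ι ⊕ κ) (ι ⊕ κ) ℂ} (h₁ : IsUnit X₁.toBlocks₂₂)
    (hv : IsUnit Xv.toBlocks₂₂) (h' : IsUnit (X₁ * Xv).toBlocks₂₂) (hX₁ : IsUnit X₁)
    (k' : iM s'.S hw = PG (X₁ * Xv)) (k₁ : iM s₁.S hw = PG X₁) (kv : iM sv.S hw = PG Xv)
    (i : ι ⊕ κ) : 1 ≤ ∑ j, ‖iM sv.S hw i j‖ ^ 2 := by
  -- blocks of the interior values
  have bk₁ := k₁
  rw [s₁.iM_S] at bk₁
  have bkv := kv
  rw [sv.iM_S] at bkv
  have q1 : iM s₁.A hw = (PG X₁).toBlocks₁₁ := by rw [← bk₁, toBlocks_fromBlocks₁₁]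
  have q2 : iM s₁.B hw = (PG X₁).toBlocks₂₁ := by rw [← bk₁, toBlocks_fromBlocks₂₁]
  have q3 : iM sv.F hw = (PG Xv).toBlocks₁₂ := by rw [← bkv, toBlocks_fromBlocks₁₂]
  have q4 : iM sv.D hw = (PG Xv).toBlocks₂₂ := by rw [← bkv, toBlocks_fromBlocks₂₂]
  have main : ∀ ξ : ι ⊕ κ → ℂ,
      (star (X₁ᴴ *ᵥ ξ) ⬝ᵥ ((JJ ι κ - Xv * JJ ι κ * Xvᴴ) *ᵥ (X₁ᴴ *ᵥ ξ))).re ≤ 0 := by
    intro ξ
    have h2 := kernel_le hU' hU₁ hden hrel oD oA hw (η' := (Mm (X₁ * Xv))ᴴ *ᵥ ξ)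
      (η₁ := (Mm X₁)ᴴ *ᵥ ξ) (by
        intro gw kw e1 e2
        rw [q2, q3, q4] at e1
        rw [q1, q3, q4] at e2
        exact link_alg h₁ hv h' ξ gw kw e1 e2)
    have h3 := nsq_kern_form hU' hw k' h' ξ
    have h4 := nsq_kern_form hU₁ hw k₁ h₁ ξ
    have hc : (1 - conj w * w : ℂ) = ((1 - ‖w‖ ^ 2 : ℝ) : ℂ) := by
      rw [mul_comm, Complex.mul_conj, Complex.normSq_eq_norm_sq]; push_cast; ring
    have hpos : 0 < 1 - ‖w‖ ^ 2 := by nlinarith [norm_nonneg w]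
    rw [hc, ← Complex.ofReal_inv] at h3 h4
    have h5 := congrArg Complex.re h3
    have h6 := congrArg Complex.re h4
    rw [Complex.re_ofReal_mul, Complex.ofReal_re] at h5 h6
    rw [h5, h6] at h2
    have h7 := le_of_mul_le_mul_left h2 (inv_pos.2 hpos)
    have h8 : (JJ ι κ - X₁ * Xv * JJ ι κ * (X₁ * Xv)ᴴ) =
        (JJ ι κ - X₁ * JJ ι κ * X₁ᴴ) + X₁ * (JJ ι κ - Xv * JJ ι κ * Xvᴴ) * X₁ᴴ := by
      rw [Matrix.conjTranspose_mul, Matrix.mul_sub, Matrix.sub_mul]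
      simp only [Matrix.mul_assoc]
      abel
    rw [h8, Matrix.add_mulVec, dotProduct_add, Complex.add_re] at h7
    rw [form_conj]
    linarith
  -- choose the vector
  have hX₁' : IsUnit X₁.det := (Matrix.isUnit_iff_isUnit_det _).1 hX₁
  set e : ι ⊕ κ → ℂ := Pi.single i 1 with he
  have h2 := main ((X₁⁻¹)ᴴ *ᵥ ((Gm Xv)ᴴ *ᵥ e))
  have h3 : X₁ᴴ *ᵥ ((X₁⁻¹)ᴴ *ᵥ ((Gm Xv)ᴴ *ᵥ e)) = (Gm Xv)ᴴ *ᵥ e := by
    rw [Matrix.mulVec_mulVec, ← Matrix.conjTranspose_mul, Matrix.nonsing_inv_mul _ hX₁',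
      Matrix.conjTranspose_one, Matrix.one_mulVec]
  rw [h3, form_conj, PG_id1 hv, he] at h2
  have h4 : star (Pi.single i (1 : ℂ)) ⬝ᵥ ((1 - PG Xv * (PG Xv)ᴴ) *ᵥ Pi.single i 1) =
      1 - (PG Xv * (PG Xv)ᴴ) i i := by
    rw [Matrix.mulVec_single_one, ← Pi.single_star, star_one, single_dotProduct]
    simp
  have h5 : (PG Xv * (PG Xv)ᴴ) i i = ((∑ j, ‖PG Xv i j‖ ^ 2 : ℝ) : ℂ) := by
    rw [Matrix.mul_apply, Complex.ofReal_sum]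
    refine Finset.sum_congr rfl fun j _ => ?_
    rw [Matrix.conjTranspose_apply]
    change _ * conj _ = _
    rw [Complex.mul_conj, Complex.normSq_eq_norm_sq]
  rw [h4, h5, Complex.sub_re, Complex.ofReal_re, Complex.one_re] at h2
  rw [kv]
  linarith

theorem const_of_sum {s : Sys ι κ} (hU : s.Inn) {w : ℂ} (hw : ‖w‖ < 1)
    (h : ∀ i, 1 ≤ ∑ j, ‖iM s.S hw i j‖ ^ 2) (i j : ι ⊕ κ) :
    ∀ᵐ θ ∂m, (s.S i j : ℝ → ℂ) θ = iM s.S hw i j := by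
  set f : ι ⊕ κ → ι ⊕ κ → ℝ → ℂ := fun i j => (s.S i j : ℝ → ℂ) with hf
  have hfb : ∀ i j, IsHb (f i j) := fun i j => (s.S i j).2
  set c : ι ⊕ κ → ι ⊕ κ → ℂ := fun i j => ev w (f i j) with hc
  have hz := sz_hb hw
  -- the weighted norms
  have key : ∀ i j, ∫ θ, ‖(f i j θ - c i j) * sz w θ‖ ^ 2 ∂m =
      ∫ θ, ‖f i j θ‖ ^ 2 * ‖sz w θ‖ ^ 2 ∂m - ‖c i j‖ ^ 2 * ∫ θ, ‖sz w θ‖ ^ 2 ∂m := by
    intro i j
    have h1 : ∀ θ, ‖(f i j θ - c i j) * sz w θ‖ ^ 2 = ‖f i j θ‖ ^ 2 * ‖sz w θ‖ ^ 2 +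
        ‖c i j‖ ^ 2 * ‖sz w θ‖ ^ 2 - 2 * (conj (c i j) * (f i j θ * sz w θ * ck w θ)).re := by
      intro θ
      have h2 : sz w θ * ck w θ = ((‖sz w θ‖ ^ 2 : ℝ) : ℂ) := by
        rw [← conj_sz, Complex.mul_conj, Complex.normSq_eq_norm_sq]
      have h3 : conj (c i j) * (f i j θ * sz w θ * ck w θ) =
          (conj (c i j) * f i j θ) * ((‖sz w θ‖ ^ 2 : ℝ) : ℂ) := by rw [← h2]; ring
      rw [h3, Complex.re_mul_ofReal, norm_mul, mul_pow]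
      have h4 : ‖f i j θ - c i j‖ ^ 2 = ‖f i j θ‖ ^ 2 + ‖c i j‖ ^ 2 -
          2 * (conj (c i j) * f i j θ).re := by
        rw [← Complex.normSq_eq_norm_sq, ← Complex.normSq_eq_norm_sq, ← Complex.normSq_eq_norm_sq,
          Complex.normSq_sub, mul_comm (conj _)]
      rw [h4]; ring
    simp only [h1]
    have i1 : Integrable (fun θ => ‖f i j θ‖ ^ 2 * ‖sz w θ‖ ^ 2) m := by
      have := int_norm_sq (((hfb i j).mul hz).1.1)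
      simpa [norm_mul, mul_pow] using this
    have i2 : Integrable (fun θ => ‖c i j‖ ^ 2 * ‖sz w θ‖ ^ 2) m :=
      (int_norm_sq hz.1.1).const_mul _
    have i3 : Integrable (fun θ => conj (c i j) * (f i j θ * sz w θ * ck w θ)) m :=
      (ev_int hw ((hfb i j).mul hz).1.1).const_mul _
    have i4 : Integrable (fun θ => 2 * (conj (c i j) * (f i j θ * sz w θ * ck w θ)).re) m :=
      i3.re.const_mul 2
    have i5 : Integrable (fun θ => ‖f i j θ‖ ^ 2 * ‖sz w θ‖ ^ 2 + ‖c i j‖ ^ 2 * ‖sz w θ‖ ^ 2) m :=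
      i1.add i2
    rw [integral_sub i5 i4, integral_add i1 i2, integral_const_mul, integral_const_mul]
    have h5 : ∫ θ, (conj (c i j) * (f i j θ * sz w θ * ck w θ)).re ∂m =
        ‖c i j‖ ^ 2 * ∫ θ, ‖sz w θ‖ ^ 2 ∂m := by
      have h6 := integral_re (𝕜 := ℂ) i3
      have h7 : ∫ θ, conj (c i j) * (f i j θ * sz w θ * ck w θ) ∂m =
          conj (c i j) * (c i j * ev w (sz w)) := by
        rw [integral_const_mul, ← ev_mul (hfb i j) hz.1 hw]; rfl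
      have h8 : ev w (sz w) = ((∫ θ, ‖sz w θ‖ ^ 2 ∂m : ℝ) : ℂ) := by
        rw [← integral_complex_ofReal]
        unfold ev
        congr 1
        funext θ
        rw [← conj_sz, Complex.mul_conj, Complex.normSq_eq_norm_sq]
      have h9 : conj (c i j) * (c i j * ev w (sz w)) =
          ((‖c i j‖ ^ 2 * ∫ θ, ‖sz w θ‖ ^ 2 ∂m : ℝ) : ℂ) := by
        rw [h8, ← mul_assoc, mul_comm (conj _), Complex.mul_conj, Complex.normSq_eq_norm_sq]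
        push_cast; ring
      rw [h7, h9] at h6
      exact h6.trans (Complex.ofReal_re _)
    rw [h5]; ring
  -- sum over one row
  have hrow : ∀ i, ∀ᵐ θ ∂m, ∑ j, ‖f i j θ‖ ^ 2 = 1 := by
    intro i
    filter_upwards [hU] with θ hθ
    have h1 : bM s.S θ * (bM s.S θ)ᴴ = 1 := mul_eq_one_comm.1 hθ
    have h2 := congrFun (congrFun h1 i) i
    rw [Matrix.mul_apply, Matrix.one_apply_eq] at h2
    have h3 : ∑ j, bM s.S θ i j * (bM s.S θ)ᴴ j i = ((∑ j, ‖f i j θ‖ ^ 2 : ℝ) : ℂ) := by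
      rw [Complex.ofReal_sum]
      refine Finset.sum_congr rfl fun j _ => ?_
      rw [Matrix.conjTranspose_apply]
      change f i j θ * conj (f i j θ) = _
      rw [Complex.mul_conj, Complex.normSq_eq_norm_sq]
    rw [h3] at h2
    exact_mod_cast h2
  have hle : ∑ j, ∫ θ, ‖(f i j θ - c i j) * sz w θ‖ ^ 2 ∂m ≤ 0 := by
    simp only [key, Finset.sum_sub_distrib]
    have i1 : ∀ j, Integrable (fun θ => ‖f i j θ‖ ^ 2 * ‖sz w θ‖ ^ 2) m := fun j => by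
      have := int_norm_sq (((hfb i j).mul hz).1.1)
      simpa [norm_mul, mul_pow] using this
    rw [← integral_finsetSum _ fun j _ => i1 j, ← Finset.sum_mul]
    have h1 : ∫ θ, ∑ j, ‖f i j θ‖ ^ 2 * ‖sz w θ‖ ^ 2 ∂m = ∫ θ, ‖sz w θ‖ ^ 2 ∂m := by
      apply integral_congr_ae
      filter_upwards [hrow i] with θ hθ
      rw [← Finset.sum_mul, hθ, one_mul]
    rw [h1]
    have h2 : 0 ≤ ∫ θ, ‖sz w θ‖ ^ 2 ∂m := integral_nonneg fun θ => by positivity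
    have h3 := mul_le_mul_of_nonneg_right (h i) h2
    change _ - (∑ j, ‖iM s.S hw i j‖ ^ 2) * _ ≤ 0
    linarith
  have h0 : ∫ θ, ‖(f i j θ - c i j) * sz w θ‖ ^ 2 ∂m = 0 := by
    have h1 : ∀ j, 0 ≤ ∫ θ, ‖(f i j θ - c i j) * sz w θ‖ ^ 2 ∂m := fun j =>
      integral_nonneg fun θ => by positivity
    have h2 := (Finset.sum_eq_zero_iff_of_nonneg fun j _ => h1 j).1
      (le_antisymm hle (Finset.sum_nonneg fun j _ => h1 j))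
    exact h2 j (Finset.mem_univ j)
  have hi : Integrable (fun θ => ‖(f i j θ - c i j) * sz w θ‖ ^ 2) m :=
    int_norm_sq ((((hfb i j).sub (HB.const (c i j)).isHb).mul hz).1.1)
  rw [integral_eq_zero_iff_of_nonneg (fun θ => by positivity) hi] at h0
  filter_upwards [h0] with θ hθ
  have h1 : (f i j θ - c i j) * sz w θ = 0 := by simpa using hθ
  have h2 : sz w θ ≠ 0 := by
    have h3 := ck_ne hw θ
    intro h4
    have h5 := conj_sz w θ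
    rw [h4, map_zero, ck] at h5
    exact inv_ne_zero h3 h5.symm
  exact sub_eq_zero.1 ((mul_eq_zero.1 h1).resolve_right h2)

end Pool.Agent.H291.Jpq
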