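import Pool.Agent.H291.Jpq.H2

/-!
Limits in `L²` and almost everywhere.
-/

set_option autoImplicit false

open MeasureTheory Filter Topology Set Metric
open scoped Real ComplexConjugate ENNReal

namespace Pool.Agent.H291.Jpq

theorem subseq_ae {f : ℕ → ℝ → ℂ} (hf : ∀ k, MemLp (f k) 2 m)
    (h : Tendsto (fun k => ∫ θ, ‖f k θ‖ ^ 2 ∂m) atTop (𝓝 0)) :
    ∃ φ : ℕ → ℕ, StrictMono φ ∧ ∀ᵐ θ ∂m, Tendsto (fun k => f (φ k) θ) atTop (𝓝 0) := by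
  have h1 : Tendsto (fun k => (hf k).toLp (f k)) atTop (𝓝 0) := by
    rw [tendsto_zero_iff_norm_tendsto_zero]
    have h2 : Tendsto (fun k => ‖(hf k).toLp (f k)‖ ^ 2) atTop (𝓝 0) := by
      refine h.congr fun k => ?_
      rw [L2_norm_sq]
    have h3 := h2.sqrt
    simpa using h3
  obtain ⟨φ, hφ, h4⟩ := (tendstoInMeasure_of_tendsto_Lp h1).exists_seq_tendsto_ae
  refine ⟨φ, hφ, ?_⟩
  have h5 : ∀ᵐ θ ∂m, ∀ k, ((hf (φ k)).toLp (f (φ k))) θ = f (φ k) θ :=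
    ae_all_iff.2 fun k => (hf (φ k)).coeFn_toLp
  filter_upwards [h4, h5, Lp.coeFn_zero ℂ 2 m] with θ h6 h7 h8
  rw [h8] at h6
  simpa [h7] using h6

theorem exists_lim {E : ℕ → ℝ → ℂ} {C : ℝ} (hE : ∀ k, IsHb (E k))
    (hC : ∀ k, ∀ᵐ θ ∂m, ‖E k θ‖ ≤ C)
    (hcau : ∀ ε > 0, ∃ N : ℕ, ∀ k ≥ N, ∀ l ≥ N, ∫ θ, ‖E k θ - E l θ‖ ^ 2 ∂m ≤ ε) :
    ∃ v, IsHb v ∧ (∀ᵐ θ ∂m, ‖v θ‖ ≤ C) ∧
      Tendsto (fun k => ∫ θ, ‖E k θ - v θ‖ ^ 2 ∂m) atTop (𝓝 0) ∧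
      ∃ φ : ℕ → ℕ, StrictMono φ ∧ ∀ᵐ θ ∂m, Tendsto (fun k => E (φ k) θ) atTop (𝓝 (v θ)) := by
  have hm : ∀ k, MemLp (E k) 2 m := fun k => (hE k).1.1
  have hc : CauchySeq fun k => (hm k).toLp (E k) := by
    rw [Metric.cauchySeq_iff]
    intro ε hε
    obtain ⟨N, hN⟩ := hcau ((ε / 2) ^ 2) (by positivity)
    refine ⟨N, fun k hk l hl => ?_⟩
    rw [dist_eq_norm, ← MemLp.toLp_sub]
    have h1 : ‖((hm k).sub (hm l)).toLp (E k - E l)‖ ^ 2 ≤ (ε / 2) ^ 2 := by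
      rw [L2_norm_sq]
      exact hN k hk l hl
    have h2 := (sq_le_sq₀ (norm_nonneg _) (by positivity)).1 h1
    linarith
  obtain ⟨G, hG⟩ := cauchySeq_tendsto_of_complete hc
  have hG2 : MemLp (G : ℝ → ℂ) 2 m := Lp.memLp G
  have hlim : Tendsto (fun k => ∫ θ, ‖E k θ - G θ‖ ^ 2 ∂m) atTop (𝓝 0) := by
    have h1 : Tendsto (fun k => ‖(hm k).toLp (E k) - G‖ ^ 2) atTop (𝓝 0) := by
      have := (tendsto_iff_norm_sub_tendsto_zero.1 hG).pow 2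
      simpa using this
    refine h1.congr fun k => ?_
    have h2 : (hm k).toLp (E k) - G = ((hm k).sub hG2).toLp (E k - (G : ℝ → ℂ)) := by
      rw [MemLp.toLp_sub (hm k) hG2, Lp.toLp_coeFn]
    rw [h2, L2_norm_sq]
    rfl
  obtain ⟨φ, hφ, h1⟩ := subseq_ae (fun k => (hm k).sub hG2) hlim
  have h2 : ∀ᵐ θ ∂m, Tendsto (fun k => E (φ k) θ) atTop (𝓝 (G θ)) := by
    filter_upwards [h1] with θ hθ
    have := hθ.add_const (G θ)
    simpa using this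
  have h3 : ∀ᵐ θ ∂m, ‖G θ‖ ≤ C := by
    filter_upwards [h2, ae_all_iff.2 hC] with θ h4 h5
    exact le_of_tendsto h4.norm (Eventually.of_forall fun k => h5 _)
  refine ⟨G, ⟨?_, C, h3⟩, h3, hlim, φ, hφ, h2⟩
  exact IsH2.of_tendsto hG2 (fun k => (hE (φ k)).1) (B := fun _ => C) (memLp_const C)
    (fun k => hC (φ k)) h2

theorem int_norm_sub_one_sq {f : ℝ → ℂ} (hf : MemLp f 2 m) :
    ∫ θ, ‖f θ - 1‖ ^ 2 ∂m = ∫ θ, ‖f θ‖ ^ 2 ∂m - 2 * (∫ θ, f θ ∂m).re + 1 := by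
  have h1 : ∀ θ, ‖f θ - 1‖ ^ 2 = ‖f θ‖ ^ 2 - 2 * (f θ).re + 1 := by
    intro θ
    rw [← Complex.normSq_eq_norm_sq, ← Complex.normSq_eq_norm_sq, Complex.normSq_sub]
    simp
    ring
  simp only [h1]
  have hi : Integrable f m := hf.integrable one_le_two
  have hi2 : Integrable (fun θ => 2 * (f θ).re) m := hi.re.const_mul 2
  have hi3 := int_norm_sq hf
  have hi4 : Integrable (fun θ => ‖f θ‖ ^ 2 - 2 * (f θ).re) m := hi3.sub hi2
  rw [integral_add hi4 (integrable_const 1), integral_sub hi3 hi2, integral_const_mul]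
  have h2 : ∫ θ, (f θ).re ∂m = (∫ θ, f θ ∂m).re := by
    have := integral_re (𝕜 := ℂ) hi
    simpa using this
  rw [h2]
  simp

/-- a function of modulus at most one, almost everywhere, is close to one when its mean is. -/
theorem int_norm_sub_one_sq_le {f : ℝ → ℂ} (hf : MemLp f 2 m) (h1 : ∀ᵐ θ ∂m, ‖f θ‖ ≤ 1) :
    ∫ θ, ‖f θ - 1‖ ^ 2 ∂m ≤ 2 * (1 - (∫ θ, f θ ∂m).re) := by
  rw [int_norm_sub_one_sq hf]
  have h2 : ∫ θ, ‖f θ‖ ^ 2 ∂m ≤ ∫ _θ : ℝ, (1 : ℝ) ∂m := by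
    apply integral_mono_ae (int_norm_sq hf) (integrable_const 1)
    filter_upwards [h1] with θ hθ
    exact pow_le_one₀ (norm_nonneg _) hθ
  simp at h2
  linarith

/-! ### outer functions -/

/-- `a` has bounded approximate inverses of class `H^∞`. -/
def Outer (a : ℝ → ℂ) : Prop := ∃ (h : ℕ → ℝ → ℂ) (C : ℝ), (∀ n, IsHb (h n)) ∧
  (∀ n, ∀ᵐ θ ∂m, ‖h n θ * a θ‖ ≤ C) ∧ ∀ᵐ θ ∂m, Tendsto (fun n => h n θ * a θ) atTop (𝓝 1)

theorem Outer.H2 {a G : ℝ → ℂ} (ha : Outer a) (hG : MemLp G 2 m)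
    (h : IsH2 (fun θ => a θ * G θ)) : IsH2 G := by
  obtain ⟨u, C, hu, hC, hl⟩ := ha
  refine IsH2.of_tendsto (F := fun n θ => u n θ * (a θ * G θ)) (B := fun θ => C * ‖G θ‖) hG
    (fun n => (hu n).mulH2 h) (hG.norm.const_mul C) (fun n => ?_) ?_
  · filter_upwards [hC n] with θ hθ
    rw [← mul_assoc, norm_mul]
    gcongr
  · filter_upwards [hl] with θ hθ
    have := hθ.mul_const (G θ)
    simpa [mul_assoc] using this

theorem Outer.H2m {a G : ℝ → ℂ} (ha : Outer a) (hG : MemLp G 2 m)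
    (h : IsH2m (fun θ => conj (a θ) * G θ)) : IsH2m G := by
  obtain ⟨u, C, hu, hC, hl⟩ := ha
  refine IsH2m.of_tendsto (F := fun n θ => conj (u n θ) * (conj (a θ) * G θ))
    (B := fun θ => C * ‖G θ‖) hG
    (fun n => (hu n).mulm h) (hG.norm.const_mul C) (fun n => ?_) ?_
  · filter_upwards [hC n] with θ hθ
    rw [← mul_assoc, norm_mul, ← map_mul, RCLike.norm_conj]
    gcongr
  · filter_upwards [hl] with θ hθ
    have := ((Complex.continuous_conj.tendsto _).comp hθ).mul_const (G θ)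
    simpa [mul_assoc] using this

theorem Outer.int_zero {a φ : ℝ → ℂ} (ha : Outer a) (ham : AEStronglyMeasurable a m)
    (hφ : Integrable φ m)
    (h : ∀ u, IsHb u → ∫ θ, u θ * (a θ * φ θ) ∂m = 0) : ∫ θ, φ θ ∂m = 0 := by
  obtain ⟨u, C, hu, hC, hl⟩ := ha
  have h1 : Tendsto (fun n => ∫ θ, (u n θ * a θ) * φ θ ∂m) atTop (𝓝 (∫ θ, φ θ ∂m)) := by
    apply tendsto_integral_of_dominated_convergence (fun θ => C * ‖φ θ‖)
      (fun n => ((hu n).1.1.1.mul ham).mul hφ.1) (hφ.norm.const_mul C)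
    · intro n
      filter_upwards [hC n] with θ hθ
      change ‖(u n θ * a θ) * φ θ‖ ≤ C * ‖φ θ‖
      rw [norm_mul]
      gcongr
    · filter_upwards [hl] with θ hθ
      have := hθ.mul_const (φ θ)
      simpa using this
  have h2 : (fun n => ∫ θ, (u n θ * a θ) * φ θ ∂m) = fun _ => 0 := by
    funext n
    rw [← h (u n) (hu n)]
    congr 1
    funext θ
    ring
  rw [h2] at h1
  exact (tendsto_nhds_unique h1 tendsto_const_nhds)

end Pool.Agent.H291.Jpq
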