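import Pool.Agent.H291.Jpq.Fatou
import Pool.Agent.H291.Jpq.Seq

/-!
Functions of class `H^∞` on the circle are boundary values of bounded holomorphic functions.
-/

set_option autoImplicit false

open MeasureTheory Filter Topology Set Metric
open scoped Real ComplexConjugate ENNReal

namespace Pool.Agent.H291.Jpq

theorem ev_diff {f : ℝ → ℂ} (hf : Integrable f m) :
    DifferentiableOn ℂ (fun z => ev z f) (ball 0 1) := by
  intro z₀ hz₀
  rw [mem_ball_zero_iff] at hz₀
  apply DifferentiableAt.differentiableWithinAt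
  set ε : ℝ := (1 - ‖z₀‖) / 2 with hε
  have hε0 : 0 < ε := by rw [hε]; linarith
  have hb : ∀ z ∈ ball z₀ ε, ‖z‖ < 1 ∧ ∀ θ, ‖ck z θ‖ ≤ ε⁻¹ := by
    intro z hz
    rw [mem_ball, dist_eq_norm] at hz
    have h1 : ‖z‖ ≤ ‖z - z₀‖ + ‖z₀‖ := by
      calc ‖z‖ = ‖(z - z₀) + z₀‖ := by ring_nf
        _ ≤ _ := norm_add_le _ _
    have h2 : ‖z‖ < 1 - ε := by rw [hε] at *; linarith
    refine ⟨by linarith, fun θ => (ck_bound (by linarith) θ).trans ?_⟩
    apply inv_anti₀ hε0
    linarith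
  have key := hasDerivAt_integral_of_dominated_loc_of_deriv_le (μ := m)
    (F := fun (z : ℂ) θ => f θ * ck z θ)
    (F' := fun (z : ℂ) θ => f θ * (conj (pt θ) * ck z θ ^ 2)) (x₀ := z₀) (s := ball z₀ ε)
    (bound := fun θ => ‖f θ‖ * ε⁻¹ ^ 2) (ball_mem_nhds _ hε0) ?_ ?_ ?_ ?_ ?_ ?_
  · exact key.2.differentiableAt
  · filter_upwards [ball_mem_nhds z₀ hε0] with z hz
    exact hf.1.mul (ck_cont (hb z hz).1).aestronglyMeasurable
  · refine hf.mul_bdd (c := ε⁻¹) (ck_cont hz₀).aestronglyMeasurable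
      (Eventually.of_forall fun θ => (hb z₀ (mem_ball_self hε0)).2 θ)
  · have h1 := ck_cont hz₀
    have h2 := continuous_pt
    exact hf.1.mul (by fun_prop : Continuous fun θ => conj (pt θ) * ck z₀ θ ^ 2).aestronglyMeasurable
  · refine Eventually.of_forall fun θ z hz => ?_
    rw [norm_mul, norm_mul, norm_pow, RCLike.norm_conj, norm_pt, one_mul]
    have := (hb z hz).2 θ
    gcongr
  · exact hf.norm.mul_const _
  · refine Eventually.of_forall fun θ z hz => ?_
    have hz1 := (hb z hz).1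
    have h1 : HasDerivAt (fun z : ℂ => 1 - z * conj (pt θ)) (-conj (pt θ)) z := by
      simpa using ((hasDerivAt_id z).mul_const (conj (pt θ))).const_sub 1
    have h2 := (h1.inv (ck_ne hz1 θ)).const_mul (f θ)
    have e : f θ * (conj (pt θ) * ck z θ ^ 2) =
        f θ * (-(-conj (pt θ)) / (1 - z * conj (pt θ)) ^ 2) := by
      unfold ck
      rw [neg_neg, inv_pow, div_eq_mul_inv]
    rw [e]
    exact h2

theorem IsHb.pow {v : ℝ → ℂ} (h : IsHb v) (k : ℕ) : IsHb (fun θ => v θ ^ k) := by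
  induction k with
  | zero => simpa using IsHb.one
  | succ k ih =>
    simp only [pow_succ]
    exact ih.mul h

theorem ev_pow {v : ℝ → ℂ} (h : IsHb v) {w : ℂ} (hw : ‖w‖ < 1) (k : ℕ) :
    ev w (fun θ => v θ ^ k) = ev w v ^ k := by
  induction k with
  | zero =>
    simp only [pow_zero]
    exact ev_HB (HB.const 1) hw
  | succ k ih =>
    simp only [pow_succ]
    rw [ev_mul (h.pow k) h.1 hw, ih]

theorem nonneg_of_ae_le {v : ℝ → ℂ} {C : ℝ} (hC : ∀ᵐ θ ∂m, ‖v θ‖ ≤ C) : 0 ≤ C := by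
  obtain ⟨θ, hθ⟩ := hC.exists
  exact (norm_nonneg _).trans hθ

theorem ev_bound {v : ℝ → ℂ} (h : IsHb v) {C : ℝ} (hC : ∀ᵐ θ ∂m, ‖v θ‖ ≤ C) {w : ℂ}
    (hw : ‖w‖ < 1) : ‖ev w v‖ ≤ C := by
  have hC0 := nonneg_of_ae_le hC
  by_contra hcon
  push Not at hcon
  set t := ‖ev w v‖ with ht
  have ht0 : 0 < t := by linarith
  set K : ℝ := (1 - ‖w‖)⁻¹ with hK
  have hK0 : 0 < K := inv_pos.2 (by linarith)
  have h1 : ∀ k : ℕ, t ^ k ≤ C ^ k * K := by
    intro k
    rw [ht, ← norm_pow, ← ev_pow h hw k]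
    calc ‖ev w (fun θ => v θ ^ k)‖ ≤ ∫ _θ : ℝ, C ^ k * K ∂m := by
          unfold ev
          refine norm_integral_le_of_norm_le (integrable_const _) ?_
          filter_upwards [hC] with θ hθ
          rw [norm_mul, norm_pow]
          have := ck_bound hw θ
          gcongr
      _ = C ^ k * K := by simp
  have h2 : Tendsto (fun k : ℕ => (C / t) ^ k) atTop (𝓝 0) :=
    tendsto_pow_atTop_nhds_zero_of_lt_one (by positivity) ((div_lt_one ht0).2 hcon)
  have h3 : ∀ᶠ k in atTop, (C / t) ^ k < K⁻¹ := h2.eventually_lt_const (inv_pos.2 hK0)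
  obtain ⟨k, hk⟩ := h3.exists
  have h4 := h1 k
  rw [div_pow, div_lt_iff₀ (pow_pos ht0 k)] at hk
  have : C ^ k * K < t ^ k := by
    calc C ^ k * K < K⁻¹ * t ^ k * K := by gcongr
      _ = t ^ k := by field_simp
  linarith

theorem ck_rec {w : ℂ} (hw : ‖w‖ < 1) (θ : ℝ) : ck w θ = 1 + w * (conj (pt θ) * ck w θ) := by
  have h := ck_ne hw θ
  unfold ck
  field_simp
  ring

theorem H2m_of_ev {f : ℝ → ℂ} (hf : MemLp f 2 m) (h : ∀ w : ℂ, ‖w‖ < 1 → ev w f = 0) :
    IsH2m f := by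
  have key : ∀ n : ℕ, ∀ w : ℂ, ‖w‖ < 1 → ev w (fun θ => conj (pt θ) ^ n * f θ) = 0 := by
    intro n
    induction n with
    | zero => simpa using h
    | succ n ih =>
      have hm : ∀ k, MemLp (fun θ => conj (pt θ) ^ k * f θ) 2 m := fun k =>
        memLp_bdd_mul (memLp_conj_pt_pow k (p := 2)).1 (C := 1)
          (Eventually.of_forall fun θ => by simp [norm_pt]) hf
      have h1 : ∀ w : ℂ, ‖w‖ < 1 → w ≠ 0 → ev w (fun θ => conj (pt θ) ^ (n + 1) * f θ) = 0 := by
        intro w hw hw0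
        have h2 := ih w hw
        have h3 := ih 0 (by simp)
        rw [ev_zero] at h3
        have h4 : ev w (fun θ => conj (pt θ) ^ n * f θ) =
            (∫ θ, conj (pt θ) ^ n * f θ ∂m) + w * ev w (fun θ => conj (pt θ) ^ (n + 1) * f θ) := by
          unfold ev
          rw [← integral_const_mul, ← integral_add ((hm n).integrable one_le_two)
            ((ev_int hw (hm (n + 1))).const_mul w)]
          congr 1
          funext θ
          conv_lhs => rw [ck_rec hw θ]
          ring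
        rw [h2, h3, zero_add] at h4
        exact (mul_eq_zero.1 h4.symm).resolve_left hw0
      intro w hw
      by_cases hw0 : w = 0
      · subst hw0
        have hc : ContinuousAt (fun z => ev z (fun θ => conj (pt θ) ^ (n + 1) * f θ)) 0 :=
          ((ev_diff ((hm (n + 1)).integrable one_le_two)).differentiableAt
            (ball_mem_nhds _ one_pos)).continuousAt
        have h5 : Tendsto (fun z => ev z (fun θ => conj (pt θ) ^ (n + 1) * f θ)) (𝓝[≠] 0)
            (𝓝 (ev 0 (fun θ => conj (pt θ) ^ (n + 1) * f θ))) :=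
          hc.tendsto.mono_left nhdsWithin_le_nhds
        refine tendsto_nhds_unique h5 (tendsto_const_nhds.congr' ?_)
        filter_upwards [self_mem_nhdsWithin, mem_nhdsWithin_of_mem_nhds (ball_mem_nhds (0 : ℂ) one_pos)]
          with z hz1 hz2
        exact (h1 z (by simpa using hz2) hz1).symm
      · exact h1 w hw hw0
  refine ⟨hf, fun n => ?_⟩
  rw [← ev_zero]
  exact key n 0 (by simp)

theorem ae_zero_of_H2_H2m {f : ℝ → ℂ} (h : IsH2 f) (h' : IsH2m f) : ∀ᵐ θ ∂m, f θ = 0 := by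
  have h1 := orth h h'
  have h2 : ∫ θ, ‖f θ‖ ^ 2 ∂m = 0 := by
    have h3 : ((∫ θ, ‖f θ‖ ^ 2 ∂m : ℝ) : ℂ) = 0 := by
      rw [← integral_complex_ofReal, ← h1]
      congr 1
      funext θ
      rw [mul_comm, Complex.mul_conj, Complex.normSq_eq_norm_sq]
    exact_mod_cast h3
  rw [integral_eq_zero_iff_of_nonneg (fun θ => by positivity) (int_norm_sq h.1)] at h2
  filter_upwards [h2] with θ hθ
  simpa using hθ

/-- Functions of class `H^∞` are nontangential boundary values. -/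
theorem IsHb.ntlim {v : ℝ → ℂ} (h : IsHb v) :
    ∀ᵐ θ ∂m, NTLim (fun z => ev z v) (pt θ) (v θ) := by
  obtain ⟨C, hC⟩ := h.2
  have hd : DifferentiableOn ℂ (fun z => ev z v) (ball 0 1) :=
    ev_diff (h.1.1.integrable one_le_two)
  have hb : ∀ z ∈ ball (0 : ℂ) 1, ‖ev z v‖ ≤ C := fun z hz =>
    ev_bound h hC (mem_ball_zero_iff.1 hz)
  have hf := ae_m_of_ae (fatou hd hb)
  classical
  set b : ℝ → ℂ := fun θ => if hθ : ∃ l, NTLim (fun z => ev z v) (pt θ) l then hθ.choose else 0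
    with hbdef
  have hfb : ∀ᵐ θ ∂m, NTLim (fun z => ev z v) (pt θ) (b θ) := by
    filter_upwards [hf] with θ hθ
    simp only [hbdef, dif_pos hθ]
    exact hθ.choose_spec
  have hHB : HB (fun z => ev z v) b := ⟨hd, ⟨C, hb⟩, by
    filter_upwards [hfb] with θ hθ using hθ.radial⟩
  have hdm : IsH2 (fun θ => b θ - v θ) := hHB.isH2.sub h.1
  have hd0 := ae_zero_of_H2_H2m hdm (H2m_of_ev hdm.1 fun w hw => by
    rw [ev_sub hw hHB.memLp h.1.1, ev_HB hHB hw, sub_self])
  filter_upwards [hfb, hd0] with θ h1 h2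
  rwa [← sub_eq_zero.1 h2]

end Pool.Agent.H291.Jpq
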