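import Pool.Agent.H291.Jpq.OuterFn
import Pool.Agent.H291.Jpq.Inf

/-!
Integrability of the logarithm of functions of class `H^∞`.
-/

set_option autoImplicit false

open MeasureTheory Filter Topology Set Metric
open scoped Real ComplexConjugate ENNReal

namespace Pool.Agent.H291.Jpq

theorem fatou_real {f : ℕ → ℝ → ℝ} {g : ℝ → ℝ} {b : ℕ → ℝ} {B : ℝ} (hf : ∀ n, Integrable (f n) m)
    (h0 : ∀ n, ∀ᵐ θ ∂m, 0 ≤ f n θ)
    (hl : ∀ᵐ θ ∂m, Tendsto (fun n => f n θ) atTop (𝓝 (g θ)))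
    (hb : ∀ n, ∫ θ, f n θ ∂m ≤ b n) (hB : Tendsto b atTop (𝓝 B)) :
    Integrable g m ∧ ∫ θ, g θ ∂m ≤ B := by
  have hgm : AEStronglyMeasurable g m :=
    aestronglyMeasurable_of_tendsto_ae (u := atTop) (fun n => (hf n).1) hl
  have hg0 : ∀ᵐ θ ∂m, 0 ≤ g θ := by
    filter_upwards [hl, ae_all_iff.2 h0] with θ h1 h2
    exact ge_of_tendsto h1 (Eventually.of_forall h2)
  have hB0 : 0 ≤ B := ge_of_tendsto hB (Eventually.of_forall fun n =>
    (integral_nonneg_of_ae (h0 n)).trans (hb n))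
  have key : ∫⁻ θ, ENNReal.ofReal (g θ) ∂m ≤ ENNReal.ofReal B := by
    have h1 : ∫⁻ θ, ENNReal.ofReal (g θ) ∂m =
        ∫⁻ θ, liminf (fun n => ENNReal.ofReal (f n θ)) atTop ∂m := by
      apply lintegral_congr_ae
      filter_upwards [hl] with θ hθ
      exact ((ENNReal.continuous_ofReal.tendsto _).comp hθ).liminf_eq.symm
    rw [h1]
    refine (lintegral_liminf_le' fun n => (hf n).1.aemeasurable.ennreal_ofReal).trans ?_
    have h2 : liminf (fun n => ENNReal.ofReal (b n)) atTop = ENNReal.ofReal B :=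
      ((ENNReal.continuous_ofReal.tendsto _).comp hB).liminf_eq
    rw [← h2]
    refine liminf_le_liminf (Eventually.of_forall fun n => ?_)
    change ∫⁻ θ, ENNReal.ofReal (f n θ) ∂m ≤ ENNReal.ofReal (b n)
    rw [← ofReal_integral_eq_lintegral_ofReal (hf n) (h0 n)]
    exact ENNReal.ofReal_le_ofReal (hb n)
  have hgi : Integrable g m := ⟨hgm, by
    rw [hasFiniteIntegral_iff_ofReal hg0]; exact key.trans_lt ENNReal.ofReal_lt_top⟩
  refine ⟨hgi, ?_⟩
  rw [← ofReal_integral_eq_lintegral_ofReal hgi hg0] at key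
  exact (ENNReal.ofReal_le_ofReal_iff hB0).1 key

theorem log_int {v : ℝ → ℂ} (hv : IsHb v) (h1 : ∀ᵐ θ ∂m, ‖v θ‖ ≤ 1)
    (hmean : ∫ θ, v θ ∂m ≠ 0) :
    (∀ᵐ θ ∂m, v θ ≠ 0) ∧ Integrable (fun θ => -Real.log ‖v θ‖) m := by
  classical
  set c := ∫ θ, v θ ∂m with hc
  have hc0 : 0 < ‖c‖ := norm_pos_iff.2 hmean
  set v' : ℝ → ℂ := hv.1.1.1.mk v with hv'
  have hv'm : Measurable v' := hv.1.1.1.stronglyMeasurable_mk.measurable
  have hae : v =ᵐ[m] v' := hv.1.1.1.ae_eq_mk
  set l : ℕ → ℝ → ℝ := fun n θ => if v' θ = 0 then (n : ℝ) else min (-Real.log ‖v' θ‖) n with hl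
  have hlm : ∀ n, AEStronglyMeasurable (l n) m := by
    intro n
    apply Measurable.aestronglyMeasurable
    apply Measurable.ite (hv'm (measurableSet_singleton 0)) measurable_const
    exact ((Real.measurable_log.comp hv'm.norm).neg).min measurable_const
  have hl0 : ∀ n, ∀ᵐ θ ∂m, 0 ≤ l n θ := by
    intro n
    filter_upwards [h1, hae] with θ h2 h3
    simp only [hl]
    split_ifs
    · positivity
    · apply le_min _ n.cast_nonneg
      rw [← h3]
      have := Real.log_nonpos (norm_nonneg _) h2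
      linarith
  have hln : ∀ n, ∀ᵐ θ ∂m, l n θ ≤ n := by
    intro n
    refine Eventually.of_forall fun θ => ?_
    simp only [hl]
    split_ifs
    · exact le_rfl
    · exact min_le_right _ _
  have hli : ∀ n, Integrable (l n) m := fun n => Integrable.of_bound (hlm n) n (by
    filter_upwards [hl0 n, hln n] with θ h2 h3
    rw [Real.norm_eq_abs, abs_of_nonneg h2]; exact h3)
  have hB : ∀ n, ∫ θ, l n θ ∂m ≤ -Real.log ‖c‖ := by
    intro n
    obtain ⟨E, hE, hEn, hEm⟩ := exists_outer_bdd (hlm n) n.cast_nonneg (hl0 n) (hln n)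
    have h2 : ∫ θ, E θ * v θ ∂m = (∫ θ, E θ ∂m) * ∫ θ, v θ ∂m := mean_mul hE hv.1
    have h3 : ‖∫ θ, E θ * v θ ∂m‖ ≤ 1 := by
      have h4 : ∀ᵐ θ ∂m, ‖E θ * v θ‖ ≤ 1 := by
        filter_upwards [hEn, hae] with θ h5 h6
        rw [norm_mul, h5, h6]
        simp only [hl]
        split_ifs with h7
        · rw [h7]; simp
        · have h8 : 0 < ‖v' θ‖ := norm_pos_iff.2 h7
          calc Real.exp (min (-Real.log ‖v' θ‖) n) * ‖v' θ‖
              ≤ Real.exp (-Real.log ‖v' θ‖) * ‖v' θ‖ := by gcongr; exact min_le_left _ _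
            _ = 1 := by rw [Real.exp_neg, Real.exp_log h8, inv_mul_cancel₀ h8.ne']
      have := norm_integral_le_of_norm_le (integrable_const (1 : ℝ)) h4
      simpa using this
    rw [h2, hEm, ← hc, norm_mul, Complex.norm_real, Real.norm_of_nonneg (Real.exp_pos _).le] at h3
    have h4 := Real.log_le_log (by positivity) h3
    rw [Real.log_mul (Real.exp_pos _).ne' hc0.ne', Real.log_exp, Real.log_one] at h4
    linarith
  have hset : MeasurableSet {θ | v' θ = 0} := hv'm (measurableSet_singleton 0)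
  have hne' : ∀ᵐ θ ∂m, v' θ ≠ 0 := by
    have h2 : ∀ n : ℕ, (n : ℝ) * m.real {θ | v' θ = 0} ≤ -Real.log ‖c‖ := by
      intro n
      refine le_trans ?_ (hB n)
      have h3 : ∫ θ, ({θ | v' θ = 0} : Set ℝ).indicator (fun _ => (n : ℝ)) θ ∂m =
          (n : ℝ) * m.real {θ | v' θ = 0} := by
        rw [integral_indicator_const _ hset, smul_eq_mul, mul_comm]
      rw [← h3]
      apply integral_mono_ae
      · exact (integrable_const _).indicator hset
      · exact hli n
      · filter_upwards [hl0 n] with θ h4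
        by_cases h5 : v' θ = 0
        · rw [Set.indicator_of_mem (show θ ∈ {θ | v' θ = 0} from h5)]
          simp only [hl, if_pos h5]; exact le_rfl
        · rw [Set.indicator_of_notMem (show θ ∉ {θ | v' θ = 0} from h5)]
          exact h4
    have h3 : m.real {θ | v' θ = 0} = 0 := by
      by_contra hne
      have hpos : 0 < m.real {θ | v' θ = 0} := lt_of_le_of_ne measureReal_nonneg (Ne.symm hne)
      obtain ⟨n, hn⟩ := exists_nat_gt (-Real.log ‖c‖ / m.real {θ | v' θ = 0})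
      rw [div_lt_iff₀ hpos] at hn
      linarith [h2 n]
    rw [ae_iff]
    simp only [not_not]
    rwa [measureReal_eq_zero_iff] at h3
  have hne : ∀ᵐ θ ∂m, v θ ≠ 0 := by
    filter_upwards [hne', hae] with θ h2 h3; rwa [h3]
  refine ⟨hne, ?_⟩
  refine (fatou_real (b := fun _ => -Real.log ‖c‖) hli hl0 ?_ hB tendsto_const_nhds).1
  filter_upwards [hne', hae] with θ h2 h3
  simp only [hl, if_neg h2, h3]
  obtain ⟨N, hN⟩ := exists_nat_ge (-Real.log ‖v' θ‖)
  refine tendsto_const_nhds.congr' ?_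
  filter_upwards [eventually_ge_atTop N] with n hn
  rw [min_eq_left]
  exact hN.trans (by exact_mod_cast hn)

theorem pt_shift {g : ℝ → ℂ} (hg : IsH2m g) :
    IsH2m (fun θ => pt θ * g θ - ∫ θ, pt θ * g θ ∂m) := by
  have hm1 : MemLp (fun θ => pt θ * g θ) 2 m :=
    memLp_bdd_mul (C := 1) continuous_pt.aestronglyMeasurable
      (Eventually.of_forall fun θ => (norm_pt θ).le) hg.1
  refine ⟨hm1.sub (memLp_const _), fun n => ?_⟩
  set c := ∫ θ, pt θ * g θ ∂m
  have h1 : ∀ θ, conj (pt θ) ^ n * (pt θ * g θ - c) =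
      conj (pt θ) ^ n * (pt θ * g θ) - c * conj (pt θ) ^ n := fun θ => by ring
  simp only [h1]
  rw [integral_sub (int_mul (memLp_conj_pt_pow n) hm1)
    (((memLp_conj_pt_pow n (p := 1)).integrable le_rfl).const_mul c), integral_const_mul]
  rcases n with _ | n
  · simp [c]
  · have h2 : ∀ θ, conj (pt θ) ^ (n + 1) * (pt θ * g θ) = conj (pt θ) ^ n * g θ := by
      intro θ
      rw [pow_succ, mul_assoc, ← mul_assoc (conj (pt θ)) (pt θ), conj_pt_mul, one_mul]
    simp only [h2, hg.2 n]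
    have h3 : ∫ θ, conj (pt θ) ^ (n + 1) ∂m = 0 := by
      have h4 := mean_HB (HB.id_pow (n + 1))
      have h5 : ∫ θ, conj (pt θ) ^ (n + 1) ∂m = conj (∫ θ, pt θ ^ (n + 1) ∂m) := by
        rw [← int_conj]; congr 1; funext θ; simp
      rw [h5, h4]; simp
    rw [h3]; simp

theorem H2_unshift {v : ℝ → ℂ} (hv : IsH2 v) (h0 : ∫ θ, v θ ∂m = 0) :
    IsH2 (fun θ => conj (pt θ) * v θ) := by
  have hm1 : MemLp (fun θ => conj (pt θ) * v θ) 2 m :=
    memLp_bdd_mul (C := 1) (Complex.continuous_conj.comp continuous_pt).aestronglyMeasurable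
      (Eventually.of_forall fun θ => by simp [norm_pt]) hv.1
  refine ⟨hm1, fun g hg => ?_⟩
  have h1 := orth hv (pt_shift hg)
  set c := ∫ θ, pt θ * g θ ∂m
  have h2 : ∀ θ, conj (pt θ * g θ - c) * v θ =
      conj (g θ) * (conj (pt θ) * v θ) - conj c * v θ := by
    intro θ; simp only [map_sub, map_mul]; ring
  simp only [h2] at h1
  rw [integral_sub (int_conj_mul hg.1 hm1) ((hv.1.integrable one_le_two).const_mul _),
    integral_const_mul, h0, mul_zero, sub_zero] at h1
  exact h1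

/-- A function of class `H^∞`, not almost everywhere zero, has integrable logarithm. -/
theorem log_int' {v : ℝ → ℂ} (hv : IsHb v) (h1 : ∀ᵐ θ ∂m, ‖v θ‖ ≤ 1)
    (hne : ¬ ∀ᵐ θ ∂m, v θ = 0) :
    (∀ᵐ θ ∂m, v θ ≠ 0) ∧ Integrable (fun θ => -Real.log ‖v θ‖) m := by
  classical
  have hex : ∃ k : ℕ, ∫ θ, conj (pt θ) ^ k * v θ ∂m ≠ 0 := by
    by_contra hcon
    push Not at hcon
    exact hne (ae_zero_of_H2_H2m hv.1 ⟨hv.1.1, hcon⟩)
  have hk := Nat.find_spec hex
  have hmin : ∀ n < Nat.find hex, ∫ θ, conj (pt θ) ^ n * v θ ∂m = 0 := fun n hn => by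
    have := Nat.find_min hex hn; push Not at this; exact this
  set k := Nat.find hex
  have hH : ∀ n ≤ k, IsH2 (fun θ => conj (pt θ) ^ n * v θ) := by
    intro n
    induction n with
    | zero => intro _; simpa using hv.1
    | succ n ih =>
      intro hn
      have h2 := H2_unshift (ih (by omega)) (hmin n (by omega))
      refine h2.congr (Eventually.of_forall fun θ => ?_)
      change conj (pt θ) * (conj (pt θ) ^ n * v θ) = _
      ring
  have hnorm : ∀ θ, ‖conj (pt θ) ^ k * v θ‖ = ‖v θ‖ := fun θ => by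
    rw [norm_mul, norm_pow, RCLike.norm_conj, norm_pt, one_pow, one_mul]
  have h2 := log_int (v := fun θ => conj (pt θ) ^ k * v θ)
    ⟨hH k le_rfl, 1, by filter_upwards [h1] with θ hθ; rwa [hnorm]⟩
    (by filter_upwards [h1] with θ hθ; rwa [hnorm]) hk
  simp only [hnorm] at h2
  refine ⟨?_, h2.2⟩
  filter_upwards [h2.1] with θ hθ h3
  apply hθ
  rw [h3, mul_zero]

theorem ae_ne_zero {v : ℝ → ℂ} (hv : IsHb v) {w : ℂ} (hne : ev w v ≠ 0) :
    ∀ᵐ θ ∂m, v θ ≠ 0 := by
  obtain ⟨C, hC⟩ := hv.2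
  have hC0 := nonneg_of_ae_le hC
  have h1 := log_int' (v := fun θ => ((C + 1 : ℝ)⁻¹ : ℂ) * v θ) (hv.const_mul _) (by
    filter_upwards [hC] with θ hθ
    rw [norm_mul]
    have : ‖((C + 1 : ℝ)⁻¹ : ℂ)‖ = (C + 1)⁻¹ := by
      rw [norm_inv, Complex.norm_real, Real.norm_of_nonneg (by linarith)]
    rw [this, inv_mul_le_iff₀ (by linarith)]
    linarith) (by
    intro h
    apply hne
    have h2 : ∀ᵐ θ ∂m, v θ = 0 := by
      filter_upwards [h] with θ hθ
      rcases mul_eq_zero.1 hθ with h3 | h3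
      · exfalso
        have : ((C + 1 : ℝ) : ℂ) ≠ 0 := by
          rw [Complex.ofReal_ne_zero]; linarith
        exact (inv_ne_zero this) h3
      · exact h3
    rw [ev_congr (g := fun _ => 0) h2]
    simp [ev])
  filter_upwards [h1.1] with θ hθ h2
  apply hθ
  rw [h2, mul_zero]

end Pool.Agent.H291.Jpq
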