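import Pool.Agent.H291.Jpq.Prods
import Pool.Agent.H291.Jpq.Arcs
import Pool.Agent.H291.Jpq.LogInt

/-!
An inner function whose tails dominate a given integrable function, with cutoff functions.
-/

set_option autoImplicit false

open MeasureTheory Filter Topology Set Metric
open scoped Real ComplexConjugate ENNReal

namespace Pool.Agent.H291.Jpq

/-- Blaschke factor with parameter `a` and rotation `s`. -/
noncomputable def bf (a : ℝ) (s z : ℂ) : ℂ := (a - s * z) / (1 - a * (s * z))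

theorem bf_den {a : ℝ} (h0 : 0 ≤ a) (h1 : a < 1) {s z : ℂ} (hs : ‖s‖ = 1) (hz : ‖z‖ ≤ 1) :
    1 - a * (s * z) ≠ 0 := by
  intro h
  have h2 : ‖(a : ℂ) * (s * z)‖ = 1 := by rw [← sub_eq_zero.1 h]; simp
  rw [norm_mul, norm_mul, hs, one_mul, Complex.norm_real, Real.norm_of_nonneg h0] at h2
  nlinarith [norm_nonneg z]

theorem bf_HB {a : ℝ} (h0 : 0 ≤ a) (h1 : a < 1) {s : ℂ} (hs : ‖s‖ = 1) :
    HB (bf a s) (fun θ => bf a s (pt θ)) := by
  apply HB.of_diffContOnCl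
  apply DifferentiableOn.diffContOnCl
  rw [closure_ball (0 : ℂ) one_ne_zero]
  intro z hz
  apply DifferentiableAt.differentiableWithinAt
  unfold bf
  exact (by fun_prop : DifferentiableAt ℂ (fun z : ℂ => (a : ℂ) - s * z) z).div
    (by fun_prop) (bf_den h0 h1 hs (by simpa using hz))

theorem bf_norm {a : ℝ} (h0 : 0 ≤ a) (h1 : a < 1) {s z : ℂ} (hs : ‖s‖ = 1) (hz : ‖z‖ = 1) :
    ‖bf a s z‖ = 1 := by
  have hd := bf_den h0 h1 hs hz.le
  unfold bf
  rw [norm_div, div_eq_one_iff_eq (norm_ne_zero_iff.2 hd)]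
  have hu : ‖s * z‖ = 1 := by rw [norm_mul, hs, hz, one_mul]
  set u := s * z
  have h3 : ‖(a : ℂ) - u‖ ^ 2 = ‖1 - a * u‖ ^ 2 := by
    have h4 : u.re ^ 2 + u.im ^ 2 = 1 := by
      have := Complex.sq_norm u
      rw [hu, Complex.normSq_apply] at this
      nlinarith
    rw [Complex.sq_norm, Complex.sq_norm, Complex.normSq_apply, Complex.normSq_apply]
    simp
    linear_combination (1 - a ^ 2) * h4
  exact (sq_eq_sq₀ (norm_nonneg _) (norm_nonneg _)).1 h3

/-- the half sum. -/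
noncomputable def hf (a : ℝ) (s z : ℂ) : ℂ := (1 + bf a s z) / 2

theorem hf_HB {a : ℝ} (h0 : 0 ≤ a) (h1 : a < 1) {s : ℂ} (hs : ‖s‖ = 1) :
    HB (hf a s) (fun θ => hf a s (pt θ)) := by
  have h := (HB.const (1 / 2)).mul ((HB.const 1).add (bf_HB h0 h1 hs))
  refine h.congr (fun z _ => ?_) (Eventually.of_forall fun θ => ?_)
  · unfold hf; ring
  · change 1 / 2 * (1 + bf a s (pt θ)) = _
    unfold hf; ring

theorem hf_norm {a : ℝ} (h0 : 0 ≤ a) (h1 : a < 1) {s z : ℂ} (hs : ‖s‖ = 1) (hz : ‖z‖ = 1) :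
    ‖hf a s z‖ ≤ 1 := by
  unfold hf
  rw [norm_div]
  have h2 : ‖1 + bf a s z‖ ≤ 2 := by
    refine (norm_add_le _ _).trans ?_
    rw [bf_norm h0 h1 hs hz, norm_one]; norm_num
  norm_num
  linarith

theorem hf_eq {a : ℝ} (h0 : 0 ≤ a) (h1 : a < 1) {s z : ℂ} (hs : ‖s‖ = 1) (hz : ‖z‖ = 1) :
    hf a s z = bf a s z * conj (hf a s z) := by
  have h2 : bf a s z * conj (bf a s z) = 1 := by
    rw [Complex.mul_conj, Complex.normSq_eq_norm_sq, bf_norm h0 h1 hs hz]; norm_num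
  unfold hf
  rw [map_div₀, map_add, map_one, Complex.conj_ofNat, mul_div_assoc', mul_add, h2, mul_one,
    add_comm]

theorem hf_form {a : ℝ} (h0 : 0 ≤ a) (h1 : a < 1) {s z : ℂ} (hs : ‖s‖ = 1) (hz : ‖z‖ = 1) :
    hf a s z = (1 + a) * (1 - s * z) / (2 * (1 - a * (s * z))) := by
  have hd := bf_den h0 h1 hs hz.le
  unfold hf bf
  rw [show 1 + ((a : ℂ) - s * z) / (1 - a * (s * z)) =
    ((1 - a * (s * z)) + (a - s * z)) / (1 - a * (s * z)) by rw [add_div, div_self hd],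
    div_div, mul_comm (1 - (a : ℂ) * (s * z)) 2]
  congr 1
  ring

theorem norm_one_sub_pt (x : ℝ) : ‖1 - pt x‖ ≤ |x| := by
  have h := Real.norm_exp_I_mul_ofReal_sub_one_le (x := x)
  rw [norm_sub_rev, pt, mul_comm]
  simpa using h

theorem hf_small {K δ : ℝ} (hK : 0 < K) (hδ : 0 < δ) {c θ : ℝ} (h : |θ - c| ≤ δ) :
    ‖hf (1 / (1 + K * δ)) (conj (pt c)) (pt θ)‖ ≤ 1 / K + δ := by
  have hp : 0 < K * δ := by positivity
  set a : ℝ := 1 / (1 + K * δ) with ha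
  have h0 : 0 ≤ a := by positivity
  have h1 : a < 1 := by rw [ha, div_lt_one (by positivity)]; linarith
  have hs : ‖conj (pt c)‖ = 1 := by rw [RCLike.norm_conj, norm_pt]
  rw [hf_form h0 h1 hs (norm_pt θ)]
  have hu : conj (pt c) * pt θ = pt (θ - c) := by
    rw [pt, pt, pt, ← Complex.exp_conj, ← Complex.exp_add]
    congr 1
    simp
    ring
  rw [hu]
  have h2 : ‖1 - (a : ℂ) * pt (θ - c)‖ ≥ 1 - a := by
    have := norm_sub_norm_le (1 : ℂ) ((a : ℂ) * pt (θ - c))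
    rw [norm_mul, norm_pt, mul_one, norm_one, Complex.norm_real, Real.norm_of_nonneg h0] at this
    exact this
  have h3 : 0 < 1 - a := by linarith
  rw [norm_div, norm_mul, norm_mul]
  have h4 : ‖(1 : ℂ) + a‖ ≤ 2 := by
    refine (norm_add_le _ _).trans ?_
    rw [norm_one, Complex.norm_real, Real.norm_of_nonneg h0]
    linarith
  have h5 := (norm_one_sub_pt (θ - c)).trans h
  rw [div_le_iff₀ (mul_pos (by norm_num) (by linarith))]
  have h6 : (1 / K + δ) * (1 - a) = δ := by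
    rw [ha]; field_simp; ring
  calc ‖(1 : ℂ) + a‖ * ‖1 - pt (θ - c)‖ ≤ 2 * δ := by gcongr
    _ = (1 / K + δ) * (2 * (1 - a)) := by linarith
    _ ≤ (1 / K + δ) * (‖(2 : ℂ)‖ * ‖1 - (a : ℂ) * pt (θ - c)‖) := by
        have : ‖(2 : ℂ)‖ = 2 := by norm_num
        rw [this]
        gcongr

theorem exists_cutoff {l : ℝ → ℝ} (hi : Integrable l m) (h0 : ∀ᵐ θ ∂m, 0 ≤ l θ) :
    ∃ (Θ : ℝ → ℂ) (b t v : ℕ → ℝ → ℂ) (C : ℕ → ℝ), IsHb Θ ∧ ev 0 Θ ≠ 0 ∧
      (∀ n, IsHb (b n)) ∧ (∀ n, IsHb (t n)) ∧ (∀ n, IsHb (v n)) ∧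
      (∀ᵐ θ ∂m, ∀ n, ‖b n θ‖ = 1 ∧ ‖t n θ‖ = 1 ∧ Θ θ = b n θ * t n θ ∧
        v n θ = t n θ * conj (v n θ) ∧ ‖v n θ‖ ≤ 1 ∧ ‖v n θ‖ ≤ C n * Real.exp (-l θ)) ∧
      (∀ᵐ θ ∂m, Tendsto (fun n => t n θ) atTop (𝓝 1)) ∧
      (∀ᵐ θ ∂m, Tendsto (fun n => v n θ) atTop (𝓝 1)) := by
  obtain ⟨c, δ, hδ, hδ', hsum, hcov⟩ := exists_arcs hi h0 (show (0 : ℝ) < 1 / 10 by norm_num)
  set a : ℕ → ℝ := fun j => 1 / (1 + 10 * δ j) with ha
  have ha0 : ∀ j, 0 < a j := fun j => by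
    have := hδ j; simp only [ha]; positivity
  have ha1 : ∀ j, a j < 1 := fun j => by
    have := hδ j; simp only [ha]; rw [div_lt_one (by positivity)]; linarith
  have hε : ∀ j, 1 - a j ≤ 10 * δ j := fun j => by
    have := hδ j
    simp only [ha]
    rw [sub_le_iff_le_add, ← sub_le_iff_le_add', le_div_iff₀ (by positivity)]
    nlinarith [sq_nonneg (δ j)]
  have hεs : Summable fun j => 1 - a j :=
    Summable.of_nonneg_of_le (fun j => by linarith [ha1 j]) hε (hsum.mul_left 10)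
  set s : ℕ → ℂ := fun j => conj (pt (c j)) with hs
  have hsn : ∀ j, ‖s j‖ = 1 := fun j => by simp only [hs]; rw [RCLike.norm_conj, norm_pt]
  set β : ℕ → ℝ → ℂ := fun j θ => bf (a j) (s j) (pt θ) with hβ
  set φ : ℕ → ℝ → ℂ := fun j θ => hf (a j) (s j) (pt θ) with hφ
  have hβPD : PD β (fun j => 1 - a j) := by
    refine ⟨fun j => (bf_HB (ha0 j).le (ha1 j) (hsn j)).isHb, fun j => ?_, fun j => ?_, fun j => ?_,
      hεs, fun j => ?_⟩
    · exact Eventually.of_forall fun θ => (bf_norm (ha0 j).le (ha1 j) (hsn j) (norm_pt θ)).le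
    · linarith [ha1 j]
    · linarith [ha0 j]
    · rw [mean_HB (bf_HB (ha0 j).le (ha1 j) (hsn j))]
      simp [bf]
  have hφPD : PD φ (fun j => (1 - a j) / 2) := by
    refine ⟨fun j => (hf_HB (ha0 j).le (ha1 j) (hsn j)).isHb, fun j => ?_, fun j => ?_, fun j => ?_,
      hεs.div_const 2, fun j => ?_⟩
    · exact Eventually.of_forall fun θ => hf_norm (ha0 j).le (ha1 j) (hsn j) (norm_pt θ)
    · linarith [ha1 j]
    · linarith [ha0 j]
    · rw [mean_HB (hf_HB (ha0 j).le (ha1 j) (hsn j))]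
      simp [hf, bf]
      ring
  have hβn : ∀ j θ, ‖β j θ‖ = 1 := fun j θ => bf_norm (ha0 j).le (ha1 j) (hsn j) (norm_pt θ)
  have hφn : ∀ j θ, ‖φ j θ‖ ≤ 1 := fun j θ => hf_norm (ha0 j).le (ha1 j) (hsn j) (norm_pt θ)
  have hφe : ∀ j θ, φ j θ = β j θ * conj (φ j θ) := fun j θ =>
    hf_eq (ha0 j).le (ha1 j) (hsn j) (norm_pt θ)
  have hβne : ∀ j, ∀ᵐ θ ∂m, β j θ ≠ 0 := fun j => Eventually.of_forall fun θ h => by
    have := hβn j θ; rw [h] at this; simp at this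
  have hφne : ∀ j, ∀ᵐ θ ∂m, φ j θ ≠ 0 := fun j =>
    (log_int (hφPD.hb j) (hφPD.le j) (by
      rw [hφPD.mean j, Complex.ofReal_ne_zero]
      linarith [ha0 j])).1
  have hφs : ∀ j θ, |θ - c j| ≤ δ j → ‖φ j θ‖ ≤ Real.exp (-1) := by
    intro j θ h
    refine (hf_small (K := 10) (by norm_num) (hδ j) h).trans ?_
    have h1 := hδ' j
    have h2 : (0.36 : ℝ) ≤ Real.exp (-1) := by
      rw [Real.exp_neg]
      have h3 := Real.exp_one_lt_d9
      rw [le_inv_comm₀ (by norm_num) (Real.exp_pos 1)]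
      norm_num at h3 ⊢
      linarith
    norm_num at h1 h2 ⊢
    linarith
  obtain ⟨Θ, hΘ, hΘl⟩ := hβPD.lim
  obtain ⟨V, hV, hVl⟩ := hφPD.lim
  obtain ⟨ψ₁, hψ₁, h1⟩ := subseq_ae (fun k => (hβPD.prod_hb (Finset.range k)).1.1.sub hΘ.1.1) hΘl
  obtain ⟨ψ₂, hψ₂, h2⟩ := subseq_ae
    (fun k => (hφPD.prod_hb (Finset.range (ψ₁ k))).1.1.sub hV.1.1) (hVl.comp hψ₁.tendsto_atTop)
  set N : ℕ → ℕ := fun k => ψ₁ (ψ₂ k) with hN
  have hNm : StrictMono N := hψ₁.comp hψ₂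
  have hΘl' : ∀ᵐ θ ∂m, Tendsto (fun k => ∏ j ∈ Finset.range (N k), β j θ) atTop (𝓝 (Θ θ)) := by
    filter_upwards [h1] with θ hθ
    have := (hθ.comp hψ₂.tendsto_atTop).add_const (Θ θ)
    simpa [Function.comp_def] using this
  have hVl' : ∀ᵐ θ ∂m, Tendsto (fun k => ∏ j ∈ Finset.range (N k), φ j θ) atTop (𝓝 (V θ)) := by
    filter_upwards [h2] with θ hθ
    have := hθ.add_const (V θ)
    simpa [Function.comp_def] using this
  obtain ⟨T₁, hT₁l, hT₁e, hT₁H, hT₁b, hT₁t⟩ := hβPD.tail hβne hNm hΘl'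
  obtain ⟨T₂, hT₂l, hT₂e, hT₂H, hT₂b, hT₂t⟩ := hφPD.tail hφne hNm hVl'
  obtain ⟨χ₁, hχ₁, h3⟩ := subseq_ae (fun k => (hT₁H k).1.1.sub (memLp_const 1)) hT₁t
  obtain ⟨χ₂, hχ₂, h4⟩ := subseq_ae (fun k => (hT₂H (χ₁ k)).1.1.sub (memLp_const 1))
    (hT₂t.comp hχ₁.tendsto_atTop)
  set χ : ℕ → ℕ := fun k => χ₁ (χ₂ k) with hχ
  refine ⟨Θ, fun n θ => ∏ j ∈ Finset.range (χ n), β j θ, fun n => T₁ (χ n), fun n => T₂ (χ n),
    fun n => Real.exp (χ n), hΘ, ?_, fun n => hβPD.prod_hb _, fun n => hT₁H _, fun n => hT₂H _,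
    ?_, ?_, ?_⟩
  · -- the mean of Θ
    rw [ev_zero]
    intro hz
    have h5 : ∀ n, ∫ θ, T₁ n θ ∂m = 0 := by
      intro n
      have h6 : ∫ θ, Θ θ ∂m = (∫ θ, ∏ j ∈ Finset.range n, β j θ ∂m) * ∫ θ, T₁ n θ ∂m := by
        rw [← mean_mul (hβPD.prod_hb (Finset.range n)) (hT₁H n).1]
        apply integral_congr_ae
        filter_upwards [hT₁e] with θ hθ using hθ n
      rw [hz, hβPD.prod_mean] at h6
      have h7 : ((∏ j ∈ Finset.range n, (1 - (1 - a j)) : ℝ) : ℂ) ≠ 0 := by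
        rw [Complex.ofReal_ne_zero, Finset.prod_ne_zero_iff]
        intro j _
        have := ha0 j
        rw [sub_sub_cancel]
        exact this.ne'
      exact (mul_eq_zero.1 h6.symm).resolve_left h7
    have h6 : ∀ n, 1 ≤ ∫ θ, ‖T₁ n θ - 1‖ ^ 2 ∂m := by
      intro n
      rw [int_norm_sub_one_sq (hT₁H n).1.1, h5 n]
      have : 0 ≤ ∫ θ, ‖T₁ n θ‖ ^ 2 ∂m := integral_nonneg fun θ => by positivity
      simp only [Complex.zero_re, mul_zero, sub_zero]
      linarith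
    have h7 := ge_of_tendsto hT₁t (Eventually.of_forall h6)
    norm_num at h7
  · filter_upwards [hT₁l, hT₁e, hT₂l, hT₂e, hcov, ae_all_iff.2 hT₂b] with θ g1 g2 g3 g4 g5 g6 n
    have hbn : ‖∏ j ∈ Finset.range (χ n), β j θ‖ = 1 := by
      rw [norm_prod]; exact Finset.prod_eq_one fun j _ => hβn j θ
    refine ⟨hbn, ?_, g2 _, ?_, g6 _, ?_⟩
    · refine tendsto_nhds_unique (g1 (χ n)).norm (tendsto_const_nhds.congr fun k => ?_)
      rw [norm_prod]; exact (Finset.prod_eq_one fun j _ => hβn j θ).symm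
    · have h5 := (g1 (χ n)).mul ((Complex.continuous_conj.tendsto _).comp (g3 (χ n)))
      refine tendsto_nhds_unique (g3 (χ n)) (h5.congr fun k => ?_)
      simp only [Function.comp_apply, map_prod]
      rw [← Finset.prod_mul_distrib]
      exact Finset.prod_congr rfl fun j _ => (hφe j θ).symm
    · obtain ⟨A, hA, hA'⟩ := g5
      refine le_of_tendsto (g3 (χ n)).norm ?_
      filter_upwards [hNm.tendsto_atTop.eventually_ge_atTop (A.sup id + 1)] with k hk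
      have hsub : A \ Finset.range (χ n) ⊆ Finset.Ico (χ n) (N k) := by
        intro j hj
        rw [Finset.mem_sdiff, Finset.mem_range, not_lt] at hj
        rw [Finset.mem_Ico]
        refine ⟨hj.2, ?_⟩
        have := Finset.le_sup (f := id) hj.1
        simp only [id] at this
        omega
      rw [norm_prod, ← Finset.prod_sdiff hsub]
      have h6 : ∏ j ∈ Finset.Ico (χ n) (N k) \ (A \ Finset.range (χ n)), ‖φ j θ‖ ≤ 1 :=
        Finset.prod_le_one (fun _ _ => norm_nonneg _) fun j _ => hφn j θ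
      have h7 : ∏ j ∈ A \ Finset.range (χ n), ‖φ j θ‖ ≤
          Real.exp (-1) ^ (A \ Finset.range (χ n)).card := by
        rw [← Finset.prod_const]
        apply Finset.prod_le_prod (fun _ _ => norm_nonneg _)
        intro j hj
        exact hφs j θ (hA' j (Finset.mem_sdiff.1 hj).1)
      have h8 : (A.card : ℝ) ≤ (A \ Finset.range (χ n)).card + χ n := by
        have := Finset.card_le_card_sdiff_add_card (s := A) (t := Finset.range (χ n))
        rw [Finset.card_range] at this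
        exact_mod_cast this
      calc _ ≤ 1 * Real.exp (-1) ^ (A \ Finset.range (χ n)).card :=
            mul_le_mul h6 h7 (Finset.prod_nonneg fun _ _ => norm_nonneg _) zero_le_one
        _ = Real.exp (-((A \ Finset.range (χ n)).card : ℝ)) := by
            rw [one_mul, ← Real.exp_nat_mul]; congr 1; ring
        _ ≤ Real.exp (χ n + -l θ) := by
            apply Real.exp_le_exp.2; linarith
        _ = _ := Real.exp_add _ _
  · filter_upwards [h3] with θ hθ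
    have := (hθ.comp hχ₂.tendsto_atTop).add_const 1
    simpa [Function.comp_def] using this
  · filter_upwards [h4] with θ hθ
    have := hθ.add_const 1
    simpa [Function.comp_def] using this

end Pool.Agent.H291.Jpq
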