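import Mathlib

/-!
Definitions used in the statement on the canonical Schur functions of regular `j`-inner functions.
-/

set_option autoImplicit false

open MeasureTheory Filter Topology Set Metric Matrix
open scoped Real ComplexConjugate ENNReal ComplexOrder

namespace Pool.Agent.H291.Jpq

/-- Normalised Lebesgue measure on the circle, parametrised by the angle. -/
noncomputable def m : Measure ℝ :=
  (ENNReal.ofReal (2 * π))⁻¹ • volume.restrict (Ioc 0 (2 * π))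

/-- The point of the circle with angle `θ`. -/
noncomputable def pt (θ : ℝ) : ℂ := Complex.exp (θ * Complex.I)

/-- The Stolz region with vertex `ζ` and aperture `C`. -/
def stolz (ζ : ℂ) (C : ℝ) : Set ℂ := {z | ‖z‖ < 1 ∧ ‖z - ζ‖ ≤ C * (1 - ‖z‖)}

/-- `F` has the nontangential limit `L` at the point `ζ` of the unit circle. -/
def NTLim {E : Type*} [TopologicalSpace E] (F : ℂ → E) (ζ : ℂ) (L : E) : Prop :=
  ∀ C : ℝ, Tendsto F (𝓝[stolz ζ C] ζ) (𝓝 L)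

/-- Meromorphic functions of bounded type in the unit disc: quotients `a / b` of bounded
holomorphic functions, `b` not identically zero (the values at the zeros of `b` are free). -/
def BddType (F : ℂ → ℂ) : Prop :=
  ∃ a b : ℂ → ℂ, DifferentiableOn ℂ a (ball 0 1) ∧ DifferentiableOn ℂ b (ball 0 1) ∧
    (∃ M : ℝ, ∀ z ∈ ball (0 : ℂ) 1, ‖a z‖ ≤ M ∧ ‖b z‖ ≤ M) ∧
    (∃ z ∈ ball (0 : ℂ) 1, b z ≠ 0) ∧ ∀ z ∈ ball (0 : ℂ) 1, b z ≠ 0 → F z = a z / b z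

/-- The Smirnov class: holomorphic functions `h` of bounded type in the disc such that
`sup_{r < 1} ∫ log⁺ |h(r ζ)| dm = ∫ log⁺ |h(ζ)| dm < ∞`, with the boundary function of `h`. -/
def Smirnov (h : ℂ → ℂ) : Prop :=
  DifferentiableOn ℂ h (ball 0 1) ∧ BddType h ∧
    ∃ hb : ℝ → ℂ, (∀ᵐ θ ∂m, NTLim h (pt θ) (hb θ)) ∧
      Integrable (fun θ => Real.posLog ‖hb θ‖) m ∧
      IsLUB ((fun r : ℝ => ∫ θ, Real.posLog ‖h (r * pt θ)‖ ∂m) '' Ico 0 1)
        (∫ θ, Real.posLog ‖hb θ‖ ∂m)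

/-- All entries of the matrix function are analytic at `z`. -/
def AnAt {ν μ : Type*} (W : ℂ → Matrix ν μ ℂ) (z : ℂ) : Prop :=
  ∀ i j, AnalyticAt ℂ (fun w => W w i j) z

/-- The signature matrix `diag(1, -1)`. -/
def JJ (ι κ : Type*) [DecidableEq ι] [DecidableEq κ] : Matrix (ι ⊕ κ) (ι ⊕ κ) ℂ :=
  fromBlocks 1 0 0 (-1)

/-- The class of `j`-inner functions, `j = diag(1, -1)` with blocks indexed by `ι` and `κ`. -/
structure JInner {ι κ : Type*} [Fintype ι] [Fintype κ] [DecidableEq ι] [DecidableEq κ]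
    (W : ℂ → Matrix (ι ⊕ κ) (ι ⊕ κ) ℂ) : Prop where
  bddType : ∀ i j, BddType (fun z => W z i j)
  det_ne : ∃ z ∈ ball (0 : ℂ) 1, AnAt W z ∧ (W z).det ≠ 0
  contr : ∀ z ∈ ball (0 : ℂ) 1, AnAt W z → (JJ ι κ - (W z)ᴴ * JJ ι κ * W z).PosSemidef
  bdry : ∀ᵐ θ ∂m, ∃ L : Matrix (ι ⊕ κ) (ι ⊕ κ) ℂ, NTLim W (pt θ) L ∧ Lᴴ * JJ ι κ * L = JJ ι κ

/-- `A`-singular functions: `V` and `V⁻¹` are in the Smirnov class. -/
def ASingular {ν : Type*} [Fintype ν] [DecidableEq ν] (V : ℂ → Matrix ν ν ℂ) : Prop :=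
  (∀ i j, Smirnov (fun z => V z i j)) ∧ ∀ i j, Smirnov (fun z => (V z)⁻¹ i j)

/-- Left regular functions: every `A`-singular right divisor is constant. -/
def LeftRegular {ι κ : Type*} [Fintype ι] [Fintype κ] [DecidableEq ι] [DecidableEq κ]
    (W : ℂ → Matrix (ι ⊕ κ) (ι ⊕ κ) ℂ) : Prop :=
  ∀ V : ℂ → Matrix (ι ⊕ κ) (ι ⊕ κ) ℂ, JInner V → JInner (fun z => W z * (V z)⁻¹) →
    ASingular V → ∃ C : Matrix (ι ⊕ κ) (ι ⊕ κ) ℂ, ∀ z ∈ ball (0 : ℂ) 1, V z = C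

/-- `f` is the canonical Schur function `W₁₂ W₂₂⁻¹` of `W`: it is holomorphic in the disc and
given by this formula at the points of analyticity of `W`. -/
def IsEta {ι κ : Type*} [Fintype ι] [Fintype κ] [DecidableEq ι] [DecidableEq κ]
    (W : ℂ → Matrix (ι ⊕ κ) (ι ⊕ κ) ℂ) (f : ℂ → Matrix ι κ ℂ) : Prop :=
  (∀ i j, DifferentiableOn ℂ (fun z => f z i j) (ball 0 1)) ∧
    ∀ z ∈ ball (0 : ℂ) 1, AnAt W z → f z = (W z).toBlocks₁₂ * (W z).toBlocks₂₂⁻¹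

end Pool.Agent.H291.Jpq
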