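import Pool.Agent.H291.Jpq.Ring

/-!
Null sequences in `L²`.
-/

set_option autoImplicit false
set_option linter.unusedSectionVars false

open MeasureTheory Filter Topology Set Metric Matrix
open scoped Real ComplexConjugate ENNReal

namespace Pool.Agent.H291.Jpq

variable {ι κ : Type*} [Fintype ι] [Fintype κ]

/-- null sequences -/
def N0 (f : ℕ → ℝ → ℂ) : Prop :=
  (∀ n, MemLp (f n) 2 m) ∧ Tendsto (fun n => ∫ θ, ‖f n θ‖ ^ 2 ∂m) atTop (𝓝 0)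

theorem N0.of_le {f : ℕ → ℝ → ℂ} {b : ℕ → ℝ} (hf : ∀ n, MemLp (f n) 2 m)
    (h : ∀ n, ∫ θ, ‖f n θ‖ ^ 2 ∂m ≤ b n) (hb : Tendsto b atTop (𝓝 0)) : N0 f :=
  ⟨hf, tendsto_of_tendsto_of_tendsto_of_le_of_le tendsto_const_nhds hb
    (fun n => integral_nonneg fun θ => by positivity) h⟩

theorem N0.add {f g : ℕ → ℝ → ℂ} (hf : N0 f) (hg : N0 g) : N0 (fun n θ => f n θ + g n θ) := by
  refine N0.of_le (b := fun n => 2 * ∫ θ, ‖f n θ‖ ^ 2 ∂m + 2 * ∫ θ, ‖g n θ‖ ^ 2 ∂m)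
    (fun n => (hf.1 n).add (hg.1 n)) (fun n => ?_) ?_
  · rw [← integral_const_mul, ← integral_const_mul, ← integral_add
      ((int_norm_sq (hf.1 n)).const_mul 2) ((int_norm_sq (hg.1 n)).const_mul 2)]
    apply integral_mono (int_norm_sq ((hf.1 n).add (hg.1 n)))
      (((int_norm_sq (hf.1 n)).const_mul 2).add ((int_norm_sq (hg.1 n)).const_mul 2))
    intro θ
    change ‖f n θ + g n θ‖ ^ 2 ≤ 2 * ‖f n θ‖ ^ 2 + 2 * ‖g n θ‖ ^ 2
    have h1 : ‖f n θ + g n θ‖ ^ 2 ≤ (‖f n θ‖ + ‖g n θ‖) ^ 2 := by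
      gcongr; exact norm_add_le _ _
    nlinarith [sq_nonneg (‖f n θ‖ - ‖g n θ‖)]
  · have := (hf.2.const_mul 2).add (hg.2.const_mul 2)
    simpa using this

theorem N0.bdd_mul {f b : ℕ → ℝ → ℂ} (hf : N0 f) {C : ℝ} (hb : ∀ n, AEStronglyMeasurable (b n) m)
    (hC : ∀ n, ∀ᵐ θ ∂m, ‖b n θ‖ ≤ C) : N0 (fun n θ => b n θ * f n θ) := by
  refine N0.of_le (b := fun n => C ^ 2 * ∫ θ, ‖f n θ‖ ^ 2 ∂m)
    (fun n => memLp_bdd_mul (hb n) (hC n) (hf.1 n)) (fun n => ?_) ?_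
  · rw [← integral_const_mul]
    apply integral_mono_ae (int_norm_sq (memLp_bdd_mul (hb n) (hC n) (hf.1 n)))
      ((int_norm_sq (hf.1 n)).const_mul _)
    filter_upwards [hC n] with θ hθ
    rw [norm_mul, mul_pow]
    gcongr
  · have := hf.2.const_mul (C ^ 2)
    simpa using this

theorem N0.neg {f : ℕ → ℝ → ℂ} (hf : N0 f) : N0 (fun n θ => -f n θ) :=
  ⟨fun n => (hf.1 n).neg, by simpa using hf.2⟩

theorem N0.sub {f g : ℕ → ℝ → ℂ} (hf : N0 f) (hg : N0 g) : N0 (fun n θ => f n θ - g n θ) := by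
  simpa [sub_eq_add_neg] using hf.add hg.neg

theorem N0.zero : N0 (fun _ _ => 0) := ⟨fun _ => MemLp.zero', by simp⟩

theorem N0.sum (s : Finset ι) {f : ι → ℕ → ℝ → ℂ} (h : ∀ i, N0 (f i)) :
    N0 (fun n θ => ∑ i ∈ s, f i n θ) := by
  classical
  induction s using Finset.induction_on with
  | empty => simpa using N0.zero
  | insert a s ha ih =>
    simp only [Finset.sum_insert ha]
    exact (h a).add ih

theorem N0.congr {f g : ℕ → ℝ → ℂ} (hf : N0 f) (e : ∀ n, ∀ᵐ θ ∂m, f n θ = g n θ) : N0 g := by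
  refine ⟨fun n => (hf.1 n).ae_eq (e n), ?_⟩
  refine hf.2.congr fun n => ?_
  apply integral_congr_ae
  filter_upwards [e n] with θ hθ
  rw [hθ]

/-- Multipliers tending to one. -/
theorem N0.mult {v : ℕ → ℝ → ℂ} {f : ℝ → ℂ} (hf : MemLp f 2 m) (hv : ∀ n, IsHb (v n))
    (h1 : ∀ n, ∀ᵐ θ ∂m, ‖v n θ‖ ≤ 1) (hl : ∀ᵐ θ ∂m, Tendsto (fun n => v n θ) atTop (𝓝 1)) :
    N0 (fun n θ => (v n θ - 1) * f θ) := by
  have hb : ∀ n, ∀ᵐ θ ∂m, ‖v n θ - 1‖ ≤ 2 := by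
    intro n
    filter_upwards [h1 n] with θ hθ
    refine (norm_sub_le _ _).trans ?_
    rw [norm_one]; linarith
  have hm : ∀ n, AEStronglyMeasurable (fun θ => v n θ - 1) m := fun n =>
    (hv n).1.1.1.sub aestronglyMeasurable_const
  refine ⟨fun n => memLp_bdd_mul (hm n) (hb n) hf, ?_⟩
  have h2 : Tendsto (fun n => ∫ θ, ‖(v n θ - 1) * f θ‖ ^ 2 ∂m) atTop (𝓝 (∫ _θ : ℝ, (0 : ℝ) ∂m)) := by
    apply tendsto_integral_of_dominated_convergence (fun θ => 4 * ‖f θ‖ ^ 2)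
    · intro n
      exact (int_norm_sq (memLp_bdd_mul (hm n) (hb n) hf)).1
    · exact (int_norm_sq hf).const_mul 4
    · intro n
      filter_upwards [hb n] with θ hθ
      rw [Real.norm_of_nonneg (by positivity), norm_mul, mul_pow]
      have : ‖v n θ - 1‖ ^ 2 ≤ 2 ^ 2 := by gcongr
      nlinarith [sq_nonneg ‖f θ‖]
    · filter_upwards [hl] with θ hθ
      have h3 : Tendsto (fun n => ‖(v n θ - 1) * f θ‖ ^ 2) atTop (𝓝 (‖((1 : ℂ) - 1) * f θ‖ ^ 2)) :=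
        (((hθ.sub_const 1).mul_const (f θ)).norm).pow 2
      simpa using h3
  simpa using h2

/-- The analytic part of a null sequence is null. -/
theorem N0.proj {f x u : ℕ → ℝ → ℂ} (hf : N0 f) (hx : ∀ n, IsH2 (x n)) (hu : ∀ n, IsH2m (u n))
    (e : ∀ n, ∀ᵐ θ ∂m, f n θ = x n θ + u n θ) : N0 x := by
  refine N0.of_le (fun n => (hx n).1) (fun n => ?_) hf.2
  have h1 : ∫ θ, ‖f n θ‖ ^ 2 ∂m = ∫ θ, ‖x n θ + u n θ‖ ^ 2 ∂m := by
    apply integral_congr_ae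
    filter_upwards [e n] with θ hθ
    rw [hθ]
  rw [h1, norm_sq_add (hx n) (hu n)]
  have : 0 ≤ ∫ θ, ‖u n θ‖ ^ 2 ∂m := integral_nonneg fun θ => by positivity
  linarith

theorem N0.toLp {f : ℕ → ℝ → ℂ} {g : ℝ → ℂ} (hf : ∀ n, MemLp (f n) 2 m) (hg : MemLp g 2 m)
    (h : N0 (fun n θ => f n θ - g θ)) :
    Tendsto (fun n => (hf n).toLp (f n)) atTop (𝓝 (hg.toLp g)) := by
  rw [tendsto_iff_norm_sub_tendsto_zero]
  have h2 : Tendsto (fun n => ‖(hf n).toLp (f n) - hg.toLp g‖ ^ 2) atTop (𝓝 0) := by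
    refine h.2.congr fun n => ?_
    rw [← MemLp.toLp_sub (hf n) hg, L2_norm_sq]
    rfl
  have h3 := h2.sqrt
  simpa using h3

theorem N0.norm {f : ℕ → ℝ → ℂ} {g : ℝ → ℂ} (hf : ∀ n, MemLp (f n) 2 m) (hg : MemLp g 2 m)
    (h : N0 (fun n θ => f n θ - g θ)) :
    Tendsto (fun n => ∫ θ, ‖f n θ‖ ^ 2 ∂m) atTop (𝓝 (∫ θ, ‖g θ‖ ^ 2 ∂m)) := by
  have h1 := ((N0.toLp hf hg h).norm).pow 2
  simp only [L2_norm_sq] at h1
  exact h1

theorem N0.ev {f : ℕ → ℝ → ℂ} {g : ℝ → ℂ} (hf : ∀ n, MemLp (f n) 2 m) (hg : MemLp g 2 m)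
    (h : N0 (fun n θ => f n θ - g θ)) {w : ℂ} (hw : ‖w‖ < 1) :
    Tendsto (fun n => ev w (f n)) atTop (𝓝 (ev w g)) := by
  have hc : MemLp (fun θ => conj (ck w θ)) 2 m := memLp_conj (ck_memLp hw)
  have h1 : Tendsto (fun n => inner ℂ (hc.toLp _) ((hf n).toLp (f n))) atTop
      (𝓝 (inner ℂ (hc.toLp _) (hg.toLp g))) := 
    tendsto_const_nhds.inner (N0.toLp hf hg h)
  have h2 : ∀ {k : ℝ → ℂ} (hk : MemLp k 2 m), inner ℂ (hc.toLp _) (hk.toLp k) = Jpq.ev w k := by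
    intro k hk
    rw [L2_inner]
    unfold Jpq.ev
    congr 1
    funext θ
    rw [Complex.conj_conj, mul_comm]
  rw [h2 hg] at h1
  refine h1.congr fun n => ?_
  rw [h2 (hf n)]

/-- vector valued null sequences -/
def VN0 (f : ℕ → ℝ → ι → ℂ) : Prop := ∀ i, N0 (fun n θ => f n θ i)

theorem VN0.mulVec (P : Matrix ι κ HbR) {f : ℕ → ℝ → κ → ℂ} (h : VN0 f) :
    VN0 (fun n θ => bM P θ *ᵥ f n θ) := fun i =>
  N0.sum Finset.univ (f := fun j n θ => (P i j : ℝ → ℂ) θ * f n θ j) fun j => by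
    obtain ⟨C, hC⟩ := (P i j).2.2
    exact (h j).bdd_mul (fun _ => (P i j).2.1.1.1) (fun _ => hC)

theorem VN0.nsq {f : ℕ → ℝ → ι → ℂ} {g : ℝ → ι → ℂ} (hf : ∀ n, VL2 (f n)) (hg : VL2 g)
    (h : VN0 (fun n θ => f n θ - g θ)) : Tendsto (fun n => nsq (f n)) atTop (𝓝 (nsq g)) := by
  have h1 : ∀ {k : ℝ → ι → ℂ}, VL2 k → Jpq.nsq k = ∑ i, ∫ θ, ‖k θ i‖ ^ 2 ∂m := by
    intro k hk
    rw [Jpq.nsq, integral_finsetSum]
    intro i _
    exact int_norm_sq (hk i)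
  rw [h1 hg]
  have h2 : (fun n => Jpq.nsq (f n)) = fun n => ∑ i, ∫ θ, ‖f n θ i‖ ^ 2 ∂m := by
    funext n; exact h1 (hf n)
  rw [h2]
  exact tendsto_finsetSum _ fun i _ => N0.norm (fun n => hf n i) (hg i) (h i)

theorem VN0.vev {f : ℕ → ℝ → ι → ℂ} {g : ℝ → ι → ℂ} (hf : ∀ n, VL2 (f n)) (hg : VL2 g)
    (h : VN0 (fun n θ => f n θ - g θ)) {w : ℂ} (hw : ‖w‖ < 1) :
    Tendsto (fun n => vev w (f n)) atTop (𝓝 (vev w g)) := by
  rw [tendsto_pi_nhds]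
  intro i
  exact N0.ev (fun n => hf n i) (hg i) (h i) hw

end Pool.Agent.H291.Jpq
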