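import Pool.Agent.H291.Jpq.Transfer
import Pool.Agent.H291.Jpq.Null
import Pool.Agent.H291.Jpq.Cutoff

/-!
Density of the square integrable elements after multiplication with a suitable inner function.
-/

set_option autoImplicit false
set_option linter.unusedSectionVars false

open MeasureTheory Filter Topology Set Metric Matrix
open scoped Real ComplexConjugate ENNReal

namespace Pool.Agent.H291.Jpq

variable {ι κ : Type*} [Fintype ι] [Fintype κ] [DecidableEq ι] [DecidableEq κ]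

/-- Insert a scalar inner factor in the first components. -/
def Sys.tw (s : Sys ι κ) (Θ : HbR) : Sys ι κ := ⟨Θ • s.A, s.F, Θ • s.B, s.D⟩

theorem bM_smul {ι κ : Type*} (c : HbR) (P : Matrix ι κ HbR) (θ : ℝ) :
    bM (c • P) θ = (c : ℝ → ℂ) θ • bM P θ := by
  ext i j
  rfl

theorem iM_smul {ι κ : Type*} (c : HbR) (P : Matrix ι κ HbR) {w : ℂ} (hw : ‖w‖ < 1) :
    iM (c • P) hw = ev w c • iM P hw := by
  ext i j
  exact (iv hw).map_mul c (P i j)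

theorem dens_alg1 {A : Matrix ι ι ℂ} {F : Matrix ι κ ℂ} {B : Matrix κ ι ℂ} {D : Matrix κ κ ℂ}
    (h : (fromBlocks A F B D)ᴴ * fromBlocks A F B D = 1) {Θ b t v : ℂ} (hb : ‖b‖ = 1)
    (ht : ‖t‖ = 1) (hΘ : Θ = b * t) (hv : v = t * conj v) (gl x u : ι → ℂ) (gr r : κ → ℂ)
    (hx : t • ((Θ • A)ᴴ *ᵥ gl + (Θ • B)ᴴ *ᵥ gr) = x + u) :
    (Θ • A)ᴴ *ᵥ (v • (gl - b • (A *ᵥ x)) - F *ᵥ r) +
      (Θ • B)ᴴ *ᵥ (v • (gr - b • (B *ᵥ x)) - D *ᵥ r) = conj v • u := by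
  obtain ⟨h1, h2, -, -⟩ := unit_blocks h
  have hbb : conj b * b = 1 := by
    rw [mul_comm, Complex.mul_conj, Complex.normSq_eq_norm_sq, hb]; norm_num
  have htt : t * conj t = 1 := by
    rw [Complex.mul_conj, Complex.normSq_eq_norm_sq, ht]; norm_num
  have e0 : u = t • ((Θ • A)ᴴ *ᵥ gl + (Θ • B)ᴴ *ᵥ gr) - x := by rw [hx]; abel
  have e1 : Aᴴ *ᵥ (A *ᵥ x) + Bᴴ *ᵥ (B *ᵥ x) = x := by
    rw [Matrix.mulVec_mulVec, Matrix.mulVec_mulVec, ← Matrix.add_mulVec, h1, Matrix.one_mulVec]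
  have e2 : Aᴴ *ᵥ (F *ᵥ r) + Bᴴ *ᵥ (D *ᵥ r) = 0 := by
    rw [Matrix.mulVec_mulVec, Matrix.mulVec_mulVec, ← Matrix.add_mulVec, h2, Matrix.zero_mulVec]
  have e3 : (Θ • A)ᴴ = conj Θ • Aᴴ := Matrix.conjTranspose_smul _ _
  have e4 : (Θ • B)ᴴ = conj Θ • Bᴴ := Matrix.conjTranspose_smul _ _
  rw [e0, e3, e4]
  simp only [Matrix.smul_mulVec, Matrix.mulVec_sub, Matrix.mulVec_smul]
  have e5 : v • (conj Θ • (Aᴴ *ᵥ gl) - b • (conj Θ • (Aᴴ *ᵥ (A *ᵥ x)))) -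
      conj Θ • (Aᴴ *ᵥ (F *ᵥ r)) +
      (v • (conj Θ • (Bᴴ *ᵥ gr) - b • (conj Θ • (Bᴴ *ᵥ (B *ᵥ x)))) -
        conj Θ • (Bᴴ *ᵥ (D *ᵥ r))) =
      (conj Θ * v) • (Aᴴ *ᵥ gl + Bᴴ *ᵥ gr) -
        (conj Θ * v * b) • (Aᴴ *ᵥ (A *ᵥ x) + Bᴴ *ᵥ (B *ᵥ x)) -
        conj Θ • (Aᴴ *ᵥ (F *ᵥ r) + Bᴴ *ᵥ (D *ᵥ r)) := by module
  rw [e5, e1, e2, smul_zero, sub_zero]
  have e6 : conj v * t = v := by rw [mul_comm]; exact hv.symm
  have e7 : conj Θ * v * b = conj v := by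
    rw [hΘ, map_mul]
    calc conj b * conj t * v * b = (conj b * b) * (conj t * v) := by ring
      _ = conj t * (t * conj v) := by rw [hbb, one_mul, ← hv]
      _ = (t * conj t) * conj v := by ring
      _ = conj v := by rw [htt, one_mul]
  rw [e7]
  have e8 : conj v • (t • (conj Θ • Aᴴ *ᵥ gl + conj Θ • Bᴴ *ᵥ gr) - x) =
      (conj v * t * conj Θ) • (Aᴴ *ᵥ gl + Bᴴ *ᵥ gr) - conj v • x := by module
  rw [e8, e6, mul_comm v]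

theorem dens_alg2 {A : Matrix ι ι ℂ} {F : Matrix ι κ ℂ} {B : Matrix κ ι ℂ} {D : Matrix κ κ ℂ}
    (h : (fromBlocks A F B D)ᴴ * fromBlocks A F B D = 1) {b v : ℂ}
    (gl x : ι → ℂ) (gr r q : κ → ℂ)
    (hx : v • (Fᴴ *ᵥ gl + Dᴴ *ᵥ gr) = r + q) :
    Fᴴ *ᵥ (v • (gl - b • (A *ᵥ x)) - F *ᵥ r) +
      Dᴴ *ᵥ (v • (gr - b • (B *ᵥ x)) - D *ᵥ r) = q := by
  obtain ⟨-, -, h3, h4⟩ := unit_blocks h
  have e1 : Fᴴ *ᵥ (A *ᵥ x) + Dᴴ *ᵥ (B *ᵥ x) = 0 := by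
    rw [Matrix.mulVec_mulVec, Matrix.mulVec_mulVec, ← Matrix.add_mulVec, h3, Matrix.zero_mulVec]
  have e2 : Fᴴ *ᵥ (F *ᵥ r) + Dᴴ *ᵥ (D *ᵥ r) = r := by
    rw [Matrix.mulVec_mulVec, Matrix.mulVec_mulVec, ← Matrix.add_mulVec, h4, Matrix.one_mulVec]
  have e0 : q = v • (Fᴴ *ᵥ gl + Dᴴ *ᵥ gr) - r := by rw [hx]; abel
  rw [e0]
  simp only [Matrix.mulVec_sub, Matrix.mulVec_smul]
  have e5 : v • (Fᴴ *ᵥ gl - b • (Fᴴ *ᵥ (A *ᵥ x))) - Fᴴ *ᵥ (F *ᵥ r) +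
      (v • (Dᴴ *ᵥ gr - b • (Dᴴ *ᵥ (B *ᵥ x))) - Dᴴ *ᵥ (D *ᵥ r)) =
      v • (Fᴴ *ᵥ gl + Dᴴ *ᵥ gr) -
        (v * b) • (Fᴴ *ᵥ (A *ᵥ x) + Dᴴ *ᵥ (B *ᵥ x)) -
        (Fᴴ *ᵥ (F *ᵥ r) + Dᴴ *ᵥ (D *ᵥ r)) := by module
  rw [e5, e1, e2, smul_zero, sub_zero]

theorem exists_dense (s : Sys ι κ) (hs : s.Inn) {w₀ : ℂ} (hw₀ : ‖w₀‖ < 1)
    (hne : (iM s.D hw₀).det ≠ 0) :
    ∃ Θ : HbR, ev 0 (Θ : ℝ → ℂ) ≠ 0 ∧ (∀ᵐ θ ∂m, ‖(Θ : ℝ → ℂ) θ‖ = 1) ∧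
      ∀ g, KS (s.tw Θ).S g → ∃ (G : ℕ → ℝ → ι ⊕ κ → ℂ) (h : ℕ → ℝ → κ → ℂ),
        (∀ n, KS (s.tw Θ).S (G n)) ∧ (∀ n, VL2 (h n)) ∧
        (∀ n, ∀ᵐ θ ∂m, bM s.D θ *ᵥ h n θ = -rt (G n) θ) ∧ VN0 (fun n θ => G n θ - g θ) := by
  -- the determinant and its logarithm
  have hdb := s.D.det.2
  have hdne : ∀ᵐ θ ∂m, (s.D.det : ℝ → ℂ) θ ≠ 0 :=
    ae_ne_zero hdb (w := w₀) (by rw [iM_det _ hw₀]; exact hne)
  obtain ⟨C, hC⟩ := hdb.2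
  have hC0 := nonneg_of_ae_le hC
  have hC1 : 0 < C + 1 := by linarith
  have hnorm : ∀ θ, ‖((C + 1 : ℝ)⁻¹ : ℂ) * (s.D.det : ℝ → ℂ) θ‖ =
      (C + 1)⁻¹ * ‖(s.D.det : ℝ → ℂ) θ‖ := by
    intro θ
    rw [norm_mul, norm_inv, Complex.norm_real, Real.norm_of_nonneg hC1.le]
  have hle : ∀ᵐ θ ∂m, ‖((C + 1 : ℝ)⁻¹ : ℂ) * (s.D.det : ℝ → ℂ) θ‖ ≤ 1 := by
    filter_upwards [hC] with θ hθ
    rw [hnorm, inv_mul_le_iff₀ hC1]; linarith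
  have hneq : ((C + 1 : ℝ) : ℂ) ≠ 0 := by rw [Complex.ofReal_ne_zero]; exact hC1.ne'
  have hli := (log_int' (hdb.const_mul ((C + 1 : ℝ)⁻¹ : ℂ)) hle (by
    intro h
    obtain ⟨θ, h1, h2⟩ := (h.and hdne).exists
    exact (mul_ne_zero (inv_ne_zero hneq) h2) h1)).2
  obtain ⟨Θ, b, t, v, K, hΘ, hΘ0, hb, ht, hv, hall, htl, hvl⟩ := exists_cutoff hli (by
    filter_upwards [hle] with θ hθ
    have := Real.log_nonpos (norm_nonneg _) hθ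
    linarith)
  refine ⟨⟨Θ, hΘ⟩, hΘ0, ?_, ?_⟩
  · filter_upwards [hall] with θ hθ
    rw [(hθ 0).2.2.1, norm_mul, (hθ 0).1, (hθ 0).2.1, one_mul]
  intro g hg
  have hg' := hg
  rw [Sys.KS_iff] at hg'
  obtain ⟨g1, g2, g3, g4⟩ := hg'
  simp only [Sys.tw, bM_smul] at g3 g4
  set y₁ : ℝ → ι → ℂ := fun θ => (Θ θ • bM s.A θ)ᴴ *ᵥ lf g θ + (Θ θ • bM s.B θ)ᴴ *ᵥ rt g θ with hy₁
  set y₂ : ℝ → κ → ℂ := fun θ => (bM s.F θ)ᴴ *ᵥ lf g θ + (bM s.D θ)ᴴ *ᵥ rt g θ with hy₂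
  have g3' : VH2m y₁ := g3
  have g4' : VH2m y₂ := g4
  have hx' : ∀ n i, ∃ x u, IsH2 x ∧ IsH2m u ∧ ((fun θ => t n θ * y₁ θ i) =ᵐ[m]
      fun θ => x θ + u θ) := fun n i => exists_decomp ((ht n).memLp_mul (g3' i).1)
  choose x u hx hu hxu using hx'
  have hr' : ∀ n i, ∃ r q, IsH2 r ∧ IsH2m q ∧ ((fun θ => v n θ * y₂ θ i) =ᵐ[m]
      fun θ => r θ + q θ) := fun n i => exists_decomp ((hv n).memLp_mul (g4' i).1)
  choose r q hr hq hrq using hr'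
  set X : ℕ → ℝ → ι → ℂ := fun n θ i => x n i θ with hX
  set U : ℕ → ℝ → ι → ℂ := fun n θ i => u n i θ with hU
  set R : ℕ → ℝ → κ → ℂ := fun n θ i => r n i θ with hR
  set Q : ℕ → ℝ → κ → ℂ := fun n θ i => q n i θ with hQ
  have hXH : ∀ n, VH2 (X n) := fun n i => hx n i
  have hUH : ∀ n, VH2m (U n) := fun n i => hu n i
  have hRH : ∀ n, VH2 (R n) := fun n i => hr n i
  have hQH : ∀ n, VH2m (Q n) := fun n i => hq n i
  have hXU : ∀ n, ∀ᵐ θ ∂m, t n θ • y₁ θ = X n θ + U n θ := fun n => by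
    filter_upwards [ae_all_iff.2 (hxu n)] with θ hθ
    funext i; exact hθ i
  have hRQ : ∀ n, ∀ᵐ θ ∂m, v n θ • y₂ θ = R n θ + Q n θ := fun n => by
    filter_upwards [ae_all_iff.2 (hrq n)] with θ hθ
    funext i; exact hθ i
  have ht1 : ∀ n, ∀ᵐ θ ∂m, ‖t n θ‖ ≤ 1 := fun n => by
    filter_upwards [hall] with θ hθ using (hθ n).2.1.le
  have hv1 : ∀ n, ∀ᵐ θ ∂m, ‖v n θ‖ ≤ 1 := fun n => by
    filter_upwards [hall] with θ hθ using (hθ n).2.2.2.2.1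
  have hXN : VN0 X := fun i => by
    refine N0.proj (N0.mult (g3' i).1 ht ht1 htl) (fun n => hx n i)
      (fun n => (hu n i).sub (g3' i)) fun n => ?_
    filter_upwards [hxu n i] with θ hθ
    linear_combination hθ
  have hRN : VN0 R := fun i => by
    refine N0.proj (N0.mult (g4' i).1 hv hv1 hvl) (fun n => hr n i)
      (fun n => (hq n i).sub (g4' i)) fun n => ?_
    filter_upwards [hrq n i] with θ hθ
    linear_combination hθ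
  set Gl : ℕ → ℝ → ι → ℂ := fun n θ =>
    v n θ • (lf g θ - b n θ • (bM s.A θ *ᵥ X n θ)) - bM s.F θ *ᵥ R n θ with hGl
  set Gr : ℕ → ℝ → κ → ℂ := fun n θ =>
    v n θ • (rt g θ - b n θ • (bM s.B θ *ᵥ X n θ)) - bM s.D θ *ᵥ R n θ with hGr
  set H : ℕ → ℝ → κ → ℂ := fun n θ => R n θ - (v n θ / (s.D.det : ℝ → ℂ) θ) •
    (bM s.D.adjugate θ *ᵥ (rt g θ - b n θ • (bM s.B θ *ᵥ X n θ))) with hH
  have hGlH : ∀ n, VH2 (Gl n) := fun n =>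
    (VH2.smul (hv n) (g1.sub (VH2.smul (hb n) ((hXH n).mulVec s.A)))).sub ((hRH n).mulVec s.F)
  have hin : ∀ n, VH2 (fun θ => rt g θ - b n θ • (bM s.B θ *ᵥ X n θ)) := fun n =>
    g2.sub (VH2.smul (hb n) ((hXH n).mulVec s.B))
  have hGrH : ∀ n, VH2 (Gr n) := fun n => (VH2.smul (hv n) (hin n)).sub ((hRH n).mulVec s.D)
  refine ⟨fun n θ => Sum.elim (Gl n θ) (Gr n θ), H, fun n => ?_, fun n => ?_, fun n => ?_, ?_⟩
  · rw [Sys.KS_iff]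
    refine ⟨hGlH n, hGrH n, ?_, ?_⟩
    · refine (VH2m.smul (hv n) (hUH n)).congr ?_
      filter_upwards [hs, hall, hXU n] with θ k1 k2 k3
      rw [s.bM_S] at k1
      obtain ⟨l1, l2, l3, l4, l5, l6⟩ := k2 n
      have := dens_alg1 k1 l1 l2 l3 l4 (lf g θ) (X n θ) (U n θ) (rt g θ) (R n θ) k3
      rw [← this]
      simp only [Sys.tw, bM_smul]
      rfl
    · refine (hQH n).congr ?_
      filter_upwards [hs, hRQ n] with θ k1 k3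
      rw [s.bM_S] at k1
      have := dens_alg2 k1 (b := b n θ) (lf g θ) (X n θ) (rt g θ) (R n θ) (Q n θ) k3
      rw [← this]
      rfl
  · intro i
    have hbd : ∀ᵐ θ ∂m, ‖v n θ / (s.D.det : ℝ → ℂ) θ‖ ≤ |K n| * (C + 1)⁻¹ := by
      filter_upwards [hall, hdne] with θ k1 k2
      obtain ⟨-, -, -, -, -, l6⟩ := k1 n
      have k3 : 0 < ‖(s.D.det : ℝ → ℂ) θ‖ := norm_pos_iff.2 k2
      rw [hnorm, neg_neg, Real.exp_log (by positivity)] at l6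
      rw [norm_div, div_le_iff₀ k3]
      refine l6.trans ?_
      calc K n * ((C + 1)⁻¹ * ‖(s.D.det : ℝ → ℂ) θ‖) ≤
            |K n| * ((C + 1)⁻¹ * ‖(s.D.det : ℝ → ℂ) θ‖) := by
            gcongr; exact le_abs_self _
        _ = _ := by ring
    have hms : AEStronglyMeasurable (fun θ => v n θ / (s.D.det : ℝ → ℂ) θ) m :=
      ((hv n).1.1.1.aemeasurable.div hdb.1.1.1.aemeasurable).aestronglyMeasurable
    exact ((hRH n) i).1.sub (memLp_bdd_mul hms hbd (((hin n).mulVec s.D.adjugate) i).1)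
  · filter_upwards [hdne] with θ k1
    change bM s.D θ *ᵥ H n θ = -Gr n θ
    simp only [hH, hGr]
    rw [Matrix.mulVec_sub, Matrix.mulVec_smul, Matrix.mulVec_mulVec, bM_adj, Matrix.mul_adjugate,
      Matrix.smul_mulVec, Matrix.one_mulVec, smul_smul, ← bM_det, div_mul_cancel₀ _ k1]
    abel
  · intro i
    rcases i with i | i
    · have m1 : N0 (fun n θ => (v n θ - 1) * lf g θ i) := N0.mult (g1 i).1 hv hv1 hvl
      have m2 : N0 (fun n θ => (v n θ * b n θ) * (bM s.A θ *ᵥ X n θ) i) :=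
        (hXN.mulVec s.A i).bdd_mul (C := 1) (fun n => ((hv n).mul (hb n)).1.1.1) fun n => by
          filter_upwards [hall] with θ hθ
          rw [norm_mul, (hθ n).1, mul_one]; exact (hθ n).2.2.2.2.1
      refine ((m1.sub m2).sub (hRN.mulVec s.F i)).congr fun n => Eventually.of_forall fun θ => ?_
      change _ = (v n θ • (lf g θ - b n θ • (bM s.A θ *ᵥ X n θ)) - bM s.F θ *ᵥ R n θ) i - lf g θ i
      simp only [Pi.sub_apply, Pi.smul_apply, smul_eq_mul]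
      ring
    · have m1 : N0 (fun n θ => (v n θ - 1) * rt g θ i) := N0.mult (g2 i).1 hv hv1 hvl
      have m2 : N0 (fun n θ => (v n θ * b n θ) * (bM s.B θ *ᵥ X n θ) i) :=
        (hXN.mulVec s.B i).bdd_mul (C := 1) (fun n => ((hv n).mul (hb n)).1.1.1) fun n => by
          filter_upwards [hall] with θ hθ
          rw [norm_mul, (hθ n).1, mul_one]; exact (hθ n).2.2.2.2.1
      refine ((m1.sub m2).sub (hRN.mulVec s.D i)).congr fun n => Eventually.of_forall fun θ => ?_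
      change _ = (v n θ • (rt g θ - b n θ • (bM s.B θ *ᵥ X n θ)) - bM s.D θ *ᵥ R n θ) i - rt g θ i
      simp only [Pi.sub_apply, Pi.smul_apply, smul_eq_mul]
      ring

end Pool.Agent.H291.Jpq
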