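import Pool.Agent.H291.Jpq.Defs

/-!
Holomorphic functions in the unit disc.
-/

set_option autoImplicit false
set_option linter.unusedSectionVars false

open MeasureTheory Filter Topology Set Metric Matrix
open scoped Real ComplexConjugate ENNReal ComplexOrder

namespace Pool.Agent.H291.Jpq

variable {ι κ ν : Type*} [Fintype ι] [Fintype κ] [Fintype ν]

/-- The ring of functions holomorphic in the unit disc. -/
def HolR : Subring (ℂ → ℂ) where
  carrier := {f | DifferentiableOn ℂ f (ball 0 1)}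
  mul_mem' := fun h h' => DifferentiableOn.mul h h'
  one_mem' := differentiableOn_const 1
  add_mem' := fun h h' => DifferentiableOn.add h h'
  zero_mem' := differentiableOn_const 0
  neg_mem' := fun h => DifferentiableOn.neg h

/-- evaluation -/
def hv (z : ℂ) : HolR →+* ℂ := (Pi.evalRingHom (fun _ : ℂ => ℂ) z).comp HolR.subtype

/-- evaluation of matrices -/
def hM (P : Matrix ι κ HolR) (z : ℂ) : Matrix ι κ ℂ := P.map (hv z)

theorem hM_apply (P : Matrix ι κ HolR) (z : ℂ) (i : ι) (j : κ) :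
    hM P z i j = (P i j : ℂ → ℂ) z := rfl

theorem hM_mul (P : Matrix ι κ HolR) (Q : Matrix κ ν HolR) (z : ℂ) :
    hM (P * Q) z = hM P z * hM Q z := Matrix.map_mul

theorem hM_sub (P Q : Matrix ι κ HolR) (z : ℂ) : hM (P - Q) z = hM P z - hM Q z :=
  Matrix.map_sub _ (map_sub _) _ _

theorem hM_neg (P : Matrix ι κ HolR) (z : ℂ) : hM (-P) z = -hM P z := by
  ext i j
  exact map_neg (hv z) (P i j)

theorem hM_smul (c : HolR) (P : Matrix ι κ HolR) (z : ℂ) :
    hM (c • P) z = (c : ℂ → ℂ) z • hM P z := by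
  ext i j
  rfl

theorem hM_adj [DecidableEq ι] (P : Matrix ι ι HolR) (z : ℂ) :
    hM P.adjugate z = (hM P z).adjugate := (hv z).map_adjugate P

theorem hM_det [DecidableEq ι] (P : Matrix ι ι HolR) (z : ℂ) :
    (P.det : ℂ → ℂ) z = (hM P z).det := (hv z).map_det P

theorem ev_ne {f : ℂ → ℂ} (hf : DifferentiableOn ℂ f (ball 0 1))
    (hne : ∃ z ∈ ball (0 : ℂ) 1, f z ≠ 0) {z₀ : ℂ} (hz₀ : z₀ ∈ ball (0 : ℂ) 1) :
    ∀ᶠ z in 𝓝[≠] z₀, f z ≠ 0 := by
  by_contra hcon
  rw [not_eventually] at hcon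
  simp only [not_not] at hcon
  obtain ⟨z, hz, hz0⟩ := hne
  have h1 := (hf.analyticOnNhd isOpen_ball).eqOn_zero_of_preconnected_of_frequently_eq_zero
    (convex_ball (0 : ℂ) 1).isPreconnected hz₀ hcon
  exact hz0 (h1 hz)

theorem div_lemma {a b : ℂ → ℂ} (ha : DifferentiableOn ℂ a (ball 0 1))
    (hb : DifferentiableOn ℂ b (ball 0 1)) {C : ℝ} (hC : 0 ≤ C)
    (h : ∀ z ∈ ball (0 : ℂ) 1, ‖a z‖ ≤ C * ‖b z‖) :
    ∃ F : ℂ → ℂ, DifferentiableOn ℂ F (ball 0 1) ∧ (∀ z ∈ ball (0 : ℂ) 1, ‖F z‖ ≤ C) ∧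
      ∀ z ∈ ball (0 : ℂ) 1, b z ≠ 0 → F z = a z / b z := by
  have ha' := ha.analyticOnNhd isOpen_ball
  have hb' := hb.analyticOnNhd isOpen_ball
  set f : ℂ → ℂ := fun z => a z / b z with hf
  have hfm : MeromorphicOn f (ball 0 1) := fun z hz =>
    (ha' z hz).meromorphicAt.div (hb' z hz).meromorphicAt
  have hbd : ∀ z ∈ ball (0 : ℂ) 1, ‖f z‖ ≤ C := by
    intro z hz
    simp only [hf]
    by_cases hbz : b z = 0
    · rw [hbz, div_zero, norm_zero]; exact hC
    · rw [norm_div, div_le_iff₀ (norm_pos_iff.2 hbz)]; exact h z hz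
  set F := toMeromorphicNFOn f (ball 0 1) with hF
  have hFan : ∀ z ∈ ball (0 : ℂ) 1, AnalyticAt ℂ F z := by
    intro z hz
    have h1 : MeromorphicNFAt F z := meromorphicNFOn_toMeromorphicNFOn f (ball 0 1) hz
    rw [← h1.meromorphicOrderAt_nonneg_iff_analyticAt]
    have h2 : F =ᶠ[𝓝[≠] z] f := hfm.toMeromorphicNFOn_eq_self_on_nhdsNE hz
    rw [meromorphicOrderAt_congr h2]
    by_contra hneg
    rw [not_le] at hneg
    have h3 := tendsto_cobounded_of_meromorphicOrderAt_neg hneg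
    have h4 : ∀ᶠ w in 𝓝[≠] z, C < ‖f w‖ := by
      have := (tendsto_norm_cobounded_atTop (E := ℂ)).comp h3
      exact this.eventually_gt_atTop C
    have h5 : ∀ᶠ w in 𝓝[≠] z, w ∈ ball (0 : ℂ) 1 :=
      eventually_nhdsWithin_of_eventually_nhds (isOpen_ball.mem_nhds hz)
    obtain ⟨w, hw1, hw2⟩ := (h4.and h5).exists
    exact absurd (hbd w hw2) (not_le.2 hw1)
  refine ⟨F, fun z hz => (hFan z hz).differentiableAt.differentiableWithinAt, fun z hz => ?_,
    fun z hz hbz => ?_⟩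
  · have h4 := ((hFan z hz).continuousAt.tendsto).mono_left (nhdsWithin_le_nhds (s := {z}ᶜ))
    have h5 : ∀ᶠ w in 𝓝[≠] z, w ∈ ball (0 : ℂ) 1 :=
      eventually_nhdsWithin_of_eventually_nhds (isOpen_ball.mem_nhds hz)
    have h2 : F =ᶠ[𝓝[≠] z] f := hfm.toMeromorphicNFOn_eq_self_on_nhdsNE hz
    refine le_of_tendsto h4.norm ?_
    filter_upwards [h5, h2] with w h6 h7
    rw [h7]
    exact hbd w h6
  have h2 : F =ᶠ[𝓝[≠] z] f := hfm.toMeromorphicNFOn_eq_self_on_nhdsNE hz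
  have h3 : ContinuousAt f z :=
    ((ha' z hz).continuousAt).div ((hb' z hz).continuousAt) hbz
  have h4 := ((hFan z hz).continuousAt.tendsto).mono_left (nhdsWithin_le_nhds (s := {z}ᶜ))
  have h5 := (h3.tendsto).mono_left (nhdsWithin_le_nhds (s := {z}ᶜ))
  exact tendsto_nhds_unique h4 (h5.congr' h2.symm)

/-- A relation between functions continuous at a point, valid in a punctured neighbourhood. -/
theorem eq_of_punct {E : Type*} [TopologicalSpace E] [T2Space E] {F G : ℂ → E} {z : ℂ}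
    (hF : ContinuousAt F z) (hG : ContinuousAt G z) (h : ∀ᶠ w in 𝓝[≠] z, F w = G w) :
    F z = G z := by
  have h4 := (hF.tendsto).mono_left (nhdsWithin_le_nhds (s := {z}ᶜ))
  have h5 := (hG.tendsto).mono_left (nhdsWithin_le_nhds (s := {z}ᶜ))
  exact tendsto_nhds_unique h4 (h5.congr' (h.mono fun w hw => hw.symm))

theorem AnAt.continuousAt {W : ℂ → Matrix ι κ ℂ} {z : ℂ} (h : AnAt W z) : ContinuousAt W z := by
  exact continuousAt_pi.2 fun i => continuousAt_pi.2 fun j => (h i j).continuousAt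

end Pool.Agent.H291.Jpq
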