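import Pool.Agent.H291.Jpq.Kernel

/-!
Transfer of square integrable elements between model spaces.
-/

set_option autoImplicit false
set_option linter.unusedSectionVars false

open MeasureTheory Filter Topology Set Metric Matrix
open scoped Real ComplexConjugate ENNReal

namespace Pool.Agent.H291.Jpq

variable {ι κ : Type*} [Fintype ι] [Fintype κ] [DecidableEq ι] [DecidableEq κ]

theorem bM_sub {ι κ : Type*} (P Q : Matrix ι κ HbR) (θ : ℝ) : bM (P - Q) θ = bM P θ - bM Q θ :=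
  Matrix.map_sub _ (map_sub _) _ _

theorem iM_sub {ι κ : Type*} (P Q : Matrix ι κ HbR) {w : ℂ} (hw : ‖w‖ < 1) :
    iM (P - Q) hw = iM P hw - iM Q hw := Matrix.map_sub _ (map_sub _) _ _

/-- A matrix over `H^∞` in block form. -/
structure Sys (ι κ : Type*) where
  A : Matrix ι ι HbR
  F : Matrix ι κ HbR
  B : Matrix κ ι HbR
  D : Matrix κ κ HbR

/-- The full matrix. -/
def Sys.S (s : Sys ι κ) : Matrix (ι ⊕ κ) (ι ⊕ κ) HbR := fromBlocks s.A s.F s.B s.D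

theorem Sys.bM_S (s : Sys ι κ) (θ : ℝ) :
    bM s.S θ = fromBlocks (bM s.A θ) (bM s.F θ) (bM s.B θ) (bM s.D θ) := fromBlocks_map _ _ _ _ _

theorem Sys.iM_S (s : Sys ι κ) {w : ℂ} (hw : ‖w‖ < 1) :
    iM s.S hw = fromBlocks (iM s.A hw) (iM s.F hw) (iM s.B hw) (iM s.D hw) :=
  fromBlocks_map _ _ _ _ _

/-- inner -/
def Sys.Inn (s : Sys ι κ) : Prop := ∀ᵐ θ ∂m, (bM s.S θ)ᴴ * bM s.S θ = 1

theorem unit_blocks {A : Matrix ι ι ℂ} {F : Matrix ι κ ℂ} {B : Matrix κ ι ℂ} {D : Matrix κ κ ℂ}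
    (h : (fromBlocks A F B D)ᴴ * fromBlocks A F B D = 1) :
    Aᴴ * A + Bᴴ * B = 1 ∧ Aᴴ * F + Bᴴ * D = 0 ∧ Fᴴ * A + Dᴴ * B = 0 ∧ Fᴴ * F + Dᴴ * D = 1 := by
  rw [fromBlocks_conjTranspose, fromBlocks_multiply, ← fromBlocks_one, fromBlocks_inj] at h
  exact h

/-- The left part of a vector function. -/
def lf (g : ℝ → ι ⊕ κ → ℂ) (θ : ℝ) : ι → ℂ := g θ ∘ Sum.inl

/-- The right part of a vector function. -/
def rt (g : ℝ → ι ⊕ κ → ℂ) (θ : ℝ) : κ → ℂ := g θ ∘ Sum.inr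

theorem Sys.mulVecH (s : Sys ι κ) (g : ℝ → ι ⊕ κ → ℂ) (θ : ℝ) :
    (bM s.S θ)ᴴ *ᵥ g θ = Sum.elim ((bM s.A θ)ᴴ *ᵥ lf g θ + (bM s.B θ)ᴴ *ᵥ rt g θ)
      ((bM s.F θ)ᴴ *ᵥ lf g θ + (bM s.D θ)ᴴ *ᵥ rt g θ) := by
  rw [s.bM_S, fromBlocks_conjTranspose, fromBlocks_mulVec]
  rfl

theorem Sys.KS_iff (s : Sys ι κ) (g : ℝ → ι ⊕ κ → ℂ) :
    KS s.S g ↔ VH2 (lf g) ∧ VH2 (rt g) ∧
      VH2m (fun θ => (bM s.A θ)ᴴ *ᵥ lf g θ + (bM s.B θ)ᴴ *ᵥ rt g θ) ∧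
      VH2m (fun θ => (bM s.F θ)ᴴ *ᵥ lf g θ + (bM s.D θ)ᴴ *ᵥ rt g θ) := by
  unfold KS
  simp only [s.mulVecH]
  constructor
  · rintro ⟨h1, h2⟩
    exact ⟨fun i => h1 (Sum.inl i), fun i => h1 (Sum.inr i), fun i => h2 (Sum.inl i),
      fun i => h2 (Sum.inr i)⟩
  · rintro ⟨h1, h2, h3, h4⟩
    refine ⟨fun i => ?_, fun i => ?_⟩
    · rcases i with i | i
      · exact h1 i
      · exact h2 i
    · rcases i with i | i
      · exact h3 i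
      · exact h4 i

theorem nsq_sum {g : ℝ → ι ⊕ κ → ℂ} (h : VL2 g) : nsq g = nsq (lf g) + nsq (rt g) := by
  have h1 : VL2 (lf g) := fun i => h (Sum.inl i)
  have h2 : VL2 (rt g) := fun i => h (Sum.inr i)
  rw [nsq, nsq, nsq, ← integral_add h1.int_sq h2.int_sq]
  simp only [Fintype.sum_sum_type]
  rfl

/-- Algebraic relations of a cascade. -/
structure Rel (A' : Matrix ι ι ℂ) (F' : Matrix ι κ ℂ) (D' : Matrix κ κ ℂ) (A₁ : Matrix ι ι ℂ)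
    (F₁ : Matrix ι κ ℂ) (B₁ : Matrix κ ι ℂ) (D₁ : Matrix κ κ ℂ) (Av : Matrix ι ι ℂ)
    (Fv : Matrix ι κ ℂ) (Dv : Matrix κ κ ℂ) : Prop where
  r1 : (1 - B₁ * Fv) * Dv.adjugate * D' = Dv.det • D₁
  r2 : A₁ * Fv * Dv.adjugate * D' = Dv.det • (F' - F₁)
  r3 : A' * (Av.adjugate * (1 - Fv * B₁)) = Av.det • A₁
  r4 : A' * (Av.adjugate * Fv * D₁) = Av.det • (F' - F₁)

theorem norm_form {F : Matrix ι κ ℂ} {D : Matrix κ κ ℂ} (h : Fᴴ * F + Dᴴ * D = 1) (x : ι → ℂ)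
    (y : κ → ℂ) : ∑ i, ‖(x - F *ᵥ y) i‖ ^ 2 + ∑ i, ‖(D *ᵥ y) i‖ ^ 2 =
      ∑ i, ‖x i‖ ^ 2 + ∑ i, ‖y i‖ ^ 2 - 2 * (star x ⬝ᵥ (F *ᵥ y)).re := by
  have h1 : ((∑ i, ‖(x - F *ᵥ y) i‖ ^ 2 + ∑ i, ‖(D *ᵥ y) i‖ ^ 2 : ℝ) : ℂ) =
      ((∑ i, ‖x i‖ ^ 2 + ∑ i, ‖y i‖ ^ 2 - 2 * (star x ⬝ᵥ (F *ᵥ y)).re : ℝ) : ℂ) := by
    rw [Complex.ofReal_sub, Complex.ofReal_add, Complex.ofReal_add, ← star_dot_self,
      ← star_dot_self, ← star_dot_self, ← star_dot_self]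
    have e1 : star (F *ᵥ y) ⬝ᵥ (F *ᵥ y) + star (D *ᵥ y) ⬝ᵥ (D *ᵥ y) = star y ⬝ᵥ y := by
      rw [Matrix.star_mulVec, Matrix.star_mulVec, ← Matrix.dotProduct_mulVec,
        ← Matrix.dotProduct_mulVec, Matrix.mulVec_mulVec, Matrix.mulVec_mulVec, ← dotProduct_add,
        ← Matrix.add_mulVec, h, Matrix.one_mulVec]
    have e2 : star (F *ᵥ y) ⬝ᵥ x = conj (star x ⬝ᵥ (F *ᵥ y)) := star_dotProduct _ _
    have e3 : (star x ⬝ᵥ (F *ᵥ y)) + conj (star x ⬝ᵥ (F *ᵥ y)) =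
        ((2 * (star x ⬝ᵥ (F *ᵥ y)).re : ℝ) : ℂ) := Complex.add_conj _
    rw [← e3, ← e1, star_sub, sub_dotProduct, dotProduct_sub, dotProduct_sub, e2]
    ring
  exact_mod_cast h1

theorem nsq_form {F : Matrix ι κ HbR} {D : Matrix κ κ HbR}
    (h : ∀ᵐ θ ∂m, (bM F θ)ᴴ * bM F θ + (bM D θ)ᴴ * bM D θ = 1) {x : ℝ → ι → ℂ} {y : ℝ → κ → ℂ}
    (hx : VL2 x) (hy : VL2 y) :
    nsq (fun θ => x θ - bM F θ *ᵥ y θ) + nsq (fun θ => bM D θ *ᵥ y θ) =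
      nsq x + nsq y - 2 * (∫ θ, star (x θ) ⬝ᵥ (bM F θ *ᵥ y θ) ∂m).re := by
  have h1 : VL2 (fun θ => bM F θ *ᵥ y θ) := hy.mulVec F
  have h2 : VL2 (fun θ => bM D θ *ᵥ y θ) := hy.mulVec D
  have h3 : (∫ θ, star (x θ) ⬝ᵥ (bM F θ *ᵥ y θ) ∂m).re =
      ∫ θ, (star (x θ) ⬝ᵥ (bM F θ *ᵥ y θ)).re ∂m := by
    have := integral_re (𝕜 := ℂ) (VL2.int h1 hx)
    simpa using this.symm
  have h4 : Integrable (fun θ => 2 * (star (x θ) ⬝ᵥ (bM F θ *ᵥ y θ)).re) m :=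
    (VL2.int h1 hx).re.const_mul 2
  have h5 : Integrable (fun θ => ∑ i, ‖x θ i‖ ^ 2 + ∑ i, ‖y θ i‖ ^ 2) m :=
    hx.int_sq.add hy.int_sq
  rw [h3, nsq, nsq, nsq, nsq, ← integral_add (hx.sub h1).int_sq h2.int_sq,
    ← integral_add hx.int_sq hy.int_sq, ← integral_const_mul, ← integral_sub h5 h4]
  apply integral_congr_ae
  filter_upwards [h] with θ hθ
  exact norm_form hθ _ _

/-- Transfer of the square integrable elements along a cascade. -/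
theorem transfer {s' s₁ sv : Sys ι κ} (hU' : s'.Inn) (hU₁ : s₁.Inn)
    (hrel : ∀ᵐ θ ∂m, Rel (bM s'.A θ) (bM s'.F θ) (bM s'.D θ) (bM s₁.A θ) (bM s₁.F θ) (bM s₁.B θ)
      (bM s₁.D θ) (bM sv.A θ) (bM sv.F θ) (bM sv.D θ))
    (oD : Outer (sv.D.det : ℝ → ℂ)) (oA : Outer (sv.A.det : ℝ → ℂ)) {g : ℝ → ι ⊕ κ → ℂ}
    (hg : KS s'.S g) {h₂ : ℝ → κ → ℂ} (hh : VL2 h₂)
    (hd : ∀ᵐ θ ∂m, bM s'.D θ *ᵥ h₂ θ = -rt g θ) :
    ∃ k : ℝ → ι ⊕ κ → ℂ, KS s₁.S k ∧ nsq k = nsq g ∧ ∀ (w : ℂ) (hw : ‖w‖ < 1),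
      (iM sv.D hw).det • (vev w (rt k)) =
        ((1 - iM s₁.B hw * iM sv.F hw) * (iM sv.D hw).adjugate) *ᵥ vev w (rt g) ∧
      (iM sv.D hw).det • (vev w (lf k) - vev w (lf g)) =
        -((iM s₁.A hw * iM sv.F hw * (iM sv.D hw).adjugate) *ᵥ vev w (rt g)) := by
  obtain ⟨g1, g2, g3, g4⟩ := (s'.KS_iff g).1 hg
  set h₁ : ℝ → ι → ℂ := fun θ => lf g θ + bM s'.F θ *ᵥ h₂ θ with hh₁
  have hh₁L : VL2 h₁ := g1.memLp.add (hh.mulVec s'.F)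
  -- the four conditions
  have c1 : VH2 (fun θ => h₁ θ - bM s'.F θ *ᵥ h₂ θ) :=
    g1.congr (Eventually.of_forall fun θ => by simp [hh₁])
  have c2 : VH2 (fun θ => bM s'.D θ *ᵥ h₂ θ) := g2.neg.congr (by
    filter_upwards [hd] with θ hθ; exact hθ.symm)
  have c3 : VH2m (fun θ => (bM s'.A θ)ᴴ *ᵥ h₁ θ) := g3.congr (by
    filter_upwards [hd, hU'] with θ h1 h2
    rw [s'.bM_S] at h2
    obtain ⟨-, h3, -, -⟩ := unit_blocks h2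
    simp only [hh₁]
    have h4 : rt g θ = -(bM s'.D θ *ᵥ h₂ θ) := by rw [h1, neg_neg]
    rw [h4, Matrix.mulVec_add, Matrix.mulVec_neg, Matrix.mulVec_mulVec, Matrix.mulVec_mulVec,
      eq_neg_of_add_eq_zero_left h3, Matrix.neg_mulVec])
  have c4 : VH2m (fun θ => (bM s'.F θ)ᴴ *ᵥ h₁ θ - h₂ θ) := g4.congr (by
    filter_upwards [hd, hU'] with θ h1 h2
    rw [s'.bM_S] at h2
    obtain ⟨-, -, -, h3⟩ := unit_blocks h2
    simp only [hh₁]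
    have h4 : rt g θ = -(bM s'.D θ *ᵥ h₂ θ) := by rw [h1, neg_neg]
    rw [h4, Matrix.mulVec_add, Matrix.mulVec_neg, Matrix.mulVec_mulVec, Matrix.mulVec_mulVec,
      eq_sub_of_add_eq h3, Matrix.sub_mulVec, Matrix.one_mulVec]
    abel)
  -- transfer, right part
  have d2e : ∀ᵐ θ ∂m, (sv.D.det : ℝ → ℂ) θ • (bM s₁.D θ *ᵥ h₂ θ) =
      bM ((1 - s₁.B * sv.F) * sv.D.adjugate) θ *ᵥ (bM s'.D θ *ᵥ h₂ θ) := by
    filter_upwards [hrel] with θ hθ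
    rw [bM_det, bM_mul, bM_sub, bM_mul, bM_one, bM_adj, Matrix.mulVec_mulVec, hθ.r1,
      Matrix.smul_mulVec]
  have e1 : VH2 (fun θ => (sv.D.det : ℝ → ℂ) θ • (bM s₁.D θ *ᵥ h₂ θ)) :=
    (c2.mulVec ((1 - s₁.B * sv.F) * sv.D.adjugate)).congr (by
      filter_upwards [d2e] with θ hθ using hθ.symm)
  have d2 : VH2 (fun θ => bM s₁.D θ *ᵥ h₂ θ) := oD.VH2 (hh.mulVec s₁.D) e1
  -- the difference
  set X : ℝ → ι → ℂ := fun θ => bM s'.F θ *ᵥ h₂ θ - bM s₁.F θ *ᵥ h₂ θ with hX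
  have hXL : VL2 X := (hh.mulVec s'.F).sub (hh.mulVec s₁.F)
  have dXe : ∀ᵐ θ ∂m, (sv.D.det : ℝ → ℂ) θ • X θ =
      bM (s₁.A * sv.F * sv.D.adjugate) θ *ᵥ (bM s'.D θ *ᵥ h₂ θ) := by
    filter_upwards [hrel] with θ hθ
    simp only [hX]
    rw [bM_det, bM_mul, bM_mul, bM_adj, Matrix.mulVec_mulVec, hθ.r2,
      Matrix.smul_mulVec, Matrix.sub_mulVec]
  have e2 : VH2 (fun θ => (sv.D.det : ℝ → ℂ) θ • X θ) :=
    (c2.mulVec (s₁.A * sv.F * sv.D.adjugate)).congr (by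
      filter_upwards [dXe] with θ hθ using hθ.symm)
  have dX : VH2 X := oD.VH2 hXL e2
  have d1 : VH2 (fun θ => h₁ θ - bM s₁.F θ *ᵥ h₂ θ) :=
    (c1.add dX).congr (Eventually.of_forall fun θ => by simp [hX])
  -- adjoint side
  have d3 : VH2m (fun θ => (bM s₁.A θ)ᴴ *ᵥ h₁ θ) := by
    refine oA.VH2m (hh₁L.mulVecH s₁.A) ?_
    refine (c3.mulVec (sv.A.adjugate * (1 - sv.F * s₁.B))).congr ?_
    filter_upwards [hrel] with θ hθ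
    rw [Matrix.mulVec_mulVec, ← Matrix.conjTranspose_mul, bM_mul, bM_sub, bM_mul, bM_one, bM_adj,
      hθ.r3, Matrix.conjTranspose_smul, Matrix.smul_mulVec, bM_det]
    rfl
  set Y : ℝ → κ → ℂ := fun θ => (bM s'.F θ)ᴴ *ᵥ h₁ θ - (bM s₁.F θ)ᴴ *ᵥ h₁ θ with hY
  have dY : VH2m Y := by
    refine oA.VH2m ((hh₁L.mulVecH s'.F).sub (hh₁L.mulVecH s₁.F)) ?_
    refine (c3.mulVec (sv.A.adjugate * sv.F * s₁.D)).congr ?_
    filter_upwards [hrel] with θ hθ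
    simp only [hY]
    rw [Matrix.mulVec_mulVec, ← Matrix.conjTranspose_mul, bM_mul, bM_mul, bM_adj,
      hθ.r4, Matrix.conjTranspose_smul, Matrix.smul_mulVec, bM_det, Matrix.conjTranspose_sub,
      Matrix.sub_mulVec]
    rfl
  have d4 : VH2m (fun θ => (bM s₁.F θ)ᴴ *ᵥ h₁ θ - h₂ θ) :=
    (c4.sub dY).congr (Eventually.of_forall fun θ => by simp [hY])
  -- the integral of the cross term vanishes
  have hzero : ∫ θ, star (h₁ θ) ⬝ᵥ X θ ∂m = 0 := by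
    refine oD.int_zero sv.D.det.2.1.1.1 (VL2.int hXL hh₁L) fun u hu => ?_
    have h5 : VH2 (fun θ => u θ • (bM (sv.F * sv.D.adjugate) θ *ᵥ (bM s'.D θ *ᵥ h₂ θ))) :=
      VH2.smul hu (c2.mulVec _)
    rw [← h5.orth d3]
    apply integral_congr_ae
    filter_upwards [dXe] with θ hθ
    rw [← smul_eq_mul (a := (sv.D.det : ℝ → ℂ) θ), ← dotProduct_smul, hθ, Matrix.mul_assoc, bM_mul,
      ← Matrix.mulVec_mulVec, Matrix.star_mulVec, Matrix.conjTranspose_conjTranspose,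
      dotProduct_smul, smul_eq_mul, ← Matrix.dotProduct_mulVec]
  refine ⟨fun θ => Sum.elim (h₁ θ - bM s₁.F θ *ᵥ h₂ θ) (-(bM s₁.D θ *ᵥ h₂ θ)), ?_, ?_, ?_⟩
  · rw [s₁.KS_iff]
    refine ⟨d1, d2.neg, ?_, ?_⟩
    · refine d3.congr ?_
      filter_upwards [hU₁] with θ h2
      rw [s₁.bM_S] at h2
      obtain ⟨-, h3, -, -⟩ := unit_blocks h2
      change _ = (bM s₁.A θ)ᴴ *ᵥ (h₁ θ - bM s₁.F θ *ᵥ h₂ θ) + (bM s₁.B θ)ᴴ *ᵥ (-(bM s₁.D θ *ᵥ h₂ θ))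
      rw [Matrix.mulVec_sub, Matrix.mulVec_neg, Matrix.mulVec_mulVec, Matrix.mulVec_mulVec,
        eq_neg_of_add_eq_zero_left h3, Matrix.neg_mulVec]
      abel
    · refine d4.congr ?_
      filter_upwards [hU₁] with θ h2
      rw [s₁.bM_S] at h2
      obtain ⟨-, -, -, h3⟩ := unit_blocks h2
      change _ = (bM s₁.F θ)ᴴ *ᵥ (h₁ θ - bM s₁.F θ *ᵥ h₂ θ) + (bM s₁.D θ)ᴴ *ᵥ (-(bM s₁.D θ *ᵥ h₂ θ))
      rw [Matrix.mulVec_sub, Matrix.mulVec_neg, Matrix.mulVec_mulVec, Matrix.mulVec_mulVec,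
        eq_sub_of_add_eq h3, Matrix.sub_mulVec, Matrix.one_mulVec]
      abel
  · -- norms
    have hb' : ∀ᵐ θ ∂m, (bM s'.F θ)ᴴ * bM s'.F θ + (bM s'.D θ)ᴴ * bM s'.D θ = 1 := by
      filter_upwards [hU'] with θ h2
      rw [s'.bM_S] at h2
      exact (unit_blocks h2).2.2.2
    have hb₁ : ∀ᵐ θ ∂m, (bM s₁.F θ)ᴴ * bM s₁.F θ + (bM s₁.D θ)ᴴ * bM s₁.D θ = 1 := by
      filter_upwards [hU₁] with θ h2
      rw [s₁.bM_S] at h2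
      exact (unit_blocks h2).2.2.2
    have n1 := nsq_form hb' hh₁L hh
    have n2 := nsq_form hb₁ hh₁L hh
    have n3 : ∫ θ, star (h₁ θ) ⬝ᵥ (bM s'.F θ *ᵥ h₂ θ) ∂m =
        ∫ θ, star (h₁ θ) ⬝ᵥ (bM s₁.F θ *ᵥ h₂ θ) ∂m := by
      have h6 := integral_sub (VL2.int (hh.mulVec s'.F) hh₁L) (VL2.int (hh.mulVec s₁.F) hh₁L)
      simp only [← dotProduct_sub] at h6
      exact sub_eq_zero.1 (h6.symm.trans hzero)
    rw [nsq_sum, nsq_sum hg.1.memLp]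
    · have m1 : nsq (lf g) = nsq (fun θ => h₁ θ - bM s'.F θ *ᵥ h₂ θ) := by
        congr 1; funext θ; simp [hh₁]
      have m2 : nsq (rt g) = nsq (fun θ => bM s'.D θ *ᵥ h₂ θ) := by
        unfold nsq
        apply integral_congr_ae
        filter_upwards [hd] with θ hθ
        rw [hθ]; simp
      have m3 : nsq (fun θ => -(bM s₁.D θ *ᵥ h₂ θ)) = nsq (fun θ => bM s₁.D θ *ᵥ h₂ θ) := by
        unfold nsq; simp
      rw [m1, m2, n1, n3, ← n2, ← m3]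
      rfl
    · intro i
      rcases i with i | i
      · exact (d1 i).1
      · exact (d2.neg i).1
  · intro w hw
    have g2w : vev w (fun θ => bM s'.D θ *ᵥ h₂ θ) = -vev w (rt g) := by
      rw [vev_congr w hd, vev_neg]
    constructor
    · have h7 : vev w (fun θ => (sv.D.det : ℝ → ℂ) θ • (bM s₁.D θ *ᵥ h₂ θ)) = _ :=
        vev_congr w d2e
      rw [vev_smul sv.D.det.2 d2 hw, vev_mulVec _ c2 hw, iM_det _ hw, iM_mul, iM_sub, iM_mul, iM_one,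
        iM_adj, g2w, Matrix.mulVec_neg] at h7
      have h8 : vev w (fun θ => -(bM s₁.D θ *ᵥ h₂ θ)) = -vev w (fun θ => bM s₁.D θ *ᵥ h₂ θ) :=
        vev_neg w
      change (iM sv.D hw).det • vev w (fun θ => -(bM s₁.D θ *ᵥ h₂ θ)) = _
      rw [h8, smul_neg, h7, neg_neg]
    · have h7 : vev w (fun θ => (sv.D.det : ℝ → ℂ) θ • X θ) = _ := vev_congr w dXe
      rw [vev_smul sv.D.det.2 dX hw, vev_mulVec _ c2 hw, iM_det _ hw, iM_mul, iM_mul,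
        iM_adj, g2w, Matrix.mulVec_neg] at h7
      rw [← h7]
      congr 1
      have h9 : vev w (fun θ => (h₁ θ - bM s'.F θ *ᵥ h₂ θ) + X θ) = _ :=
        vev_add c1.memLp hXL hw
      have h10 : vev w (fun θ => h₁ θ - bM s'.F θ *ᵥ h₂ θ) = vev w (lf g) := by
        congr 1; funext θ; simp [hh₁]
      have h11 : (fun θ => (h₁ θ - bM s'.F θ *ᵥ h₂ θ) + X θ) =
          fun θ => h₁ θ - bM s₁.F θ *ᵥ h₂ θ := by
        funext θ; simp [hX]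
      rw [h10, h11] at h9
      change vev w (fun θ => h₁ θ - bM s₁.F θ *ᵥ h₂ θ) - _ = _
      rw [h9]
      abel

end Pool.Agent.H291.Jpq
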