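import Pool.Agent.H291.Jpq.Alg2
import Pool.Agent.H291.Jpq.Hol
import Pool.Agent.H291.Jpq.Transfer

/-!
From `j`-inner functions to inner functions.
-/

set_option autoImplicit false
set_option linter.unusedSectionVars false

open MeasureTheory Filter Topology Set Metric Matrix
open scoped Real ComplexConjugate ENNReal ComplexOrder

namespace Pool.Agent.H291.Jpq

variable {ι κ ν : Type*} [Fintype ι] [Fintype κ] [DecidableEq ι] [DecidableEq κ]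
  [Fintype ν] [DecidableEq ν]

theorem exists_hb {F : ℂ → ℂ} (hd : DifferentiableOn ℂ F (ball 0 1)) {C : ℝ}
    (hb : ∀ z ∈ ball (0 : ℂ) 1, ‖F z‖ ≤ C) :
    ∃ v : HbR, (∀ z : ℂ, ‖z‖ < 1 → ev z (v : ℝ → ℂ) = F z) ∧
      ∀ᵐ θ ∂m, Tendsto (fun r : ℝ => F (r * pt θ)) (𝓝[<] 1) (𝓝 ((v : ℝ → ℂ) θ)) := by
  have hf := ae_m_of_ae (fatou hd hb)
  classical
  set b : ℝ → ℂ := fun θ => if hθ : ∃ l, NTLim F (pt θ) l then hθ.choose else 0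
    with hbdef
  have hfb : ∀ᵐ θ ∂m, NTLim F (pt θ) (b θ) := by
    filter_upwards [hf] with θ hθ
    simp only [hbdef, dif_pos hθ]
    exact hθ.choose_spec
  have hHB : HB F b := ⟨hd, ⟨C, hb⟩, by
    filter_upwards [hfb] with θ hθ using hθ.radial⟩
  exact ⟨⟨b, hHB.isHb⟩, fun z hz => ev_HB hHB hz, hHB.2.2⟩

/-- A common denominator. -/
theorem exists_rep {W : ℂ → Matrix ν ν ℂ} (h : ∀ i j, BddType (fun z => W z i j)) :
    ∃ (A : Matrix ν ν HolR) (B : HolR), (∃ z ∈ ball (0 : ℂ) 1, (B : ℂ → ℂ) z ≠ 0) ∧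
      ∀ z ∈ ball (0 : ℂ) 1, (B : ℂ → ℂ) z ≠ 0 → W z = ((B : ℂ → ℂ) z)⁻¹ • hM A z := by
  choose a b ha hb hM' hne heq using h
  set b' : ν × ν → HolR := fun p => ⟨b p.1 p.2, hb p.1 p.2⟩ with hb'
  set a' : ν × ν → HolR := fun p => ⟨a p.1 p.2, ha p.1 p.2⟩ with ha'
  set B : HolR := ∏ p, b' p with hB
  set A : Matrix ν ν HolR := fun i j => a' (i, j) * ∏ p ∈ Finset.univ.erase (i, j), b' p with hA
  have hBz : ∀ z, (B : ℂ → ℂ) z = ∏ p : ν × ν, b p.1 p.2 z := by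
    intro z
    have := map_prod (hv z) b' Finset.univ
    exact this
  refine ⟨A, B, ?_, ?_⟩
  · have h1 : ∀ᶠ z in 𝓝[≠] (0 : ℂ), ∀ p : ν × ν, b p.1 p.2 z ≠ 0 :=
      eventually_all.2 fun p => ev_ne (hb p.1 p.2) (hne p.1 p.2) (by simp)
    have h2 : ∀ᶠ z in 𝓝[≠] (0 : ℂ), z ∈ ball (0 : ℂ) 1 :=
      eventually_nhdsWithin_of_eventually_nhds (ball_mem_nhds _ one_pos)
    obtain ⟨z, hz1, hz2⟩ := (h1.and h2).exists
    refine ⟨z, hz2, ?_⟩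
    rw [hBz]
    exact Finset.prod_ne_zero_iff.2 fun p _ => hz1 p
  · intro z hz hBne
    rw [hBz] at hBne ⊢
    ext i j
    have h1 : b i j z ≠ 0 := Finset.prod_ne_zero_iff.1 hBne (i, j) (Finset.mem_univ _)
    have h2 : hM A z i j = a i j z * ∏ p ∈ Finset.univ.erase (i, j), b p.1 p.2 z := by
      rw [hM_apply]
      have := map_mul (hv z) (a' (i, j)) (∏ p ∈ Finset.univ.erase (i, j), b' p)
      rw [map_prod] at this
      exact this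
    have h3 : ∏ p : ν × ν, b p.1 p.2 z = b i j z * ∏ p ∈ Finset.univ.erase (i, j), b p.1 p.2 z :=
      (Finset.mul_prod_erase Finset.univ (fun p : ν × ν => b p.1 p.2 z) (Finset.mem_univ (i, j))).symm
    have h5 : W z i j = a i j z / b i j z := heq i j z hz h1
    rw [Matrix.smul_apply, h5, h2, smul_eq_mul, h3]
    rw [h3] at hBne
    have h4 : ∏ p ∈ Finset.univ.erase (i, j), b p.1 p.2 z ≠ 0 := right_ne_zero_of_mul hBne
    field_simp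

theorem rep_anAt {W : ℂ → Matrix ν ν ℂ} {A : Matrix ν ν HolR} {B : HolR}
    (h : ∀ z ∈ ball (0 : ℂ) 1, (B : ℂ → ℂ) z ≠ 0 → W z = ((B : ℂ → ℂ) z)⁻¹ • hM A z) {z : ℂ}
    (hz : z ∈ ball (0 : ℂ) 1) (hB : (B : ℂ → ℂ) z ≠ 0) : AnAt W z := by
  intro i j
  have hBd : DifferentiableOn ℂ (B : ℂ → ℂ) (ball 0 1) := B.2
  have hAd : DifferentiableOn ℂ (A i j : ℂ → ℂ) (ball 0 1) := (A i j).2
  have h1 : AnalyticAt ℂ (fun w => ((B : ℂ → ℂ) w)⁻¹ * (A i j : ℂ → ℂ) w) z :=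
    ((hBd.analyticOnNhd isOpen_ball z hz).inv hB).mul (hAd.analyticOnNhd isOpen_ball z hz)
  refine h1.congr ?_
  have h2 : ∀ᶠ w in 𝓝 z, (B : ℂ → ℂ) w ≠ 0 :=
    ((hBd.analyticOnNhd isOpen_ball z hz).continuousAt).eventually_ne hB
  filter_upwards [h2, isOpen_ball.mem_nhds hz] with w h3 h4
  rw [h w h4 h3]
  rfl

theorem radial_freq {P : ℂ → Prop} (h : ∀ z₀ ∈ ball (0 : ℂ) 1, ∀ᶠ z in 𝓝[≠] z₀, P z) (θ : ℝ) :
    ∃ᶠ r : ℝ in 𝓝[<] 1, P (r * pt θ) := by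
  rw [frequently_iff]
  intro U hU
  obtain ⟨a, ha, haU⟩ := (mem_nhdsLT_iff_exists_Ioo_subset' (show (0 : ℝ) < 1 by norm_num)).1 hU
  set a' := max a 0 with ha'
  have ha1 : a' < 1 := max_lt ha one_pos
  set r₀ : ℝ := (a' + 1) / 2 with hr₀
  have hr1 : a' < r₀ := by rw [hr₀]; linarith
  have hr2 : r₀ < 1 := by rw [hr₀]; linarith
  have hr0 : 0 < r₀ := (le_max_right a 0).trans_lt hr1
  have h1 := h (r₀ * pt θ) (mem_of_lt hr0.le hr2 θ)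
  have h2 : Tendsto (fun r : ℝ => (r : ℂ) * pt θ) (𝓝[≠] r₀) (𝓝[≠] (r₀ * pt θ)) := by
    rw [tendsto_nhdsWithin_iff]
    constructor
    · have : Continuous fun r : ℝ => (r : ℂ) * pt θ := by fun_prop
      exact (this.tendsto r₀).mono_left nhdsWithin_le_nhds
    · filter_upwards [self_mem_nhdsWithin] with r hr
      intro h3
      apply hr
      have h4 := mul_right_cancel₀ (pt_ne θ) h3
      exact_mod_cast h4
  have h3 : ∀ᶠ r : ℝ in 𝓝[≠] r₀, r ∈ Ioo a 1 :=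
    eventually_nhdsWithin_of_eventually_nhds
      (Ioo_mem_nhds ((le_max_left a 0).trans_lt hr1) hr2)
  obtain ⟨r, hr3, hr4⟩ := ((h2.eventually h1).and h3).exists
  exact ⟨r, haU hr4, hr3⟩

/-- The inner function associated with a `j`-inner function. -/
theorem exists_sys {W : ℂ → Matrix (ι ⊕ κ) (ι ⊕ κ) ℂ} (hW : JInner W) :
    ∃ s : Sys ι κ, s.Inn ∧
      (∀ z₀ ∈ ball (0 : ℂ) 1, ∀ᶠ z in 𝓝[≠] z₀, ∃ hz : ‖z‖ < 1, AnAt W z ∧ IsUnit (W z) ∧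
        iM s.S hz = PG (W z)) ∧
      (∀ᵐ θ ∂m, ∃ L : Matrix (ι ⊕ κ) (ι ⊕ κ) ℂ, NTLim W (pt θ) L ∧ Lᴴ * JJ ι κ * L = JJ ι κ ∧
        bM s.S θ = PG L) := by
  obtain ⟨A, B, hBne, hrep⟩ := exists_rep hW.bddType
  have hBd : DifferentiableOn ℂ (B : ℂ → ℂ) (ball 0 1) := B.2
  -- punctured neighbourhoods
  have hball : ∀ z₀ ∈ ball (0 : ℂ) 1, ∀ᶠ z in 𝓝[≠] z₀, z ∈ ball (0 : ℂ) 1 := fun z₀ hz₀ =>
    eventually_nhdsWithin_of_eventually_nhds (isOpen_ball.mem_nhds hz₀)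
  have hBev : ∀ z₀ ∈ ball (0 : ℂ) 1, ∀ᶠ z in 𝓝[≠] z₀, (B : ℂ → ℂ) z ≠ 0 := fun z₀ hz₀ =>
    ev_ne hBd hBne hz₀
  have hgoodp : ∀ z ∈ ball (0 : ℂ) 1, (B : ℂ → ℂ) z ≠ 0 →
      (JJ ι κ - (W z)ᴴ * JJ ι κ * W z).PosSemidef := fun z hz hB =>
    hW.contr z hz (rep_anAt hrep hz hB)
  have hdetne : ∃ z ∈ ball (0 : ℂ) 1, (A.det : ℂ → ℂ) z ≠ 0 := by
    obtain ⟨z₁, hz₁, han, hdet⟩ := hW.det_ne
    have h1 : ContinuousAt (fun z => (W z).det) z₁ :=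
      (continuous_id.matrix_det.continuousAt (x := W z₁)).comp han.continuousAt
    have h2 : ∀ᶠ z in 𝓝[≠] z₁, (W z).det ≠ 0 :=
      eventually_nhdsWithin_of_eventually_nhds (h1.eventually_ne hdet)
    obtain ⟨z, ⟨hz2, hz3⟩, hz4⟩ := ((h2.and (hBev z₁ hz₁)).and (hball z₁ hz₁)).exists
    refine ⟨z, hz4, ?_⟩
    rw [hrep z hz4 hz3, Matrix.det_smul] at hz2
    rw [hM_det]
    exact right_ne_zero_of_mul hz2
  have hdetev : ∀ z₀ ∈ ball (0 : ℂ) 1, ∀ᶠ z in 𝓝[≠] z₀, (A.det : ℂ → ℂ) z ≠ 0 := fun z₀ hz₀ =>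
    ev_ne A.det.2 hdetne hz₀
  -- numerators and denominator
  set δ : HolR := A.toBlocks₂₂.det with hδ
  set β : HolR := B * δ with hβ
  set α : Matrix (ι ⊕ κ) (ι ⊕ κ) HolR := fromBlocks
    (δ • A.toBlocks₁₁ - A.toBlocks₁₂ * A.toBlocks₂₂.adjugate * A.toBlocks₂₁)
    (B • (A.toBlocks₁₂ * A.toBlocks₂₂.adjugate))
    (-(B • (A.toBlocks₂₂.adjugate * A.toBlocks₂₁)))
    ((B * B) • A.toBlocks₂₂.adjugate) with hα
  have hδne : ∀ z ∈ ball (0 : ℂ) 1, (B : ℂ → ℂ) z ≠ 0 → (δ : ℂ → ℂ) z ≠ 0 := by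
    intro z hz hB
    have h1 := d_unit (hgoodp z hz hB)
    rw [Matrix.isUnit_iff_isUnit_det] at h1
    have h2 : (W z).toBlocks₂₂ = ((B : ℂ → ℂ) z)⁻¹ • hM A.toBlocks₂₂ z := by
      rw [hrep z hz hB]; rfl
    rw [h2, Matrix.det_smul] at h1
    rw [hδ, hM_det]
    exact right_ne_zero_of_mul h1.ne_zero
  have hPG : ∀ z ∈ ball (0 : ℂ) 1, (B : ℂ → ℂ) z ≠ 0 → ∀ i j,
      PG (W z) i j = (α i j : ℂ → ℂ) z / (β : ℂ → ℂ) z := by
    intro z hz hB i j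
    have h0 : (hM A z).toBlocks₂₂ = hM A.toBlocks₂₂ z := rfl
    have h1 : (hM A z).toBlocks₂₂.det ≠ 0 := by
      rw [h0, ← hM_det]
      exact hδne z hz hB
    have h2 : fromBlocks ((hM A z).toBlocks₂₂.det • (hM A z).toBlocks₁₁ -
          (hM A z).toBlocks₁₂ * (hM A z).toBlocks₂₂.adjugate * (hM A z).toBlocks₂₁)
        ((B : ℂ → ℂ) z • ((hM A z).toBlocks₁₂ * (hM A z).toBlocks₂₂.adjugate))
        (-((B : ℂ → ℂ) z • ((hM A z).toBlocks₂₂.adjugate * (hM A z).toBlocks₂₁)))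
        (((B : ℂ → ℂ) z * (B : ℂ → ℂ) z) • (hM A z).toBlocks₂₂.adjugate) = hM α z := by
      have e1 : hM α z = fromBlocks
        (hM (δ • A.toBlocks₁₁ - A.toBlocks₁₂ * A.toBlocks₂₂.adjugate * A.toBlocks₂₁) z)
        (hM (B • (A.toBlocks₁₂ * A.toBlocks₂₂.adjugate)) z)
        (hM (-(B • (A.toBlocks₂₂.adjugate * A.toBlocks₂₁))) z)
        (hM ((B * B) • A.toBlocks₂₂.adjugate) z) := fromBlocks_map _ _ _ _ _
      rw [e1, hM_sub, hM_smul, hM_mul, hM_mul, hM_adj, hM_smul, hM_mul, hM_adj, hM_neg, hM_smul,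
        hM_mul, hM_adj, hM_smul, hM_adj, hδ, hM_det]
      rfl
    rw [hrep z hz hB, PG_scale hB h1, h2, Matrix.smul_apply, hM_apply, smul_eq_mul, div_eq_inv_mul]
    congr 2
    rw [h0, ← hM_det]
    rfl
  have hβd : DifferentiableOn ℂ (β : ℂ → ℂ) (ball 0 1) := β.2
  have hαd : ∀ i j, DifferentiableOn ℂ (α i j : ℂ → ℂ) (ball 0 1) := fun i j => (α i j).2
  have hβne : ∀ z ∈ ball (0 : ℂ) 1, (B : ℂ → ℂ) z ≠ 0 → (β : ℂ → ℂ) z ≠ 0 := fun z hz hB =>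
    mul_ne_zero hB (hδne z hz hB)
  have hαβ : ∀ i j, ∀ z ∈ ball (0 : ℂ) 1, ‖(α i j : ℂ → ℂ) z‖ ≤ 1 * ‖(β : ℂ → ℂ) z‖ := by
    intro i j z hz
    rw [one_mul]
    have h1 : Tendsto (fun w => ‖(α i j : ℂ → ℂ) w‖) (𝓝[≠] z) (𝓝 ‖(α i j : ℂ → ℂ) z‖) :=
      (((hαd i j).differentiableAt (isOpen_ball.mem_nhds hz)).continuousAt.norm.tendsto).mono_left
        nhdsWithin_le_nhds
    have h2 : Tendsto (fun w => ‖(β : ℂ → ℂ) w‖) (𝓝[≠] z) (𝓝 ‖(β : ℂ → ℂ) z‖) :=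
      ((hβd.differentiableAt (isOpen_ball.mem_nhds hz)).continuousAt.norm.tendsto).mono_left
        nhdsWithin_le_nhds
    refine le_of_tendsto_of_tendsto h1 h2 ?_
    filter_upwards [hBev z hz, hball z hz] with w hw1 hw2
    have h3 := PG_norm_le (hgoodp w hw2 hw1) i j
    rw [hPG w hw2 hw1 i j, norm_div, div_le_one (norm_pos_iff.2 (hβne w hw2 hw1))] at h3
    exact h3
  have hF : ∀ i j, ∃ F : ℂ → ℂ, DifferentiableOn ℂ F (ball 0 1) ∧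
      (∀ z ∈ ball (0 : ℂ) 1, ‖F z‖ ≤ 1) ∧
      ∀ z ∈ ball (0 : ℂ) 1, (β : ℂ → ℂ) z ≠ 0 → F z = (α i j : ℂ → ℂ) z / (β : ℂ → ℂ) z :=
    fun i j => div_lemma (hαd i j) hβd zero_le_one (hαβ i j)
  choose F hFd hFb hFe using hF
  choose v hve hvb using fun i j => exists_hb (hFd i j) (hFb i j)
  set V : Matrix (ι ⊕ κ) (ι ⊕ κ) HbR := fun i j => v i j with hV
  set s : Sys ι κ := ⟨V.toBlocks₁₁, V.toBlocks₁₂, V.toBlocks₂₁, V.toBlocks₂₂⟩ with hs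
  have hsS : s.S = V := fromBlocks_toBlocks V
  have hFPG : ∀ z ∈ ball (0 : ℂ) 1, (B : ℂ → ℂ) z ≠ 0 → ∀ i j, F i j z = PG (W z) i j := by
    intro z hz hB i j
    rw [hPG z hz hB i j, hFe i j z hz (hβne z hz hB)]
  -- the boundary relation
  have hbdry : ∀ᵐ θ ∂m, ∃ L : Matrix (ι ⊕ κ) (ι ⊕ κ) ℂ, NTLim W (pt θ) L ∧
      Lᴴ * JJ ι κ * L = JJ ι κ ∧ bM s.S θ = PG L := by
    filter_upwards [hW.bdry, ae_all_iff.2 fun i => ae_all_iff.2 fun j => hvb i j] with θ h1 h2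
    obtain ⟨L, hL, hLu⟩ := h1
    refine ⟨L, hL, hLu, ?_⟩
    rw [hsS]
    ext i j
    have h3 : Tendsto (fun r : ℝ => PG (W (r * pt θ)) i j) (𝓝[<] 1) (𝓝 (PG L i j)) := by
      have h4 := (PG_continuousAt (d_unit (psd_of_unitary hLu))).tendsto.comp hL.radial
      exact ((continuous_id.matrix_elem i j).tendsto _).comp h4
    have h5 := radial_freq (P := fun z => z ∈ ball (0 : ℂ) 1 ∧ (B : ℂ → ℂ) z ≠ 0)
      (fun z₀ hz₀ => (hball z₀ hz₀).and (hBev z₀ hz₀)) θ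
    refine tendsto_nhds_unique_of_frequently_eq (h2 i j) h3 (h5.mono fun r hr => ?_)
    exact hFPG _ hr.1 hr.2 i j
  refine ⟨s, ?_, ?_, hbdry⟩
  · filter_upwards [hbdry] with θ h1
    obtain ⟨L, -, hLu, hLe⟩ := h1
    rw [hLe]
    exact PG_unitary hLu
  · intro z₀ hz₀
    filter_upwards [hball z₀ hz₀, hBev z₀ hz₀, hdetev z₀ hz₀] with z h1 h2 h3
    have hz : ‖z‖ < 1 := mem_ball_zero_iff.1 h1
    refine ⟨hz, rep_anAt hrep h1 h2, ?_, ?_⟩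
    · rw [Matrix.isUnit_iff_isUnit_det, isUnit_iff_ne_zero, hrep z h1 h2, Matrix.det_smul]
      rw [hM_det] at h3
      exact mul_ne_zero (pow_ne_zero _ (inv_ne_zero h2)) h3
    · rw [hsS]
      ext i j
      rw [iM_apply, ← hFPG z h1 h2 i j]
      exact hve i j z hz

end Pool.Agent.H291.Jpq
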