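import Pool.Agent.H291.Jpq.Basic

set_option autoImplicit false

open Complex Metric Set Filter MeasureTheory
open scoped Real Topology ComplexConjugate NNReal

namespace Pool.Agent.H291.Jpq

theorem dist_push {z ζ₀ : ℂ} (hz : ‖z‖ ≤ 1) (h0 : ‖ζ₀‖ = 1) {τ : ℝ} (hτ : 0 < τ) :
    ‖z - ζ₀‖ ≤ ‖z - (1 + τ) * ζ₀‖ ∧ 0 < ‖z - (1 + τ) * ζ₀‖ := by
  have e1 : ‖z - (1 + τ) * ζ₀‖ ^ 2 = ‖z - ζ₀‖ ^ 2 + 2 * τ * (1 - (z * conj ζ₀).re) + τ ^ 2 := by
    have h1 : ζ₀.re ^ 2 + ζ₀.im ^ 2 = 1 := by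
      have := Complex.sq_norm ζ₀
      rw [h0, Complex.normSq_apply] at this
      nlinarith
    rw [Complex.sq_norm, Complex.sq_norm, Complex.normSq_apply, Complex.normSq_apply]
    simp
    nlinarith
  have e2 : (z * conj ζ₀).re ≤ 1 := by
    refine (Complex.re_le_norm _).trans ?_
    rw [norm_mul, RCLike.norm_conj, h0, mul_one]
    exact hz
  have e3 : ‖z - ζ₀‖ ^ 2 ≤ ‖z - (1 + τ) * ζ₀‖ ^ 2 := by
    rw [e1]
    have : 0 ≤ 2 * τ * (1 - (z * conj ζ₀).re) := mul_nonneg (by positivity) (by linarith)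
    nlinarith [sq_nonneg τ]
  have e4 : 0 < ‖z - (1 + τ) * ζ₀‖ ^ 2 := by
    rw [e1]
    have : 0 ≤ 2 * τ * (1 - (z * conj ζ₀).re) := mul_nonneg (by positivity) (by linarith)
    nlinarith [sq_nonneg ‖z - ζ₀‖, pow_pos hτ 2]
  refine ⟨?_, ?_⟩
  · exact (sq_le_sq₀ (norm_nonneg _) (norm_nonneg _)).1 e3
  · rcases (norm_nonneg (z - (1 + τ) * ζ₀)).lt_or_eq with h | h
    · exact h
    · rw [← h] at e4; norm_num at e4

theorem peak_sq {z ζ₀ : ℂ} (hz : ‖z‖ = 1) (h0 : ‖ζ₀‖ = 1) :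
    ‖(1 + conj ζ₀ * z) / 2‖ ^ 2 = 1 - ‖z - ζ₀‖ ^ 2 / 4 := by
  have h1 : ζ₀.re ^ 2 + ζ₀.im ^ 2 = 1 := by
    have := Complex.sq_norm ζ₀
    rw [h0, Complex.normSq_apply] at this
    nlinarith
  have h2 : z.re ^ 2 + z.im ^ 2 = 1 := by
    have := Complex.sq_norm z
    rw [hz, Complex.normSq_apply] at this
    nlinarith
  have e1 : ‖(1 + conj ζ₀ * z)‖ ^ 2 = 1 + 2 * (ζ₀.re * z.re + ζ₀.im * z.im) +
      (ζ₀.re ^ 2 + ζ₀.im ^ 2) * (z.re ^ 2 + z.im ^ 2) := by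
    rw [Complex.sq_norm, Complex.normSq_apply]
    simp
    ring
  have e2 : ‖z - ζ₀‖ ^ 2 = (z.re ^ 2 + z.im ^ 2) + (ζ₀.re ^ 2 + ζ₀.im ^ 2) -
      2 * (ζ₀.re * z.re + ζ₀.im * z.im) := by
    rw [Complex.sq_norm, Complex.normSq_apply]
    simp
    ring
  rw [norm_div, div_pow, e1, e2, h1, h2]
  norm_num
  ring

/-- transfer of a boundary `o` estimate to the interior -/
theorem small_o {R : ℂ → ℂ} (hR : DiffContOnCl ℂ R (ball 0 1)) {ζ₀ : ℂ} (h0 : ‖ζ₀‖ = 1) {C : ℝ}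
    (hC : ∀ ζ : ℂ, ‖ζ‖ = 1 → ‖R ζ‖ ≤ C * ‖ζ - ζ₀‖)
    (hs : ∀ ε > 0, ∃ η > 0, ∀ ζ : ℂ, ‖ζ‖ = 1 → ‖ζ - ζ₀‖ < η → ‖R ζ‖ ≤ ε * ‖ζ - ζ₀‖) :
    ∀ ε > 0, ∃ δ > 0, ∀ z : ℂ, ‖z‖ ≤ 1 → ‖z - ζ₀‖ < δ → ‖R z‖ ≤ ε * ‖z - ζ₀‖ := by
  intro ε hε
  obtain ⟨η, hη, hη'⟩ := hs (ε / 2) (by positivity)
  set q : ℝ := Real.sqrt (1 - η ^ 2 / 4) with hq
  have hq1 : q < 1 := by
    rw [hq, Real.sqrt_lt' one_pos]
    nlinarith [pow_pos hη 2]
  have hq0 : 0 ≤ q := Real.sqrt_nonneg _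
  obtain ⟨N, hN⟩ : ∃ N : ℕ, max C 0 * q ^ N ≤ ε / 2 := by
    have h1 : Tendsto (fun N : ℕ => max C 0 * q ^ N) atTop (𝓝 (max C 0 * 0)) :=
      (tendsto_pow_atTop_nhds_zero_of_lt_one hq0 hq1).const_mul _
    rw [mul_zero] at h1
    exact (h1.eventually_le_const (by positivity : (0 : ℝ) < ε / 2)).exists
  set ψ : ℂ → ℂ := fun z => (1 + conj ζ₀ * z) / 2 with hψ
  have hψ0 : ψ ζ₀ = 1 := by
    have : conj ζ₀ * ζ₀ = 1 := by
      rw [mul_comm, Complex.mul_conj, Complex.normSq_eq_norm_sq, h0]; norm_num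
    simp only [hψ, this]; norm_num
  have hψc : Continuous ψ := by simp only [hψ]; fun_prop
  have hψn : ∀ z : ℂ, ‖z‖ ≤ 1 → ‖ψ z‖ ≤ 1 := by
    intro z hz
    simp only [hψ]
    rw [norm_div]
    have : ‖1 + conj ζ₀ * z‖ ≤ 2 := by
      refine (norm_add_le _ _).trans ?_
      rw [norm_mul, RCLike.norm_conj, h0, norm_one, one_mul]
      linarith
    norm_num
    linarith
  -- boundary bound
  have hbd : ∀ ζ : ℂ, ‖ζ‖ = 1 → ‖R ζ‖ * ‖ψ ζ‖ ^ N ≤ ε / 2 * ‖ζ - ζ₀‖ := by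
    intro ζ hζ
    by_cases hc : ‖ζ - ζ₀‖ < η
    · have h1 := hη' ζ hζ hc
      have h2 : ‖ψ ζ‖ ^ N ≤ 1 := pow_le_one₀ (norm_nonneg _) (hψn ζ hζ.le)
      calc _ ≤ ‖R ζ‖ * 1 := by gcongr
        _ ≤ _ := by rw [mul_one]; exact h1
    · push Not at hc
      have h1 : ‖ψ ζ‖ ≤ q := by
        rw [hq]
        apply Real.le_sqrt_of_sq_le
        simp only [hψ]
        rw [peak_sq hζ h0]
        nlinarith [hη]
      have h2 : ‖ψ ζ‖ ^ N ≤ q ^ N := by gcongr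
      calc ‖R ζ‖ * ‖ψ ζ‖ ^ N ≤ (max C 0 * ‖ζ - ζ₀‖) * q ^ N := by
            gcongr
            refine (hC ζ hζ).trans ?_
            gcongr
            exact le_max_left _ _
        _ = (max C 0 * q ^ N) * ‖ζ - ζ₀‖ := by ring
        _ ≤ _ := by gcongr
  -- interior bound with τ
  have hint : ∀ τ : ℝ, 0 < τ → ∀ z : ℂ, ‖z‖ ≤ 1 →
      ‖R z‖ * ‖ψ z‖ ^ N ≤ ε / 2 * ‖z - (1 + τ) * ζ₀‖ := by
    intro τ hτ z hz
    have hne : ∀ w : ℂ, ‖w‖ ≤ 1 → w - (1 + τ) * ζ₀ ≠ 0 := fun w hw h => by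
      have := (dist_push hw h0 hτ).2
      rw [h] at this
      simp at this
    have hd : DiffContOnCl ℂ (fun z => R z * ψ z ^ N * (z - (1 + τ) * ζ₀)⁻¹) (ball 0 1) := by
      have hcl : closure (ball (0 : ℂ) 1) = closedBall 0 1 := closure_ball 0 one_ne_zero
      constructor
      · refine (hR.1.mul ?_).mul ?_
        · apply DifferentiableOn.pow
          simp only [hψ]
          fun_prop
        · apply DifferentiableOn.inv
          · fun_prop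
          · intro w hw
            exact hne w (by simpa using (mem_ball_zero_iff.1 hw).le)
      · refine (hR.2.mul ?_).mul ?_
        · exact (hψc.pow N).continuousOn
        · apply ContinuousOn.inv₀
          · fun_prop
          · intro w hw
            rw [hcl] at hw
            exact hne w (by simpa using hw)
    have hmax := norm_le_of_forall_mem_frontier_norm_le (U := ball (0 : ℂ) 1) isBounded_ball hd
      (C := ε / 2) (by
        intro w hw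
        rw [frontier_ball (0 : ℂ) one_ne_zero, mem_sphere_zero_iff_norm] at hw
        have h1 := hbd w hw
        have h2 := dist_push hw.le h0 hτ
        rw [norm_mul, norm_mul, norm_pow, norm_inv]
        rw [← div_eq_mul_inv, div_le_iff₀ h2.2]
        refine h1.trans ?_
        gcongr
        exact h2.1) (z := z) (by
          rw [closure_ball (0 : ℂ) one_ne_zero]
          simpa using hz)
    rw [norm_mul, norm_mul, norm_pow, norm_inv, ← div_eq_mul_inv,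
      div_le_iff₀ (dist_push hz h0 hτ).2] at hmax
    exact hmax
  have hint0 : ∀ z : ℂ, ‖z‖ ≤ 1 → ‖R z‖ * ‖ψ z‖ ^ N ≤ ε / 2 * ‖z - ζ₀‖ := by
    intro z hz
    have hcont : Tendsto (fun τ : ℝ => ε / 2 * ‖z - (1 + τ) * ζ₀‖) (𝓝[>] 0)
        (𝓝 (ε / 2 * ‖z - (1 + (0 : ℝ)) * ζ₀‖)) := by
      have : Continuous (fun τ : ℝ => ε / 2 * ‖z - (1 + τ) * ζ₀‖) := by fun_prop
      exact this.continuousWithinAt
    have := ge_of_tendsto hcont (by
      filter_upwards [self_mem_nhdsWithin] with τ hτ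
      exact hint τ hτ z hz)
    simpa using this
  obtain ⟨δ, hδ, hδ'⟩ : ∃ δ > 0, ∀ z : ℂ, ‖z - ζ₀‖ < δ → 1 / 2 < ‖ψ z‖ ^ N := by
    have h1 : Continuous (fun z => ‖ψ z‖ ^ N) := by fun_prop
    have h2 : ∀ᶠ z in 𝓝 ζ₀, 1 / 2 < ‖ψ z‖ ^ N := by
      apply h1.continuousAt.eventually_const_lt
      show 1 / 2 < ‖ψ ζ₀‖ ^ N
      rw [hψ0]; norm_num
    rw [Metric.eventually_nhds_iff] at h2
    obtain ⟨δ, hδ, h3⟩ := h2
    exact ⟨δ, hδ, fun z hz => h3 (by rwa [dist_eq_norm])⟩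
  refine ⟨δ, hδ, fun z hz hzd => ?_⟩
  have h1 := hint0 z hz
  have h2 := hδ' z hzd
  have h3 : ‖R z‖ * (1 / 2) ≤ ‖R z‖ * ‖ψ z‖ ^ N := by gcongr
  linarith

/-- Fatou's theorem: bounded analytic functions have nontangential limits almost everywhere. -/
theorem fatou {f : ℂ → ℂ} (hf : DifferentiableOn ℂ f (ball (0 : ℂ) 1)) {M : ℝ}
    (hM : ∀ z ∈ ball (0 : ℂ) 1, ‖f z‖ ≤ M) :
    ∀ᵐ θ : ℝ, ∃ l : ℂ, NTLim f (pt θ) l := by
  obtain ⟨F, hF⟩ := hf.isExactOn_ball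
  have hM0 : 0 ≤ M := (norm_nonneg _).trans (hM 0 (by simp))
  have hlip : LipschitzOnWith ⟨M, hM0⟩ F (ball 0 1) := by
    apply Convex.lipschitzOnWith_of_nnnorm_deriv_le (𝕜 := ℂ)
    · intro x hx; exact (hF x hx).differentiableAt
    · intro x hx
      rw [(hF x hx).deriv]
      exact hM x hx
    · exact convex_ball 0 1
  obtain ⟨g, hg, hgF⟩ := hlip.extend_finite_dimension
  set K : ℝ≥0 := lipschitzExtensionConstant ℂ * ⟨M, hM0⟩ with hK
  have hcm : LipschitzWith (Real.nnabs 1) (circleMap 0 1) := lipschitzWith_circleMap 0 1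
  have hL : LipschitzWith (K * Real.nnabs 1) (fun θ : ℝ => g (circleMap 0 1 θ)) := hg.comp hcm
  filter_upwards [hL.ae_differentiableAt_real] with θ hθ
  set ζ₀ : ℂ := circleMap 0 1 θ with hζ₀
  have hζn : ‖ζ₀‖ = 1 := by simp [hζ₀, circleMap]
  have hζne : ζ₀ ≠ 0 := by rw [← norm_pos_iff, hζn]; exact one_pos
  set D' : ℂ := deriv (fun θ : ℝ => g (circleMap 0 1 θ)) θ with hD'
  set D : ℂ := D' / (ζ₀ * I) with hD
  set R : ℂ → ℂ := fun z => g z - g ζ₀ - D * (z - ζ₀) with hR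
  refine ⟨D, ?_⟩
  have hgd : ∀ z ∈ ball (0 : ℂ) 1, HasDerivAt g (f z) z := by
    intro z hz
    refine (hF z hz).congr_of_eventuallyEq ?_
    filter_upwards [isOpen_ball.mem_nhds hz] with w hw
    exact (hgF hw).symm
  have hRd : ∀ z ∈ ball (0 : ℂ) 1, HasDerivAt R (f z - D) z := by
    intro z hz
    have h1 := ((hgd z hz).sub_const (g ζ₀)).sub (((hasDerivAt_id z).sub_const ζ₀).const_mul D)
    rw [mul_one] at h1
    exact h1
  have hRdc : DiffContOnCl ℂ R (ball 0 1) := by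
    constructor
    · intro z hz
      exact (hRd z hz).differentiableAt.differentiableWithinAt
    · apply Continuous.continuousOn
      have := hg.continuous
      simp only [hR]
      fun_prop
  -- bound on the circle
  have hRC : ∀ ζ : ℂ, ‖ζ‖ = 1 → ‖R ζ‖ ≤ (K + ‖D‖) * ‖ζ - ζ₀‖ := by
    intro ζ _
    have h1 : ‖g ζ - g ζ₀‖ ≤ K * ‖ζ - ζ₀‖ := by
      have := hg.dist_le_mul ζ ζ₀
      rwa [dist_eq_norm, dist_eq_norm] at this
    calc ‖R ζ‖ ≤ ‖g ζ - g ζ₀‖ + ‖D * (ζ - ζ₀)‖ := norm_sub_le _ _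
      _ ≤ K * ‖ζ - ζ₀‖ + ‖D‖ * ‖ζ - ζ₀‖ := by rw [norm_mul]; gcongr
      _ = _ := by ring
  have hRs : ∀ ε > 0, ∃ η > 0, ∀ ζ : ℂ, ‖ζ‖ = 1 → ‖ζ - ζ₀‖ < η → ‖R ζ‖ ≤ ε * ‖ζ - ζ₀‖ := by
    intro ε hε
    have hder : HasDerivAt (fun t : ℝ => R (circleMap 0 1 t)) 0 θ := by
      have h1 : HasDerivAt (fun θ : ℝ => g (circleMap 0 1 θ)) D' θ := hθ.hasDerivAt
      have h2 : HasDerivAt (circleMap 0 1) (circleMap 0 1 θ * I) θ := hasDerivAt_circleMap 0 1 θ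
      have h3 := (h1.sub_const (g ζ₀)).sub ((h2.sub_const ζ₀).const_mul D)
      have e : D' - D * (circleMap 0 1 θ * I) = 0 := by
        rw [← hζ₀, hD]
        field_simp
        simp
      rw [e] at h3
      exact h3
    rw [hasDerivAt_iff_isLittleO] at hder
    have h4 := hder.def (show 0 < ε * (2 / π) by positivity)
    rw [Metric.eventually_nhds_iff] at h4
    obtain ⟨η, hη, h5⟩ := h4
    refine ⟨2 / π * η, by positivity, fun ζ hζ hζd => ?_⟩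
    -- write ζ = circleMap 0 1 (θ + arg (ζ/ζ₀))
    set s : ℝ := (ζ / ζ₀).arg with hs
    have hζe : circleMap 0 1 (θ + s) = ζ := by
      have h6 : ζ / ζ₀ = Complex.exp (s * I) := by
        have := Complex.norm_mul_exp_arg_mul_I (ζ / ζ₀)
        rw [norm_div, hζ, hζn] at this
        rw [hs]
        simpa using this.symm
      have h7 : circleMap 0 1 (θ + s) = ζ₀ * Complex.exp (s * I) := by
        rw [hζ₀]
        simp only [circleMap]
        push_cast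
        rw [add_mul, Complex.exp_add]
        ring
      rw [h7, ← h6]
      field_simp
    have hang : |s| ≤ π / 2 * ‖ζ - ζ₀‖ := by
      have h8 := Complex.angle_le_mul_norm_sub hζ hζn
      rwa [Complex.angle_eq_abs_arg (by rw [← norm_pos_iff, hζ]; exact one_pos) hζne] at h8
    have h9 : dist (θ + s) θ < η := by
      rw [Real.dist_eq, add_sub_cancel_left]
      calc |s| ≤ π / 2 * ‖ζ - ζ₀‖ := hang
        _ < π / 2 * (2 / π * η) := by gcongr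
        _ = η := by field_simp
    have h10 := h5 h9
    rw [smul_zero, sub_zero, hζe] at h10
    have h11 : R (circleMap 0 1 θ) = 0 := by rw [← hζ₀]; simp [hR]
    rw [h11, sub_zero, add_sub_cancel_left] at h10
    calc ‖R ζ‖ ≤ ε * (2 / π) * ‖s‖ := h10
      _ ≤ ε * (2 / π) * (π / 2 * ‖ζ - ζ₀‖) := by
          rw [Real.norm_eq_abs]; gcongr
      _ = ε * ‖ζ - ζ₀‖ := by field_simp
  have hkey := small_o hRdc hζn hRC hRs
  have hζpt : ζ₀ = pt θ := by rw [hζ₀, circleMap_eq]; simp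
  rw [← hζpt]
  intro C
  rcases le_or_gt C 0 with hC0 | hC0
  · have hempty : stolz ζ₀ C = ∅ := by
      rw [Set.eq_empty_iff_forall_notMem]
      rintro z ⟨h1, h2⟩
      have h3 : ‖z - ζ₀‖ ≤ 0 := h2.trans (by nlinarith)
      have h4 : z = ζ₀ := by
        rw [← sub_eq_zero, ← norm_le_zero_iff]; exact h3
      rw [h4, hζn] at h1
      exact lt_irrefl _ h1
    rw [hempty, nhdsWithin_empty]
    exact tendsto_bot
  rw [Metric.tendsto_nhds]
  intro ε hε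
  obtain ⟨δ, hδ, hδ'⟩ := hkey (ε / (2 * (2 * C + 1))) (by positivity)
  have hnear : ball ζ₀ (δ / 2) ∈ 𝓝 ζ₀ := ball_mem_nhds _ (by positivity)
  filter_upwards [mem_nhdsWithin_of_mem_nhds hnear, self_mem_nhdsWithin] with z hz1 hz2
  obtain ⟨hzn, hzs⟩ := hz2
  have hz1' : ‖z - ζ₀‖ < δ / 2 := by rwa [mem_ball, dist_eq_norm] at hz1
  set ρ : ℝ := (1 - ‖z‖) / 2 with hρ
  have hρ0 : 0 < ρ := by rw [hρ]; linarith
  have hsub : closedBall z ρ ⊆ ball (0 : ℂ) 1 := by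
    intro w hw
    rw [mem_closedBall, dist_eq_norm] at hw
    rw [mem_ball_zero_iff]
    calc ‖w‖ = ‖(w - z) + z‖ := by ring_nf
      _ ≤ ‖w - z‖ + ‖z‖ := norm_add_le _ _
      _ ≤ ρ + ‖z‖ := by gcongr
      _ < 1 := by rw [hρ]; linarith
  have h1z : 1 - ‖z‖ ≤ ‖z - ζ₀‖ := by
    have := norm_sub_norm_le ζ₀ z
    rw [hζn, norm_sub_rev] at this
    exact this
  have hder : ‖deriv R z‖ ≤ (ε / (2 * (2 * C + 1)) * ((C + 1 / 2) * (1 - ‖z‖))) / ρ := by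
    apply norm_deriv_le_of_forall_mem_sphere_norm_le hρ0
    · apply DifferentiableOn.diffContOnCl
      rw [closure_ball z hρ0.ne']
      exact hRdc.1.mono hsub
    · intro w hw
      have hwb : w ∈ ball (0 : ℂ) 1 := hsub (sphere_subset_closedBall hw)
      rw [mem_sphere, dist_eq_norm] at hw
      have h1 : ‖w - ζ₀‖ ≤ ρ + ‖z - ζ₀‖ := by
        calc ‖w - ζ₀‖ = ‖(w - z) + (z - ζ₀)‖ := by ring_nf
          _ ≤ ‖w - z‖ + ‖z - ζ₀‖ := norm_add_le _ _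
          _ = ρ + ‖z - ζ₀‖ := by rw [hw]
      have h1' : ‖w - ζ₀‖ ≤ (C + 1 / 2) * (1 - ‖z‖) := by
        refine h1.trans ?_
        rw [hρ]
        linarith
      have h2 := hδ' w (mem_ball_zero_iff.1 hwb).le (by rw [hρ] at h1; linarith)
      refine h2.trans ?_
      gcongr
  have hzb : z ∈ ball (0 : ℂ) 1 := hsub (mem_closedBall_self hρ0.le)
  rw [(hRd z hzb).deriv] at hder
  rw [dist_eq_norm]
  refine hder.trans_lt ?_
  have hz0 : 0 < 1 - ‖z‖ := by linarith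
  have e : (ε / (2 * (2 * C + 1)) * ((C + 1 / 2) * (1 - ‖z‖))) / ρ = ε / 2 := by
    rw [hρ]
    field_simp
  rw [e]
  linarith

/-- The radial limit is a particular case of a nontangential limit. -/
theorem NTLim.radial {E : Type*} [TopologicalSpace E] {F : ℂ → E} {θ : ℝ} {L : E}
    (h : NTLim F (pt θ) L) : Tendsto (fun r : ℝ => F (r * pt θ)) (𝓝[<] 1) (𝓝 L) := by
  refine (h 1).comp ?_
  rw [tendsto_nhdsWithin_iff]
  constructor
  · have : Continuous fun r : ℝ => (r : ℂ) * pt θ := by fun_prop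
    have h := (this.tendsto 1).mono_left (nhdsWithin_le_nhds (s := Iio 1))
    simpa using h
  · filter_upwards [Ioo_mem_nhdsLT (show (0 : ℝ) < 1 by norm_num)] with r hr
    have h1 : ‖(r : ℂ) * pt θ‖ = r := by
      rw [norm_mul, norm_pt, mul_one, Complex.norm_real, Real.norm_of_nonneg hr.1.le]
    refine ⟨by rw [h1]; exact hr.2, ?_⟩
    rw [h1, one_mul]
    have h2 : (r : ℂ) * pt θ - pt θ = ((r - 1 : ℝ) : ℂ) * pt θ := by push_cast; ring
    rw [h2, norm_mul, norm_pt, mul_one, Complex.norm_real, Real.norm_eq_abs,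
      abs_of_neg (by linarith [hr.2])]
    linarith

end Pool.Agent.H291.Jpq
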