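import Pool.Agent.H291.Jpq.Ring

/-!
Matrix functions whose inverse is in the Smirnov class have outer determinant.
-/

set_option autoImplicit false
set_option linter.unusedSectionVars false

open MeasureTheory Filter Topology Set Metric Matrix
open scoped Real ComplexConjugate ENNReal ComplexOrder

namespace Pool.Agent.H291.Jpq

variable {ν : Type*} [Fintype ν] [DecidableEq ν]

theorem cont_int {f : ℝ → ℝ} (hf : Continuous f) : Integrable f m := by
  rw [m]
  apply Integrable.smul_measure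
  · exact hf.integrableOn_Ioc
  · exact ENNReal.inv_ne_top.2 ofReal_two_pi_ne_zero

theorem Outer.of_const_mul {a : ℝ → ℂ} {c : ℂ} (h : Outer (fun θ => c * a θ)) : Outer a := by
  obtain ⟨u, C, hu, hC, hl⟩ := h
  refine ⟨fun n θ => c * u n θ, C, fun n => (hu n).const_mul c, fun n => ?_, ?_⟩
  · filter_upwards [hC n] with θ hθ
    rwa [show c * u n θ * a θ = u n θ * (c * a θ) by ring]
  · filter_upwards [hl] with θ hθ
    refine hθ.congr fun n => ?_
    ring

theorem hbR_HB (v : HbR) : HB (fun z => ev z (v : ℝ → ℂ)) (v : ℝ → ℂ) := by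
  obtain ⟨C, hC⟩ := v.2.2
  refine ⟨ev_diff (v.2.1.1.integrable one_le_two), ⟨C, fun z hz =>
    ev_bound v.2 hC (mem_ball_zero_iff.1 hz)⟩, ?_⟩
  filter_upwards [v.2.ntlim] with θ hθ using hθ.radial

theorem outer_of_smirnov {P : Matrix ν ν HbR} {M : ℂ → Matrix ν ν ℂ}
    (hM : ∀ i j, Smirnov (fun z => M z i j))
    (hPM : ∀ (z : ℂ) (hz : ‖z‖ < 1), iM P hz * M z = 1) : Outer (P.det : ℝ → ℂ) := by
  classical
  set a : ℝ → ℂ := (P.det : ℝ → ℂ) with ha
  set F : ℂ → ℂ := fun z => ev z a with hF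
  have hFa : HB F a := hbR_HB P.det
  set g : ℂ → ℂ := fun z => (M z).det with hg
  have hFg : ∀ z : ℂ, ‖z‖ < 1 → F z * g z = 1 := by
    intro z hz
    simp only [hF, hg, ha]
    rw [iM_det _ hz, ← Matrix.det_mul, hPM z hz, Matrix.det_one]
  have hg0 : ∀ z : ℂ, ‖z‖ < 1 → g z ≠ 0 := fun z hz h => by
    have := hFg z hz; rw [h, mul_zero] at this; exact zero_ne_one this
  have hF0 : ∀ z : ℂ, ‖z‖ < 1 → F z ≠ 0 := fun z hz h => by
    have := hFg z hz; rw [h, zero_mul] at this; exact zero_ne_one this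
  have hgF : ∀ z : ℂ, ‖z‖ < 1 → Real.log ‖g z‖ = -Real.log ‖F z‖ := by
    intro z hz
    have h1 : g z = (F z)⁻¹ := eq_inv_of_mul_eq_one_right (hFg z hz)
    rw [h1, norm_inv, Real.log_inv]
  have hMd : ∀ i j, DifferentiableOn ℂ (fun z => M z i j) (ball 0 1) := fun i j => (hM i j).1
  have hgd : DifferentiableOn ℂ g (ball 0 1) := by
    simp only [hg]
    simp only [Matrix.det_apply']
    apply DifferentiableOn.fun_sum
    intro σ _
    apply DifferentiableOn.const_mul
    exact DifferentiableOn.fun_finsetProd fun i _ => hMd (σ i) i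
  have hcirc : ∀ n, Continuous fun θ : ℝ => (rad n : ℂ) * pt θ := fun n => by
    have := continuous_pt; fun_prop
  have hgc : ∀ n, Continuous fun θ : ℝ => Real.log ‖g (rad n * pt θ)‖ := by
    intro n
    refine Continuous.log ?_ ?_
    · exact (hgd.continuousOn.comp_continuous (hcirc n) (rad_mem n)).norm
    · intro θ
      exact norm_ne_zero_iff.2 (hg0 _ (mem_ball_zero_iff.1 (rad_mem n θ)))
  have hMc : ∀ n i j, Continuous fun θ : ℝ => Real.posLog ‖M (rad n * pt θ) i j‖ := by
    intro n i j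
    exact Real.continuous_posLog.comp
      ((hMd i j).continuousOn.comp_continuous (hcirc n) (rad_mem n)).norm
  have hmean : ∀ n, ∫ θ, Real.log ‖g (rad n * pt θ)‖ ∂m = Real.log ‖g 0‖ := by
    intro n
    have hsub : closedBall (0 : ℂ) |rad n| ⊆ ball 0 1 := by
      intro z hz
      rw [mem_closedBall_zero_iff, abs_of_pos (rad_pos n)] at hz
      rw [mem_ball_zero_iff]
      exact hz.trans_lt (rad_lt n)
    have h1 := AnalyticOnNhd.circleAverage_log_norm_of_ne_zero (R := rad n) (c := 0) (g := g)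
      ((hgd.analyticOnNhd isOpen_ball).mono hsub)
      (fun u hu => hg0 u (mem_ball_zero_iff.1 (hsub hu)))
    rw [← h1, Real.circleAverage_def, integral_m]
    congr 1
    apply intervalIntegral.integral_congr
    intro θ _
    simp only [circleMap_eq]
  choose hb hbl hbi hbs using fun i j => (hM i j).2.2
  set K : ℝ := Real.log ((Finset.univ : Finset (Equiv.Perm ν)).card : ℝ) with hK
  obtain ⟨C, hC⟩ := hFa.2.1
  have hane : ∀ᵐ θ ∂m, a θ ≠ 0 := ae_ne_zero P.det.2 (w := 0) (hF0 0 (by simp))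
  have hC1 : 0 < |C| + 1 := by positivity
  have hCn : ((|C| + 1 : ℝ) : ℂ) ≠ 0 := by rw [Complex.ofReal_ne_zero]; exact hC1.ne'
  set c : ℂ := ((|C| + 1 : ℝ) : ℂ)⁻¹ with hc
  have hcn : ‖c‖ = (|C| + 1)⁻¹ := by
    rw [hc, norm_inv, Complex.norm_real, Real.norm_of_nonneg hC1.le]
  have hc0 : c ≠ 0 := inv_ne_zero hCn
  have hab : ∀ᵐ θ ∂m, ‖c * a θ‖ ≤ 1 := by
    filter_upwards [hFa.bound hC] with θ hθ
    rw [norm_mul, hcn, inv_mul_le_iff₀ hC1, mul_one]
    linarith [le_abs_self C]
  have hcane : ∀ᵐ θ ∂m, c * a θ ≠ 0 := by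
    filter_upwards [hane] with θ hθ using mul_ne_zero hc0 hθ
  have hloga := (log_int' (P.det.2.const_mul c) hab (fun h => by
    obtain ⟨θ, h1, h2⟩ := (h.and hcane).exists
    exact h2 h1)).2
  have hlogeq : ∀ᵐ θ ∂m, -Real.log ‖c * a θ‖ = -Real.log ‖c‖ + -Real.log ‖a θ‖ := by
    filter_upwards [hane] with θ hθ
    rw [norm_mul, Real.log_mul (norm_ne_zero_iff.2 hc0) (norm_ne_zero_iff.2 hθ)]
    ring
  have hia : Integrable (fun θ => -Real.log ‖a θ‖) m := by
    have h1 : Integrable (fun θ => -Real.log ‖c‖ + -Real.log ‖a θ‖) m :=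
      Integrable.congr hloga hlogeq
    have := h1.sub (integrable_const (-Real.log ‖c‖))
    refine this.congr (Eventually.of_forall fun θ => ?_)
    simp
  have key : -Real.log ‖F 0‖ ≤ ∫ θ, -Real.log ‖a θ‖ ∂m := by
    have hsumc : ∀ n, Continuous fun θ : ℝ =>
        K + ∑ σ : Equiv.Perm ν, ∑ i, Real.posLog ‖M (rad n * pt θ) (σ i) i‖ := fun n =>
      continuous_const.add (continuous_finsetSum _ fun σ _ =>
        continuous_finsetSum _ fun i _ => hMc n (σ i) i)
    have hfi : ∀ n, Integrable (fun θ : ℝ => (K + ∑ σ : Equiv.Perm ν, ∑ i,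
        Real.posLog ‖M (rad n * pt θ) (σ i) i‖) - Real.log ‖g (rad n * pt θ)‖) m := fun n =>
      (cont_int (hsumc n)).sub (cont_int (hgc n))
    have hgi : Integrable (fun θ : ℝ => K + ∑ σ : Equiv.Perm ν, ∑ i,
        Real.posLog ‖hb (σ i) i θ‖) m :=
      (integrable_const K).add (integrable_finsetSum _ fun σ _ =>
        integrable_finsetSum _ fun i _ => hbi (σ i) i)
    have h1 := fatou_real
      (f := fun n θ => (K + ∑ σ : Equiv.Perm ν, ∑ i,
        Real.posLog ‖M (rad n * pt θ) (σ i) i‖) - Real.log ‖g (rad n * pt θ)‖)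
      (g := fun θ => (K + ∑ σ : Equiv.Perm ν, ∑ i, Real.posLog ‖hb (σ i) i θ‖) -
        -Real.log ‖a θ‖)
      (b := fun _ => (K + ∑ σ : Equiv.Perm ν, ∑ i, ∫ θ, Real.posLog ‖hb (σ i) i θ‖ ∂m) -
        Real.log ‖g 0‖) hfi (fun n => Eventually.of_forall fun θ => ?_) ?_ (fun n => ?_)
      tendsto_const_nhds
    · have h2 := h1.2
      rw [integral_sub hgi hia, integral_add (integrable_const K)
        (integrable_finsetSum _ fun σ _ => integrable_finsetSum _ fun i _ => hbi (σ i) i),
        integral_finsetSum _ (fun σ _ => integrable_finsetSum _ fun i _ => hbi (σ i) i)] at h2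
      have h3 : ∀ σ : Equiv.Perm ν, ∫ θ, ∑ i, Real.posLog ‖hb (σ i) i θ‖ ∂m =
          ∑ i, ∫ θ, Real.posLog ‖hb (σ i) i θ‖ ∂m := fun σ =>
        integral_finsetSum _ fun i _ => hbi (σ i) i
      simp only [h3, integral_const, probReal_univ, one_smul] at h2
      rw [hgF 0 (by simp)] at h2
      linarith
    · -- nonnegativity
      rw [sub_nonneg]
      have h2 : Real.log ‖g (rad n * pt θ)‖ ≤ Real.posLog ‖g (rad n * pt θ)‖ := by
        rw [Real.posLog_apply]; exact le_max_right _ _
      refine h2.trans ?_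
      simp only [hg, Matrix.det_apply']
      refine (Real.posLog_norm_sum_le _ _).trans ?_
      rw [hK]
      gcongr with σ _
      have h3 : ‖((Equiv.Perm.sign σ : ℤ) : ℂ) * ∏ i, M (rad n * pt θ) (σ i) i‖ =
          ∏ i, ‖M (rad n * pt θ) (σ i) i‖ := by
        rw [norm_mul, norm_prod]
        have : ‖((Equiv.Perm.sign σ : ℤ) : ℂ)‖ = 1 := by
          rcases Int.units_eq_one_or (Equiv.Perm.sign σ) with h | h <;> rw [h] <;> simp
        rw [this, one_mul]
      rw [h3]
      exact Real.posLog_prod _ _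
    · -- convergence
      have hall : ∀ᵐ θ ∂m, ∀ i j, NTLim (fun z => M z i j) (pt θ) (hb i j θ) :=
        ae_all_iff.2 fun i => ae_all_iff.2 fun j => hbl i j
      filter_upwards [hall, hane, hFa.2.2] with θ h2 h3 h4
      apply Tendsto.sub
      · apply Tendsto.const_add
        apply tendsto_finsetSum
        intro σ _
        apply tendsto_finsetSum
        intro i _
        exact (Real.continuous_posLog.tendsto _).comp
          (((h2 (σ i) i).radial.comp rad_tendsto).norm)
      · have h5 : Tendsto (fun n => -Real.log ‖F (rad n * pt θ)‖) atTop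
            (𝓝 (-Real.log ‖a θ‖)) :=
          (((h4.comp rad_tendsto).norm).log (norm_ne_zero_iff.2 h3)).neg
        refine h5.congr fun n => ?_
        rw [hgF _ (mem_ball_zero_iff.1 (rad_mem n θ))]
    · -- the integrals
      rw [integral_sub (cont_int (hsumc n)) (cont_int (hgc n)), hmean, integral_add
        (integrable_const K) (integrable_finsetSum _ fun σ _ => integrable_finsetSum _ fun i _ =>
          cont_int (hMc n (σ i) i)),
        integral_finsetSum _ (fun σ _ => integrable_finsetSum _ fun i _ =>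
          cont_int (hMc n (σ i) i))]
      have h3 : ∀ σ : Equiv.Perm ν, ∫ θ, ∑ i, Real.posLog ‖M (rad n * pt θ) (σ i) i‖ ∂m =
          ∑ i, ∫ θ, Real.posLog ‖M (rad n * pt θ) (σ i) i‖ ∂m := fun σ =>
        integral_finsetSum _ fun i _ => cont_int (hMc n (σ i) i)
      simp only [h3, integral_const, probReal_univ, one_smul]
      have h4 : ∑ σ : Equiv.Perm ν, ∑ i, ∫ θ, Real.posLog ‖M (rad n * pt θ) (σ i) i‖ ∂m ≤
          ∑ σ : Equiv.Perm ν, ∑ i, ∫ θ, Real.posLog ‖hb (σ i) i θ‖ ∂m :=
        Finset.sum_le_sum fun σ _ => Finset.sum_le_sum fun i _ =>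
          (hbs (σ i) i).1 ⟨rad n, ⟨(rad_pos n).le, rad_lt n⟩, rfl⟩
      linarith
  apply Outer.of_const_mul (c := c)
  refine outer_of_log ((HB.const c).mul hFa) (mul_ne_zero hc0 (hF0 0 (by simp))) hab hcane hloga ?_
  rw [integral_congr_ae hlogeq, integral_add (integrable_const _) hia, norm_mul,
    Real.log_mul (norm_ne_zero_iff.2 hc0) (norm_ne_zero_iff.2 (hF0 0 (by simp)))]
  simp only [integral_const, probReal_univ, one_smul]
  linarith

end Pool.Agent.H291.Jpq
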