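import Pool.Agent.H291.Jpq.Extend
import Pool.Agent.H291.Jpq.SmirnovOuter
import Pool.Agent.H291.Jpq.Core

/-!
Every canonical Schur function of a `j`-inner function is the canonical Schur function of a
left regular `j`-inner function.
-/

set_option autoImplicit false
set_option linter.unusedSectionVars false

open MeasureTheory Filter Topology Set Metric Matrix
open scoped Real ComplexConjugate ENNReal ComplexOrder

namespace Pool.Agent.H291.Jpq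

variable {ι κ ν : Type*} [Fintype ι] [Fintype κ] [DecidableEq ι] [DecidableEq κ]
  [Fintype ν] [DecidableEq ν]

theorem tmul {α ι κ ν : Type*} [Fintype κ] {l : Filter α} {A : α → Matrix ι κ ℂ}
    {B : α → Matrix κ ν ℂ} {a : Matrix ι κ ℂ} {b : Matrix κ ν ℂ} (ha : Tendsto A l (𝓝 a))
    (hb : Tendsto B l (𝓝 b)) : Tendsto (fun x => A x * B x) l (𝓝 (a * b)) := by
  refine tendsto_pi_nhds.2 fun i => tendsto_pi_nhds.2 fun j => ?_
  have h1 : Tendsto (fun x => ∑ k, A x i k * B x k j) l (𝓝 (∑ k, a i k * b k j)) :=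
    tendsto_finsetSum _ fun k _ =>
      (tendsto_pi_nhds.1 (tendsto_pi_nhds.1 ha i) k).mul
        (tendsto_pi_nhds.1 (tendsto_pi_nhds.1 hb k) j)
  exact h1

theorem tTm {α : Type*} {l : Filter α} {A : α → Matrix (ι ⊕ κ) (ι ⊕ κ) ℂ} {t : α → ℂ}
    {a : Matrix (ι ⊕ κ) (ι ⊕ κ) ℂ} {b : ℂ} (ha : Tendsto A l (𝓝 a)) (hb : Tendsto t l (𝓝 b)) :
    Tendsto (fun x => A x * Tm ι κ (t x)) l (𝓝 (a * Tm ι κ b)) := by
  have h : Continuous (Tm ι κ) := by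
    unfold Tm
    apply Continuous.matrix_fromBlocks
    · exact continuous_id.smul continuous_const
    · exact continuous_const
    · exact continuous_const
    · exact continuous_const
  exact tmul ha ((h.tendsto b).comp hb)

theorem tblk {α μ ρ σ τ : Type*} {l : Filter α} {A : α → Matrix μ ρ ℂ} {a : Matrix μ ρ ℂ}
    (ha : Tendsto A l (𝓝 a)) (e : σ → μ) (e' : τ → ρ) :
    Tendsto (fun x => (A x).submatrix e e') l (𝓝 (a.submatrix e e')) := by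
  have h : Continuous fun P : Matrix μ ρ ℂ => P.submatrix e e' :=
    continuous_id.matrix_submatrix e e'
  exact (h.tendsto a).comp ha

theorem hbR_le {Θ : HbR} (hΘ : ∀ᵐ θ ∂m, ‖(Θ : ℝ → ℂ) θ‖ = 1) {z : ℂ} (hz : ‖z‖ < 1) :
    ‖ev z (Θ : ℝ → ℂ)‖ ≤ 1 :=
  ev_bound Θ.2 (by filter_upwards [hΘ] with θ hθ using hθ.le) hz

theorem hbR_diff (Θ : HbR) : DifferentiableOn ℂ (fun z => ev z (Θ : ℝ → ℂ)) (ball 0 1) :=
  ev_diff (Θ.2.1.1.integrable one_le_two)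

theorem mul_Tm_inl (X : Matrix (ι ⊕ κ) (ι ⊕ κ) ℂ) (t : ℂ) (i : ι ⊕ κ) (j : ι) :
    (X * Tm ι κ t) i (Sum.inl j) = X i (Sum.inl j) * t := by
  rw [Matrix.mul_apply, Fintype.sum_sum_type]
  simp [Tm, Matrix.one_apply, Finset.sum_ite_eq']

theorem mul_Tm_inr (X : Matrix (ι ⊕ κ) (ι ⊕ κ) ℂ) (t : ℂ) (i : ι ⊕ κ) (j : κ) :
    (X * Tm ι κ t) i (Sum.inr j) = X i (Sum.inr j) := by
  rw [Matrix.mul_apply, Fintype.sum_sum_type]
  simp [Tm, Matrix.one_apply, Finset.sum_ite_eq']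

theorem mul_Tm_12 (X : Matrix (ι ⊕ κ) (ι ⊕ κ) ℂ) (t : ℂ) :
    (X * Tm ι κ t).toBlocks₁₂ = X.toBlocks₁₂ := by
  ext i j
  exact mul_Tm_inr X t (Sum.inl i) j

theorem mul_Tm_22 (X : Matrix (ι ⊕ κ) (ι ⊕ κ) ℂ) (t : ℂ) :
    (X * Tm ι κ t).toBlocks₂₂ = X.toBlocks₂₂ := by
  ext i j
  exact mul_Tm_inr X t (Sum.inr i) j

theorem bdd_tw {F G : ℂ → ℂ} (hF : BddType F) (hG : DifferentiableOn ℂ G (ball 0 1))
    (hb : ∀ z ∈ ball (0 : ℂ) 1, ‖G z‖ ≤ 1) : BddType (fun z => F z * G z) := by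
  obtain ⟨a, b, ha, hb', ⟨M, hM⟩, hne, he⟩ := hF
  refine ⟨fun z => a z * G z, b, ha.mul hG, hb', ⟨M, fun z hz => ⟨?_, (hM z hz).2⟩⟩, hne,
    fun z hz hbz => ?_⟩
  · rw [norm_mul]
    have h1 := hM z hz
    have h2 := hb z hz
    calc ‖a z‖ * ‖G z‖ ≤ ‖a z‖ * 1 := by gcongr
      _ ≤ M := by rw [mul_one]; exact h1.1
  · change F z * G z = a z * G z / b z
    rw [he z hz hbz]
    ring

theorem jinner_tw {W₀ : ℂ → Matrix (ι ⊕ κ) (ι ⊕ κ) ℂ} (h : JInner W₀) {Θ : HbR}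
    (hΘ0 : ev 0 (Θ : ℝ → ℂ) ≠ 0) (hΘ : ∀ᵐ θ ∂m, ‖(Θ : ℝ → ℂ) θ‖ = 1) :
    JInner (fun z => W₀ z * Tm ι κ (ev z (Θ : ℝ → ℂ))) := by
  obtain ⟨s, -, hg, -⟩ := exists_sys h
  refine ⟨?_, ?_, ?_, ?_⟩
  · intro i j
    rcases j with j | j
    · have h1 := bdd_tw (h.bddType i (Sum.inl j)) (hbR_diff Θ)
        (fun z hz => hbR_le hΘ (mem_ball_zero_iff.1 hz))
      have e : (fun z => (W₀ z * Tm ι κ (ev z (Θ : ℝ → ℂ))) i (Sum.inl j)) =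
          fun z => W₀ z i (Sum.inl j) * ev z (Θ : ℝ → ℂ) := by
        funext z; exact mul_Tm_inl _ _ _ _
      rw [e]
      exact h1
    · have e : (fun z => (W₀ z * Tm ι κ (ev z (Θ : ℝ → ℂ))) i (Sum.inr j)) =
          fun z => W₀ z i (Sum.inr j) := by
        funext z; exact mul_Tm_inr _ _ _ _
      rw [e]
      exact h.bddType i (Sum.inr j)
  · have h1 := hg 0 (by simp)
    have h2 : ∀ᶠ z in 𝓝[≠] (0 : ℂ), ev z (Θ : ℝ → ℂ) ≠ 0 :=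
      ev_ne (hbR_diff Θ) ⟨0, by simp, hΘ0⟩ (by simp)
    obtain ⟨z, ⟨hz, han, hu, -⟩, hz2⟩ := (h1.and h2).exists
    have hzb : z ∈ ball (0 : ℂ) 1 := mem_ball_zero_iff.2 hz
    refine ⟨z, hzb, ?_, ?_⟩
    · intro i j
      rcases j with j | j
      · have e : (fun z => (W₀ z * Tm ι κ (ev z (Θ : ℝ → ℂ))) i (Sum.inl j)) =
            fun z => W₀ z i (Sum.inl j) * ev z (Θ : ℝ → ℂ) := by
          funext z; exact mul_Tm_inl _ _ _ _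
        rw [e]
        exact (han i (Sum.inl j)).mul ((hbR_diff Θ).analyticOnNhd isOpen_ball z hzb)
      · have e : (fun z => (W₀ z * Tm ι κ (ev z (Θ : ℝ → ℂ))) i (Sum.inr j)) =
            fun z => W₀ z i (Sum.inr j) := by
          funext z; exact mul_Tm_inr _ _ _ _
        rw [e]
        exact han i (Sum.inr j)
    · rw [det_tw]
      exact mul_ne_zero ((Matrix.isUnit_iff_isUnit_det _).1 hu).ne_zero (pow_ne_zero _ hz2)
  · intro z hz han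
    refine psd_limit (l := 𝓝[≠] z) (han.continuousAt.tendsto.mono_left nhdsWithin_le_nhds) ?_
    filter_upwards [hg z hz] with w hw
    obtain ⟨hw1, hw2, -, -⟩ := hw
    exact psd_tw (h.contr w (mem_ball_zero_iff.2 hw1) hw2) (hbR_le hΘ hw1)
  · filter_upwards [h.bdry, hΘ, Θ.2.ntlim] with θ h1 h2 h3
    obtain ⟨L, hL, hLu⟩ := h1
    refine ⟨L * Tm ι κ ((Θ : ℝ → ℂ) θ), ?_, unitary_tw hLu h2⟩
    intro C
    exact tTm (hL C) (h3 C)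

theorem eta_tw {W₀ : ℂ → Matrix (ι ⊕ κ) (ι ⊕ κ) ℂ} (h : JInner W₀) {Θ : HbR}
    (hΘ0 : ev 0 (Θ : ℝ → ℂ) ≠ 0) (hΘ : ∀ᵐ θ ∂m, ‖(Θ : ℝ → ℂ) θ‖ = 1) {f : ℂ → Matrix ι κ ℂ}
    (hf : IsEta W₀ f) : IsEta (fun z => W₀ z * Tm ι κ (ev z (Θ : ℝ → ℂ))) f := by
  obtain ⟨s, -, hg, -⟩ := exists_sys h
  have hJ := jinner_tw h hΘ0 hΘ
  refine ⟨hf.1, fun z hz han => ?_⟩
  have hu := d_unit (hJ.contr z hz han)
  have hu' := (Matrix.isUnit_iff_isUnit_det _).1 hu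
  set W : ℂ → Matrix (ι ⊕ κ) (ι ⊕ κ) ℂ := fun z => W₀ z * Tm ι κ (ev z (Θ : ℝ → ℂ)) with hW
  have hWc : ContinuousAt W z := AnAt.continuousAt han
  have hfc : ContinuousAt f z := continuousAt_pi.2 fun i => continuousAt_pi.2 fun j =>
    ((hf.1 i j).differentiableAt (isOpen_ball.mem_nhds hz)).continuousAt
  have c12 : ContinuousAt (fun w => (W w).toBlocks₁₂) z := tblk hWc Sum.inl Sum.inr
  have c22 : ContinuousAt (fun w => (W w).toBlocks₂₂) z := tblk hWc Sum.inr Sum.inr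
  have cm : ContinuousAt (fun w => f w * (W w).toBlocks₂₂) z := tmul hfc c22
  have key : f z * (W z).toBlocks₂₂ = (W z).toBlocks₁₂ := by
    refine eq_of_punct cm c12 ?_
    filter_upwards [hg z hz] with w hw
    obtain ⟨hw1, hw2, -, -⟩ := hw
    have hwb : w ∈ ball (0 : ℂ) 1 := mem_ball_zero_iff.2 hw1
    have h1 := hf.2 w hwb hw2
    have h2 := d_unit (h.contr w hwb hw2)
    simp only [hW, mul_Tm_12, mul_Tm_22]
    rw [h1, Matrix.mul_assoc, Matrix.nonsing_inv_mul _ ((Matrix.isUnit_iff_isUnit_det _).1 h2),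
      Matrix.mul_one]
  rw [← key, Matrix.mul_assoc, Matrix.mul_nonsing_inv _ hu', Matrix.mul_one]

theorem tw_bM (s : Sys ι κ) (Θ : HbR) {θ : ℝ} {L : Matrix (ι ⊕ κ) (ι ⊕ κ) ℂ}
    (h : bM s.S θ = PG L) : bM (s.tw Θ).S θ = PG (L * Tm ι κ ((Θ : ℝ → ℂ) θ)) := by
  rw [s.bM_S] at h
  rw [PG_tw h.symm, Sys.bM_S]
  simp only [Sys.tw, bM_smul]

theorem tw_iM (s : Sys ι κ) (Θ : HbR) {z : ℂ} (hz : ‖z‖ < 1) {L : Matrix (ι ⊕ κ) (ι ⊕ κ) ℂ}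
    (h : iM s.S hz = PG L) : iM (s.tw Θ).S hz = PG (L * Tm ι κ (ev z (Θ : ℝ → ℂ))) := by
  rw [s.iM_S] at h
  rw [PG_tw h.symm, Sys.iM_S]
  simp only [Sys.tw, iM_smul]

/-- Interior values as a function of the point. -/
noncomputable def eM (P : Matrix ι κ HbR) (z : ℂ) : Matrix ι κ ℂ :=
  P.map (fun v : HbR => ev z (v : ℝ → ℂ))

theorem eM_eq (P : Matrix ι κ HbR) {z : ℂ} (hz : ‖z‖ < 1) : iM P hz = eM P z := rfl

theorem eM_cont (P : Matrix ι κ HbR) {z : ℂ} (hz : z ∈ ball (0 : ℂ) 1) :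
    ContinuousAt (eM P) z :=
  continuousAt_pi.2 fun i => continuousAt_pi.2 fun j =>
    ((hbR_diff (P i j)).differentiableAt (isOpen_ball.mem_nhds hz)).continuousAt

theorem left_regular_tw {W₀ : ℂ → Matrix (ι ⊕ κ) (ι ⊕ κ) ℂ} {s₀ : Sys ι κ}
    (hg₀ : ∀ z₀ ∈ ball (0 : ℂ) 1, ∀ᶠ z in 𝓝[≠] z₀, ∃ hz : ‖z‖ < 1, AnAt W₀ z ∧ IsUnit (W₀ z) ∧
        iM s₀.S hz = PG (W₀ z))
    (hb₀ : ∀ᵐ θ ∂m, ∃ L : Matrix (ι ⊕ κ) (ι ⊕ κ) ℂ, NTLim W₀ (pt θ) L ∧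
      Lᴴ * JJ ι κ * L = JJ ι κ ∧ bM s₀.S θ = PG L)
    (h₀ : JInner W₀) {Θ : HbR}
    (hΘ : ∀ᵐ θ ∂m, ‖(Θ : ℝ → ℂ) θ‖ = 1)
    (hden : DenseL2 (s₀.tw Θ)) :
    LeftRegular (fun z => W₀ z * Tm ι κ (ev z (Θ : ℝ → ℂ))) := by
  intro V hV hW₁ hVs
  set W : ℂ → Matrix (ι ⊕ κ) (ι ⊕ κ) ℂ := fun z => W₀ z * Tm ι κ (ev z (Θ : ℝ → ℂ)) with hW
  obtain ⟨s₁, hi₁, hg₁, hb₁⟩ := exists_sys hW₁
  obtain ⟨sv, hiv, hgv, hbv⟩ := exists_sys hV
  -- boundary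
  have hbnd : ∀ᵐ θ ∂m, ∃ L₁ Lv : Matrix (ι ⊕ κ) (ι ⊕ κ) ℂ, L₁ᴴ * JJ ι κ * L₁ = JJ ι κ ∧
      Lvᴴ * JJ ι κ * Lv = JJ ι κ ∧ (L₁ * Lv)ᴴ * JJ ι κ * (L₁ * Lv) = JJ ι κ ∧
      bM (s₀.tw Θ).S θ = PG (L₁ * Lv) ∧ bM s₁.S θ = PG L₁ ∧ bM sv.S θ = PG Lv := by
    filter_upwards [hb₀, hb₁, hbv, hΘ, Θ.2.ntlim] with θ h1 h2 h3 h4 h5
    obtain ⟨L₀, k0, u0, e0⟩ := h1
    obtain ⟨L₁, k1, u1, e1⟩ := h2
    obtain ⟨Lv, kv, uv, ev'⟩ := h3
    have hlim : L₀ * Tm ι κ ((Θ : ℝ → ℂ) θ) = L₁ * Lv := by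
      have t1 : Tendsto (fun r : ℝ => W (r * pt θ)) (𝓝[<] 1)
          (𝓝 (L₀ * Tm ι κ ((Θ : ℝ → ℂ) θ))) := tTm k0.radial h5.radial
      have t2 : Tendsto (fun r : ℝ => (W (r * pt θ) * (V (r * pt θ))⁻¹) * V (r * pt θ)) (𝓝[<] 1)
          (𝓝 (L₁ * Lv)) := tmul k1.radial kv.radial
      refine tendsto_nhds_unique t1 (t2.congr' ?_)
      have h6 : Tendsto (fun r : ℝ => (V (r * pt θ)).det) (𝓝[<] 1) (𝓝 Lv.det) :=
        (continuous_id.matrix_det.tendsto Lv).comp kv.radial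
      have h7 : Lv.det ≠ 0 := ((Matrix.isUnit_iff_isUnit_det _).1 (unit_of_unitary uv)).ne_zero
      filter_upwards [h6.eventually_ne h7] with r hr
      rw [Matrix.mul_assoc, Matrix.nonsing_inv_mul _ (isUnit_iff_ne_zero.2 hr), Matrix.mul_one]
    refine ⟨L₁, Lv, u1, uv, ?_, ?_, e1, ev'⟩
    · rw [← hlim]; exact unitary_tw u0 h4
    · rw [← hlim]; exact tw_bM s₀ Θ e0
  have hU' : (s₀.tw Θ).Inn := by
    filter_upwards [hbnd] with θ h1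
    obtain ⟨L₁, Lv, -, -, u, e, -, -⟩ := h1
    rw [e]; exact PG_unitary u
  have hrel : ∀ᵐ θ ∂m, Rel (bM (s₀.tw Θ).A θ) (bM (s₀.tw Θ).F θ) (bM (s₀.tw Θ).D θ)
      (bM s₁.A θ) (bM s₁.F θ) (bM s₁.B θ) (bM s₁.D θ) (bM sv.A θ) (bM sv.F θ) (bM sv.D θ) := by
    filter_upwards [hbnd] with θ h1
    obtain ⟨L₁, Lv, u1, uv, u, e, e1, ev'⟩ := h1
    have d1 := d_unit (psd_of_unitary u1)
    have dv := d_unit (psd_of_unitary uv)
    have d := d_unit (psd_of_unitary u)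
    have a := A_unit dv (unit_of_unitary uv)
    rw [Sys.bM_S] at e e1 ev'
    obtain ⟨r1, r2⟩ := rel12 d1 dv d
    obtain ⟨r3, r4⟩ := rel34 d1 dv d a
    rw [← e, ← e1, ← ev'] at r1 r2 r3 r4
    simp only [toBlocks_fromBlocks₁₁, toBlocks_fromBlocks₁₂, toBlocks_fromBlocks₂₁,
      toBlocks_fromBlocks₂₂] at r1 r2 r3 r4
    exact ⟨r1, r2, r3, r4⟩
  -- outer determinants
  have hVc : ∀ z ∈ ball (0 : ℂ) 1, ContinuousAt V z := fun z hz =>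
    continuousAt_pi.2 fun i => continuousAt_pi.2 fun j =>
      ((hVs.1 i j).1.differentiableAt (isOpen_ball.mem_nhds hz)).continuousAt
  have hVic : ∀ z ∈ ball (0 : ℂ) 1, ContinuousAt (fun z => (V z)⁻¹) z := fun z hz =>
    continuousAt_pi.2 fun i => continuousAt_pi.2 fun j =>
      ((hVs.2 i j).1.differentiableAt (isOpen_ball.mem_nhds hz)).continuousAt
  have oD : Outer (sv.D.det : ℝ → ℂ) := by
    refine outer_of_smirnov (M := fun z => (V z).toBlocks₂₂)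
      (fun i j => hVs.1 (Sum.inr i) (Sum.inr j)) (fun z hz => ?_)
    have hzb : z ∈ ball (0 : ℂ) 1 := mem_ball_zero_iff.2 hz
    have c22 : ContinuousAt (fun w => (V w).toBlocks₂₂) z := tblk (hVc z hzb) Sum.inr Sum.inr
    have cm : ContinuousAt (fun w => eM sv.D w * (V w).toBlocks₂₂) z :=
      tmul (eM_cont sv.D hzb) c22
    have h1 : eM sv.D z * (V z).toBlocks₂₂ = 1 := by
      refine eq_of_punct (G := fun _ => 1) cm continuousAt_const ?_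
      filter_upwards [hgv z hzb] with w hw
      obtain ⟨hw1, hw2, -, hw4⟩ := hw
      have h2 := D_mul (d_unit (hV.contr w (mem_ball_zero_iff.2 hw1) hw2))
      rw [Sys.iM_S] at hw4
      rw [← hw4, toBlocks_fromBlocks₂₂] at h2
      exact h2
    exact h1
  have oA : Outer (sv.A.det : ℝ → ℂ) := by
    refine outer_of_smirnov (M := fun z => ((V z)⁻¹).toBlocks₁₁)
      (fun i j => hVs.2 (Sum.inl i) (Sum.inl j)) (fun z hz => ?_)
    have hzb : z ∈ ball (0 : ℂ) 1 := mem_ball_zero_iff.2 hz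
    have c11 : ContinuousAt (fun w => ((V w)⁻¹).toBlocks₁₁) z := tblk (hVic z hzb) Sum.inl Sum.inl
    have cm : ContinuousAt (fun w => eM sv.A w * ((V w)⁻¹).toBlocks₁₁) z :=
      tmul (eM_cont sv.A hzb) c11
    have h1 : eM sv.A z * ((V z)⁻¹).toBlocks₁₁ = 1 := by
      refine eq_of_punct (G := fun _ => 1) cm continuousAt_const ?_
      filter_upwards [hgv z hzb] with w hw
      obtain ⟨hw1, hw2, hw3, hw4⟩ := hw
      have h2 := A_mul (d_unit (hV.contr w (mem_ball_zero_iff.2 hw1) hw2)) hw3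
      rw [Sys.iM_S] at hw4
      rw [← hw4, toBlocks_fromBlocks₁₁] at h2
      exact h2
    exact h1
  -- a generic interior point
  obtain ⟨w, ⟨⟨hw, han₀, hu₀, e₀⟩, ⟨hw', han₁, hu₁, e₁⟩⟩, ⟨hw'', hanv, huv, ev'⟩⟩ :=
    (((hg₀ 0 (by simp)).and (hg₁ 0 (by simp))).and (hgv 0 (by simp))).exists
  have hwb : w ∈ ball (0 : ℂ) 1 := mem_ball_zero_iff.2 hw
  have hprod : W w * (V w)⁻¹ * V w = W w := by
    rw [Matrix.mul_assoc, Matrix.nonsing_inv_mul _ ((Matrix.isUnit_iff_isUnit_det _).1 huv),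
      Matrix.mul_one]
  have d₁ := d_unit (hW₁.contr w hwb han₁)
  have dv := d_unit (hV.contr w hwb hanv)
  have d' : IsUnit (W w * (V w)⁻¹ * V w).toBlocks₂₂ := by
    rw [hprod]
    exact d_unit (psd_tw (h₀.contr w hwb han₀) (hbR_le hΘ hw))
  have k' : iM (s₀.tw Θ).S hw = PG (W w * (V w)⁻¹ * V w) := by
    rw [hprod]; exact tw_iM s₀ Θ hw e₀
  have hsum : ∀ i, 1 ≤ ∑ j, ‖iM sv.S hw i j‖ ^ 2 := fun i =>
    core hU' hi₁ hden hrel oD oA hw d₁ dv d' hu₁ k' e₁ ev' i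
  have hconst : ∀ (z : ℂ) (hz : ‖z‖ < 1), iM sv.S hz = iM sv.S hw := by
    intro z hz
    ext i j
    have h1 := const_of_sum hiv hw hsum i j
    rw [iM_apply, ev_congr (g := fun _ => iM sv.S hw i j) h1]
    exact ev_HB (HB.const _) hz
  refine ⟨V w, fun z hz => ?_⟩
  refine eq_of_punct (G := fun _ => V w) (hVc z hz) continuousAt_const ?_
  filter_upwards [hgv z hz] with u hu
  obtain ⟨hu1, hu2, -, hu4⟩ := hu
  refine PG_inj (d_unit (hV.contr u (mem_ball_zero_iff.2 hu1) hu2)) dv ?_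
  rw [← hu4, hconst u hu1, ev']

/-- Every canonical Schur function is the canonical Schur function of a left regular function. -/
theorem eta_left_regular {W₀ : ℂ → Matrix (ι ⊕ κ) (ι ⊕ κ) ℂ} (h₀ : JInner W₀)
    {f : ℂ → Matrix ι κ ℂ} (hf : IsEta W₀ f) :
    ∃ W : ℂ → Matrix (ι ⊕ κ) (ι ⊕ κ) ℂ, JInner W ∧ LeftRegular W ∧ IsEta W f := by
  obtain ⟨s₀, hi₀, hg₀, hb₀⟩ := exists_sys h₀
  obtain ⟨w, hw, han, hu, e⟩ := (hg₀ 0 (by simp)).exists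
  have hdet : (iM s₀.D hw).det ≠ 0 := by
    rw [Sys.iM_S] at e
    have h1 := D_mul (d_unit (h₀.contr w (mem_ball_zero_iff.2 hw) han))
    rw [← e, toBlocks_fromBlocks₂₂] at h1
    intro h2
    have h3 := congrArg Matrix.det h1
    rw [Matrix.det_mul, h2, zero_mul, Matrix.det_one] at h3
    exact zero_ne_one h3
  obtain ⟨Θ, hΘ0, hΘ, hden⟩ := exists_dense s₀ hi₀ hw hdet
  exact ⟨_, jinner_tw h₀ hΘ0 hΘ, left_regular_tw hg₀ hb₀ h₀ hΘ hden, eta_tw h₀ hΘ0 hΘ hf⟩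

end Pool.Agent.H291.Jpq
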