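import Pool.Agent.H291.Jpq.Basic

/-!
Multiplication by bounded analytic functions, evaluation functionals, orthogonal decomposition.
-/

set_option autoImplicit false

open MeasureTheory Filter Topology Set Metric
open scoped Real ComplexConjugate ENNReal

namespace Pool.Agent.H291.Jpq

theorem int_conj (f : ℝ → ℂ) : ∫ θ, conj (f θ) ∂m = conj (∫ θ, f θ ∂m) := integral_conj

theorem H2m_pow {g : ℝ → ℂ} (hg : IsH2m g) (n : ℕ) : ∫ θ, conj (g θ) * pt θ ^ n ∂m = 0 := by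
  have h := hg.2 n
  have h2 : ∫ θ, conj (g θ) * pt θ ^ n ∂m = conj (∫ θ, conj (pt θ) ^ n * g θ ∂m) := by
    rw [← int_conj]
    congr 1
    funext θ
    simp [mul_comm]
  rw [h2, h, map_zero]

theorem H2m_rad {F : ℂ → ℂ} (hF : DifferentiableOn ℂ F (ball 0 1)) {g : ℝ → ℂ} (hg : IsH2m g)
    {r : ℝ} (h0 : 0 ≤ r) (h1 : r < 1) : ∫ θ, conj (g θ) * F (r * pt θ) ∂m = 0 := by
  have ht : ∀ z ∈ ball (0 : ℂ) 1,
      HasSum (fun n : ℕ => (n.factorial : ℂ)⁻¹ • (z - 0) ^ n • iteratedDeriv n F 0) (F z) :=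
    fun z hz => Complex.hasSum_taylorSeries_on_ball hF hz
  obtain ⟨a, ht'⟩ : ∃ a : ℕ → ℂ, ∀ z ∈ ball (0 : ℂ) 1, HasSum (fun n : ℕ => a n * z ^ n) (F z) := by
    refine ⟨fun n => (n.factorial : ℂ)⁻¹ * iteratedDeriv n F 0, ?_⟩
    intro z hz
    have := ht z hz
    simp only [sub_zero, smul_eq_mul] at this
    convert this using 2 with n
    ring
  have hr : (r : ℂ) ∈ ball (0 : ℂ) 1 := by
    rw [mem_ball_zero_iff, Complex.norm_real, Real.norm_eq_abs, abs_of_nonneg h0]; exact h1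
  have hs : Summable fun n : ℕ => ‖a n‖ * r ^ n := by
    have := (ht' r hr).summable.norm
    simpa [norm_mul, norm_pow, abs_of_nonneg h0] using this
  have hgi : Integrable (fun θ => ‖g θ‖) m := (hg.1.integrable one_le_two).norm
  have hsum := hasSum_integral_of_summable_integral_norm (μ := m)
    (F := fun (n : ℕ) θ => conj (g θ) * (a n * (r * pt θ) ^ n)) (by
      intro n
      exact int_conj_mul hg.1 (cont_memLp (C := ‖a n‖ * r ^ n)
        (by have := continuous_pt; fun_prop) (fun θ => by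
          rw [norm_mul, norm_pow, norm_mul, norm_pt, mul_one, Complex.norm_real,
            Real.norm_of_nonneg h0]))) (by
      have e : (fun n : ℕ => ∫ θ, ‖conj (g θ) * (a n * (r * pt θ) ^ n)‖ ∂m) =
          fun n => ‖a n‖ * r ^ n * ∫ θ, ‖g θ‖ ∂m := by
        funext n
        rw [← integral_const_mul]
        congr 1
        funext θ
        rw [norm_mul, norm_mul, norm_pow, norm_mul, norm_pt, mul_one, Complex.norm_real,
          Real.norm_of_nonneg h0, RCLike.norm_conj]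
        ring
      rw [e]
      exact hs.mul_right _)
  have h3 : (fun n : ℕ => ∫ θ, conj (g θ) * (a n * (r * pt θ) ^ n) ∂m) = fun _ => 0 := by
    funext n
    have : ∀ θ, conj (g θ) * (a n * (r * pt θ) ^ n) = (a n * r ^ n) * (conj (g θ) * pt θ ^ n) := by
      intro θ; rw [mul_pow]; ring
    simp only [this]
    rw [integral_const_mul, H2m_pow hg, mul_zero]
  rw [h3] at hsum
  have h4 := hsum.unique hasSum_zero
  rw [← h4]
  congr 1
  funext θ
  rw [← (ht' _ (mem_of_lt h0 h1 θ)).tsum_eq, tsum_mul_left]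

theorem HB.isH2 {F : ℂ → ℂ} {b : ℝ → ℂ} (h : HB F b) : IsH2 b := by
  refine ⟨h.memLp, fun g hg => ?_⟩
  obtain ⟨M, hM⟩ := h.2.1
  have h1 : Tendsto (fun n => ∫ θ, conj (g θ) * F (rad n * pt θ) ∂m) atTop
      (𝓝 (∫ θ, conj (g θ) * b θ ∂m)) := by
    apply tendsto_integral_of_dominated_convergence (fun θ => ‖g θ‖ * M)
    · intro n
      exact (memLp_conj hg.1).1.mul (h.cont n).aestronglyMeasurable
    · exact ((hg.1.integrable one_le_two).norm).mul_const _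
    · intro n
      refine Eventually.of_forall fun θ => ?_
      rw [norm_mul, RCLike.norm_conj]
      gcongr
      exact hM _ (rad_mem n θ)
    · filter_upwards [h.2.2] with θ hθ
      exact (hθ.comp rad_tendsto).const_mul _
  have h2 : (fun n => ∫ θ, conj (g θ) * F (rad n * pt θ) ∂m) = fun _ => 0 := by
    funext n
    exact H2m_rad h.1 hg (rad_pos n).le (rad_lt n)
  rw [h2] at h1
  exact (tendsto_nhds_unique h1 tendsto_const_nhds)

theorem HB.mulm {F : ℂ → ℂ} {b : ℝ → ℂ} (h : HB F b) {g : ℝ → ℂ} (hg : IsH2m g) :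
    IsH2m (fun θ => conj (b θ) * g θ) := by
  obtain ⟨M, hM⟩ := h.exists_bound
  refine ⟨memLp_bdd_mul (memLp_conj h.memLp (p := 2)).1 (C := M) (by simpa using hM) hg.1,
    fun n => ?_⟩
  have h1 := ((HB.id_pow n).mul h).isH2.2 g hg
  have h2 : ∫ θ, conj (pt θ) ^ n * (conj (b θ) * g θ) ∂m =
      conj (∫ θ, conj (g θ) * (pt θ ^ n * b θ) ∂m) := by
    rw [← int_conj]
    congr 1
    funext θ
    simp only [map_mul, map_pow, Complex.conj_conj]
    ring
  rw [h2, h1, map_zero]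

theorem HB.mulH2 {F : ℂ → ℂ} {b : ℝ → ℂ} (h : HB F b) {f : ℝ → ℂ} (hf : IsH2 f) :
    IsH2 (fun θ => b θ * f θ) := by
  obtain ⟨M, hM⟩ := h.exists_bound
  refine ⟨memLp_bdd_mul h.meas hM hf.1, fun g hg => ?_⟩
  have h1 := hf.2 _ (h.mulm hg)
  rw [← h1]
  congr 1
  funext θ
  simp only [map_mul, Complex.conj_conj]
  ring

/-! ### bounded functions of class `H²` -/

/-- Boundary functions of class `H^∞`. -/
def IsHb (v : ℝ → ℂ) : Prop := IsH2 v ∧ ∃ C, ∀ᵐ θ ∂m, ‖v θ‖ ≤ C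

theorem HB.isHb {F : ℂ → ℂ} {b : ℝ → ℂ} (h : HB F b) : IsHb b := ⟨h.isH2, h.exists_bound⟩

theorem IsHb.congr {v w : ℝ → ℂ} (h : IsHb v) (e : v =ᵐ[m] w) : IsHb w := by
  refine ⟨h.1.congr e, ?_⟩
  obtain ⟨C, hC⟩ := h.2
  refine ⟨C, ?_⟩
  filter_upwards [hC, e] with θ h1 h2
  rwa [← h2]

theorem IsHb.mulm {v : ℝ → ℂ} (h : IsHb v) {g : ℝ → ℂ} (hg : IsH2m g) :
    IsH2m (fun θ => conj (v θ) * g θ) := by
  obtain ⟨M, hM⟩ := h.2
  refine ⟨memLp_bdd_mul (memLp_conj h.1.1).1 (C := M) (by simpa using hM) hg.1,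
    fun n => ?_⟩
  have h1 := ((HB.id_pow n).mulH2 h.1).2 g hg
  have h2 : ∫ θ, conj (pt θ) ^ n * (conj (v θ) * g θ) ∂m =
      conj (∫ θ, conj (g θ) * (pt θ ^ n * v θ) ∂m) := by
    rw [← int_conj]
    congr 1
    funext θ
    simp only [map_mul, map_pow, Complex.conj_conj]
    ring
  rw [h2, h1, map_zero]

theorem IsHb.mulH2 {v : ℝ → ℂ} (h : IsHb v) {f : ℝ → ℂ} (hf : IsH2 f) :
    IsH2 (fun θ => v θ * f θ) := by
  obtain ⟨M, hM⟩ := h.2
  refine ⟨memLp_bdd_mul h.1.1.1 hM hf.1, fun g hg => ?_⟩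
  have h1 := hf.2 _ (h.mulm hg)
  rw [← h1]
  congr 1
  funext θ
  simp only [map_mul, Complex.conj_conj]
  ring

theorem IsHb.mul {v w : ℝ → ℂ} (h : IsHb v) (h' : IsHb w) : IsHb (fun θ => v θ * w θ) := by
  refine ⟨h.mulH2 h'.1, ?_⟩
  obtain ⟨C, hC⟩ := h.2
  obtain ⟨D, hD⟩ := h'.2
  refine ⟨C * D, ?_⟩
  filter_upwards [hC, hD] with θ h1 h2
  rw [norm_mul]
  exact mul_le_mul h1 h2 (norm_nonneg _) ((norm_nonneg _).trans h1)

theorem IsHb.const_mul {v : ℝ → ℂ} (h : IsHb v) (c : ℂ) : IsHb (fun θ => c * v θ) :=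
  (HB.const c).isHb.mul h

theorem IsHb.one : IsHb (fun _ => 1) := (HB.const 1).isHb

theorem IsHb.add {v w : ℝ → ℂ} (h : IsHb v) (h' : IsHb w) : IsHb (fun θ => v θ + w θ) := by
  refine ⟨h.1.add h'.1, ?_⟩
  obtain ⟨C, hC⟩ := h.2
  obtain ⟨D, hD⟩ := h'.2
  refine ⟨C + D, ?_⟩
  filter_upwards [hC, hD] with θ h1 h2
  exact (norm_add_le _ _).trans (add_le_add h1 h2)

theorem IsHb.sub {v w : ℝ → ℂ} (h : IsHb v) (h' : IsHb w) : IsHb (fun θ => v θ - w θ) := by
  have := h.add (h'.const_mul (-1))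
  simpa [sub_eq_add_neg] using this

theorem IsHb.prod {ι : Type*} (s : Finset ι) {v : ι → ℝ → ℂ} (h : ∀ i ∈ s, IsHb (v i)) :
    IsHb (fun θ => ∏ i ∈ s, v i θ) := by
  classical
  induction s using Finset.induction_on with
  | empty => simpa using IsHb.one
  | insert a s ha ih =>
    simp only [Finset.prod_insert ha]
    exact (h a (Finset.mem_insert_self _ _)).mul
      (ih fun i hi => h i (Finset.mem_insert_of_mem hi))

/-! ### evaluation -/

theorem ev_congr {w : ℂ} {f g : ℝ → ℂ} (h : f =ᵐ[m] g) : ev w f = ev w g := by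
  unfold ev
  apply integral_congr_ae
  filter_upwards [h] with θ hθ
  rw [hθ]

theorem ev_int {w : ℂ} (hw : ‖w‖ < 1) {f : ℝ → ℂ} (hf : MemLp f 2 m) :
    Integrable (fun θ => f θ * ck w θ) m := int_mul hf (ck_memLp hw)

theorem ev_add {w : ℂ} (hw : ‖w‖ < 1) {f g : ℝ → ℂ} (hf : MemLp f 2 m) (hg : MemLp g 2 m) :
    ev w (fun θ => f θ + g θ) = ev w f + ev w g := by
  unfold ev
  simp only [add_mul]
  exact integral_add (ev_int hw hf) (ev_int hw hg)

theorem ev_const_mul (w : ℂ) (c : ℂ) (f : ℝ → ℂ) : ev w (fun θ => c * f θ) = c * ev w f := by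
  unfold ev
  simp only [mul_assoc]
  exact integral_const_mul _ _

theorem ev_sub {w : ℂ} (hw : ‖w‖ < 1) {f g : ℝ → ℂ} (hf : MemLp f 2 m) (hg : MemLp g 2 m) :
    ev w (fun θ => f θ - g θ) = ev w f - ev w g := by
  unfold ev
  simp only [sub_mul]
  exact integral_sub (ev_int hw hf) (ev_int hw hg)

theorem ev_sum {w : ℂ} (hw : ‖w‖ < 1) {ι : Type*} (s : Finset ι) {f : ι → ℝ → ℂ}
    (hf : ∀ i ∈ s, MemLp (f i) 2 m) : ev w (fun θ => ∑ i ∈ s, f i θ) = ∑ i ∈ s, ev w (f i) := by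
  unfold ev
  simp only [Finset.sum_mul]
  exact integral_finsetSum _ fun i hi => ev_int hw (hf i hi)

/-- The Szegő kernel `1 / (1 - w̄ z)`. -/
theorem kernel_HB {w : ℂ} (hw : ‖w‖ < 1) :
    HB (fun z => (1 - conj w * z)⁻¹) (fun θ => (1 - conj w * pt θ)⁻¹) := by
  have h : DiffContOnCl ℂ (fun z : ℂ => (1 - conj w * z)⁻¹) (ball 0 1) := by
    have hne : ∀ z ∈ closedBall (0 : ℂ) 1, 1 - conj w * z ≠ 0 := by
      intro z hz h
      have h1 : ‖conj w * z‖ = 1 := by rw [← sub_eq_zero.1 h]; simp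
      rw [norm_mul, RCLike.norm_conj] at h1
      have := mem_closedBall_zero_iff.1 hz
      nlinarith [norm_nonneg w, norm_nonneg z]
    apply DifferentiableOn.diffContOnCl
    rw [closure_ball (0 : ℂ) one_ne_zero]
    intro z hz
    apply DifferentiableAt.differentiableWithinAt
    exact (by fun_prop : DifferentiableAt ℂ (fun z : ℂ => 1 - conj w * z) z).inv (hne z hz)
  exact HB.of_diffContOnCl h

theorem ck_eq (w : ℂ) (θ : ℝ) : ck w θ = conj ((1 - conj w * pt θ)⁻¹) := by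
  simp [ck]

theorem ev_H2m {w : ℂ} (hw : ‖w‖ < 1) {g : ℝ → ℂ} (hg : IsH2m g) : ev w g = 0 := by
  have h := orth' (kernel_HB hw).isH2 hg
  unfold ev
  rw [← h]
  congr 1
  funext θ
  rw [ck_eq, mul_comm]

theorem ev_mul_HB {F : ℂ → ℂ} {b : ℝ → ℂ} (h : HB F b) {f : ℝ → ℂ} (hf : IsH2 f) {w : ℂ}
    (hw : ‖w‖ < 1) : ev w (fun θ => b θ * f θ) = F w * ev w f := by
  have hbw : HB (fun z => F z - F w) (fun θ => b θ - F w) := h.sub (HB.const _)
  obtain ⟨M, hM⟩ := hbw.exists_bound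
  have hg : IsH2m (fun θ => conj ((b θ - F w) * ck w θ)) := by
    refine ⟨memLp_conj (memLp_bdd_mul hbw.meas hM (ck_memLp hw)), fun n => ?_⟩
    have h1 := ev_HB ((HB.id_pow n).mul hbw) hw
    simp only [sub_self, mul_zero] at h1
    have h2 : ∫ θ, conj (pt θ) ^ n * conj ((b θ - F w) * ck w θ) ∂m =
        conj (ev w (fun θ => pt θ ^ n * (b θ - F w))) := by
      unfold ev
      rw [← int_conj]
      congr 1
      funext θ
      simp only [map_mul, map_pow]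
      ring
    rw [h2, h1, map_zero]
  have h3 := hf.2 _ hg
  simp only [Complex.conj_conj] at h3
  have h4 : ∫ θ, (b θ - F w) * ck w θ * f θ ∂m = ev w (fun θ => b θ * f θ) - F w * ev w f := by
    have e : ∀ θ, (b θ - F w) * ck w θ * f θ = b θ * f θ * ck w θ - F w * (f θ * ck w θ) := by
      intro θ; ring
    simp only [e]
    rw [integral_sub, integral_const_mul]
    · rfl
    · exact ev_int hw (h.mulH2 hf).1
    · exact (ev_int hw hf.1).const_mul _
  rw [h4] at h3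
  exact sub_eq_zero.1 h3

theorem ev_mul {v : ℝ → ℂ} (h : IsHb v) {f : ℝ → ℂ} (hf : IsH2 f) {w : ℂ}
    (hw : ‖w‖ < 1) : ev w (fun θ => v θ * f θ) = ev w v * ev w f := by
  set c := ev w v with hc
  have hbw : IsHb (fun θ => v θ - c) := h.sub (HB.const c).isHb
  obtain ⟨M, hM⟩ := hbw.2
  have hg : IsH2m (fun θ => conj ((v θ - c) * ck w θ)) := by
    refine ⟨memLp_conj (memLp_bdd_mul hbw.1.1.1 hM (ck_memLp hw)), fun n => ?_⟩
    have h1 : ev w (fun θ => pt θ ^ n * (v θ - c)) = 0 := by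
      rw [ev_mul_HB (HB.id_pow n) hbw.1 hw, ev_sub hw h.1.1 (HB.const c).memLp, ← hc,
        ev_HB (HB.const c) hw, sub_self, mul_zero]
    have h2 : ∫ θ, conj (pt θ) ^ n * conj ((v θ - c) * ck w θ) ∂m =
        conj (ev w (fun θ => pt θ ^ n * (v θ - c))) := by
      unfold ev
      rw [← int_conj]
      congr 1
      funext θ
      simp only [map_mul, map_pow]
      ring
    rw [h2, h1, map_zero]
  have h3 := hf.2 _ hg
  simp only [Complex.conj_conj] at h3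
  have h4 : ∫ θ, (v θ - c) * ck w θ * f θ ∂m = ev w (fun θ => v θ * f θ) - c * ev w f := by
    have e : ∀ θ, (v θ - c) * ck w θ * f θ = v θ * f θ * ck w θ - c * (f θ * ck w θ) := by
      intro θ; ring
    simp only [e]
    rw [integral_sub, integral_const_mul]
    · rfl
    · exact ev_int hw (h.mulH2 hf).1
    · exact (ev_int hw hf.1).const_mul _
  rw [h4] at h3
  exact sub_eq_zero.1 h3

theorem ev_zero (f : ℝ → ℂ) : ev 0 f = ∫ θ, f θ ∂m := by
  unfold ev ck; simp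

/-- The mean value of a product of functions of class `H^∞`. -/
theorem mean_mul {v f : ℝ → ℂ} (h : IsHb v) (hf : IsH2 f) :
    ∫ θ, v θ * f θ ∂m = (∫ θ, v θ ∂m) * ∫ θ, f θ ∂m := by
  rw [← ev_zero, ← ev_zero, ← ev_zero, ev_mul h hf (by simp)]

theorem mean_prod {ι : Type*} (s : Finset ι) {v : ι → ℝ → ℂ} (h : ∀ i ∈ s, IsHb (v i)) :
    ∫ θ, ∏ i ∈ s, v i θ ∂m = ∏ i ∈ s, ∫ θ, v i θ ∂m := by
  classical
  induction s using Finset.induction_on with
  | empty => simp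
  | insert a s ha ih =>
    simp only [Finset.prod_insert ha]
    rw [mean_mul (h a (Finset.mem_insert_self _ _))
      (IsHb.prod s fun i hi => h i (Finset.mem_insert_of_mem hi)).1,
      ih fun i hi => h i (Finset.mem_insert_of_mem hi)]

/-! ### orthogonal decomposition -/

theorem L2_inner {f g : ℝ → ℂ} (hf : MemLp f 2 m) (hg : MemLp g 2 m) :
    inner ℂ (hf.toLp f) (hg.toLp g) = ∫ θ, conj (f θ) * g θ ∂m := by
  rw [L2.inner_def]
  apply integral_congr_ae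
  filter_upwards [hf.coeFn_toLp, hg.coeFn_toLp] with θ h1 h2
  rw [h1, h2, RCLike.inner_apply, mul_comm]

theorem L2_norm_sq {f : ℝ → ℂ} (hf : MemLp f 2 m) : ‖hf.toLp f‖ ^ 2 = ∫ θ, ‖f θ‖ ^ 2 ∂m := by
  have h1 : ((‖hf.toLp f‖ ^ 2 : ℝ) : ℂ) = ((∫ θ, ‖f θ‖ ^ 2 ∂m : ℝ) : ℂ) := by
    have h2 := inner_self_eq_norm_sq_to_K (𝕜 := ℂ) (hf.toLp f)
    rw [L2_inner hf hf] at h2
    rw [Complex.ofReal_pow]
    rw [← integral_complex_ofReal]
    refine Eq.trans h2.symm ?_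
    congr 1
    funext θ
    rw [mul_comm, Complex.mul_conj, Complex.normSq_eq_norm_sq]
  exact_mod_cast h1

theorem int_norm_sq {f : ℝ → ℂ} (hf : MemLp f 2 m) : Integrable (fun θ => ‖f θ‖ ^ 2) m :=
  hf.norm.integrable_sq

/-- The subspace of `L²` orthogonal to the powers. -/
noncomputable def Km : Submodule ℂ (Lp ℂ 2 m) :=
  (Submodule.span ℂ (range fun n : ℕ => (memLp_pt_pow n (p := 2)).toLp _))ᗮ

theorem mem_Km {g : ℝ → ℂ} (hg : MemLp g 2 m) : hg.toLp g ∈ Km ↔ IsH2m g := by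
  constructor
  · intro h
    refine ⟨hg, fun n => ?_⟩
    have h1 := (Submodule.mem_orthogonal _ _).1 h ((memLp_pt_pow n (p := 2)).toLp _)
      (Submodule.subset_span ⟨n, rfl⟩)
    rw [L2_inner] at h1
    simpa using h1
  · intro h
    rw [Km, Submodule.mem_orthogonal]
    intro u hu
    induction hu using Submodule.span_induction with
    | mem x hx =>
      obtain ⟨n, rfl⟩ := hx
      rw [L2_inner]
      simpa using h.2 n
    | zero => simp
    | add x y _ _ hx hy => rw [inner_add_left, hx, hy, add_zero]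
    | smul a x _ hx => rw [inner_smul_left, hx, mul_zero]

theorem exists_decomp {f : ℝ → ℂ} (hf : MemLp f 2 m) :
    ∃ u g, IsH2 u ∧ IsH2m g ∧ (f =ᵐ[m] fun θ => u θ + g θ) := by
  have : CompleteSpace Km := by
    unfold Km; infer_instance
  set F := hf.toLp f with hF
  set G := Km.starProjection F with hG
  have hGm : G ∈ Km := Submodule.starProjection_apply_mem _ _
  have hU : F - G ∈ Kmᗮ := Submodule.sub_starProjection_mem_orthogonal _
  have hg2 : MemLp (G : ℝ → ℂ) 2 m := Lp.memLp G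
  have hu2 : MemLp ((F - G : Lp ℂ 2 m) : ℝ → ℂ) 2 m := Lp.memLp _
  refine ⟨((F - G : Lp ℂ 2 m) : ℝ → ℂ), (G : ℝ → ℂ), ⟨hu2, fun g hg => ?_⟩, ?_, ?_⟩
  · have h1 := (Submodule.mem_orthogonal _ _).1 hU _ ((mem_Km hg.1).2 hg)
    have h2 := L2_inner hg.1 hu2
    rw [Lp.toLp_coeFn] at h2
    rw [← h2, h1]
  · rw [← mem_Km hg2, Lp.toLp_coeFn]
    exact hGm
  · filter_upwards [hf.coeFn_toLp, Lp.coeFn_sub F G] with θ h1 h2
    rw [h2, Pi.sub_apply, sub_add_cancel, hF, h1]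

/-- Pythagoras. -/
theorem norm_sq_add {u g : ℝ → ℂ} (hu : IsH2 u) (hg : IsH2m g) :
    ∫ θ, ‖u θ + g θ‖ ^ 2 ∂m = ∫ θ, ‖u θ‖ ^ 2 ∂m + ∫ θ, ‖g θ‖ ^ 2 ∂m := by
  have h0 := orth hu hg
  have h1 : ∀ θ, ‖u θ + g θ‖ ^ 2 = ‖u θ‖ ^ 2 + ‖g θ‖ ^ 2 + 2 * (conj (g θ) * u θ).re := by
    intro θ
    rw [← Complex.normSq_eq_norm_sq, ← Complex.normSq_eq_norm_sq, ← Complex.normSq_eq_norm_sq,
      Complex.normSq_add, mul_comm (conj (g θ))]
  simp only [h1]
  have hi : Integrable (fun θ => conj (g θ) * u θ) m := int_conj_mul hg.1 hu.1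
  have h2 : ∫ θ, (conj (g θ) * u θ).re ∂m = 0 := by
    have h := integral_re (𝕜 := ℂ) hi
    rw [h0] at h
    simpa using h
  have hi2 : Integrable (fun θ => 2 * (conj (g θ) * u θ).re) m := hi.re.const_mul 2
  have hi3 : Integrable (fun θ => ‖u θ‖ ^ 2 + ‖g θ‖ ^ 2) m :=
    (int_norm_sq hu.1).add (int_norm_sq hg.1)
  rw [integral_add hi3 hi2, integral_add (int_norm_sq hu.1) (int_norm_sq hg.1),
    integral_const_mul, h2]
  ring

end Pool.Agent.H291.Jpq
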