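import Pool.Agent.H291.Jpq.Ring

/-!
Model spaces and their reproducing kernels.
-/

set_option autoImplicit false
set_option linter.unusedSectionVars false

open MeasureTheory Filter Topology Set Metric Matrix
open scoped Real ComplexConjugate ENNReal

namespace Pool.Agent.H291.Jpq

variable {ι κ ν : Type*} [Fintype ι] [Fintype κ] [Fintype ν]

theorem H2m_kernel {v : ℝ → ℂ} (h : IsHb v) {w : ℂ} (hw : ‖w‖ < 1) :
    IsH2m (fun θ => conj ((v θ - ev w v) * ck w θ)) := by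
  set c := ev w v with hc
  have hbw : IsHb (fun θ => v θ - c) := h.sub (HB.const c).isHb
  obtain ⟨M, hM⟩ := hbw.2
  refine ⟨memLp_conj (memLp_bdd_mul hbw.1.1.1 hM (ck_memLp hw)), fun n => ?_⟩
  have h1 : ev w (fun θ => pt θ ^ n * (v θ - c)) = 0 := by
    rw [ev_mul_HB (HB.id_pow n) hbw.1 hw, ev_sub hw h.1.1 (HB.const c).memLp, ← hc,
      ev_HB (HB.const c) hw, sub_self, mul_zero]
  have h2 : ∫ θ, conj (pt θ) ^ n * conj ((v θ - c) * ck w θ) ∂m =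
      conj (ev w (fun θ => pt θ ^ n * (v θ - c))) := by
    unfold ev
    rw [← int_conj]
    congr 1
    funext θ
    simp only [map_mul, map_pow]
    ring
  rw [h2, h1, map_zero]

theorem VH2.orth' {f g : ℝ → ι → ℂ} (hf : VH2 f) (hg : VH2m g) :
    ∫ θ, star (f θ) ⬝ᵥ g θ ∂m = 0 := by
  simp only [dotProduct, Pi.star_apply]
  rw [integral_finsetSum]
  · exact Finset.sum_eq_zero fun i _ => Jpq.orth' (hf i) (hg i)
  · intro i _
    exact int_conj_mul (hf i).1 (hg i).1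

theorem VH2.const (c : ι → ℂ) : VH2 (fun _ => c) := fun i => (HB.const (c i)).isH2

/-- The model space of an inner matrix. -/
def KS (S : Matrix ι ι HbR) (g : ℝ → ι → ℂ) : Prop :=
  VH2 g ∧ VH2m (fun θ => (bM S θ)ᴴ *ᵥ g θ)

/-- The Szegő kernel as a function of the angle. -/
noncomputable def sz (w : ℂ) (θ : ℝ) : ℂ := (1 - conj w * pt θ)⁻¹

theorem sz_hb {w : ℂ} (hw : ‖w‖ < 1) : IsHb (sz w) := (kernel_HB hw).isHb

theorem sz_ev {w : ℂ} (hw : ‖w‖ < 1) : ev w (sz w) = (1 - conj w * w)⁻¹ := ev_HB (kernel_HB hw) hw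

theorem conj_sz (w : ℂ) (θ : ℝ) : conj (sz w θ) = ck w θ := (ck_eq w θ).symm

/-- The reproducing kernel. -/
noncomputable def kern (S : Matrix ι ι HbR) {w : ℂ} (hw : ‖w‖ < 1) (η : ι → ℂ) (θ : ℝ) : ι → ℂ :=
  sz w θ • (η - bM S θ *ᵥ ((iM S hw)ᴴ *ᵥ η))

theorem kern_H2 (S : Matrix ι ι HbR) {w : ℂ} (hw : ‖w‖ < 1) (η : ι → ℂ) : VH2 (kern S hw η) :=
  VH2.smul (sz_hb hw) ((VH2.const η).sub ((VH2.const _).mulVec S))

theorem kern_KS [DecidableEq ι] {S : Matrix ι ι HbR} (hS : ∀ᵐ θ ∂m, (bM S θ)ᴴ * bM S θ = 1) {w : ℂ}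
    (hw : ‖w‖ < 1) (η : ι → ℂ) : KS S (kern S hw η) := by
  refine ⟨kern_H2 S hw η, ?_⟩
  have h1 : VH2m (fun θ => fun j => ∑ i, η i * conj (((S i j : ℝ → ℂ) θ - ev w (S i j)) * ck w θ)) :=
    fun j => IsH2m.sum Finset.univ fun i _ => (H2m_kernel (S i j).2 hw).const_mul (η i)
  refine h1.congr ?_
  filter_upwards [hS] with θ hθ
  funext j
  have h2 : ((bM S θ)ᴴ *ᵥ kern S hw η θ) = sz w θ • ((bM S θ)ᴴ *ᵥ η - (iM S hw)ᴴ *ᵥ η) := by
    rw [kern, Matrix.mulVec_smul, Matrix.mulVec_sub, Matrix.mulVec_mulVec, hθ, Matrix.one_mulVec]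
  rw [h2]
  simp only [Pi.smul_apply, Pi.sub_apply, Matrix.mulVec, dotProduct, Matrix.conjTranspose_apply,
    smul_eq_mul, bM_apply, iM_apply]
  rw [← Finset.sum_sub_distrib, Finset.mul_sum]
  refine Finset.sum_congr rfl fun i _ => ?_
  rw [map_mul, ← conj_sz, Complex.conj_conj, map_sub]
  change _ = sz w θ * (conj _ * η i - conj _ * η i)
  ring

theorem kern_rep {S : Matrix ι ι HbR} {w : ℂ} (hw : ‖w‖ < 1) (η : ι → ℂ) {g : ℝ → ι → ℂ}
    (hg : KS S g) : ∫ θ, star (kern S hw η θ) ⬝ᵥ g θ ∂m = star η ⬝ᵥ vev w g := by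
  set x : ι → ℂ := (iM S hw)ᴴ *ᵥ η with hx
  have h1 : ∀ θ, star (kern S hw η θ) ⬝ᵥ g θ =
      (∑ i, star (η i) * (g θ i * ck w θ)) - star (sz w θ • x) ⬝ᵥ ((bM S θ)ᴴ *ᵥ g θ) := by
    intro θ
    have h2 : star (sz w θ • x) ⬝ᵥ ((bM S θ)ᴴ *ᵥ g θ) =
        ck w θ * (star (bM S θ *ᵥ x) ⬝ᵥ g θ) := by
      rw [star_smul, smul_dotProduct, Matrix.dotProduct_mulVec,
        ← Matrix.star_mulVec (bM S θ) x, smul_eq_mul, show star (sz w θ) = ck w θ from conj_sz w θ]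
    rw [h2, kern, star_smul, star_sub, smul_dotProduct, sub_dotProduct, smul_eq_mul,
      show star (sz w θ) = ck w θ from conj_sz w θ, mul_sub]
    congr 1
    rw [dotProduct, Finset.mul_sum]
    refine Finset.sum_congr rfl fun i _ => ?_
    rw [Pi.star_apply]
    ring
  simp only [h1]
  have h3 : VH2 (fun θ => sz w θ • x) := VH2.smul (sz_hb hw) (VH2.const x)
  rw [integral_sub _ (VL2.int hg.2.memLp h3.memLp), h3.orth' hg.2, sub_zero, integral_finsetSum]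
  · rw [dotProduct]
    refine Finset.sum_congr rfl fun i _ => ?_
    rw [integral_const_mul]
    rfl
  · intro i _
    exact (ev_int hw (hg.1 i).1).const_mul _
  · exact integrable_finsetSum _ fun i _ => (ev_int hw (hg.1 i).1).const_mul _

theorem kern_vev (S : Matrix ι ι HbR) {w : ℂ} (hw : ‖w‖ < 1) (η : ι → ℂ) :
    vev w (kern S hw η) = (1 - conj w * w)⁻¹ • (η - iM S hw *ᵥ ((iM S hw)ᴴ *ᵥ η)) := by
  have h1 := vev_smul (sz_hb hw)
    ((VH2.const η).sub ((VH2.const ((iM S hw)ᴴ *ᵥ η)).mulVec S)) hw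
  have h2 := vev_sub (VH2.const η).memLp ((VH2.const ((iM S hw)ᴴ *ᵥ η)).mulVec S).memLp hw
  have h3 := vev_mulVec S (VH2.const ((iM S hw)ᴴ *ᵥ η)) hw
  have h4 : ∀ c : ι → ℂ, vev w (fun _ => c) = c := by
    intro c; funext i; exact ev_HB (HB.const (c i)) hw
  rw [h2, h3, h4, h4, sz_ev hw] at h1
  exact h1

theorem kern_nsq [DecidableEq ι] {S : Matrix ι ι HbR} (hS : ∀ᵐ θ ∂m, (bM S θ)ᴴ * bM S θ = 1) {w : ℂ}
    (hw : ‖w‖ < 1) (η : ι → ℂ) :
    ((nsq (kern S hw η) : ℝ) : ℂ) =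
      (1 - conj w * w)⁻¹ * (star η ⬝ᵥ (η - iM S hw *ᵥ ((iM S hw)ᴴ *ᵥ η))) := by
  rw [nsq_eq, kern_rep hw η (kern_KS hS hw η), kern_vev, dotProduct_smul, smul_eq_mul]

end Pool.Agent.H291.Jpq
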