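import Pool.Agent.H291.Jpq.Approx

/-!
Bounded outer functions with prescribed bounded modulus; a criterion for outer functions.
-/

set_option autoImplicit false

open MeasureTheory Filter Topology Set Metric
open scoped Real ComplexConjugate ENNReal

namespace Pool.Agent.H291.Jpq

theorem HB.of_differentiable {q : ℂ → ℂ} (h : Differentiable ℂ q) : HB q (fun θ => q (pt θ)) :=
  HB.of_diffContOnCl h.diffContOnCl

theorem mean_HB {F : ℂ → ℂ} {b : ℝ → ℂ} (h : HB F b) : ∫ θ, b θ ∂m = F 0 := by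
  rw [← ev_zero, ev_HB h (by simp)]

theorem exists_outer_bdd {l : ℝ → ℝ} (hl : AEStronglyMeasurable l m) {M : ℝ} (hM0 : 0 ≤ M)
    (h0 : ∀ᵐ θ ∂m, 0 ≤ l θ) (hM : ∀ᵐ θ ∂m, l θ ≤ M) :
    ∃ E, IsHb E ∧ (∀ᵐ θ ∂m, ‖E θ‖ = Real.exp (l θ)) ∧
      ∫ θ, E θ ∂m = (Real.exp (∫ θ, l θ ∂m) : ℝ) := by
  have hε : ∀ k : ℕ, (0 : ℝ) < 1 / ((k : ℝ) + 1) := fun k => by positivity
  have hε1 : ∀ k : ℕ, 1 / ((k : ℝ) + 1) ≤ 1 := fun k => by
    rw [div_le_one (by positivity)]; linarith [Nat.cast_nonneg (α := ℝ) k]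
  choose q hq hqb hqi using fun k : ℕ => approx hl hM0 h0 hM (hε k)
  set x : ℕ → ℝ → ℝ := fun k θ => (q k (pt θ)).re with hx
  have hxc : ∀ k, Continuous (x k) := fun k =>
    Complex.continuous_re.comp ((hq k).continuous.comp continuous_pt)
  have hxl : ∀ k θ, -1 ≤ x k θ := fun k θ => by
    have := (hqb k θ).1; have := hε1 k; simp only [hx]; linarith
  have hxu : ∀ k θ, x k θ ≤ M + 1 := fun k θ => by
    have := (hqb k θ).2; have := hε1 k; simp only [hx]; linarith
  have hxi : ∀ k, Integrable (x k) m := fun k =>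
    Integrable.of_bound (hxc k).aestronglyMeasurable (M + 1) (Eventually.of_forall fun θ => by
      rw [Real.norm_eq_abs, abs_le]; constructor <;> linarith [hxl k θ, hxu k θ])
  have hli : Integrable l m := Integrable.of_bound hl M (by
    filter_upwards [h0, hM] with θ h1 h2
    rw [Real.norm_eq_abs, abs_of_nonneg h1]; exact h2)
  have hmx : ∀ k, ∫ θ, x k θ ∂m = (q k 0).re := by
    intro k
    have h1 := mean_HB (HB.of_differentiable (hq k))
    rw [← h1]
    have hi : Integrable (fun θ => q k (pt θ)) m :=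
      (HB.of_differentiable (hq k)).memLp.integrable (le_refl 1)
    have := integral_re (𝕜 := ℂ) hi
    simpa using this
  -- the approximating outer functions
  set E : ℕ → ℝ → ℂ := fun k θ => Complex.exp (q k (pt θ) - (q k 0).im * Complex.I) with hE
  have hEH : ∀ k, HB (fun z => Complex.exp (q k z - (q k 0).im * Complex.I)) (E k) := fun k =>
    HB.of_differentiable (by have := hq k; fun_prop)
  have hEn : ∀ k θ, ‖E k θ‖ = Real.exp (x k θ) := by
    intro k θ
    simp only [hE, hx]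
    rw [Complex.norm_exp]
    simp
  have hEm : ∀ k, ∫ θ, E k θ ∂m = (Real.exp (∫ θ, x k θ ∂m) : ℝ) := by
    intro k
    rw [mean_HB (hEH k), hmx k, Complex.ofReal_exp]
    congr 1
    apply Complex.ext <;> simp
  have hdist : ∀ k n, ∫ θ, |x k θ - x n θ| ∂m ≤ 1 / ((k : ℝ) + 1) + 1 / ((n : ℝ) + 1) := by
    intro k n
    have h1 : ∫ θ, |x k θ - x n θ| ∂m ≤ ∫ θ, (|l θ - x k θ| + |l θ - x n θ|) ∂m := by
      apply integral_mono ((hxi k).sub (hxi n)).abs
        (((hli.sub (hxi k)).abs).add ((hli.sub (hxi n)).abs))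
      intro θ
      change |x k θ - x n θ| ≤ |l θ - x k θ| + |l θ - x n θ|
      rw [abs_sub_comm (l θ) (x k θ)]
      exact abs_sub_le _ _ _
    have h2 : ∫ θ, (|l θ - x k θ| + |l θ - x n θ|) ∂m =
        ∫ θ, |l θ - x k θ| ∂m + ∫ θ, |l θ - x n θ| ∂m :=
      integral_add ((hli.sub (hxi k)).abs) ((hli.sub (hxi n)).abs)
    rw [h2] at h1
    exact h1.trans (add_le_add (hqi k) (hqi n))
  set B : ℝ := M + 2 with hB
  set K : ℝ := Real.exp (2 * (M + 1)) * (2 * Real.exp (2 * B) + 2) with hK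
  have hK0 : 0 < K := by positivity
  have hcau : ∀ k n, ∫ θ, ‖E k θ - E n θ‖ ^ 2 ∂m ≤ K * (1 / ((k : ℝ) + 1) + 1 / ((n : ℝ) + 1)) := by
    intro k n
    set d : ℝ → ℝ := fun θ => x k θ - x n θ with hd
    have hdc : Continuous d := (hxc k).sub (hxc n)
    have hdb : ∀ θ, |d θ| ≤ B := by
      intro θ
      simp only [hd]
      rw [abs_le]
      constructor <;> linarith [hxl k θ, hxu k θ, hxl n θ, hxu n θ]
    have hdi : Integrable d m := (hxi k).sub (hxi n)
    set R : ℝ → ℂ := fun θ => Complex.exp ((q k (pt θ) - (q k 0).im * Complex.I) -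
      (q n (pt θ) - (q n 0).im * Complex.I)) with hR
    have hRH : HB (fun z => Complex.exp ((q k z - (q k 0).im * Complex.I) -
      (q n z - (q n 0).im * Complex.I))) R :=
      HB.of_differentiable (by have := hq k; have := hq n; fun_prop)
    have hRn : ∀ θ, ‖R θ‖ = Real.exp (d θ) := by
      intro θ
      simp only [hR, hd, hx]
      rw [Complex.norm_exp]
      simp
    have hRm : ∫ θ, R θ ∂m = (Real.exp (∫ θ, d θ ∂m) : ℝ) := by
      rw [mean_HB hRH]
      have : ∫ θ, d θ ∂m = (q k 0).re - (q n 0).re := by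
        rw [← hmx k, ← hmx n]
        exact integral_sub (hxi k) (hxi n)
      rw [this, Complex.ofReal_exp]
      congr 1
      apply Complex.ext <;> simp
    have h1 : ∫ θ, ‖R θ - 1‖ ^ 2 ∂m ≤ (2 * Real.exp (2 * B) + 2) * ∫ θ, |d θ| ∂m := by
      rw [int_norm_sub_one_sq hRH.memLp, hRm, Complex.ofReal_re]
      have h2 : ∫ θ, ‖R θ‖ ^ 2 ∂m ≤ ∫ θ, (1 + 2 * Real.exp (2 * B) * |d θ|) ∂m := by
        apply integral_mono (int_norm_sq hRH.memLp)
          ((integrable_const 1).add (hdi.abs.const_mul _))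
        intro θ
        change ‖R θ‖ ^ 2 ≤ 1 + 2 * Real.exp (2 * B) * |d θ|
        rw [hRn, ← Real.exp_nat_mul]
        push_cast
        have h3 := Real.add_one_le_exp (-(2 * d θ))
        have h4 : Real.exp (2 * d θ) * Real.exp (-(2 * d θ)) = 1 := by
          rw [← Real.exp_add]; simp
        have h5 : Real.exp (2 * d θ) * (-(2 * d θ) + 1) ≤ 1 :=
          (mul_le_mul_of_nonneg_left h3 (Real.exp_pos _).le).trans h4.le
        have h6 : Real.exp (2 * d θ) * (2 * d θ) ≤ Real.exp (2 * B) * (2 * |d θ|) := by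
          calc Real.exp (2 * d θ) * (2 * d θ) ≤ Real.exp (2 * d θ) * (2 * |d θ|) := by
                gcongr; exact le_abs_self _
            _ ≤ _ := by
                gcongr
                exact (le_abs_self _).trans (hdb θ)
        linarith
      have h7 : ∫ θ, (1 + 2 * Real.exp (2 * B) * |d θ|) ∂m =
          1 + 2 * Real.exp (2 * B) * ∫ θ, |d θ| ∂m := by
        rw [integral_add (integrable_const 1) (hdi.abs.const_mul _), integral_const_mul]
        simp
      have h8 := Real.add_one_le_exp (∫ θ, d θ ∂m)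
      have h9 : -∫ θ, |d θ| ∂m ≤ ∫ θ, d θ ∂m := by
        rw [← integral_neg]
        apply integral_mono hdi.abs.neg hdi
        intro θ
        exact neg_abs_le _
      rw [h7] at h2
      linarith
    have h2 : ∫ θ, ‖E k θ - E n θ‖ ^ 2 ∂m ≤ Real.exp (2 * (M + 1)) * ∫ θ, ‖R θ - 1‖ ^ 2 ∂m := by
      rw [← integral_const_mul]
      apply integral_mono (int_norm_sq ((hEH k).memLp.sub (hEH n).memLp))
        ((int_norm_sq (hRH.memLp.sub (memLp_const 1))).const_mul _)
      intro θ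
      change ‖E k θ - E n θ‖ ^ 2 ≤ Real.exp (2 * (M + 1)) * ‖R θ - 1‖ ^ 2
      have h3 : E k θ - E n θ = E n θ * (R θ - 1) := by
        simp only [hE, hR]
        rw [mul_sub, ← Complex.exp_add, mul_one]
        congr 2
        ring
      rw [h3, norm_mul, mul_pow]
      gcongr
      rw [hEn, ← Real.exp_nat_mul]
      push_cast
      gcongr
      exact hxu n θ
    calc ∫ θ, ‖E k θ - E n θ‖ ^ 2 ∂m ≤ Real.exp (2 * (M + 1)) * ∫ θ, ‖R θ - 1‖ ^ 2 ∂m := h2
      _ ≤ Real.exp (2 * (M + 1)) * ((2 * Real.exp (2 * B) + 2) * ∫ θ, |d θ| ∂m) := by gcongr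
      _ ≤ Real.exp (2 * (M + 1)) * ((2 * Real.exp (2 * B) + 2) *
          (1 / ((k : ℝ) + 1) + 1 / ((n : ℝ) + 1))) := by gcongr; exact hdist k n
      _ = _ := by rw [hK]; ring
  obtain ⟨v, hv, hvb, -, φ, hφ, hvl⟩ := exists_lim (C := Real.exp (M + 1)) (fun k => (hEH k).isHb)
    (fun k => Eventually.of_forall fun θ => by rw [hEn]; gcongr; exact hxu k θ) (by
      intro ε hε'
      obtain ⟨N, hN⟩ := exists_nat_gt (2 * K / ε)
      refine ⟨N, fun k hk n hn => (hcau k n).trans ?_⟩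
      have h1 : ∀ j : ℕ, N ≤ j → 1 / ((j : ℝ) + 1) ≤ ε / (2 * K) := by
        intro j hj
        rw [div_le_div_iff₀ (by positivity) (by positivity)]
        have h2 : (N : ℝ) ≤ j := by exact_mod_cast hj
        have h3 : 2 * K < ε * N := by
          rw [div_lt_iff₀ hε'] at hN
          linarith
        nlinarith
      calc K * (1 / ((k : ℝ) + 1) + 1 / ((n : ℝ) + 1)) ≤ K * (ε / (2 * K) + ε / (2 * K)) :=
            mul_le_mul_of_nonneg_left (add_le_add (h1 k hk) (h1 n hn)) hK0.le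
        _ = ε := by field_simp; ring)
  have hεt : Tendsto (fun k : ℕ => 1 / ((k : ℝ) + 1)) atTop (𝓝 0) := tendsto_one_div_add_atTop_nhds_zero_nat
  refine ⟨v, hv, ?_, ?_⟩
  · -- the modulus
    have hm2 : ∀ k, MemLp (fun θ => ((l θ - x (φ k) θ : ℝ) : ℂ)) 2 m := by
      intro k
      refine memLp_bdd (Complex.continuous_ofReal.comp_aestronglyMeasurable
        (hl.sub (hxc (φ k)).aestronglyMeasurable)) (C := M + (M + 1) + 1) ?_
      filter_upwards [h0, hM] with θ h1 h2
      change ‖((l θ - x (φ k) θ : ℝ) : ℂ)‖ ≤ _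
      rw [Complex.norm_real, Real.norm_eq_abs, abs_le]
      constructor <;> linarith [hxl (φ k) θ, hxu (φ k) θ]
    have ht : Tendsto (fun k => ∫ θ, ‖((l θ - x (φ k) θ : ℝ) : ℂ)‖ ^ 2 ∂m) atTop (𝓝 0) := by
      have h1 : ∀ k, ∫ θ, ‖((l θ - x (φ k) θ : ℝ) : ℂ)‖ ^ 2 ∂m ≤
          (2 * M + 2) * (1 / (((φ k : ℕ) : ℝ) + 1)) := by
        intro k
        calc ∫ θ, ‖((l θ - x (φ k) θ : ℝ) : ℂ)‖ ^ 2 ∂m
            ≤ ∫ θ, (2 * M + 2) * |l θ - x (φ k) θ| ∂m := by
              apply integral_mono_ae (int_norm_sq (hm2 k))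
                (((hli.sub (hxi (φ k))).abs).const_mul _)
              filter_upwards [h0, hM] with θ h1 h2
              change ‖((l θ - x (φ k) θ : ℝ) : ℂ)‖ ^ 2 ≤ (2 * M + 2) * |l θ - x (φ k) θ|
              rw [Complex.norm_real, Real.norm_eq_abs, pow_two]
              gcongr
              rw [abs_le]
              constructor <;> linarith [hxl (φ k) θ, hxu (φ k) θ]
          _ = (2 * M + 2) * ∫ θ, |l θ - x (φ k) θ| ∂m := integral_const_mul _ _
          _ ≤ _ := by gcongr; exact hqi (φ k)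
      have h2 : Tendsto (fun k => (2 * M + 2) * (1 / (((φ k : ℕ) : ℝ) + 1))) atTop (𝓝 0) := by
        have := (hεt.comp hφ.tendsto_atTop).const_mul (2 * M + 2)
        simpa using this
      exact tendsto_of_tendsto_of_tendsto_of_le_of_le tendsto_const_nhds h2
        (fun k => integral_nonneg fun θ => by positivity) h1
    obtain ⟨ψ, hψ, h1⟩ := subseq_ae hm2 ht
    filter_upwards [hvl, h1] with θ h2 h3
    have h4 : Tendsto (fun k => x (φ (ψ k)) θ) atTop (𝓝 (l θ)) := by
      have h5 := (Complex.continuous_re.tendsto _).comp h3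
      have h6 : Tendsto (fun k => l θ - x (φ (ψ k)) θ) atTop (𝓝 0) := by
        simpa [Function.comp_def] using h5
      have := h6.const_sub (l θ)
      simpa using this
    have h7 := (h2.comp hψ.tendsto_atTop).norm
    have h8 : Tendsto (fun k => Real.exp (x (φ (ψ k)) θ)) atTop (𝓝 (Real.exp (l θ))) :=
      (Real.continuous_exp.tendsto _).comp h4
    refine tendsto_nhds_unique h7 (h8.congr fun k => ?_)
    rw [← hEn]; rfl
  · -- the mean
    have h1 : Tendsto (fun k => ∫ θ, E (φ k) θ ∂m) atTop (𝓝 (∫ θ, v θ ∂m)) := by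
      apply tendsto_integral_of_dominated_convergence (fun _ => Real.exp (M + 1))
      · intro k; exact (hEH (φ k)).meas
      · exact integrable_const _
      · intro k
        refine Eventually.of_forall fun θ => ?_
        rw [hEn]; gcongr; exact hxu _ θ
      · exact hvl
    have h2 : Tendsto (fun k => ∫ θ, x (φ k) θ ∂m) atTop (𝓝 (∫ θ, l θ ∂m)) := by
      rw [tendsto_iff_norm_sub_tendsto_zero]
      refine tendsto_of_tendsto_of_tendsto_of_le_of_le tendsto_const_nhds
        (hεt.comp hφ.tendsto_atTop) (fun k => norm_nonneg _) fun k => ?_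
      rw [← integral_sub (hxi _) hli]
      refine (norm_integral_le_integral_norm _).trans ?_
      refine le_trans (le_of_eq ?_) (hqi (φ k))
      congr 1
      funext θ
      rw [Real.norm_eq_abs, abs_sub_comm]
    have h3 : Tendsto (fun k => ((Real.exp (∫ θ, x (φ k) θ ∂m) : ℝ) : ℂ)) atTop
        (𝓝 ((Real.exp (∫ θ, l θ ∂m) : ℝ) : ℂ)) :=
      (Complex.continuous_ofReal.tendsto _).comp ((Real.continuous_exp.tendsto _).comp h2)
    refine tendsto_nhds_unique h1 (h3.congr fun k => ?_)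
    rw [hEm]

/-- A criterion for outer functions, in terms of the mean of the logarithm. -/
theorem outer_of_log {F : ℂ → ℂ} {a : ℝ → ℂ} (h : HB F a) (h0 : F 0 ≠ 0)
    (hb : ∀ᵐ θ ∂m, ‖a θ‖ ≤ 1) (hne : ∀ᵐ θ ∂m, a θ ≠ 0)
    (hi : Integrable (fun θ => -Real.log ‖a θ‖) m)
    (hlog : -Real.log ‖F 0‖ ≤ ∫ θ, -Real.log ‖a θ‖ ∂m) : Outer a := by
  set L : ℝ → ℝ := fun θ => -Real.log ‖a θ‖ with hL
  have hL0 : ∀ᵐ θ ∂m, 0 ≤ L θ := by
    filter_upwards [hb] with θ hθ
    simp only [hL]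
    have := Real.log_nonpos (norm_nonneg _) hθ
    linarith
  have hex : ∀ n : ℕ, ∃ E, IsHb E ∧ (∀ᵐ θ ∂m, ‖E θ‖ = Real.exp (min (L θ) n)) ∧
      ∫ θ, E θ ∂m = (Real.exp (∫ θ, min (L θ) n ∂m) : ℝ) := by
    intro n
    refine exists_outer_bdd (M := n) ?_ n.cast_nonneg ?_ ?_
    · exact hi.1.inf aestronglyMeasurable_const
    · filter_upwards [hL0] with θ hθ
      exact le_min hθ n.cast_nonneg
    · exact Eventually.of_forall fun θ => min_le_right _ _
  choose E hE hEn hEm using hex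
  set c : ℂ := conj (F 0) / ‖F 0‖ with hc
  have hn0 : (‖F 0‖ : ℂ) ≠ 0 := by exact_mod_cast norm_ne_zero_iff.2 h0
  have hcn : ‖c‖ = 1 := by
    rw [hc, norm_div, RCLike.norm_conj, Complex.norm_real, norm_norm, div_self (norm_ne_zero_iff.2 h0)]
  have hcF : c * F 0 = (‖F 0‖ : ℂ) := by
    rw [hc, div_mul_eq_mul_div, mul_comm, Complex.mul_conj, Complex.normSq_eq_norm_sq]
    push_cast
    field_simp
  set f : ℕ → ℝ → ℂ := fun n θ => (c * E n θ) * a θ with hf
  have hfH : ∀ n, IsHb (f n) := fun n => ((hE n).const_mul c).mul h.isHb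
  have hfn : ∀ n, ∀ᵐ θ ∂m, ‖f n θ‖ ≤ 1 := by
    intro n
    filter_upwards [hEn n, hne] with θ h1 h2
    simp only [hf]
    rw [norm_mul, norm_mul, hcn, one_mul, h1]
    have h3 : 0 < ‖a θ‖ := norm_pos_iff.2 h2
    calc Real.exp (min (L θ) n) * ‖a θ‖ ≤ Real.exp (L θ) * ‖a θ‖ := by
          gcongr; exact min_le_left _ _
      _ = 1 := by
          simp only [hL]
          rw [Real.exp_neg, Real.exp_log h3, inv_mul_cancel₀ h3.ne']
  have hfm : ∀ n, (∫ θ, f n θ ∂m) = ((Real.exp (∫ θ, min (L θ) n ∂m) * ‖F 0‖ : ℝ) : ℂ) := by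
    intro n
    have h1 : ∫ θ, f n θ ∂m = (∫ θ, c * E n θ ∂m) * ∫ θ, a θ ∂m :=
      mean_mul ((hE n).const_mul c) h.isH2
    rw [h1, integral_const_mul, hEm, mean_HB h]
    rw [Complex.ofReal_mul, ← hcF]
    ring
  have hmin : Tendsto (fun n : ℕ => ∫ θ, min (L θ) n ∂m) atTop (𝓝 (∫ θ, L θ ∂m)) := by
    apply tendsto_integral_of_dominated_convergence (fun θ => |L θ|)
    · intro n; exact hi.1.inf aestronglyMeasurable_const
    · exact hi.abs
    · intro n
      filter_upwards [hL0] with θ hθ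
      rw [Real.norm_eq_abs, abs_of_nonneg (le_min hθ n.cast_nonneg), abs_of_nonneg hθ]
      exact min_le_left _ _
    · refine Eventually.of_forall fun θ => ?_
      obtain ⟨N, hN⟩ := exists_nat_ge (L θ)
      refine tendsto_const_nhds.congr' ?_
      filter_upwards [eventually_ge_atTop N] with n hn
      rw [min_eq_left]
      exact hN.trans (by exact_mod_cast hn)
  have hlim : Tendsto (fun n => ∫ θ, ‖f n θ - 1‖ ^ 2 ∂m) atTop (𝓝 0) := by
    have h1 : ∀ n, ∫ θ, ‖f n θ - 1‖ ^ 2 ∂m ≤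
        max 0 (2 * (1 - Real.exp (∫ θ, min (L θ) n ∂m) * ‖F 0‖)) := by
      intro n
      refine (int_norm_sub_one_sq_le (hfH n).1.1 (hfn n)).trans ?_
      rw [hfm, Complex.ofReal_re]
      exact le_max_right _ _
    have h2 : Tendsto (fun n : ℕ => max 0 (2 * (1 - Real.exp (∫ θ, min (L θ) n ∂m) * ‖F 0‖))) atTop
        (𝓝 (max 0 (2 * (1 - Real.exp (∫ θ, L θ ∂m) * ‖F 0‖)))) := by
      have h3 := ((Real.continuous_exp.tendsto _).comp hmin)
      have h4 := (((h3.mul_const ‖F 0‖).const_sub 1).const_mul 2)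
      exact (tendsto_const_nhds (x := (0 : ℝ))).max h4
    have h3 : max 0 (2 * (1 - Real.exp (∫ θ, L θ ∂m) * ‖F 0‖)) = 0 := by
      apply max_eq_left
      have hp : 0 < ‖F 0‖ := norm_pos_iff.2 h0
      have h4 : 1 ≤ Real.exp (∫ θ, L θ ∂m) * ‖F 0‖ := by
        calc (1 : ℝ) = Real.exp (-Real.log ‖F 0‖) * ‖F 0‖ := by
              rw [Real.exp_neg, Real.exp_log hp, inv_mul_cancel₀ hp.ne']
          _ ≤ _ := by gcongr
      linarith
    rw [h3] at h2
    exact tendsto_of_tendsto_of_tendsto_of_le_of_le tendsto_const_nhds h2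
      (fun k => integral_nonneg fun θ => by positivity) h1
  obtain ⟨φ, hφ, h1⟩ := subseq_ae (fun n => (hfH n).1.1.sub (memLp_const 1)) hlim
  refine ⟨fun n θ => c * E (φ n) θ, 1, fun n => (hE _).const_mul c, fun n => hfn _, ?_⟩
  filter_upwards [h1] with θ hθ
  have := hθ.add_const 1
  simpa using this

end Pool.Agent.H291.Jpq
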