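import Pool.Agent.H291.Jpq.Defs

/-!
The Potapov–Ginzburg transform: matrix algebra.
-/

set_option autoImplicit false
set_option linter.unusedSectionVars false
set_option linter.unusedSimpArgs false

open Matrix

namespace Pool.Agent.H291.Jpq

variable {ι κ : Type*} [Fintype ι] [Fintype κ] [DecidableEq ι] [DecidableEq κ]

theorem fromBlocks_sub' (A : Matrix ι ι ℂ) (B : Matrix ι κ ℂ) (C : Matrix κ ι ℂ) (D : Matrix κ κ ℂ)
    (A' : Matrix ι ι ℂ) (B' : Matrix ι κ ℂ) (C' : Matrix κ ι ℂ) (D' : Matrix κ κ ℂ) :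
    fromBlocks A B C D - fromBlocks A' B' C' D' =
      fromBlocks (A - A') (B - B') (C - C') (D - D') := by
  rw [sub_eq_add_neg, fromBlocks_neg, fromBlocks_add]
  simp only [sub_eq_add_neg]

/-- The Potapov–Ginzburg transform. -/
noncomputable def PG (X : Matrix (ι ⊕ κ) (ι ⊕ κ) ℂ) : Matrix (ι ⊕ κ) (ι ⊕ κ) ℂ :=
  fromBlocks (X.toBlocks₁₁ - X.toBlocks₁₂ * X.toBlocks₂₂⁻¹ * X.toBlocks₂₁)
    (X.toBlocks₁₂ * X.toBlocks₂₂⁻¹) (-(X.toBlocks₂₂⁻¹ * X.toBlocks₂₁)) X.toBlocks₂₂⁻¹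

/-- auxiliary factor -/
noncomputable def Gm (X : Matrix (ι ⊕ κ) (ι ⊕ κ) ℂ) : Matrix (ι ⊕ κ) (ι ⊕ κ) ℂ :=
  fromBlocks 1 (-(X.toBlocks₁₂ * X.toBlocks₂₂⁻¹)) 0 (-X.toBlocks₂₂⁻¹)

/-- auxiliary factor -/
def Mm (X : Matrix (ι ⊕ κ) (ι ⊕ κ) ℂ) : Matrix (ι ⊕ κ) (ι ⊕ κ) ℂ :=
  fromBlocks 1 (-X.toBlocks₁₂) 0 (-X.toBlocks₂₂)

theorem Mm_mul_Gm {X : Matrix (ι ⊕ κ) (ι ⊕ κ) ℂ} (h : IsUnit X.toBlocks₂₂) :
    Mm X * Gm X = 1 := by
  have h1 : X.toBlocks₂₂ * X.toBlocks₂₂⁻¹ = 1 :=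
    Matrix.mul_nonsing_inv _ ((Matrix.isUnit_iff_isUnit_det _).1 h)
  rw [Mm, Gm, fromBlocks_multiply, ← fromBlocks_one]
  congr 1
  · simp
  · simp
  · simp
  · simp [h1]

theorem Gm_mul_Mm {X : Matrix (ι ⊕ κ) (ι ⊕ κ) ℂ} (h : IsUnit X.toBlocks₂₂) :
    Gm X * Mm X = 1 := mul_eq_one_comm.1 (Mm_mul_Gm h)

theorem PG_id1 {X : Matrix (ι ⊕ κ) (ι ⊕ κ) ℂ} (h : IsUnit X.toBlocks₂₂) :
    Gm X * (JJ ι κ - X * JJ ι κ * Xᴴ) * (Gm X)ᴴ = 1 - PG X * (PG X)ᴴ := by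
  obtain ⟨a, b, c, d, rfl⟩ : ∃ a b c d, X = fromBlocks a b c d :=
    ⟨_, _, _, _, (fromBlocks_toBlocks X).symm⟩
  simp only [toBlocks_fromBlocks₂₂] at h
  have hd : IsUnit d.det := (Matrix.isUnit_iff_isUnit_det _).1 h
  have h1 : Gm (fromBlocks a b c d) * fromBlocks a b c d =
      fromBlocks (a - b * d⁻¹ * c) 0 (-(d⁻¹ * c)) (-1) := by
    simp only [Gm, toBlocks_fromBlocks₁₂, toBlocks_fromBlocks₂₂, fromBlocks_multiply]
    congr 1
    · rw [Matrix.one_mul, Matrix.neg_mul, sub_eq_add_neg]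
    · rw [Matrix.one_mul, Matrix.neg_mul, Matrix.mul_assoc, Matrix.nonsing_inv_mul _ hd,
        Matrix.mul_one, add_neg_cancel]
    · rw [Matrix.zero_mul, zero_add, Matrix.neg_mul]
    · rw [Matrix.zero_mul, zero_add, Matrix.neg_mul, Matrix.nonsing_inv_mul _ hd]
  set G := Gm (fromBlocks a b c d) with hG
  set X := fromBlocks a b c d with hX
  have h2 : G * (JJ ι κ - X * JJ ι κ * Xᴴ) * Gᴴ =
      G * JJ ι κ * Gᴴ - (G * X) * JJ ι κ * (G * X)ᴴ := by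
    rw [Matrix.conjTranspose_mul, Matrix.mul_sub, Matrix.sub_mul]
    simp only [Matrix.mul_assoc]
  rw [h2, h1, hG, hX, ← fromBlocks_one]
  simp only [Gm, PG, JJ, toBlocks_fromBlocks₁₁, toBlocks_fromBlocks₁₂, toBlocks_fromBlocks₂₁,
    toBlocks_fromBlocks₂₂, fromBlocks_conjTranspose, fromBlocks_multiply, fromBlocks_sub']
  congr 1
  · simp only [Matrix.mul_zero, Matrix.mul_one, Matrix.one_mul, add_zero, zero_add,
      Matrix.mul_neg, Matrix.neg_mul, neg_neg, Matrix.conjTranspose_one,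
      Matrix.conjTranspose_neg, Matrix.conjTranspose_zero, sub_zero, neg_zero]
    abel
  · simp only [Matrix.mul_zero, Matrix.mul_one, Matrix.one_mul, add_zero, zero_add,
      Matrix.mul_neg, Matrix.neg_mul, neg_neg, Matrix.conjTranspose_one,
      Matrix.conjTranspose_neg, Matrix.conjTranspose_zero, sub_zero, neg_zero]
    abel
  · simp only [Matrix.mul_zero, Matrix.mul_one, Matrix.one_mul, add_zero, zero_add,
      Matrix.mul_neg, Matrix.neg_mul, neg_neg, Matrix.conjTranspose_one,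
      Matrix.conjTranspose_neg, Matrix.conjTranspose_zero, sub_zero, neg_zero]
    abel
  · simp only [Matrix.mul_zero, Matrix.mul_one, Matrix.one_mul, add_zero, zero_add,
      Matrix.mul_neg, Matrix.neg_mul, neg_neg, Matrix.conjTranspose_one,
      Matrix.conjTranspose_neg, Matrix.conjTranspose_zero, sub_zero, neg_zero]
    abel

theorem PG_id2 {X : Matrix (ι ⊕ κ) (ι ⊕ κ) ℂ} (h : IsUnit X.toBlocks₂₂) :
    1 - (PG X)ᴴ * PG X = (fromBlocks 1 0 (-(X.toBlocks₂₂⁻¹ * X.toBlocks₂₁)) X.toBlocks₂₂⁻¹)ᴴ *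
      (JJ ι κ - Xᴴ * JJ ι κ * X) *
      fromBlocks 1 0 (-(X.toBlocks₂₂⁻¹ * X.toBlocks₂₁)) X.toBlocks₂₂⁻¹ := by
  obtain ⟨a, b, c, d, rfl⟩ : ∃ a b c d, X = fromBlocks a b c d :=
    ⟨_, _, _, _, (fromBlocks_toBlocks X).symm⟩
  simp only [toBlocks_fromBlocks₂₂, toBlocks_fromBlocks₂₁] at h ⊢
  have hd : IsUnit d.det := (Matrix.isUnit_iff_isUnit_det _).1 h
  have h1 : fromBlocks a b c d * fromBlocks 1 0 (-(d⁻¹ * c)) d⁻¹ =
      fromBlocks (a - b * d⁻¹ * c) (b * d⁻¹) 0 1 := by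
    rw [fromBlocks_multiply]
    congr 1
    · rw [Matrix.mul_one, Matrix.mul_neg, sub_eq_add_neg, Matrix.mul_assoc]
    · rw [Matrix.mul_zero, zero_add]
    · rw [Matrix.mul_one, Matrix.mul_neg, ← Matrix.mul_assoc, Matrix.mul_nonsing_inv _ hd,
        Matrix.one_mul, add_neg_cancel]
    · rw [Matrix.mul_zero, zero_add, Matrix.mul_nonsing_inv _ hd]
  set N := fromBlocks (1 : Matrix ι ι ℂ) 0 (-(d⁻¹ * c)) d⁻¹ with hN
  set X := fromBlocks a b c d with hX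
  have h2 : Nᴴ * (JJ ι κ - Xᴴ * JJ ι κ * X) * N =
      Nᴴ * JJ ι κ * N - (X * N)ᴴ * JJ ι κ * (X * N) := by
    rw [Matrix.conjTranspose_mul, Matrix.mul_sub, Matrix.sub_mul]
    simp only [Matrix.mul_assoc]
  rw [h2, h1, hN, hX, ← fromBlocks_one]
  simp only [PG, JJ, toBlocks_fromBlocks₁₁, toBlocks_fromBlocks₁₂, toBlocks_fromBlocks₂₁,
    toBlocks_fromBlocks₂₂, fromBlocks_conjTranspose, fromBlocks_multiply, fromBlocks_sub']
  congr 1
  · simp only [Matrix.mul_zero, Matrix.zero_mul, Matrix.mul_one, Matrix.one_mul, add_zero, zero_add,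
      Matrix.mul_neg, Matrix.neg_mul, neg_neg, Matrix.conjTranspose_one,
      Matrix.conjTranspose_neg, Matrix.conjTranspose_zero, sub_zero, neg_zero]
    abel
  · simp only [Matrix.mul_zero, Matrix.zero_mul, Matrix.mul_one, Matrix.one_mul, add_zero, zero_add,
      Matrix.mul_neg, Matrix.neg_mul, neg_neg, Matrix.conjTranspose_one,
      Matrix.conjTranspose_neg, Matrix.conjTranspose_zero, sub_zero, neg_zero]
    abel
  · simp only [Matrix.mul_zero, Matrix.zero_mul, Matrix.mul_one, Matrix.one_mul, add_zero, zero_add,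
      Matrix.mul_neg, Matrix.neg_mul, neg_neg, Matrix.conjTranspose_one,
      Matrix.conjTranspose_neg, Matrix.conjTranspose_zero, sub_zero, neg_zero]
    abel
  · simp only [Matrix.mul_zero, Matrix.zero_mul, Matrix.mul_one, Matrix.one_mul, add_zero, zero_add,
      Matrix.mul_neg, Matrix.neg_mul, neg_neg, Matrix.conjTranspose_one,
      Matrix.conjTranspose_neg, Matrix.conjTranspose_zero, sub_zero, neg_zero]
    abel

end Pool.Agent.H291.Jpq
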