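import Pool.Agent.H291.Jpq.Seq

/-!
Infinite products of functions of class `H^∞` on the circle.
-/

set_option autoImplicit false

open MeasureTheory Filter Topology Set Metric
open scoped Real ComplexConjugate ENNReal

namespace Pool.Agent.H291.Jpq

theorem one_sub_sum_le {ε : ℕ → ℝ} (h0 : ∀ j, 0 ≤ ε j) (h1 : ∀ j, ε j ≤ 1) (s : Finset ℕ) :
    1 - ∑ j ∈ s, ε j ≤ ∏ j ∈ s, (1 - ε j) := by
  classical
  induction s using Finset.induction_on with
  | empty => simp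
  | insert a s ha ih =>
    rw [Finset.sum_insert ha, Finset.prod_insert ha]
    have h2 : 0 ≤ 1 - ε a := by linarith [h1 a]
    have h3 : 0 ≤ ∑ j ∈ s, ε j := Finset.sum_nonneg fun j _ => h0 j
    have h4 := mul_le_mul_of_nonneg_left ih h2
    have h5 := mul_nonneg (h0 a) h3
    nlinarith

/-- Data of a convergent product of functions bounded by one. -/
structure PD (u : ℕ → ℝ → ℂ) (ε : ℕ → ℝ) : Prop where
  hb : ∀ j, IsHb (u j)
  le : ∀ j, ∀ᵐ θ ∂m, ‖u j θ‖ ≤ 1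
  nn : ∀ j, 0 ≤ ε j
  le1 : ∀ j, ε j ≤ 1
  sm : Summable ε
  mean : ∀ j, ∫ θ, u j θ ∂m = ((1 - ε j : ℝ) : ℂ)

theorem PD.prod_hb {u : ℕ → ℝ → ℂ} {ε : ℕ → ℝ} (h : PD u ε) (s : Finset ℕ) :
    IsHb (fun θ => ∏ j ∈ s, u j θ) := IsHb.prod s fun i _ => h.hb i

theorem PD.prod_le {u : ℕ → ℝ → ℂ} {ε : ℕ → ℝ} (h : PD u ε) (s : Finset ℕ) :
    ∀ᵐ θ ∂m, ‖∏ j ∈ s, u j θ‖ ≤ 1 := by
  filter_upwards [ae_all_iff.2 h.le] with θ hθ
  rw [norm_prod]
  exact Finset.prod_le_one (fun _ _ => norm_nonneg _) fun j _ => hθ j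

theorem PD.prod_mean {u : ℕ → ℝ → ℂ} {ε : ℕ → ℝ} (h : PD u ε) (s : Finset ℕ) :
    ∫ θ, ∏ j ∈ s, u j θ ∂m = ((∏ j ∈ s, (1 - ε j) : ℝ) : ℂ) := by
  rw [mean_prod s fun i _ => h.hb i, Complex.ofReal_prod]
  exact Finset.prod_congr rfl fun j _ => h.mean j

theorem PD.near {u : ℕ → ℝ → ℂ} {ε : ℕ → ℝ} (h : PD u ε) (s : Finset ℕ) :
    ∫ θ, ‖(∏ j ∈ s, u j θ) - 1‖ ^ 2 ∂m ≤ 2 * ∑ j ∈ s, ε j := by
  refine (int_norm_sub_one_sq_le (h.prod_hb s).1.1 (h.prod_le s)).trans ?_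
  rw [h.prod_mean, Complex.ofReal_re]
  have := one_sub_sum_le h.nn h.le1 s
  linarith

theorem sum_Ico_le {ε : ℕ → ℝ} (h0 : ∀ j, 0 ≤ ε j) (hs : Summable ε) (n N : ℕ) :
    ∑ j ∈ Finset.Ico n N, ε j ≤ ∑' k, ε (k + n) := by
  rw [Finset.sum_Ico_eq_sum_range]
  have h1 : Summable fun k => ε (k + n) := (summable_nat_add_iff n).2 hs
  refine le_trans (le_of_eq ?_) (h1.sum_le_tsum (Finset.range (N - n)) fun j _ => h0 _)
  exact Finset.sum_congr rfl fun j _ => by rw [add_comm]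

theorem PD.lim {u : ℕ → ℝ → ℂ} {ε : ℕ → ℝ} (h : PD u ε) :
    ∃ v, IsHb v ∧ Tendsto (fun k => ∫ θ, ‖(∏ j ∈ Finset.range k, u j θ) - v θ‖ ^ 2 ∂m) atTop
      (𝓝 0) := by
  obtain ⟨v, hv, -, hl, -⟩ := exists_lim (C := 1) (E := fun k θ => ∏ j ∈ Finset.range k, u j θ)
    (fun k => h.prod_hb _) (fun k => h.prod_le _) (by
      intro e he
      have ht := tendsto_sum_nat_add ε
      obtain ⟨N, hN⟩ := (ht.eventually_lt_const (show (0 : ℝ) < e / 2 by positivity)).exists_forall_of_atTop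
      have key : ∀ k ≥ N, ∀ l ≥ k, ∫ θ, ‖(∏ j ∈ Finset.range k, u j θ) -
          ∏ j ∈ Finset.range l, u j θ‖ ^ 2 ∂m ≤ e := by
        intro k hk l hl
        calc ∫ θ, ‖(∏ j ∈ Finset.range k, u j θ) - ∏ j ∈ Finset.range l, u j θ‖ ^ 2 ∂m
            ≤ ∫ θ, ‖(∏ j ∈ Finset.Ico k l, u j θ) - 1‖ ^ 2 ∂m := by
              apply integral_mono_ae (int_norm_sq ((h.prod_hb _).1.1.sub (h.prod_hb _).1.1))
                (int_norm_sq ((h.prod_hb _).1.1.sub (memLp_const 1)))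
              filter_upwards [h.prod_le (Finset.range k)] with θ hθ
              change ‖(∏ j ∈ Finset.range k, u j θ) - ∏ j ∈ Finset.range l, u j θ‖ ^ 2 ≤
                ‖(∏ j ∈ Finset.Ico k l, u j θ) - 1‖ ^ 2
              rw [← Finset.prod_range_mul_prod_Ico _ hl]
              rw [show (∏ j ∈ Finset.range k, u j θ) - (∏ j ∈ Finset.range k, u j θ) *
                ∏ j ∈ Finset.Ico k l, u j θ = -((∏ j ∈ Finset.range k, u j θ) *
                ((∏ j ∈ Finset.Ico k l, u j θ) - 1)) by ring, norm_neg, norm_mul, mul_pow]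
              exact mul_le_of_le_one_left (by positivity) (pow_le_one₀ (norm_nonneg _) hθ)
          _ ≤ 2 * ∑ j ∈ Finset.Ico k l, ε j := h.near _
          _ ≤ 2 * ∑' i, ε (i + k) := by gcongr; exact sum_Ico_le h.nn h.sm k l
          _ ≤ e := by linarith [hN k hk]
      refine ⟨N, fun k hk l hl => ?_⟩
      rcases le_total k l with hkl | hkl
      · exact key k hk l hkl
      · have := key l hl k hkl
        simpa only [norm_sub_rev] using this)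
  exact ⟨v, hv, hl⟩

theorem PD.tail {u : ℕ → ℝ → ℂ} {ε : ℕ → ℝ} (h : PD u ε) (hne : ∀ j, ∀ᵐ θ ∂m, u j θ ≠ 0)
    {v : ℝ → ℂ} {N : ℕ → ℕ} (hN : StrictMono N)
    (hv : ∀ᵐ θ ∂m, Tendsto (fun k => ∏ j ∈ Finset.range (N k), u j θ) atTop (𝓝 (v θ))) :
    ∃ T : ℕ → ℝ → ℂ, (∀ᵐ θ ∂m, ∀ n, Tendsto (fun k => ∏ j ∈ Finset.Ico n (N k), u j θ) atTop
        (𝓝 (T n θ))) ∧ (∀ᵐ θ ∂m, ∀ n, v θ = (∏ j ∈ Finset.range n, u j θ) * T n θ) ∧
      (∀ n, IsHb (T n)) ∧ (∀ n, ∀ᵐ θ ∂m, ‖T n θ‖ ≤ 1) ∧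
      Tendsto (fun n => ∫ θ, ‖T n θ - 1‖ ^ 2 ∂m) atTop (𝓝 0) := by
  set T : ℕ → ℝ → ℂ := fun n θ => (∏ j ∈ Finset.range n, u j θ)⁻¹ * v θ with hT
  have hTl : ∀ᵐ θ ∂m, ∀ n, Tendsto (fun k => ∏ j ∈ Finset.Ico n (N k), u j θ) atTop
        (𝓝 (T n θ)) := by
    filter_upwards [hv, ae_all_iff.2 hne] with θ h1 h2 n
    have h3 : (∏ j ∈ Finset.range n, u j θ) ≠ 0 := Finset.prod_ne_zero_iff.2 fun j _ => h2 j
    refine (h1.const_mul (∏ j ∈ Finset.range n, u j θ)⁻¹).congr' ?_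
    filter_upwards [hN.tendsto_atTop.eventually_ge_atTop n] with k hk
    rw [← Finset.prod_range_mul_prod_Ico _ hk, inv_mul_cancel_left₀ h3]
  have hTb : ∀ n, ∀ᵐ θ ∂m, ‖T n θ‖ ≤ 1 := by
    intro n
    filter_upwards [hTl, ae_all_iff.2 fun k => h.prod_le (Finset.Ico n (N k))] with θ h1 h2
    exact le_of_tendsto (h1 n).norm (Eventually.of_forall h2)
  have hTm : ∀ n, AEStronglyMeasurable (T n) m := fun n =>
    aestronglyMeasurable_of_tendsto_ae (u := atTop)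
      (f := fun k θ => ∏ j ∈ Finset.Ico n (N k), u j θ) (fun k => (h.prod_hb _).1.1.1)
      (by filter_upwards [hTl] with θ hθ using hθ n)
  have hTH : ∀ n, IsHb (T n) := fun n =>
    ⟨IsH2.of_tendsto (memLp_bdd (hTm n) (hTb n)) (fun k => (h.prod_hb (Finset.Ico n (N k))).1)
      (B := fun _ => 1) (memLp_const 1) (fun k => h.prod_le _)
      (by filter_upwards [hTl] with θ hθ using hθ n), 1, hTb n⟩
  refine ⟨T, hTl, ?_, hTH, hTb, ?_⟩
  · filter_upwards [ae_all_iff.2 hne] with θ h2 n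
    have h3 : (∏ j ∈ Finset.range n, u j θ) ≠ 0 := Finset.prod_ne_zero_iff.2 fun j _ => h2 j
    simp only [hT]
    rw [mul_inv_cancel_left₀ h3]
  · have h1 : ∀ n, ∫ θ, ‖T n θ - 1‖ ^ 2 ∂m ≤ 2 * ∑' k, ε (k + n) := by
      intro n
      refine (int_norm_sub_one_sq_le (hTH n).1.1 (hTb n)).trans ?_
      have h2 : Tendsto (fun k => (∫ θ, ∏ j ∈ Finset.Ico n (N k), u j θ ∂m).re) atTop
          (𝓝 (∫ θ, T n θ ∂m).re) := by
        apply (Complex.continuous_re.tendsto _).comp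
        apply tendsto_integral_of_dominated_convergence (fun _ => (1 : ℝ))
        · intro k; exact (h.prod_hb _).1.1.1
        · exact integrable_const _
        · intro k; exact h.prod_le _
        · filter_upwards [hTl] with θ hθ using hθ n
      have h3 : 1 - ∑' k, ε (k + n) ≤ (∫ θ, T n θ ∂m).re := by
        refine ge_of_tendsto h2 (Eventually.of_forall fun k => ?_)
        rw [h.prod_mean, Complex.ofReal_re]
        have h4 := one_sub_sum_le h.nn h.le1 (Finset.Ico n (N k))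
        have h5 := sum_Ico_le h.nn h.sm n (N k)
        linarith
      linarith
    have h2 : Tendsto (fun n => 2 * ∑' k, ε (k + n)) atTop (𝓝 0) := by
      have := (tendsto_sum_nat_add ε).const_mul 2
      simpa using this
    exact tendsto_of_tendsto_of_tendsto_of_le_of_le tendsto_const_nhds h2
      (fun n => integral_nonneg fun θ => by positivity) h1

end Pool.Agent.H291.Jpq
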