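import Pool.Agent.H291.Jpq.LogInt

/-!
The ring of boundary functions of class `H^∞`, matrices over it, and vector valued `H²`.
-/

set_option autoImplicit false
set_option linter.unusedSectionVars false

open MeasureTheory Filter Topology Set Metric Matrix
open scoped Real ComplexConjugate ENNReal

namespace Pool.Agent.H291.Jpq

variable {ι κ ν : Type*} [Fintype ι] [Fintype κ] [Fintype ν]

/-- The ring `H^∞` of boundary functions. -/
def HbR : Subring (ℝ → ℂ) where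
  carrier := {v | IsHb v}
  mul_mem' := fun h h' => IsHb.mul h h'
  one_mem' := IsHb.one
  add_mem' := fun h h' => IsHb.add h h'
  zero_mem' := (HB.const 0).isHb
  neg_mem' := fun {v} h => by
    exact (IsHb.const_mul (v := v) h (-1)).congr (Eventually.of_forall fun θ => by simp)

theorem HbR.isHb (v : HbR) : IsHb (v : ℝ → ℂ) := v.2

/-- Boundary value at the angle `θ`. -/
def bv (θ : ℝ) : HbR →+* ℂ := (Pi.evalRingHom (fun _ : ℝ => ℂ) θ).comp HbR.subtype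

@[simp] theorem bv_apply (θ : ℝ) (v : HbR) : bv θ v = (v : ℝ → ℂ) θ := rfl

/-- Value at the interior point `w`. -/
noncomputable def iv {w : ℂ} (hw : ‖w‖ < 1) : HbR →+* ℂ where
  toFun v := ev w v
  map_one' := ev_HB (HB.const 1) hw
  map_mul' a b := ev_mul a.2 b.2.1 hw
  map_zero' := ev_HB (HB.const 0) hw
  map_add' a b := ev_add hw a.2.1.1 b.2.1.1

theorem iv_apply {w : ℂ} (hw : ‖w‖ < 1) (v : HbR) : iv hw v = ev w v := rfl

/-- Boundary value of a matrix. -/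
def bM (P : Matrix ι κ HbR) (θ : ℝ) : Matrix ι κ ℂ := P.map (bv θ)

/-- Value of a matrix at an interior point. -/
noncomputable def iM (P : Matrix ι κ HbR) {w : ℂ} (hw : ‖w‖ < 1) : Matrix ι κ ℂ := P.map (iv hw)

theorem bM_apply (P : Matrix ι κ HbR) (θ : ℝ) (i : ι) (j : κ) : bM P θ i j = (P i j : ℝ → ℂ) θ :=
  rfl

theorem iM_apply (P : Matrix ι κ HbR) {w : ℂ} (hw : ‖w‖ < 1) (i : ι) (j : κ) :
    iM P hw i j = ev w (P i j) := rfl

theorem bM_mul (P : Matrix ι κ HbR) (Q : Matrix κ ν HbR) (θ : ℝ) :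
    bM (P * Q) θ = bM P θ * bM Q θ := Matrix.map_mul

theorem iM_mul (P : Matrix ι κ HbR) (Q : Matrix κ ν HbR) {w : ℂ} (hw : ‖w‖ < 1) :
    iM (P * Q) hw = iM P hw * iM Q hw := Matrix.map_mul

theorem bM_add (P Q : Matrix ι κ HbR) (θ : ℝ) : bM (P + Q) θ = bM P θ + bM Q θ :=
  Matrix.map_add _ (map_add _) _ _

theorem iM_add (P Q : Matrix ι κ HbR) {w : ℂ} (hw : ‖w‖ < 1) :
    iM (P + Q) hw = iM P hw + iM Q hw := Matrix.map_add _ (map_add _) _ _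

theorem bM_one [DecidableEq ι] (θ : ℝ) : bM (1 : Matrix ι ι HbR) θ = 1 :=
  Matrix.map_one _ (map_zero _) (map_one _)

theorem iM_one [DecidableEq ι] {w : ℂ} (hw : ‖w‖ < 1) : iM (1 : Matrix ι ι HbR) hw = 1 :=
  Matrix.map_one _ (map_zero _) (map_one _)

theorem bM_adj [DecidableEq ι] (P : Matrix ι ι HbR) (θ : ℝ) :
    bM P.adjugate θ = (bM P θ).adjugate := (bv θ).map_adjugate P

theorem iM_adj [DecidableEq ι] (P : Matrix ι ι HbR) {w : ℂ} (hw : ‖w‖ < 1) :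
    iM P.adjugate hw = (iM P hw).adjugate := (iv hw).map_adjugate P

theorem bM_det [DecidableEq ι] (P : Matrix ι ι HbR) (θ : ℝ) :
    (P.det : ℝ → ℂ) θ = (bM P θ).det := (bv θ).map_det P

theorem iM_det [DecidableEq ι] (P : Matrix ι ι HbR) {w : ℂ} (hw : ‖w‖ < 1) :
    ev w (P.det : ℝ → ℂ) = (iM P hw).det := (iv hw).map_det P

/-! ### vector valued functions -/

/-- Vector valued `H²`. -/
def VH2 (g : ℝ → ι → ℂ) : Prop := ∀ i, IsH2 (fun θ => g θ i)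

/-- Vector valued `L² ⊖ H²`. -/
def VH2m (g : ℝ → ι → ℂ) : Prop := ∀ i, IsH2m (fun θ => g θ i)

/-- Vector valued `L²`. -/
def VL2 (g : ℝ → ι → ℂ) : Prop := ∀ i, MemLp (fun θ => g θ i) 2 m

/-- Value at an interior point. -/
noncomputable def vev (w : ℂ) (g : ℝ → ι → ℂ) : ι → ℂ := fun i => ev w (fun θ => g θ i)

theorem VH2.memLp {g : ℝ → ι → ℂ} (h : VH2 g) : VL2 g := fun i => (h i).1

theorem VH2m.memLp {g : ℝ → ι → ℂ} (h : VH2m g) : VL2 g := fun i => (h i).1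

theorem VH2.congr {f g : ℝ → ι → ℂ} (h : VH2 f) (e : ∀ᵐ θ ∂m, f θ = g θ) : VH2 g := fun i =>
  (h i).congr (by filter_upwards [e] with θ hθ; rw [hθ])

theorem VH2m.congr {f g : ℝ → ι → ℂ} (h : VH2m f) (e : ∀ᵐ θ ∂m, f θ = g θ) : VH2m g := fun i =>
  (h i).congr (by filter_upwards [e] with θ hθ; rw [hθ])

theorem VL2.congr {f g : ℝ → ι → ℂ} (h : VL2 f) (e : ∀ᵐ θ ∂m, f θ = g θ) : VL2 g := fun i =>
  (h i).ae_eq (by filter_upwards [e] with θ hθ; rw [hθ])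

theorem VH2.add {f g : ℝ → ι → ℂ} (h : VH2 f) (h' : VH2 g) : VH2 (fun θ => f θ + g θ) := fun i =>
  (h i).add (h' i)

theorem VH2.sub {f g : ℝ → ι → ℂ} (h : VH2 f) (h' : VH2 g) : VH2 (fun θ => f θ - g θ) := fun i =>
  (h i).sub (h' i)

theorem VH2m.add {f g : ℝ → ι → ℂ} (h : VH2m f) (h' : VH2m g) : VH2m (fun θ => f θ + g θ) :=
  fun i => (h i).add (h' i)

theorem VH2m.sub {f g : ℝ → ι → ℂ} (h : VH2m f) (h' : VH2m g) : VH2m (fun θ => f θ - g θ) :=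
  fun i => (h i).sub (h' i)

theorem VL2.add {f g : ℝ → ι → ℂ} (h : VL2 f) (h' : VL2 g) : VL2 (fun θ => f θ + g θ) :=
  fun i => (h i).add (h' i)

theorem VL2.sub {f g : ℝ → ι → ℂ} (h : VL2 f) (h' : VL2 g) : VL2 (fun θ => f θ - g θ) :=
  fun i => (h i).sub (h' i)

theorem VH2.neg {f : ℝ → ι → ℂ} (h : VH2 f) : VH2 (fun θ => -f θ) := fun i => (h i).neg

theorem VL2.neg {f : ℝ → ι → ℂ} (h : VL2 f) : VL2 (fun θ => -f θ) := fun i => (h i).neg

theorem VH2.mulVec (P : Matrix ι κ HbR) {g : ℝ → κ → ℂ} (h : VH2 g) :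
    VH2 (fun θ => bM P θ *ᵥ g θ) := fun i =>
  IsH2.sum Finset.univ (f := fun j θ => (P i j : ℝ → ℂ) θ * g θ j) fun j _ => (P i j).2.mulH2 (h j)

theorem VH2m.mulVec (P : Matrix ι κ HbR) {g : ℝ → ι → ℂ} (h : VH2m g) :
    VH2m (fun θ => (bM P θ)ᴴ *ᵥ g θ) := fun j =>
  IsH2m.sum Finset.univ (f := fun i θ => conj ((P i j : ℝ → ℂ) θ) * g θ i)
    fun i _ => (P i j).2.mulm (h i)

theorem IsHb.memLp_mul {v f : ℝ → ℂ} (hv : IsHb v) (hf : MemLp f 2 m) :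
    MemLp (fun θ => v θ * f θ) 2 m := by
  obtain ⟨C, hC⟩ := hv.2
  exact memLp_bdd_mul hv.1.1.1 hC hf

theorem IsHb.memLp_conj_mul {v f : ℝ → ℂ} (hv : IsHb v) (hf : MemLp f 2 m) :
    MemLp (fun θ => conj (v θ) * f θ) 2 m := by
  obtain ⟨C, hC⟩ := hv.2
  exact memLp_bdd_mul (memLp_conj hv.1.1).1 (C := C) (by simpa using hC) hf

theorem memLp_sum {f : ι → ℝ → ℂ} (h : ∀ i, MemLp (f i) 2 m) :
    MemLp (fun θ => ∑ i, f i θ) 2 m := memLp_finsetSum _ fun i _ => h i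

theorem VL2.mulVec (P : Matrix ι κ HbR) {g : ℝ → κ → ℂ} (h : VL2 g) :
    VL2 (fun θ => bM P θ *ᵥ g θ) := fun i =>
  memLp_sum (f := fun j θ => (P i j : ℝ → ℂ) θ * g θ j) fun j => (P i j).2.memLp_mul (h j)

theorem VL2.mulVecH (P : Matrix ι κ HbR) {g : ℝ → ι → ℂ} (h : VL2 g) :
    VL2 (fun θ => (bM P θ)ᴴ *ᵥ g θ) := fun j =>
  memLp_sum (f := fun i θ => conj ((P i j : ℝ → ℂ) θ) * g θ i) fun i =>
    (P i j).2.memLp_conj_mul (h i)

theorem vev_mulVec (P : Matrix ι κ HbR) {g : ℝ → κ → ℂ} (h : VH2 g) {w : ℂ} (hw : ‖w‖ < 1) :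
    vev w (fun θ => bM P θ *ᵥ g θ) = iM P hw *ᵥ vev w g := by
  funext i
  have h1 : vev w (fun θ => bM P θ *ᵥ g θ) i =
      ev w (fun θ => ∑ j, (P i j : ℝ → ℂ) θ * g θ j) := rfl
  rw [h1, ev_sum hw _ fun j _ => (P i j).2.memLp_mul (h j).1]
  simp only [Matrix.mulVec, dotProduct, iM_apply, vev]
  exact Finset.sum_congr rfl fun j _ => ev_mul (P i j).2 (h j) hw

theorem vev_add {f g : ℝ → ι → ℂ} (h : VL2 f) (h' : VL2 g) {w : ℂ} (hw : ‖w‖ < 1) :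
    vev w (fun θ => f θ + g θ) = vev w f + vev w g := by
  funext i; exact ev_add hw (h i) (h' i)

theorem vev_sub {f g : ℝ → ι → ℂ} (h : VL2 f) (h' : VL2 g) {w : ℂ} (hw : ‖w‖ < 1) :
    vev w (fun θ => f θ - g θ) = vev w f - vev w g := by
  funext i; exact ev_sub hw (h i) (h' i)

theorem vev_neg {f : ℝ → ι → ℂ} (w : ℂ) :
    vev w (fun θ => -f θ) = -vev w f := by
  funext i
  have := ev_const_mul w (-1) (fun θ => f θ i)
  simpa [vev] using this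

theorem vev_congr {f g : ℝ → ι → ℂ} (w : ℂ) (e : ∀ᵐ θ ∂m, f θ = g θ) : vev w f = vev w g := by
  funext i
  exact ev_congr (by filter_upwards [e] with θ hθ; rw [hθ])

theorem VH2.smul {v : ℝ → ℂ} (hv : IsHb v) {g : ℝ → ι → ℂ} (h : VH2 g) :
    VH2 (fun θ => v θ • g θ) := fun i => hv.mulH2 (h i)

theorem VH2m.smul {v : ℝ → ℂ} (hv : IsHb v) {g : ℝ → ι → ℂ} (h : VH2m g) :
    VH2m (fun θ => conj (v θ) • g θ) := fun i => hv.mulm (h i)

theorem VL2.smul {v : ℝ → ℂ} (hv : IsHb v) {g : ℝ → ι → ℂ} (h : VL2 g) :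
    VL2 (fun θ => v θ • g θ) := fun i => hv.memLp_mul (h i)

theorem VL2.smulc {v : ℝ → ℂ} (hv : IsHb v) {g : ℝ → ι → ℂ} (h : VL2 g) :
    VL2 (fun θ => conj (v θ) • g θ) := fun i => hv.memLp_conj_mul (h i)

theorem vev_smul {v : ℝ → ℂ} (hv : IsHb v) {g : ℝ → ι → ℂ} (h : VH2 g) {w : ℂ} (hw : ‖w‖ < 1) :
    vev w (fun θ => v θ • g θ) = ev w v • vev w g := by
  funext i
  exact ev_mul hv (h i) hw

/-- Vector valued orthogonality. -/
theorem VH2.orth {f g : ℝ → ι → ℂ} (hf : VH2 f) (hg : VH2m g) :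
    ∫ θ, star (g θ) ⬝ᵥ f θ ∂m = 0 := by
  simp only [dotProduct, Pi.star_apply]
  rw [integral_finsetSum]
  · exact Finset.sum_eq_zero fun i _ => Jpq.orth (hf i) (hg i)
  · intro i _
    exact int_conj_mul (hg i).1 (hf i).1

theorem VL2.int {f g : ℝ → ι → ℂ} (hf : VL2 f) (hg : VL2 g) :
    Integrable (fun θ => star (g θ) ⬝ᵥ f θ) m := by
  simp only [dotProduct, Pi.star_apply]
  exact integrable_finsetSum _ fun i _ => int_conj_mul (hg i) (hf i)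

theorem Outer.VH2 {a : ℝ → ℂ} (ha : Outer a) {G : ℝ → ι → ℂ} (hG : VL2 G)
    (h : VH2 (fun θ => a θ • G θ)) : VH2 G := fun i => ha.H2 (hG i) (h i)

theorem Outer.VH2m {a : ℝ → ℂ} (ha : Outer a) {G : ℝ → ι → ℂ} (hG : VL2 G)
    (h : VH2m (fun θ => conj (a θ) • G θ)) : VH2m G := fun i => ha.H2m (hG i) (h i)

/-- the squared norm -/
noncomputable def nsq (g : ℝ → ι → ℂ) : ℝ := ∫ θ, ∑ i, ‖g θ i‖ ^ 2 ∂m

theorem VL2.int_sq {g : ℝ → ι → ℂ} (hg : VL2 g) : Integrable (fun θ => ∑ i, ‖g θ i‖ ^ 2) m :=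
  integrable_finsetSum _ fun i _ => int_norm_sq (hg i)

theorem star_dot_self (x : ι → ℂ) : star x ⬝ᵥ x = ((∑ i, ‖x i‖ ^ 2 : ℝ) : ℂ) := by
  simp only [dotProduct, Pi.star_apply, Complex.ofReal_sum, Complex.ofReal_pow]
  refine Finset.sum_congr rfl fun i _ => ?_
  change conj (x i) * x i = _
  rw [mul_comm, Complex.mul_conj, Complex.normSq_eq_norm_sq]
  push_cast
  rfl

theorem nsq_eq {g : ℝ → ι → ℂ} : ((nsq g : ℝ) : ℂ) = ∫ θ, star (g θ) ⬝ᵥ g θ ∂m := by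
  rw [nsq, ← integral_complex_ofReal]
  simp only [star_dot_self]

theorem nsq_nonneg (g : ℝ → ι → ℂ) : 0 ≤ nsq g := integral_nonneg fun θ => by positivity

/-- the polarised inequality -/
theorem two_re_le {f g : ℝ → ι → ℂ} (hf : VL2 f) (hg : VL2 g) :
    2 * (∫ θ, star (g θ) ⬝ᵥ f θ ∂m).re ≤ nsq f + nsq g := by
  have h1 : (∫ θ, star (g θ) ⬝ᵥ f θ ∂m).re = ∫ θ, (star (g θ) ⬝ᵥ f θ).re ∂m := by
    have := integral_re (𝕜 := ℂ) (VL2.int hf hg)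
    simpa using this.symm
  rw [h1, nsq, nsq, ← integral_add hf.int_sq hg.int_sq, ← integral_const_mul]
  apply integral_mono ((VL2.int hf hg).re.const_mul 2) (hf.int_sq.add hg.int_sq)
  intro θ
  change 2 * (star (g θ) ⬝ᵥ f θ).re ≤ ∑ i, ‖f θ i‖ ^ 2 + ∑ i, ‖g θ i‖ ^ 2
  simp only [dotProduct, Pi.star_apply, Complex.re_sum]
  rw [Finset.mul_sum, ← Finset.sum_add_distrib]
  refine Finset.sum_le_sum fun i _ => ?_
  have h2 : (star (g θ i) * f θ i).re ≤ ‖g θ i‖ * ‖f θ i‖ := by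
    refine (Complex.re_le_norm _).trans ?_
    rw [norm_mul]
    change ‖conj (g θ i)‖ * _ ≤ _
    rw [RCLike.norm_conj]
  nlinarith [sq_nonneg (‖g θ i‖ - ‖f θ i‖)]

end Pool.Agent.H291.Jpq
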